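import Pool.Agent.Run7.h621.MP.Data

/-!
The extended derivations for forms some of whose coefficients are generic.
-/

set_option autoImplicit false

open MvPolynomial
open Pool.Agent.Run7.h621.NG (Bt cj sum_Bt sum_split Dr Dr_apply θr)
open Pool.Agent.Run7.h621.FV (cd coeff_cd)
open Pool.Agent.Run7.h621.MP (NF NF_eq cd_NF Qr cd_Dr)

namespace Pool.Agent.Run7.h621.LG

variable {k0 A σ : Type} [Field k0] {J : A → Type} [∀ a, Fintype (J a)]
  {P : ∀ a, J a → MvPolynomial σ k0} {j0 : ∀ a, J a}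

/-- The extended derivations. -/
theorem exists_data [Fintype A] [DecidableEq A] {L : Type} [Field L] [Algebra k0 L]
    {B : Set (Bt j0)} [Fintype B] [Fintype {b : Bt j0 // b ∉ B}] (δ : B → Derivation ℤ L L)
    (hδk : ∀ b (r : k0), δ b (algebraMap k0 L r) = 0) (c : Bt j0 → L)
    (hδ : ∀ b b' : B, b = b' ∧ δ b (c b') = 1 ∨ b ≠ b' ∧ δ b (c b') = 0)
    {G : A → Set (σ →₀ ℕ)} (hSt : ∀ a, ∀ I ∈ G a, ∃ j, P a j = monomial I 1)
    (hinj : ∀ a j j', P a j = P a j' → j = j')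
    (hmo : ∀ a j, ∃ I ∈ G a, P a j = monomial I 1) :
    ∃ (ρ : A → (σ →₀ ℕ) → Bt j0 → L) (ε : A → (σ →₀ ℕ) → L),
      (∀ a I q, ρ a I q = 0 ∨ ρ a I q = 1 ∨ ρ a I q = - c q) ∧
      (∀ a I, ε a I = 0 ∨ ε a I = 1) ∧
      (∀ r : {b : Bt j0 // b ∉ B}, ∃ a, ∃ I ∈ G a, ∀ r', (r' = r ∧ θr δ c (ρ a I) r' = -1) ∨
        (r' ≠ r ∧ θr δ c (ρ a I) r' = 0)) ∧
      ∀ a b, ∀ I ∈ G a, cd (Dr δ (ρ a I)) (NF P j0 c b) =
        (if a = b then monomial I 1 - ε a I • NF P j0 c b else 0) +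
          ∑ r, θr δ c (ρ a I) r • Qr P L B r b := by
  classical
  have hδ' : ∀ b b' : B, δ b (c b') = if b = b' then 1 else 0 := by
    intro b b'
    rcases hδ b b' with ⟨h1, h2⟩ | ⟨h1, h2⟩
    · rw [if_pos h1, h2]
    · rw [if_neg h1, h2]
  obtain ⟨jI, hjI⟩ : ∃ jI : ∀ a, (σ →₀ ℕ) → J a, ∀ a, ∀ I ∈ G a,
      P a (jI a I) = monomial I 1 := by
    refine ⟨fun a I => if h : ∃ j, P a j = monomial I 1 then h.choose else j0 a,
      fun a I hI => ?_⟩
    have h := hSt a I hI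
    simp only [dif_pos h]
    exact h.choose_spec
  refine ⟨fun a I q => if jI a I = j0 a then (if q.1 = a then - c q else 0) else
    if ∃ h : jI a I ≠ j0 a, q = ⟨a, jI a I, h⟩ then 1 else 0,
    fun a I => if jI a I = j0 a then 1 else 0, fun a I q => ?_, fun a I => ?_, fun r => ?_,
    fun a b I hI => ?_⟩
  · dsimp only
    split_ifs
    · exact Or.inr (Or.inr rfl)
    · exact Or.inl rfl
    · exact Or.inr (Or.inl rfl)
    · exact Or.inl rfl
  · dsimp only
    split_ifs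
    · exact Or.inr rfl
    · exact Or.inl rfl
  · obtain ⟨⟨a, j, hj⟩, hr⟩ := r
    obtain ⟨I, hI, hIj⟩ := hmo a j
    have h1 : jI a I = j := hinj a _ _ (by rw [hjI a I hI, hIj])
    have h2 : jI a I ≠ j0 a := by rw [h1]; exact hj
    have h3 : ∀ q : Bt j0, (∃ h : jI a I ≠ j0 a, q = ⟨a, jI a I, h⟩) ↔ q = ⟨a, j, hj⟩ := by
      subst h1
      exact fun q => ⟨fun ⟨_, h⟩ => h, fun h => ⟨h2, h⟩⟩
    refine ⟨a, I, hI, fun r' => ?_⟩
    have h4 : θr δ c (fun q => if jI a I = j0 a then (if q.1 = a then - c q else 0) else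
        if ∃ h : jI a I ≠ j0 a, q = ⟨a, jI a I, h⟩ then 1 else 0) r' =
        - (if r'.1 = ⟨a, j, hj⟩ then 1 else 0) := by
      rw [θr]
      simp only [if_neg h2, h3]
      have h5 : ∑ b : B, (if (b : Bt j0) = ⟨a, j, hj⟩ then (1 : L) else 0) * δ b (c r'.1) = 0 := by
        refine Finset.sum_eq_zero fun b _ => ?_
        rw [if_neg, zero_mul]
        intro h
        exact hr (h ▸ b.2)
      rw [h5, zero_sub]
    by_cases h5 : r'.1 = ⟨a, j, hj⟩
    · refine Or.inl ⟨Subtype.ext h5, ?_⟩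
      rw [h4, if_pos h5]
    · refine Or.inr ⟨fun h => h5 (by rw [h]), ?_⟩
      rw [h4, if_neg h5, neg_zero]
  rw [cd_Dr δ hδk c hδ']
  congr 1
  have hm : map (algebraMap k0 L) (P a (jI a I)) = monomial I 1 := by
    rw [hjI a I hI, map_monomial, map_one]
  by_cases hj : jI a I = j0 a
  · simp only [if_pos hj, one_smul]
    by_cases hab : a = b
    · subst hab
      rw [if_pos rfl, ← hm, hj]
      have h1 := NF_eq (P := P) c a
      have h2 : (∑ᶠ q : Bt j0, if q.1 = a then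
          (if q.1 = a then - c q else 0) • map (algebraMap k0 L) (P q.1 q.2.1) else 0) =
          - ∑ᶠ q : Bt j0, if q.1 = a then
            c q • map (algebraMap k0 L) (P q.1 q.2.1) else 0 := by
        rw [← finsum_neg_distrib]
        refine finsum_congr fun q => ?_
        split_ifs
        · rw [neg_smul]
        · rw [neg_zero]
      rw [h2, h1]
      abel
    · rw [if_neg hab]
      refine (finsum_congr fun q => ?_).trans finsum_zero
      split_ifs with h1 h2
      · exact absurd (h2.symm.trans h1) hab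
      · rw [zero_smul]
      · rfl
  · simp only [if_neg hj, zero_smul, sub_zero]
    rw [finsum_eq_single _ (⟨a, jI a I, hj⟩ : Bt j0)]
    · have h1 : (∃ (h : jI a I ≠ j0 a),
          (⟨a, jI a I, hj⟩ : Bt j0) = ⟨a, jI a I, h⟩) := Exists.intro hj rfl
      rw [if_pos h1, one_smul]
      by_cases hab : a = b
      · subst hab
        rw [if_pos rfl, if_pos rfl]
        exact hm
      · rw [if_neg hab, if_neg hab]
    · intro q hq
      rw [if_neg (c := ∃ h : jI a I ≠ j0 a, q = ⟨a, jI a I, h⟩) (by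
        rintro ⟨h, h'⟩
        exact hq h'), zero_smul, ite_self]

end Pool.Agent.Run7.h621.LG
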