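import Pool.Agent.Run7.h621.LG.Pick
import Pool.Agent.Run7.h621.MP.Core

/-!
The rows for forms some of which vanish at the point, and the other ones give logarithmic columns.
-/

set_option autoImplicit false
set_option linter.unusedSectionVars false

open MvPolynomial FF Pool.Agent.W603.LV Pool.Agent.W603.PV Pool.Agent.TH145.MG Pool.Agent.W602.GT
open Pool.Agent.Run7.h621.FV (cd coeff_cd chain)
open Pool.Agent.Run7.h621.NG (dt)
open Pool.Agent.Run7.h621.MP (Vr sM cor sM_zero sM_top mon mon_add mon_zero mon_sum mon_single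
  mon_sM mon_cor mon_step Rd R Eu cS sc sT Rd_scale Eu_scale dt_trans ph Norm exists_norm ph_nonneg
  ge_ph wt blk blk_card kE tE eE qE sum_qE Ph_u Ph_E Ph Ph_apply Ph_Eu Ph_Rd eval_monomial' IsMulti
  mcoords MTan mtan_rank mtan_block trdeg_chart eval_sc logder)

namespace Pool.Agent.Run7.h621.LG

variable {n : Unit → ℕ} {L : Type} [Field L] {A S X τ υ : Type} [DecidableEq A]

/-- The extended derivations are dual to the coefficients. -/
def Dual [Fintype S] (F : A → MvPolynomial (Vr n) L) (dg : A → Unit → ℕ)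
    (D : A → (Vr n →₀ ℕ) → Derivation ℤ L L) (θ : A → (Vr n →₀ ℕ) → S → L)
    (ε : A → (Vr n →₀ ℕ) → L) (Q : S → A → MvPolynomial (Vr n) L) : Prop :=
  ∀ a b I, Dg I (dg a) → cd (D a I) (F b) =
    (if a = b then monomial I 1 - ε a I • F b else 0) + ∑ r, θ a I r • Q r b

variable {C : Finset A} {F : A → MvPolynomial (Vr n) L} {x : Vr n → L} {dg : A → Unit → ℕ}
  {D : A → (Vr n →₀ ℕ) → Derivation ℤ L L} {θ : A → (Vr n →₀ ℕ) → S → L}
  {ε : A → (Vr n →₀ ℕ) → L} {Q : S → A → MvPolynomial (Vr n) L} {E : X → Derivation ℤ L L}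
  {c : ∀ i, Fin (n i + 1)}

theorem Ph_R [Fintype S] [Fintype A] (hD : Dual F dg D θ ε Q)
    (hC : ∀ a ∈ C, eval x (F a) = 0) (hB : ∀ a, a ∉ C → eval x (F a) ≠ 0)
    (a : A) (I : Vr n →₀ ℕ) (hI : Dg I (dg a)) (b : A) :
    Ph F (qE C F x Q) x (R D (tE C F x D θ ε) x a I) b =
      if a = b then - mon x I else 0 := by
  have h0 := hD a b I hI
  rw [MP.R, Ph_Rd, sum_qE, h0, map_add, map_sum]
  have h1 : ∑ s, tE C F x D θ ε a I (Sum.inl s) * eval x (Q s b) =
      ∑ r, eval x (θ a I r • Q r b) := Finset.sum_congr rfl fun r _ => by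
    rw [smul_eval]
    rfl
  rw [h1]
  have h2 : eval x (if a = b then monomial I 1 - ε a I • F b else 0) =
      if a = b then mon x I - ε a I * eval x (F b) else 0 := by
    split_ifs
    · rw [map_sub, smul_eval, eval_monomial', one_mul]
    · rw [map_zero]
  rw [h2]
  by_cases h : b ∈ C
  · rw [dif_pos h, hC b h, map_zero, mul_zero, sub_zero]
    split_ifs
    · ring
    · ring
  · rw [dif_neg h]
    have h3 : tE C F x D θ ε a I (Sum.inr ⟨b, h⟩) * eval x (F b) =
        D a I (eval x (F b)) + (if a = b then ε a I else 0) * eval x (F b) := by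
      change (D a I (eval x (F b)) / eval x (F b) + if a = b then ε a I else 0) * eval x (F b) = _
      rw [add_mul, div_mul_cancel₀ _ (hB b h)]
    rw [h3]
    split_ifs
    · ring
    · ring

/-- The choice of the rows. -/
theorem pickF [Fintype A] [Fintype S] [DecidableEq S] [Fintype X]
    {k0 K : Type} [Field k0] [Algebra k0 L] [CharZero L] [Field K] [Algebra K L] [IsAlgClosed K]
    [CharZero K] {w : ℕ} (hw : Algebra.trdeg K L = w)
    (hF : ∀ a, IsMulti (F a) (dg a)) (hD : Dual F dg D θ ε Q)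
    (hDk : ∀ a I (r : k0), D a I (algebraMap k0 L r) = 0)
    (hEk : ∀ ξ (r : k0), E ξ (algebraMap k0 L r) = 0) (hE : ∀ ξ b, cd (E ξ) (F b) = 0)
    (hc : ∀ i, x ⟨i, c i⟩ = 1) (hC : ∀ a ∈ C, eval x (F a) = 0)
    (hB : ∀ a, a ∉ C → eval x (F a) ≠ 0)
    (hX : LinearIndependent L (fun (ξ : X) (p : Vr n) => E ξ (x p))) {m : ℕ} {mi : Unit → ℕ}
    (htr : Algebra.trdeg k0 (mcoords k0 x) ≤ m)
    (htri : ∀ i, Algebra.trdeg k0 (coords k0 fun j => x ⟨i, j⟩) ≤ mi i)
    (hθK : ∀ a I r, ∃ z : K, θ a I r = algebraMap K L z)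
    (hθ : ∀ w : S → L, (∀ a I, Dg I (dg a) → ∑ r, θ a I r * w r = 0) → w = 0) {q0 : ℕ}
    (hq0 : q0 = 0 ∨ (Fintype.card A + 2 * q0 ≤ Fintype.card S ∧
      Fintype.card A + 4 * q0 ≤ Fintype.card S + 3)) :
    (∃ (p1 : Vr n) (lam μ : Vr n → K),
      ∀ p, x p = algebraMap K L (lam p) * x p1 + algebraMap K L (μ p)) ∨
    ∃ (τ : Type) (_ : Fintype τ) (υ : Type) (_ : Fintype υ) (t : τ → Ti A n)
      (u : υ → Vr n ⊕ (S ⊕ {b : A // b ∉ C}))
      (_ : Vr n ⊕ (S ⊕ {b : A // b ∉ C}) ≃ (Unit ⊕ (X ⊕ τ)) ⊕ (A ⊕ υ))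
      (β : Type) (_ : Fintype β) (p : β ⊕ β → τ),
      Fintype.card β = q0 ∧ Pairs t p ∧
      Spans c dg D (tE C F x D θ ε) (kE C S L dg) E (eE C F x S E) t x ∧
      LinearIndependent L (row c dg D (tE C F x D θ ε) (kE C S L dg) E (eE C F x S E) t
        (fun a => cor c (dg a)) (fun y => Pi.single (u y) 1) x) ∧
      Fintype.card X + Fintype.card τ + C.card ≤ m + Fintype.card S ∧
      ∀ h : Unit → ℤ, (∀ i, 0 ≤ h i) →
        ∑ p : Vr n, h p.1 ≤ ∑ y, wt h (u y) + ∑ i, ((mi i : ℤ) + 1) * h i := by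
  rcases pick (D := D) (θ := tE C F x D θ ε)
    (κ := kE C S L dg) (E := E) (η := eE C F x S E) (dg := dg) hc (Ph F (qE C F x Q) x)
    (Ph_u hF hC) (Ph_E hC hB hE) (Ph_R hD hC hB) hX (N := MTan k0 x) (m := m) (mi := mi)
    (mtan_rank hc (trdeg_chart hc htr)) (fun i => mtan_block hc (htri i))
    (fun i => ⟨fun i' => if i' = i then 1 else 0, 0, fun _ => rfl, fun p => by
      rw [Derivation.zero_apply, add_zero]
      change (if p.1 = i then x p else 0) = (if p.1 = i then 1 else 0) * x p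
      split_ifs
      · rw [one_mul]
      · rw [zero_mul]⟩)
    (fun a I => ⟨0, D a I, hDk a I, fun p => by rw [Pi.zero_apply, zero_mul, zero_add]⟩)
    (fun ξ => ⟨0, E ξ, hEk ξ, fun p => by rw [Pi.zero_apply, zero_mul, zero_add]⟩) q0 with
    ⟨β, i0, t, hβ, hm⟩ | ⟨τ, i1, υ, i2, t, u, e, β, i0, p, hβ, hp, h1, h2, h3, h4⟩
  · left
    refine line_of_max (K := K) hc hw (v0 := base (kE C S L dg) E (eE C F x S E) x) ?_ ?_ ?_ hm
      ?_ ?_
    · rintro (i | ξ) r
      · rfl
      · rfl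
    · intro a I r
      exact hθK a I r
    · intro w hw
      exact hθ w fun a I hI => hw a I hI
    · omega
    · omega
  right
  refine ⟨τ, i1, υ, i2, t, u, e, β, i0, p, hβ, hp, h1, h2, ?_, h4⟩
  rw [Fintype.card_sum, Fintype.card_subtype_compl, Fintype.card_coe] at h3
  have h5 : C.card ≤ Fintype.card A := Finset.card_le_univ C
  omega

/-- The numbers in the inequalities. -/
def num (C : Finset A) [Fintype A] (dg : A → Unit → ℕ) (mi : Unit → ℕ) (w m s q0 : ℕ) : ℤ :=
  (∑ a, (dg a () : ℤ)) + C.card + w + q0 - m - mi () - s - 1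

variable {k : Type} [Field k] [Algebra k L]

/-- The order of the determinant of the rows at a place. -/
theorem ordF [Fintype A] [Fintype S] [DecidableEq S] [Fintype X] [Fintype τ] [Fintype υ]
    (P : Place k L) (hF : ∀ a, IsMulti (F a) (dg a)) {t : τ → Ti A n}
    (e : Vr n ⊕ (S ⊕ {b : A // b ∉ C}) ≃ (Unit ⊕ (X ⊕ τ)) ⊕ (A ⊕ υ))
    (hc : ∀ i, x ⟨i, c i⟩ = 1) (hB : ∀ a, a ∉ C → eval x (F a) ≠ 0)
    (hsp : Spans c dg D (tE C F x D θ ε) (kE C S L dg) E (eE C F x S E) t x)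
    (u : υ → Vr n ⊕ (S ⊕ {b : A // b ∉ C})) {β : Type} [Fintype β] {p : β ⊕ β → τ}
    (hp : Pairs t p) {e' : ℤ} (he' : 0 ≤ e')
    (hD : ∀ f, Ge P 0 f → ∀ a I, Dg I (dg a) → Ge P (-e') (D a I f))
    (hθ : ∀ a I, Dg I (dg a) → ∀ s, Ge P (-e') (θ a I s))
    (hε : ∀ a I, Ge P 0 (ε a I)) (hE : ∀ f, Ge P 0 f → ∀ ξ, Ge P 0 (E ξ f))
    (hDl : ∀ lam x', Norm P x lam x' → ∀ b, b ∉ C → ∀ a I, Dg I (dg a) →
      Ge P (-e') (D a I (eval x' (F b)) / eval x' (F b)))
    (hEl : ∀ lam x', Norm P x lam x' → ∀ b, b ∉ C → ∀ ξ,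
      Ge P 0 (E ξ (eval x' (F b)) / eval x' (F b)))
    {m s : ℕ} {mi : Unit → ℕ}
    (hcard : Fintype.card X + Fintype.card τ + C.card ≤ m + Fintype.card S)
    (hS : Fintype.card S ≤ s)
    (hu : ∀ h : Unit → ℤ, (∀ i, 0 ≤ h i) →
        ∑ p : Vr n, h p.1 ≤ ∑ y, wt h (u y) + ∑ i, ((mi i : ℤ) + 1) * h i)
    (hne : dt e (row c dg D (tE C F x D θ ε) (kE C S L dg) E (eE C F x S E) t
      (fun a => cor c (dg a)) (fun y => Pi.single (u y) 1) x) ≠ 0) :
    num C dg mi (Fintype.card X) m s (Fintype.card β) * ph P x () -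
      ((Fintype.card τ : ℤ) + Fintype.card A) * e' ≤
    P.ord (dt e (row c dg D (tE C F x D θ ε) (kE C S L dg) E (eE C F x S E) t
      (fun a => cor c (dg a)) (fun y => Pi.single (u y) 1) x)) := by
  classical
  have hlog : ∀ lam x', Norm P x lam x' → ∀ b, b ∉ C → ∀ (δ : Derivation ℤ L L),
      δ (eval x (F b)) / eval x (F b) = ∑ i, (dg b i : L) * (δ (lam i) / lam i) +
        δ (eval x' (F b)) / eval x' (F b) := by
    intro lam x' hN b hb δ
    have h1 : eval x (F b) = (∏ i, lam i ^ dg b i) * eval x' (F b) := by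
      rw [hN.eq]
      exact eval_sc (hF b) lam x'
    have h2 : eval x' (F b) ≠ 0 := by
      intro h
      apply hB b hb
      rw [h1, h, mul_zero]
    rw [h1]
    exact logder δ Finset.univ lam (dg b) (fun i _ => hN.ne i) h2
  have h1 := ord_dt (D := D) (θ := tE C F x D θ ε) (κ := kE C S L dg) (E := E)
    (η := eE C F x S E) P e hc hsp u hp hD (fun lam x' hN a I hI s => by
      rcases s with s | b
      · change Ge P (-e') (θ a _ s - ∑ i, (0 : L) * _)
        rw [Finset.sum_eq_zero fun i _ => zero_mul _, sub_zero]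
        exact hθ a I hI s
      · change Ge P (-e') ((D a _ (eval x (F b.1)) / eval x (F b.1) +
          if a = b.1 then ε a _ else 0) - ∑ i, (dg b.1 i : L) * (D a _ (lam i) / lam i))
        have h2 : (D a I (eval x (F b.1)) / eval x (F b.1) +
            (if a = b.1 then ε a I else 0)) -
            ∑ i, (dg b.1 i : L) * (D a I (lam i) / lam i) =
            D a I (eval x' (F b.1)) / eval x' (F b.1) +
            (if a = b.1 then ε a I else 0) := by
          rw [hlog lam x' hN b.1 b.2]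
          ring
        rw [h2]
        refine (hDl lam x' hN b.1 b.2 a I hI).add ?_
        split_ifs
        · exact (hε _ _).mono (by omega)
        · exact Ge.zero) hE (fun lam x' hN ξ s => by
      rcases s with s | b
      · change Ge P 0 ((0 : L) - ∑ i, (0 : L) * _)
        rw [Finset.sum_eq_zero fun i _ => zero_mul _, sub_zero]
        exact Ge.zero
      · change Ge P 0 (E ξ (eval x (F b.1)) / eval x (F b.1) -
          ∑ i, (dg b.1 i : L) * (E ξ (lam i) / lam i))
        rw [hlog lam x' hN b.1 b.2, add_sub_cancel_left]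
        exact hEl lam x' hN b.1 b.2 ξ) (fun i s => by
      rcases s with s | b
      · exact Ge.zero
      · exact Ge.natCast _) hne
  have h0 : ∀ i, 0 ≤ ph P x i := ph_nonneg P hc
  have h2 := hu (ph P x) h0
  have h3 : ∑ y, ph P x (t y).2.1 = (Fintype.card τ : ℤ) * ph P x () := by
    change ∑ _y : τ, ph P x () = _
    rw [Finset.sum_const, Finset.card_univ, nsmul_eq_mul]
  have h3' : ∑ z, ph P x (t (p (Sum.inl z))).2.1 = (Fintype.card β : ℤ) * ph P x () := by
    change ∑ _y : β, ph P x () = _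
    rw [Finset.sum_const, Finset.card_univ, nsmul_eq_mul]
  have h4 : ∑ i : Unit, (∑ a, (dg a i : ℤ)) * ph P x i = (∑ a, (dg a () : ℤ)) * ph P x () := by
    rw [Fintype.sum_unique]
  have h5 : ∑ i : Unit, ((mi i : ℤ) + 1) * ph P x i = ((mi () : ℤ) + 1) * ph P x () := by
    rw [Fintype.sum_unique]
  rw [h3, h3', h4] at h1
  rw [h5] at h2
  have h6 : num C dg mi (Fintype.card X) m s (Fintype.card β) ≤
      (∑ a, (dg a () : ℤ)) - ((mi () : ℤ) + 1) - Fintype.card τ + Fintype.card β := by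
    unfold num
    zify at hcard hS
    linarith
  have h7 := mul_le_mul_of_nonneg_right h6 (h0 ())
  linarith

end Pool.Agent.Run7.h621.LG
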