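import Pool.Agent.Run7.h621.LG.Conv3

/-!
Projective varieties.
-/

set_option autoImplicit false
set_option linter.unusedSectionVars false

namespace Pool.Agent.Run7.h621.LG

open MvPolynomial FF Pool.Agent.W603.LV Pool.Agent.W603.PV Pool.Agent.W602.GT Pool.Agent.TH145.MG

variable {n : ℕ} {k K : Type} [Field k] [Field K] [IsAlgClosed K] [CharZero K] [Algebra k K]
  {m s q : ℕ} {V : Set (MvPolynomial (Fin (n + 1)) (algebraicClosure k K))}
  {A : Type} [Fintype A] {d : A → ℕ} {H : A → MvPolynomial (Fin (n + 1)) K}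

/-- The equations of the projective variety. -/
def peqs (V : Set (MvPolynomial (Fin (n + 1)) (algebraicClosure k K)))
    (H : A → MvPolynomial (Fin (n + 1)) K) : Set (MvPolynomial (Fin (n + 1)) K) :=
  {f | (∃ g ∈ V, f = map (algebraMap (algebraicClosure k K) K) g) ∨ ∃ a, f = H a}

/-- The projective variety with the equations `E` contains no line. -/
def NoLine (E : Set (MvPolynomial (Fin (n + 1)) K)) : Prop := ∀ p r : Fin (n + 1) → K, ¬ LineIn E p r

/-- All closed subvarieties of positive dimension are of general type: `L` is the function field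
and `x` the generic point of the subvariety. -/
def AllGeneral (E : Set (MvPolynomial (Fin (n + 1)) K)) : Prop :=
  ∀ (L : Type) [Field L] [Algebra K L] (w : ℕ) (x : Fin (n + 1) → L), 0 < w →
    Algebra.trdeg K L = w → x ≠ 0 → coords K x = ⊤ → (∀ f ∈ E, aeval x f = 0) →
    GeneralType K L w

/-- For all nonconstant maps of smooth projective curves, the degree times `c` is at most
`2 g - 2`. -/
def CurvesBounded (E : Set (MvPolynomial (Fin (n + 1)) K)) (c : ℤ) : Prop :=
  ∀ (L : Type) [Field L] [Algebra K L] [IsFF K L] (x : Fin (n + 1) → L),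
    (∃ j l, Transcendental K (x j / x l)) → (∀ f ∈ E, aeval x f = 0) →
    c * pht K x ≤ canDeg K L

/-- All morphisms from the multiplicative group, given by the polynomials `P i` without common zeros
outside of `0`, are constant. -/
def NoGroup (E : Set (MvPolynomial (Fin (n + 1)) K)) : Prop :=
  ∀ P : Fin (n + 1) → Polynomial K,
    (∀ t : K, t ≠ 0 → (∃ i, (P i).eval t ≠ 0) ∧ ∀ f ∈ E, eval (fun i => (P i).eval t) f = 0) →
    ∀ t t' : K, t ≠ 0 → t' ≠ 0 → ∃ a : K, ∀ i, (P i).eval t' = a * (P i).eval t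

omit [IsAlgClosed K] [CharZero K] in
theorem eqs_univ : eqs V H Finset.univ = peqs V H := by
  ext f
  simp [eqs, peqs]

omit [IsAlgClosed K] [CharZero K] [Algebra k K] in
theorem bdry_univ {L : Type} [Field L] [Algebra K L] (x : Fin (n + 1) → L) :
    bdry Finset.univ H d x = ∅ := by
  ext Q
  simp [bdry]

omit [IsAlgClosed K] [CharZero K] in
theorem onPair_univ {L : Type} [Field L] [Algebra K L] (x : Fin (n + 1) → L) :
    OnPairOf V H Finset.univ x ↔ ∀ f ∈ peqs V H, aeval x f = 0 := by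
  unfold OnPairOf
  rw [eqs_univ]
  simp

omit [IsAlgClosed K] [CharZero K] [Field k] [Algebra k K] [Fintype A] in
theorem lgt_empty {L : Type} [Field L] [Algebra K L] (w : ℕ) :
    (LogGeneralType K L w fun Q => Q ∈ (∅ : Set (Place K L))) → GeneralType K L w := by
  rintro ⟨htr, N, hN, ω, h1, -, h3, h4⟩
  exact ⟨htr, N, hN, ω, h1, fun Q hQ j => h3 Q hQ (fun h => h) j, h4⟩

omit [Field k] [Algebra k K] [Fintype A] in
theorem pht_nn {L : Type} [Field L] [Algebra K L] [IsFF K L] {x : Fin (n + 1) → L}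
    (hnc : ∃ j l, Transcendental K (x j / x l)) : 0 ≤ pht K x := by
  have hx0 : ∃ j, x j ≠ 0 := by
    obtain ⟨j, l, ht⟩ := hnc
    refine ⟨l, fun h => ht ?_⟩
    rw [h, div_zero]
    exact isAlgebraic_zero
  obtain ⟨l, hl⟩ := hx0
  have h3 : pht K (fun j => (x l)⁻¹ * x j) = pht K x :=
    pht_scale ⟨l, hl⟩ (inv_ne_zero hl)
  rw [← h3, pht, ← finsum_neg_distrib]
  apply finsum_nonneg
  intro Q
  rw [neg_nonneg]
  have h4 : (x l)⁻¹ * x l ≠ 0 := mul_ne_zero (inv_ne_zero hl) hl
  have h5 := pord_le Q (f := fun j => (x l)⁻¹ * x j) h4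
  rw [inv_mul_cancel₀ hl, Q.ord_one] at h5
  exact h5

/-- The equivalence for projective varieties. -/
theorem equivalence_proj (hVh : ∀ f ∈ V, ∃ e, f.IsHomogeneous e)
    (hV : DimLE (algebraicClosure k K) V m) (h : ConditionsLE k H d s) (hq : Small n d s q)
    (hnum : 2 * m + s + 1 ≤ ∑ a, (d a + 1) + q) {c : ℤ}
    (hc : c = (∑ a, ((d a : ℤ) + 1)) + q - 2 * m - s) :
    (NoLine (peqs V H) ↔ AllGeneral (peqs V H)) ∧
      (NoLine (peqs V H) ↔ CurvesBounded (peqs V H) c) ∧
      (NoLine (peqs V H) ↔ NoGroup (peqs V H)) ∧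
      ∀ p r : Fin (n + 1) → K, LineIn (peqs V H) p r → ∑ a, (d a + 1) + 2 ≤ s + 2 * n := by
  classical
  have hinf : Infinite K := IsAlgClosed.instInfinite
  have hsum : ∑ a, (d a + 1) = ∑ a, d a + (Finset.univ : Finset A).card := by
    rw [Finset.sum_add_distrib, Finset.sum_const, smul_eq_mul, mul_one]
  have hnum' : 2 * m + s + 1 ≤ ∑ a, d a + (Finset.univ : Finset A).card + q := by
    rw [← hsum]; exact hnum
  obtain ⟨e1, -, e3⟩ := equivalence hVh hV h hq Finset.univ hnum'
  have hfew : ∀ p r : Fin (n + 1) → K, FewPoints H (Finset.univ : Finset A) p r := fun p r =>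
    ⟨0, 0, fun b hb => absurd (Finset.mem_univ b) hb⟩
  have hNo : NoBadLine V H Finset.univ ↔ NoLine (peqs V H) := by
    constructor
    · intro hno p r hl
      rw [← eqs_univ] at hl
      obtain ⟨b, hb, -⟩ := hno p r hl (hfew p r)
      exact hb (Finset.mem_univ b)
    · intro hno p r hl
      rw [eqs_univ] at hl
      exact absurd hl (hno p r)
  have hAll : AllLogGeneral V H d Finset.univ → AllGeneral (peqs V H) := by
    intro h1 L _ _ w x hw htr hx0 htop hx
    have h2 := h1 L w x hw htr hx0 htop ((onPair_univ x).2 hx)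
    rw [bdry_univ] at h2
    exact lgt_empty w h2
  have hGm : NoGm V H Finset.univ ↔ NoGroup (peqs V H) := by
    unfold NoGm NoGroup
    rw [eqs_univ]
    refine forall_congr' fun P => ?_
    constructor
    · intro h1 h2
      exact h1 fun t ht => ⟨(h2 t ht).1, (h2 t ht).2, fun b hb => absurd (Finset.mem_univ b) hb⟩
    · intro h1 h2
      exact h1 fun t ht => ⟨(h2 t ht).1, (h2 t ht).2.1⟩
  have hcc : c = (∑ a, (d a : ℤ)) + (Finset.univ : Finset A).card + q - 2 * m - s := by
    rw [hc, Finset.sum_add_distrib, Finset.sum_const, nsmul_eq_mul, mul_one]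
  have hc1 : 1 ≤ c := by
    rw [hcc]
    zify at hnum'
    linarith
  refine ⟨⟨fun hno => hAll (e1.1 (hNo.2 hno)), fun hall p r hl => ?_⟩,
    ⟨fun hno L _ _ _ x hnc hx => ?_, fun hcur => ?_⟩, ?_, fun p r hl => ?_⟩
  · rw [← eqs_univ] at hl
    obtain ⟨x, hx0, htop, hx, hnc, u, v, huv⟩ := gen_line (fun a => (h.1 a).2) hl
      (fun b hb => absurd (Finset.mem_univ b) hb)
    have h2 := hall (RatFunc K) 1 x one_pos (by
      have := IsFF.trdeg (k := K) (K := RatFunc K)
      rw [this, Nat.cast_one]) hx0 htop ((onPair_univ x).1 hx)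
    exact not_gt (x := (RatFunc.X : RatFunc K)) RatFunc.adjoin_X 1 h2
  · have h1 := curves hVh hV h hq Finset.univ hnc ((onPair_univ x).2 hx)
    rw [bdry_univ, Set.ncard_empty, Nat.cast_zero, add_zero, ← hcc] at h1
    rcases h1.2 with ⟨p, r, hl, -⟩ | h2
    · rw [eqs_univ] at hl
      exact absurd hl (hno p r)
    · exact h2
  · rw [← hNo, e3]
    refine noGm_of_deg (d := d) fun L _ _ _ x hnc hx => ?_
    rw [bdry_univ, Set.ncard_empty, Nat.cast_zero, add_zero]
    refine ⟨Set.finite_empty, ?_⟩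
    have h1 := hcur L x hnc ((onPair_univ x).1 hx)
    have h2 := pht_nn hnc
    nlinarith
  · rw [← hNo, e3, hGm]
  · have h1 : LineIn {f | ∃ a ∈ (Finset.univ : Finset A), f = H a} p r := by
      refine ⟨hl.1, ?_⟩
      rintro f ⟨a, -, rfl⟩
      exact hl.2 _ (Or.inr ⟨a, rfl⟩)
    exact lines h Finset.univ h1

end Pool.Agent.Run7.h621.LG
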