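import Pool.Agent.Run7.h621.LG.Conv3

/-!
Special sets.
-/

set_option autoImplicit false
set_option linter.unusedSectionVars false

namespace Pool.Agent.Run7.h621.LG

open MvPolynomial FF Pool.Agent.W603.LV Pool.Agent.W603.PV Pool.Agent.W602.GT Pool.Agent.TH145.MG

variable {n : ℕ} {k K : Type} [Field k] [Field K] [IsAlgClosed K] [CharZero K] [Algebra k K]
  {m s q : ℕ} {V : Set (MvPolynomial (Fin (n + 1)) (algebraicClosure k K))}
  {A : Type} {d : A → ℕ} {H : A → MvPolynomial (Fin (n + 1)) K}

/-- The form `G` vanishes on all closed subvarieties of positive dimension of the pair that are not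
of log general type. -/
def VanAlg (V : Set (MvPolynomial (Fin (n + 1)) (algebraicClosure k K)))
    (H : A → MvPolynomial (Fin (n + 1)) K) (d : A → ℕ) (C : Finset A)
    (G : MvPolynomial (Fin (n + 1)) K) : Prop :=
  ∀ (L : Type) [Field L] [Algebra K L] (w : ℕ) (x : Fin (n + 1) → L), 0 < w →
    Algebra.trdeg K L = w → x ≠ 0 → coords K x = ⊤ → OnPairOf V H C x →
    ¬ (LogGeneralType K L w fun Q => Q ∈ bdry C H d x) → aeval x G = 0

/-- The form `G` vanishes on all bad lines. -/
def VanLines (V : Set (MvPolynomial (Fin (n + 1)) (algebraicClosure k K)))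
    (H : A → MvPolynomial (Fin (n + 1)) K) (C : Finset A) (G : MvPolynomial (Fin (n + 1)) K) :
    Prop :=
  ∀ p r : Fin (n + 1) → K, LineIn (eqs V H C) p r → FewPoints H C p r →
    (∀ b, b ∉ C → ∃ u v : K, eval (fun i => u * p i + v * r i) (H b) ≠ 0) →
    ∀ u v : K, eval (fun i => u * p i + v * r i) G = 0

/-- The form `G` vanishes on the images of all nonconstant morphisms from the multiplicative group to
the pair. -/
def VanGm (V : Set (MvPolynomial (Fin (n + 1)) (algebraicClosure k K)))
    (H : A → MvPolynomial (Fin (n + 1)) K) (C : Finset A) (G : MvPolynomial (Fin (n + 1)) K) :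
    Prop :=
  ∀ P : Fin (n + 1) → Polynomial K,
    (∀ t : K, t ≠ 0 → (∃ i, (P i).eval t ≠ 0) ∧
      (∀ f ∈ eqs V H C, eval (fun i => (P i).eval t) f = 0) ∧
      ∀ b, b ∉ C → eval (fun i => (P i).eval t) (H b) ≠ 0) →
    (∃ t t' : K, t ≠ 0 ∧ t' ≠ 0 ∧ ∀ a : K, ∃ i, (P i).eval t' ≠ a * (P i).eval t) →
    ∀ t : K, t ≠ 0 → eval (fun i => (P i).eval t) G = 0

/-- The curve of a nonconstant morphism of the multiplicative group. -/
theorem gm_curve {C : Finset A} {P : Fin (n + 1) → Polynomial K}
    (hP : ∀ t : K, t ≠ 0 → (∃ i, (P i).eval t ≠ 0) ∧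
      (∀ f ∈ eqs V H C, eval (fun i => (P i).eval t) f = 0) ∧
      ∀ b, b ∉ C → eval (fun i => (P i).eval t) (H b) ≠ 0) {t t' : K} (ht : t ≠ 0)
    (hcon : ∀ a : K, ∃ i, (P i).eval t' ≠ a * (P i).eval t) :
    ∃ x : Fin (n + 1) → RatFunc K, (∃ j l, Transcendental K (x j / x l)) ∧ OnPairOf V H C x ∧
      ¬ (pht K x ≤ canDeg K (RatFunc K) + (bdry C H d x).ncard) ∧
      ∀ f : MvPolynomial (Fin (n + 1)) K, aeval x f = 0 →
        ∀ t : K, eval (fun i => (P i).eval t) f = 0 := by
  classical
  have hinf : Infinite K := IsAlgClosed.instInfinite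
  obtain ⟨x, hx⟩ : ∃ x : Fin (n + 1) → RatFunc K, ∀ i, x i =
    algebraMap (Polynomial K) (RatFunc K) (P i) := ⟨_, fun _ => rfl⟩
  have hinj : Function.Injective (algebraMap (Polynomial K) (RatFunc K)) :=
    IsFractionRing.injective _ _
  obtain ⟨l, hl⟩ := (hP t ht).1
  have hPl : P l ≠ 0 := by
    intro h0
    rw [h0, Polynomial.eval_zero] at hl
    exact hl rfl
  have hxl : x l ≠ 0 := by
    rw [hx]
    intro h0
    exact hPl (hinj (h0.trans (map_zero _).symm))
  have hval : ∀ f : MvPolynomial (Fin (n + 1)) K, ∃ g : Polynomial K,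
      aeval x f = algebraMap (Polynomial K) (RatFunc K) g ∧
      ∀ t, g.eval t = eval (fun i => (P i).eval t) f := by
    intro f
    refine ⟨aeval P f, ?_, fun t => ?_⟩
    · have h1 : x = fun i => algebraMap (Polynomial K) (RatFunc K) (P i) := funext hx
      rw [h1]
      exact aeval_algebraMap_apply (RatFunc K) P f
    · have h1 := (Polynomial.aeval (R := K) t).comp_apply (aeval P)
      have h2 : (Polynomial.aeval t).comp (aeval P) = aeval fun i => (P i).eval t := by
        refine algHom_ext fun i => ?_
        rw [AlgHom.comp_apply, aeval_X, aeval_X]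
        rfl
      have h3 := DFunLike.congr_fun h2 f
      rw [AlgHom.comp_apply] at h3
      exact h3
  have hnc : ∃ j l, Transcendental K (x j / x l) := by
    by_contra hcon'
    push Not at hcon'
    have h1 : ∀ j, ∃ c : K, P j = Polynomial.C c * P l := by
      intro j
      have h2 := hcon' j l
      unfold Transcendental at h2
      rw [not_not] at h2
      obtain ⟨c, hc⟩ := const_of_alg h2
      refine ⟨c, hinj ?_⟩
      rw [div_eq_iff hxl, hx, hx] at hc
      rw [hc, map_mul]
      rfl
    choose c hc using h1
    apply absurd (hcon ((P l).eval t' / (P l).eval t))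
    push Not
    intro i
    rw [hc i, Polynomial.eval_mul, Polynomial.eval_mul, Polynomial.eval_C, Polynomial.eval_C]
    field_simp
  have hpair : OnPairOf V H C x := by
    refine ⟨fun f hf => ?_, fun b hb h0 => ?_⟩
    · obtain ⟨g, hg, hge⟩ := hval f
      have h1 : g = 0 := by
        apply Polynomial.eq_zero_of_infinite_isRoot
        refine (Set.infinite_univ.sdiff (Set.finite_singleton (0 : K))).mono fun t ht => ?_
        change g.eval t = 0
        rw [hge]
        exact (hP t fun h => ht.2 h).2.1 f hf
      rw [hg, h1, map_zero]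
    · obtain ⟨g, hg, hge⟩ := hval (H b)
      rw [hg] at h0
      have h1 : g = 0 := hinj (h0.trans (map_zero _).symm)
      apply (hP t ht).2.2 b hb
      rw [← hge, h1, Polynomial.eval_zero]
  refine ⟨x, hnc, hpair, fun hdeg => ?_, fun f hf t => ?_⟩
  swap
  · obtain ⟨g, hg, hge⟩ := hval f
    rw [hf] at hg
    have h1 : g = 0 := hinj (hg.symm.trans (map_zero _).symm)
    rw [← hge, h1, Polynomial.eval_zero]
  have hXX : algebraMap (Polynomial K) (RatFunc K) Polynomial.X = RatFunc.X := RatFunc.algebraMap_X
  have hbd : ∀ Q ∈ bdry C H d x, Q.ord (RatFunc.X : RatFunc K) ≠ 0 := by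
    rintro Q ⟨b, hb, hbQ⟩ hQ
    have hcc : ∀ c : K, Ge Q 0 (algebraMap K (RatFunc K) c) := by
      intro c
      by_cases h : c = 0
      · rw [h, map_zero]
        exact Or.inl rfl
      · exact Or.inr (Q.ord_const h).ge
    have hXreg : Ge Q 0 (RatFunc.X : RatFunc K) := Or.inr hQ.ge
    have hpol : ∀ g : Polynomial K, Ge Q 0 (algebraMap (Polynomial K) (RatFunc K) g) := by
      intro g
      induction g using Polynomial.induction_on' with
      | add p q hp hq => rw [map_add]; exact hp.add hq
      | monomial m a =>
        rw [← Polynomial.C_mul_X_pow_eq_monomial, map_mul, map_pow, hXX]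
        have h1 := (hcc a).mul (hXreg.pow m)
        rw [mul_zero, add_zero] at h1
        exact h1
    obtain ⟨c, hc⟩ := Pool.Agent.W603.LV.exists_const Q hXreg
    have hc0 : c ≠ 0 := by
      rintro rfl
      rw [map_zero, sub_zero] at hc
      have h1 := hc.resolve_left RatFunc.X_ne_zero
      omega
    have hord : ∀ g : Polynomial K, g.eval c ≠ 0 →
        Q.ord (algebraMap (Polynomial K) (RatFunc K) g) = 0 := by
      intro g hg
      have h1 : g = Polynomial.C (g.eval c) + (Polynomial.X - Polynomial.C c) *
          (g /ₘ (Polynomial.X - Polynomial.C c)) := by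
        have h2 := Polynomial.modByMonic_add_div g (Polynomial.X - Polynomial.C c)
        rw [Polynomial.modByMonic_X_sub_C_eq_C_eval] at h2
        exact h2.symm
      have h2 : algebraMap (Polynomial K) (RatFunc K) g = algebraMap K (RatFunc K) (g.eval c) +
          (RatFunc.X - algebraMap K (RatFunc K) c) *
            algebraMap (Polynomial K) (RatFunc K) (g /ₘ (Polynomial.X - Polynomial.C c)) := by
        conv_lhs => rw [h1]
        rw [map_add, map_mul, map_sub, hXX]
        rfl
      have h3 := hc.mul (hpol (g /ₘ (Polynomial.X - Polynomial.C c)))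
      rw [add_zero] at h3
      have h4 : algebraMap K (RatFunc K) (g.eval c) ≠ 0 := fun h => hg ((map_eq_zero _).1 h)
      have h5 : Ge Q 0 (algebraMap (Polynomial K) (RatFunc K) g) := hpol g
      have hg0 : algebraMap (Polynomial K) (RatFunc K) g ≠ 0 := by
        intro h0
        have h6 : g = 0 := hinj (h0.trans (map_zero _).symm)
        rw [h6, Polynomial.eval_zero] at hg
        exact hg rfl
      apply le_antisymm _ (h5.resolve_left hg0)
      by_contra hlt
      rw [not_le] at hlt
      have h6 : Ge Q 1 (algebraMap K (RatFunc K) (g.eval c)) := by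
        have h7 : algebraMap K (RatFunc K) (g.eval c) = algebraMap (Polynomial K) (RatFunc K) g -
            (RatFunc.X - algebraMap K (RatFunc K) c) *
            algebraMap (Polynomial K) (RatFunc K) (g /ₘ (Polynomial.X - Polynomial.C c)) := by
          rw [h2]
          ring
        rw [h7]
        exact (show Ge Q 1 _ from Or.inr (by omega)).sub h3
      have h8 := h6.resolve_left h4
      rw [Q.ord_const hg] at h8
      omega
    obtain ⟨i, hi⟩ := (hP c hc0).1
    have hp1 : pord Q x ≤ 0 := by
      have h1 : x i ≠ 0 := by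
        rw [hx]
        intro h0
        have h6 : P i = 0 := hinj (h0.trans (map_zero _).symm)
        rw [h6, Polynomial.eval_zero] at hi
        exact hi rfl
      have h2 := pord_le Q h1
      rw [hx i, hord _ hi] at h2
      exact h2
    have hp2 : 0 ≤ pord Q x := by
      obtain ⟨j, hj, hjo⟩ := exists_pord Q ⟨l, hxl⟩
      rw [← hjo]
      have h1 := hpol (P j)
      rw [← hx] at h1
      exact h1.resolve_left hj
    obtain ⟨g, hg, hge⟩ := hval (H b)
    rw [hg, hord g (by rw [hge]; exact (hP c hc0).2.2 b hb), le_antisymm hp1 hp2, mul_zero] at hbQ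
    exact lt_irrefl _ hbQ
  obtain ⟨Q1, -, hQ1⟩ := Pool.Agent.W619.PQ.pole_unique (k := K)
    (x := (RatFunc.X : RatFunc K)) RatFunc.adjoin_X
  obtain ⟨Q2, -, hQ2⟩ := Pool.Agent.W619.PQ.zero_unique (k := K)
    (x := (RatFunc.X : RatFunc K)) RatFunc.adjoin_X
  have hcard : (bdry C H d x).ncard ≤ 2 := by
    have h1 : bdry C H d x ⊆ {Q1, Q2} := by
      intro Q hQ
      have h2 := hbd Q hQ
      rw [Set.mem_insert_iff, Set.mem_singleton_iff]
      rcases lt_or_gt_of_ne h2 with h3 | h3
      · exact Or.inl (hQ1 Q h3)
      · exact Or.inr (hQ2 Q h3)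
    refine (Set.ncard_le_ncard h1 ((Set.finite_singleton Q2).insert Q1)).trans ?_
    refine (Set.ncard_insert_le _ _).trans ?_
    rw [Set.ncard_singleton]
  rw [Pool.Agent.W619.PQ.canDeg_rational (x := (RatFunc.X : RatFunc K)) RatFunc.adjoin_X] at hdeg
  have hle : pht K x ≤ 0 := by
    have h1 : ((bdry C H d x).ncard : ℤ) ≤ 2 := by exact_mod_cast hcard
    linarith
  have hsc : pht K (fun j => (x l)⁻¹ * x j) = pht K x := pht_scale ⟨l, hxl⟩ (inv_ne_zero hxl)
  rw [← hsc] at hle
  have hconst := fun j => Pool.Agent.TH145.GH.const_of_pht hle (l0 := l)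
    (by rw [inv_mul_cancel₀ hxl]) j
  choose c hc using hconst
  obtain ⟨j, j', hj⟩ := hnc
  apply hj
  have h1 : ∀ j, x j = x l * algebraMap K (RatFunc K) (c j) := fun j => by
    rw [← hc j, mul_inv_cancel_left₀ hxl]
  rw [h1 j, h1 j', mul_div_mul_left _ _ hxl, ← map_div₀]
  exact isAlgebraic_algebraMap _

/-- Forms that vanish on a line. -/
theorem van_line {p r : Fin (n + 1) → K} {G : MvPolynomial (Fin (n + 1)) K}
    (h : ∀ u v : K, eval (fun i => u * p i + v * r i) G = 0) {L : Type} [Field L] [Algebra K L]
    {x : Fin (n + 1) → L} {u v : L}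
    (hx : ∀ i, x i = u * algebraMap K L (p i) + v * algebraMap K L (r i)) : aeval x G = 0 := by
  have hinf : Infinite K := IsAlgClosed.instInfinite
  have h1 : rs p r G = 0 := by
    refine MvPolynomial.funext fun w => ?_
    have h3 : w = ![w 0, w 1] := by
      funext i
      fin_cases i <;> rfl
    rw [h3, rs_eval, map_zero]
    exact h _ _
  have h2 := aeval_rs p r G u v
  rw [h1, map_zero, show (fun i => u * algebraMap K L (p i) + v * algebraMap K L (r i)) = x from
    funext fun i => (hx i).symm] at h2
  exact h2.symm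

/-- The Zariski closures of the three special sets are equal. -/
theorem special [Fintype A] (hVh : ∀ f ∈ V, ∃ e, f.IsHomogeneous e)
    (hV : DimLE (algebraicClosure k K) V m) (h : ConditionsLE k H d s) (hq : Small n d s q)
    (C : Finset A) (hnum : 2 * m + s + 1 ≤ ∑ a, d a + C.card + q)
    {G : MvPolynomial (Fin (n + 1)) K} {e : ℕ} (hG : G.IsHomogeneous e) :
    (VanLines V H C G ↔ VanAlg V H d C G) ∧ (VanLines V H C G ↔ VanGm V H C G) := by
  classical
  have hinf : Infinite K := IsAlgClosed.instInfinite
  have hH : ∀ a, (H a).IsHomogeneous (d a) := fun a => (h.1 a).2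
  have key : ∀ (L : Type) [Field L] [Algebra K L] (x : Fin (n + 1) → L), OnPairOf V H C x →
      VanLines V H C G → OnBadLine V H C x → aeval x G = 0 := by
    rintro L _ _ x hx hvan ⟨p, r, hl, hfew, u, v, huv⟩
    exact van_line (hvan p r hl hfew fun b hb => ne_of_point (C := C) huv (hx.2 b hb)) huv
  refine ⟨⟨fun hvan L _ _ w x hw htr hx0 htop hx hno => ?_, fun hvan p r hl hfew hne0 => ?_⟩,
    ⟨fun hvan P hP hnc t ht => ?_, fun hvan p r hl hfew hne0 => ?_⟩⟩
  · have hxL : Algebra.IsAlgebraic (coords K x) L := by
      rw [htop]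
      exact ⟨fun z => isAlgebraic_algebraMap (⟨z, trivial⟩ : (⊤ : IntermediateField K L))⟩
    exact key L x hx hvan
      ((main_sub hVh hV h hq C hw htr hx0 hxL hx (by omega)).resolve_right hno)
  · obtain ⟨x, hx0, htop, hx, hnc, u, v, huv⟩ := gen_line hH hl hne0
    have h1 := hvan (RatFunc K) 1 x one_pos (by
      have := IsFF.trdeg (k := K) (K := RatFunc K)
      rw [this, Nat.cast_one]) hx0 htop hx
      (bad_not_gt hH ⟨p, r, hl, hfew, u, v, huv⟩ hnc hx.2 htop 1)
    obtain ⟨j, l, ht⟩ := hnc
    have h2 := rs_zero hG huv ht h1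
    intro u' v'
    have h3 := rs_eval p r G u' v'
    rw [h2, map_zero] at h3
    exact h3.symm
  · obtain ⟨t0, t1, ht0, -, hcon⟩ := hnc
    obtain ⟨x, hnc, hx, hdeg, hval⟩ := gm_curve (d := d) hP ht0 hcon
    have h1 := (main_curves hVh hV h hq C hnc hx hnum).2.resolve_right hdeg
    exact hval G (key _ x hx hvan h1) t
  · obtain ⟨y, z, hyz, hba, hab, hfac⟩ := adapt hH hl.1 hfew hne0
    have hli := LinearIndependent.pair_iff.1 hyz
    obtain ⟨P, hP⟩ : ∃ P : Fin (n + 1) → Polynomial K, ∀ i, P i =
      Polynomial.C (y i) + Polynomial.X * Polynomial.C (z i) := ⟨_, fun _ => rfl⟩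
    have hPe : ∀ t i, (P i).eval t = y i + t * z i := fun t i => by
      rw [hP, Polynomial.eval_add, Polynomial.eval_mul, Polynomial.eval_C, Polynomial.eval_C,
        Polynomial.eval_X]
    obtain ⟨t1, ht1⟩ := Infinite.exists_notMem_finset ({0, 1} : Finset K)
    have ht10 : t1 ≠ 0 := fun h => ht1 (by simp [h])
    have ht11 : t1 ≠ 1 := fun h => ht1 (by simp [h])
    have h1 := hvan P (fun t ht => by
      refine ⟨?_, ?_, ?_⟩
      · by_contra hcon
        push Not at hcon
        have h1 := hli 1 t (by
          funext i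
          have := hcon i
          rw [hPe] at this
          simpa using this)
        exact one_ne_zero h1.1
      · intro f hf
        simp only [hPe]
        obtain ⟨a, b, hab⟩ := hba 1 t
        rw [show (fun i => y i + t * z i) = fun i => a * p i + b * r i from funext fun i => by
          rw [← hab, one_mul]]
        exact hl.2 f hf a b
      · intro b hb
        simp only [hPe]
        obtain ⟨c, i, j, hc, -, hf⟩ := hfac b hb
        have h1 := hf K 1 t
        simp only [Algebra.algebraMap_self, RingHom.id_apply, one_mul, one_pow] at h1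
        rw [aeval_eq_eval] at h1
        change eval (fun i => y i + t * z i) (H b) = _ at h1
        rw [h1]
        exact mul_ne_zero hc (pow_ne_zero _ ht)) ⟨1, t1, one_ne_zero, ht10, fun a => by
      by_contra hcon
      push Not at hcon
      simp only [hPe] at hcon
      have h1 := hli (1 - a) (t1 - a) (by
        funext i
        have := hcon i
        simp only [Pi.add_apply, Pi.smul_apply, smul_eq_mul, Pi.zero_apply]
        linear_combination this)
      have h2 : a = 1 := (sub_eq_zero.1 h1.1).symm
      rw [h2] at h1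
      exact ht11 (sub_eq_zero.1 h1.2)⟩
    simp only [hPe] at h1
    have h2 : ∀ u v : K, eval (fun i => u * y i + v * z i) G = 0 := by
      have h3 : rs y z G = 0 := by
        have h4 : aeval ![(1 : RatFunc K), RatFunc.X] (rs y z G) = 0 := by
          obtain ⟨g, hg⟩ : ∃ g : Polynomial K, g = aeval ![1, Polynomial.X] (rs y z G) := ⟨_, rfl⟩
          have h5 : g = 0 := by
            apply Polynomial.eq_zero_of_infinite_isRoot
            refine (Set.infinite_univ.sdiff (Set.finite_singleton (0 : K))).mono fun t ht => ?_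
            change g.eval t = 0
            have h6 : (Polynomial.aeval (R := K) t).comp (aeval ![1, Polynomial.X]) =
                (aeval ![1, t] : MvPolynomial (Fin 2) K →ₐ[K] K) := by
              refine algHom_ext fun i => ?_
              rw [AlgHom.comp_apply, aeval_X, aeval_X]
              fin_cases i
              · simp
              · simp
            have h7 := DFunLike.congr_fun h6 (rs y z G)
            rw [AlgHom.comp_apply, ← hg, aeval_eq_eval] at h7
            have h8 : Polynomial.aeval t g = g.eval t := Polynomial.coe_aeval_eq_eval t ▸ rfl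
            rw [← h8, h7]
            change eval ![1, t] (rs y z G) = 0
            rw [rs_eval]
            simp only [one_mul]
            exact h1 t fun h => ht.2 h
          have h9 : (IsScalarTower.toAlgHom K (Polynomial K) (RatFunc K)).comp
              (aeval ![1, Polynomial.X]) =
              (aeval ![(1 : RatFunc K), RatFunc.X] : MvPolynomial (Fin 2) K →ₐ[K] RatFunc K) := by
            refine algHom_ext fun i => ?_
            rw [AlgHom.comp_apply, aeval_X, aeval_X]
            fin_cases i
            · simp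
            · simp
          rw [← h9, AlgHom.comp_apply, ← hg, h5, map_zero]
        refine binary_zero (rs_homogeneous y z hG) RatFunc.X_ne_zero ?_ h4
        rw [one_div]
        intro hc
        have h5 := hc.inv
        rw [inv_inv] at h5
        exact RatFunc.transcendental_X h5
      intro u v
      have h4 := rs_eval y z G u v
      rw [h3, map_zero] at h4
      exact h4.symm
    intro u v
    obtain ⟨u', v', huv⟩ := hab u v
    rw [show (fun i => u * p i + v * r i) = fun i => u' * y i + v' * z i from funext huv]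
    exact h2 u' v'

end Pool.Agent.Run7.h621.LG
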