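import Pool.Agent.Run7.h621.LG.Conv2
import Pool.Agent.W603.CX.Basic
import Pool.Agent.W619.PQ.Rat
import Pool.Agent.TH145.GH.Limit

/-!
The equivalence of several properties.
-/

set_option autoImplicit false
set_option linter.unusedSectionVars false

namespace Pool.Agent.Run7.h621.LG

open MvPolynomial FF Pool.Agent.W603.LV Pool.Agent.W603.PV Pool.Agent.W602.GT Pool.Agent.TH145.MG

variable {n : ℕ} {k K : Type} [Field k] [Field K] [IsAlgClosed K] [CharZero K] [Algebra k K]
  {m s q : ℕ} {V : Set (MvPolynomial (Fin (n + 1)) (algebraicClosure k K))}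
  {A : Type} {d : A → ℕ} {H : A → MvPolynomial (Fin (n + 1)) K}

/-- There are no bad lines: each line in the zero set of the equations is contained in the boundary
or meets it in more than two points. -/
def NoBadLine (V : Set (MvPolynomial (Fin (n + 1)) (algebraicClosure k K)))
    (H : A → MvPolynomial (Fin (n + 1)) K) (C : Finset A) : Prop :=
  ∀ p r : Fin (n + 1) → K, LineIn (eqs V H C) p r → FewPoints H C p r →
    ∃ b, b ∉ C ∧ ∀ u v : K, eval (fun i => u * p i + v * r i) (H b) = 0

/-- All closed subvarieties of positive dimension are of log general type: `L` is the function field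
and `x` the generic point of the subvariety. -/
def AllLogGeneral (V : Set (MvPolynomial (Fin (n + 1)) (algebraicClosure k K)))
    (H : A → MvPolynomial (Fin (n + 1)) K) (d : A → ℕ) (C : Finset A) : Prop :=
  ∀ (L : Type) [Field L] [Algebra K L] (w : ℕ) (x : Fin (n + 1) → L), 0 < w →
    Algebra.trdeg K L = w → x ≠ 0 → coords K x = ⊤ → OnPairOf V H C x →
    LogGeneralType K L w fun Q => Q ∈ bdry C H d x

/-- The degrees of all nonconstant maps of curves are bounded by `2 g - 2` plus the number of the
points that are mapped to the boundary. -/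
def DegreesBounded (V : Set (MvPolynomial (Fin (n + 1)) (algebraicClosure k K)))
    (H : A → MvPolynomial (Fin (n + 1)) K) (d : A → ℕ) (C : Finset A) : Prop :=
  ∀ (L : Type) [Field L] [Algebra K L] [IsFF K L] (x : Fin (n + 1) → L),
    (∃ j l, Transcendental K (x j / x l)) → OnPairOf V H C x →
    (bdry C H d x).Finite ∧ pht K x ≤ canDeg K L + (bdry C H d x).ncard

/-- All morphisms from the multiplicative group to the pair, given by the polynomials `P i` without
common zeros outside of `0`, are constant. -/
def NoGm (V : Set (MvPolynomial (Fin (n + 1)) (algebraicClosure k K)))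
    (H : A → MvPolynomial (Fin (n + 1)) K) (C : Finset A) : Prop :=
  ∀ P : Fin (n + 1) → Polynomial K,
    (∀ t : K, t ≠ 0 → (∃ i, (P i).eval t ≠ 0) ∧
      (∀ f ∈ eqs V H C, eval (fun i => (P i).eval t) f = 0) ∧
      ∀ b, b ∉ C → eval (fun i => (P i).eval t) (H b) ≠ 0) →
    ∀ t t' : K, t ≠ 0 → t' ≠ 0 → ∃ a : K, ∀ i, (P i).eval t' = a * (P i).eval t

omit [CharZero K] in
/-- The generic point of a line. -/
theorem gen_line (hH : ∀ a, (H a).IsHomogeneous (d a)) {C : Finset A} {p r : Fin (n + 1) → K}
    (hl : LineIn (eqs V H C) p r)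
    (hne0 : ∀ b, b ∉ C → ∃ u v : K, eval (fun i => u * p i + v * r i) (H b) ≠ 0) :
    ∃ x : Fin (n + 1) → RatFunc K, x ≠ 0 ∧ coords K x = ⊤ ∧ OnPairOf V H C x ∧
      (∃ j l, Transcendental K (x j / x l)) ∧
      ∃ u v, ∀ i, x i = u * algebraMap K (RatFunc K) (p i) + v * algebraMap K (RatFunc K) (r i) := by
  classical
  have hinf : Infinite K := IsAlgClosed.instInfinite
  obtain ⟨i0, i1, p', r', hne, hp0, hp1, hr0, hr1, hmem, hpr⟩ := exists_nb hl.1
  obtain ⟨x, hx⟩ : ∃ x : Fin (n + 1) → RatFunc K, ∀ i, x i =
    RatFunc.X * algebraMap K (RatFunc K) (p' i) + 1 * algebraMap K (RatFunc K) (r' i) :=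
    ⟨_, fun _ => rfl⟩
  have hx0 : x i0 = RatFunc.X := by
    rw [hx, hp0, hr0, map_one, map_zero, mul_one, mul_zero, add_zero]
  have hx1 : x i1 = 1 := by
    rw [hx, hp1, hr1, map_one, map_zero, mul_one, mul_zero, zero_add]
  have hX : Transcendental K (RatFunc.X : RatFunc K) := RatFunc.transcendental_X
  have htr : Transcendental K (x i0 / x i1) := by rwa [hx0, hx1, div_one]
  refine ⟨x, fun h => ?_, ?_, ⟨fun f hf => ?_, fun b hb h => ?_⟩, ⟨i0, i1, htr⟩, ?_⟩
  · have := congrFun h i1
    rw [hx1] at this
    exact one_ne_zero this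
  · rw [eq_top_iff, ← RatFunc.adjoin_X, IntermediateField.adjoin_le_iff]
    rintro _ rfl
    refine IntermediateField.subset_adjoin _ _ ⟨i0, i1, by rw [hx1]; exact one_ne_zero, ?_⟩
    rw [hx0, hx1, div_one]
  · have h1 : rs p' r' f = 0 := by
      refine MvPolynomial.funext fun w => ?_
      have h3 : w = ![w 0, w 1] := by
        funext i
        fin_cases i <;> rfl
      obtain ⟨a, b, hab⟩ := hmem (w 0) (w 1)
      rw [h3, rs_eval, map_zero, show (fun i => w 0 * p' i + w 1 * r' i) = fun i =>
        a * p i + b * r i from funext hab]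
      exact hl.2 f hf a b
    have h2 := aeval_rs p' r' f (RatFunc.X : RatFunc K) 1
    rw [h1, map_zero, show (fun i => RatFunc.X * algebraMap K (RatFunc K) (p' i) +
      1 * algebraMap K (RatFunc K) (r' i)) = x from funext fun i => (hx i).symm] at h2
    exact h2.symm
  · obtain ⟨u, v, huv⟩ := hne0 b hb
    have h2 := aeval_rs p' r' (H b) (RatFunc.X : RatFunc K) 1
    rw [show (fun i => RatFunc.X * algebraMap K (RatFunc K) (p' i) +
      1 * algebraMap K (RatFunc K) (r' i)) = x from funext fun i => (hx i).symm, h] at h2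
    have h3 := binary_zero (rs_homogeneous p' r' (hH b)) one_ne_zero
      (by rw [div_one]; exact hX) h2
    apply huv
    have h4 := rs_eval p' r' (H b) (u * p i0 + v * r i0) (u * p i1 + v * r i1)
    rw [h3, map_zero] at h4
    rw [h4]
    congr 1
    exact congrArg _ (funext fun i => hpr u v i)
  · obtain ⟨a1, b1, h1⟩ := hmem 1 0
    obtain ⟨a2, b2, h2⟩ := hmem 0 1
    refine ⟨RatFunc.X * algebraMap K _ a1 + algebraMap K _ a2,
      RatFunc.X * algebraMap K _ b1 + algebraMap K _ b2, fun i => ?_⟩
    have e1 := h1 i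
    have e2 := h2 i
    simp only [one_mul, zero_mul, add_zero, zero_add] at e1 e2
    rw [hx, e1, e2]
    simp only [map_add, map_mul]
    ring

/-- If all subvarieties are of log general type, then there are no bad lines. -/
theorem noBad_of_all (hH : ∀ a, (H a).IsHomogeneous (d a)) {C : Finset A}
    (h : AllLogGeneral V H d C) : NoBadLine V H C := by
  intro p r hl hfew
  by_contra hcon
  push Not at hcon
  obtain ⟨x, hx0, htop, hx, hnc, u, v, huv⟩ := gen_line hH hl hcon
  have h1 := h (RatFunc K) 1 x one_pos (by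
    have := IsFF.trdeg (k := K) (K := RatFunc K)
    rw [this, Nat.cast_one]) hx0 htop hx
  exact bad_not_gt hH ⟨p, r, hl, hfew, u, v, huv⟩ hnc hx.2 htop 1 h1

omit [CharZero K] in
/-- If there are no multiplicative groups, then there are no bad lines. -/
theorem noBad_of_noGm (hH : ∀ a, (H a).IsHomogeneous (d a)) {C : Finset A}
    (h : NoGm V H C) : NoBadLine V H C := by
  classical
  intro p r hl hfew
  by_contra hcon
  push Not at hcon
  have hinf : Infinite K := IsAlgClosed.instInfinite
  obtain ⟨y, z, hyz, hgm⟩ := gm_of_bad hH hl hfew hcon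
  have hli := LinearIndependent.pair_iff.1 hyz
  obtain ⟨P, hP⟩ : ∃ P : Fin (n + 1) → Polynomial K, ∀ i, P i =
    Polynomial.C (y i) + Polynomial.X * Polynomial.C (z i) := ⟨_, fun _ => rfl⟩
  have hPe : ∀ t i, (P i).eval t = y i + t * z i := fun t i => by
    rw [hP, Polynomial.eval_add, Polynomial.eval_mul, Polynomial.eval_C, Polynomial.eval_C,
      Polynomial.eval_X]
  obtain ⟨t, ht⟩ := Infinite.exists_notMem_finset ({0, 1} : Finset K)
  have ht0 : t ≠ 0 := fun h => ht (by simp [h])
  have ht1 : t ≠ 1 := fun h => ht (by simp [h])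
  obtain ⟨a, ha⟩ := h P (fun t ht => by
    refine ⟨?_, ?_, ?_⟩
    · by_contra hcon
      push Not at hcon
      have h1 := hli 1 t (by
        funext i
        have := hcon i
        rw [hPe] at this
        simpa using this)
      exact one_ne_zero h1.1
    · intro f hf
      simp only [hPe]
      exact (hgm t ht).1 f hf
    · intro b hb
      simp only [hPe]
      exact (hgm t ht).2 b hb) 1 t one_ne_zero ht0
  simp only [hPe] at ha
  have h1 := hli (1 - a) (t - a) (by
    funext i
    have := ha i
    simp only [Pi.add_apply, Pi.smul_apply, smul_eq_mul, Pi.zero_apply]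
    linear_combination this)
  have h2 : a = 1 := (sub_eq_zero.1 h1.1).symm
  rw [h2] at h1
  exact ht1 (sub_eq_zero.1 h1.2)

/-- Algebraic elements are constant. -/
theorem const_of_alg {K L : Type} [Field K] [IsAlgClosed K] [Field L] [Algebra K L] {z : L}
    (hz : IsAlgebraic K z) : ∃ c : K, z = algebraMap K L c := by
  have h2 := IsAlgClosed.degree_eq_one_of_irreducible K (minpoly.irreducible hz.isIntegral)
  obtain ⟨c, hc⟩ := minpoly.mem_range_of_degree_eq_one K z h2
  exact ⟨c, hc.symm⟩

/-- The bounds for the degrees exclude multiplicative groups. -/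
theorem noGm_of_deg {C : Finset A} (h : DegreesBounded V H d C) : NoGm V H C := by
  classical
  have hinf : Infinite K := IsAlgClosed.instInfinite
  intro P hP
  by_contra hcon
  push Not at hcon
  obtain ⟨t, t', ht, ht', hcon⟩ := hcon
  obtain ⟨x, hx⟩ : ∃ x : Fin (n + 1) → RatFunc K, ∀ i, x i =
    algebraMap (Polynomial K) (RatFunc K) (P i) := ⟨_, fun _ => rfl⟩
  have hinj : Function.Injective (algebraMap (Polynomial K) (RatFunc K)) :=
    IsFractionRing.injective _ _
  obtain ⟨l, hl⟩ := (hP t ht).1
  have hPl : P l ≠ 0 := by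
    intro h0
    rw [h0, Polynomial.eval_zero] at hl
    exact hl rfl
  have hxl : x l ≠ 0 := by
    rw [hx]
    intro h0
    exact hPl (hinj (h0.trans (map_zero _).symm))
  have hval : ∀ f : MvPolynomial (Fin (n + 1)) K, ∃ g : Polynomial K,
      aeval x f = algebraMap (Polynomial K) (RatFunc K) g ∧
      ∀ t, g.eval t = eval (fun i => (P i).eval t) f := by
    intro f
    refine ⟨aeval P f, ?_, fun t => ?_⟩
    · have h1 : x = fun i => algebraMap (Polynomial K) (RatFunc K) (P i) := funext hx
      rw [h1]
      exact aeval_algebraMap_apply (RatFunc K) P f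
    · have h1 := (Polynomial.aeval (R := K) t).comp_apply (aeval P)
      have h2 : (Polynomial.aeval t).comp (aeval P) = aeval fun i => (P i).eval t := by
        refine algHom_ext fun i => ?_
        rw [AlgHom.comp_apply, aeval_X, aeval_X]
        rfl
      have h3 := DFunLike.congr_fun h2 f
      rw [AlgHom.comp_apply] at h3
      exact h3
  have hnc : ∃ j l, Transcendental K (x j / x l) := by
    by_contra hcon'
    push Not at hcon'
    have h1 : ∀ j, ∃ c : K, P j = Polynomial.C c * P l := by
      intro j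
      have h2 := hcon' j l
      unfold Transcendental at h2
      rw [not_not] at h2
      obtain ⟨c, hc⟩ := const_of_alg h2
      refine ⟨c, hinj ?_⟩
      rw [div_eq_iff hxl, hx, hx] at hc
      rw [hc, map_mul]
      rfl
    choose c hc using h1
    apply absurd (hcon ((P l).eval t' / (P l).eval t))
    push Not
    intro i
    rw [hc i, Polynomial.eval_mul, Polynomial.eval_mul, Polynomial.eval_C, Polynomial.eval_C]
    field_simp
  have hpair : OnPairOf V H C x := by
    refine ⟨fun f hf => ?_, fun b hb h0 => ?_⟩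
    · obtain ⟨g, hg, hge⟩ := hval f
      have h1 : g = 0 := by
        apply Polynomial.eq_zero_of_infinite_isRoot
        refine (Set.infinite_univ.sdiff (Set.finite_singleton (0 : K))).mono fun t ht => ?_
        change g.eval t = 0
        rw [hge]
        exact (hP t fun h => ht.2 h).2.1 f hf
      rw [hg, h1, map_zero]
    · obtain ⟨g, hg, hge⟩ := hval (H b)
      rw [hg] at h0
      have h1 : g = 0 := hinj (h0.trans (map_zero _).symm)
      apply (hP t ht).2.2 b hb
      rw [← hge, h1, Polynomial.eval_zero]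
  obtain ⟨hfin, hdeg⟩ := h (RatFunc K) x hnc hpair
  have hXX : algebraMap (Polynomial K) (RatFunc K) Polynomial.X = RatFunc.X := RatFunc.algebraMap_X
  have hbd : ∀ Q ∈ bdry C H d x, Q.ord (RatFunc.X : RatFunc K) ≠ 0 := by
    rintro Q ⟨b, hb, hbQ⟩ hQ
    have hcc : ∀ c : K, Ge Q 0 (algebraMap K (RatFunc K) c) := by
      intro c
      by_cases h : c = 0
      · rw [h, map_zero]
        exact Or.inl rfl
      · exact Or.inr (Q.ord_const h).ge
    have hXreg : Ge Q 0 (RatFunc.X : RatFunc K) := Or.inr hQ.ge
    have hpol : ∀ g : Polynomial K, Ge Q 0 (algebraMap (Polynomial K) (RatFunc K) g) := by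
      intro g
      induction g using Polynomial.induction_on' with
      | add p q hp hq => rw [map_add]; exact hp.add hq
      | monomial m a =>
        rw [← Polynomial.C_mul_X_pow_eq_monomial, map_mul, map_pow, hXX]
        have h1 := (hcc a).mul (hXreg.pow m)
        rw [mul_zero, add_zero] at h1
        exact h1
    obtain ⟨c, hc⟩ := Pool.Agent.W603.LV.exists_const Q hXreg
    have hc0 : c ≠ 0 := by
      rintro rfl
      rw [map_zero, sub_zero] at hc
      have h1 := hc.resolve_left RatFunc.X_ne_zero
      omega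
    have hord : ∀ g : Polynomial K, g.eval c ≠ 0 →
        Q.ord (algebraMap (Polynomial K) (RatFunc K) g) = 0 := by
      intro g hg
      have h1 : g = Polynomial.C (g.eval c) + (Polynomial.X - Polynomial.C c) *
          (g /ₘ (Polynomial.X - Polynomial.C c)) := by
        have h2 := Polynomial.modByMonic_add_div g (Polynomial.X - Polynomial.C c)
        rw [Polynomial.modByMonic_X_sub_C_eq_C_eval] at h2
        exact h2.symm
      have h2 : algebraMap (Polynomial K) (RatFunc K) g = algebraMap K (RatFunc K) (g.eval c) +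
          (RatFunc.X - algebraMap K (RatFunc K) c) *
            algebraMap (Polynomial K) (RatFunc K) (g /ₘ (Polynomial.X - Polynomial.C c)) := by
        conv_lhs => rw [h1]
        rw [map_add, map_mul, map_sub, hXX]
        rfl
      have h3 := hc.mul (hpol (g /ₘ (Polynomial.X - Polynomial.C c)))
      rw [add_zero] at h3
      have h4 : algebraMap K (RatFunc K) (g.eval c) ≠ 0 := fun h => hg ((map_eq_zero _).1 h)
      have h5 : Ge Q 0 (algebraMap (Polynomial K) (RatFunc K) g) := hpol g
      have hg0 : algebraMap (Polynomial K) (RatFunc K) g ≠ 0 := by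
        intro h0
        have h6 : g = 0 := hinj (h0.trans (map_zero _).symm)
        rw [h6, Polynomial.eval_zero] at hg
        exact hg rfl
      apply le_antisymm _ (h5.resolve_left hg0)
      by_contra hlt
      rw [not_le] at hlt
      have h6 : Ge Q 1 (algebraMap K (RatFunc K) (g.eval c)) := by
        have h7 : algebraMap K (RatFunc K) (g.eval c) = algebraMap (Polynomial K) (RatFunc K) g -
            (RatFunc.X - algebraMap K (RatFunc K) c) *
            algebraMap (Polynomial K) (RatFunc K) (g /ₘ (Polynomial.X - Polynomial.C c)) := by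
          rw [h2]
          ring
        rw [h7]
        exact (show Ge Q 1 _ from Or.inr (by omega)).sub h3
      have h8 := h6.resolve_left h4
      rw [Q.ord_const hg] at h8
      omega
    obtain ⟨i, hi⟩ := (hP c hc0).1
    have hp1 : pord Q x ≤ 0 := by
      have h1 : x i ≠ 0 := by
        rw [hx]
        intro h0
        have h6 : P i = 0 := hinj (h0.trans (map_zero _).symm)
        rw [h6, Polynomial.eval_zero] at hi
        exact hi rfl
      have h2 := pord_le Q h1
      rw [hx i, hord _ hi] at h2
      exact h2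
    have hp2 : 0 ≤ pord Q x := by
      obtain ⟨j, hj, hjo⟩ := exists_pord Q ⟨l, hxl⟩
      rw [← hjo]
      have h1 := hpol (P j)
      rw [← hx] at h1
      exact h1.resolve_left hj
    obtain ⟨g, hg, hge⟩ := hval (H b)
    rw [hg, hord g (by rw [hge]; exact (hP c hc0).2.2 b hb), le_antisymm hp1 hp2, mul_zero] at hbQ
    exact lt_irrefl _ hbQ
  obtain ⟨Q1, -, hQ1⟩ := Pool.Agent.W619.PQ.pole_unique (k := K)
    (x := (RatFunc.X : RatFunc K)) RatFunc.adjoin_X
  obtain ⟨Q2, -, hQ2⟩ := Pool.Agent.W619.PQ.zero_unique (k := K)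
    (x := (RatFunc.X : RatFunc K)) RatFunc.adjoin_X
  have hcard : (bdry C H d x).ncard ≤ 2 := by
    have h1 : bdry C H d x ⊆ {Q1, Q2} := by
      intro Q hQ
      have h2 := hbd Q hQ
      rw [Set.mem_insert_iff, Set.mem_singleton_iff]
      rcases lt_or_gt_of_ne h2 with h3 | h3
      · exact Or.inl (hQ1 Q h3)
      · exact Or.inr (hQ2 Q h3)
    refine (Set.ncard_le_ncard h1 ((Set.finite_singleton Q2).insert Q1)).trans ?_
    refine (Set.ncard_insert_le _ _).trans ?_
    rw [Set.ncard_singleton]
  rw [Pool.Agent.W619.PQ.canDeg_rational (x := (RatFunc.X : RatFunc K)) RatFunc.adjoin_X] at hdeg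
  have hle : pht K x ≤ 0 := by
    have h1 : ((bdry C H d x).ncard : ℤ) ≤ 2 := by exact_mod_cast hcard
    linarith
  have hsc : pht K (fun j => (x l)⁻¹ * x j) = pht K x := pht_scale ⟨l, hxl⟩ (inv_ne_zero hxl)
  rw [← hsc] at hle
  have hconst := fun j => Pool.Agent.TH145.GH.const_of_pht hle (l0 := l)
    (by rw [inv_mul_cancel₀ hxl]) j
  choose c hc using hconst
  obtain ⟨j, j', hj⟩ := hnc
  apply hj
  have h1 : ∀ j, x j = x l * algebraMap K (RatFunc K) (c j) := fun j => by
    rw [← hc j, mul_inv_cancel_left₀ hxl]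
  rw [h1 j, h1 j', mul_div_mul_left _ _ hxl, ← map_div₀]
  exact isAlgebraic_algebraMap _

/-- The equivalence. -/
theorem equivalence [Fintype A] (hVh : ∀ f ∈ V, ∃ e, f.IsHomogeneous e)
    (hV : DimLE (algebraicClosure k K) V m) (h : ConditionsLE k H d s) (hq : Small n d s q)
    (C : Finset A) (hnum : 2 * m + s + 1 ≤ ∑ a, d a + C.card + q) :
    (NoBadLine V H C ↔ AllLogGeneral V H d C) ∧ (NoBadLine V H C ↔ DegreesBounded V H d C) ∧
      (NoBadLine V H C ↔ NoGm V H C) := by
  have hH : ∀ a, (H a).IsHomogeneous (d a) := fun a => (h.1 a).2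
  have hbad : ∀ (L : Type) [Field L] [Algebra K L] (x : Fin (n + 1) → L), NoBadLine V H C →
      OnPairOf V H C x → ¬ OnBadLine V H C x := by
    rintro L _ _ x hno hx ⟨p, r, hl, hfew, u, v, huv⟩
    obtain ⟨b, hb, hb0⟩ := hno p r hl hfew
    obtain ⟨u', v', h1⟩ := ne_of_point (C := C) huv (hx.2 b hb)
    exact h1 (hb0 u' v')
  have h1 : NoBadLine V H C → AllLogGeneral V H d C := by
    intro hno L _ _ w x hw htr hx0 htop hx
    have hxL : Algebra.IsAlgebraic (coords K x) L := by
      rw [htop]
      exact ⟨fun z => isAlgebraic_algebraMap (⟨z, trivial⟩ : (⊤ : IntermediateField K L))⟩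
    exact (main_sub hVh hV h hq C hw htr hx0 hxL hx (by omega)).resolve_left (hbad L x hno hx)
  have h2 : NoBadLine V H C → DegreesBounded V H d C := by
    intro hno L _ _ _ x hnc hx
    obtain ⟨h3, h4⟩ := main_curves hVh hV h hq C hnc hx hnum
    exact ⟨h3, h4.resolve_left (hbad L x hno hx)⟩
  exact ⟨⟨h1, noBad_of_all hH⟩, ⟨h2, fun h => noBad_of_noGm hH (noGm_of_deg h)⟩,
    ⟨fun h => noGm_of_deg (h2 h), noBad_of_noGm hH⟩⟩

end Pool.Agent.Run7.h621.LG
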