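import Pool.Agent.Run7.h621.LG.Count

/-!
Binary forms with at most two zeros.
-/

set_option autoImplicit false
set_option linter.unusedSectionVars false

open MvPolynomial

namespace Pool.Agent.Run7.h621.LG

variable {K : Type} [Field K]

/-- The linear form that vanishes at a point. -/
noncomputable def lam (w : Fin 2 → K) : MvPolynomial (Fin 2) K :=
  open Classical in if w 1 = 0 then X 1 else X 0 - C (w 0 / w 1) * X 1

/-- The parallel vectors. -/
def Par (w w' : Fin 2 → K) : Prop := w 0 * w' 1 = w 1 * w' 0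

theorem lam_hom (w : Fin 2 → K) : (lam w).IsHomogeneous 1 := by
  classical
  rw [lam]
  split_ifs with h
  · exact isHomogeneous_X K 1
  · refine (isHomogeneous_X K (0 : Fin 2)).sub ?_
    have := (isHomogeneous_C (Fin 2) (w 0 / w 1)).mul (isHomogeneous_X K (1 : Fin 2))
    rwa [zero_add] at this

theorem lam_par {w w' : Fin 2 → K} (hw : w ≠ 0) (hw' : w' ≠ 0) (h : Par w w') : lam w = lam w' := by
  classical
  unfold Par at h
  rw [lam, lam]
  by_cases h1 : w 1 = 0
  · have h0 : w 0 ≠ 0 := by
      intro h0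
      apply hw
      funext i
      fin_cases i
      · exact h0
      · exact h1
    have h1' : w' 1 = 0 := by
      rw [h1, zero_mul] at h
      exact (mul_eq_zero.1 h).resolve_left h0
    rw [if_pos h1, if_pos h1']
  · have h1' : w' 1 ≠ 0 := by
      intro h1'
      rw [h1', mul_zero] at h
      have h0' := (mul_eq_zero.1 h.symm).resolve_left h1
      apply hw'
      funext i
      fin_cases i
      · exact h0'
      · exact h1'
    rw [if_neg h1, if_neg h1']
    have h2 : w 0 / w 1 = w' 0 / w' 1 := by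
      rw [div_eq_div_iff h1 h1', h]
      ring
    rw [h2]

/-- A binary form as a sum. -/
theorem bin_sum {G : MvPolynomial (Fin 2) K} {e : ℕ} (hG : G.IsHomogeneous e) :
    G = ∑ i ∈ Finset.range (e + 1),
      C (coeff (Finsupp.single 0 i + Finsupp.single 1 (e - i)) G) * (X 0 ^ i * X 1 ^ (e - i)) := by
  classical
  have hm : ∀ i, (X 0 ^ i * X 1 ^ (e - i) : MvPolynomial (Fin 2) K) =
      monomial (Finsupp.single 0 i + Finsupp.single 1 (e - i)) 1 := by
    intro i
    rw [X_pow_eq_monomial, X_pow_eq_monomial, monomial_mul, one_mul]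
  ext u
  rw [coeff_sum]
  by_cases hu : u.degree = e
  · have hu' : u 0 + u 1 = e := by
      rw [Finsupp.degree_eq_sum, Fin.sum_univ_two] at hu
      exact hu
    have hus : Finsupp.single 0 (u 0) + Finsupp.single 1 (e - u 0) = u := by
      ext i
      fin_cases i
      · simp
      · simp
        omega
    rw [Finset.sum_eq_single (u 0)]
    · rw [hm, coeff_C_mul, hus, coeff_monomial, if_pos rfl, mul_one]
    · intro i _ hi
      rw [hm, coeff_C_mul, coeff_monomial, if_neg, mul_zero]
      intro h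
      apply hi
      have := DFunLike.congr_fun h 0
      simpa using this
    · intro h
      exfalso
      apply h
      rw [Finset.mem_range]
      omega
  · rw [Finset.sum_eq_zero]
    · by_contra h
      apply hu
      rw [Finsupp.degree_eq_weight_one]
      exact hG h
    · intro i hi
      rw [Finset.mem_range] at hi
      rw [hm, coeff_C_mul, coeff_monomial, if_neg, mul_zero]
      intro h
      apply hu
      rw [← h, map_add, Finsupp.degree_single, Finsupp.degree_single]
      omega

/-- The division by the linear form. -/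
theorem bin_div {G : MvPolynomial (Fin 2) K} {e : ℕ} (hG : G.IsHomogeneous (e + 1))
    {w : Fin 2 → K} (hw : w ≠ 0) (h0 : eval w G = 0) :
    ∃ G' : MvPolynomial (Fin 2) K, G'.IsHomogeneous e ∧ G = lam w * G' := by
  classical
  obtain ⟨g, hg⟩ : ∃ g : ℕ → K, ∀ i, g i =
    coeff (Finsupp.single 0 i + Finsupp.single 1 (e + 1 - i)) G := ⟨_, fun _ => rfl⟩
  have hs : G = ∑ i ∈ Finset.range (e + 1 + 1), C (g i) * (X 0 ^ i * X 1 ^ (e + 1 - i)) := by
    simp only [hg]
    exact bin_sum hG
  rw [lam]
  by_cases h1 : w 1 = 0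
  · rw [if_pos h1]
    have hw0 : w 0 ≠ 0 := by
      intro h0
      apply hw
      funext i
      fin_cases i
      · exact h0
      · exact h1
    have h2 : g (e + 1) = 0 := by
      rw [hs, map_sum, Finset.sum_range_succ, Finset.sum_eq_zero] at h0
      · simp only [map_mul, eval_C, map_pow, eval_X, Nat.sub_self, pow_zero, mul_one,
          zero_add] at h0
        exact (mul_eq_zero.1 h0).resolve_right (pow_ne_zero _ hw0)
      · intro i hi
        rw [Finset.mem_range] at hi
        have h3 : e + 1 - i ≠ 0 := by omega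
        simp only [map_mul, eval_C, map_pow, eval_X, h1]
        rw [zero_pow h3, mul_zero, mul_zero]
    refine ⟨∑ i ∈ Finset.range (e + 1), C (g i) * (X 0 ^ i * X 1 ^ (e - i)), ?_, ?_⟩
    · refine IsHomogeneous.sum _ _ _ fun i hi => ?_
      rw [Finset.mem_range] at hi
      have h3 := (isHomogeneous_C (Fin 2) (g i)).mul
        (((isHomogeneous_X K (0 : Fin 2)).pow i).mul ((isHomogeneous_X K (1 : Fin 2)).pow (e - i)))
      have h4 : 0 + (1 * i + 1 * (e - i)) = e := by omega
      rwa [h4] at h3
    · conv_lhs => rw [hs, Finset.sum_range_succ, h2, map_zero, zero_mul, add_zero]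
      rw [Finset.mul_sum]
      refine Finset.sum_congr rfl fun i hi => ?_
      rw [Finset.mem_range] at hi
      have h3 : e + 1 - i = (e - i) + 1 := by omega
      rw [h3, pow_succ]
      ring
  · rw [if_neg h1]
    obtain ⟨c, hc⟩ : ∃ c, c = w 0 / w 1 := ⟨_, rfl⟩
    rw [← hc]
    have hw0 : w 0 = c * w 1 := by
      rw [hc, div_mul_cancel₀ _ h1]
    have h2 : ∑ i ∈ Finset.range (e + 1 + 1), g i * c ^ i = 0 := by
      rw [hs, map_sum] at h0
      have h3 : ∑ i ∈ Finset.range (e + 1 + 1),
          eval w (C (g i) * (X 0 ^ i * X 1 ^ (e + 1 - i))) =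
          w 1 ^ (e + 1) * ∑ i ∈ Finset.range (e + 1 + 1), g i * c ^ i := by
        rw [Finset.mul_sum]
        refine Finset.sum_congr rfl fun i hi => ?_
        rw [Finset.mem_range] at hi
        simp only [map_mul, eval_C, map_pow, eval_X, hw0, mul_pow]
        have h4 : w 1 ^ (e + 1) = w 1 ^ i * w 1 ^ (e + 1 - i) := by
          rw [← pow_add]
          congr 1
          omega
        rw [h4]
        ring
      rw [h3] at h0
      exact (mul_eq_zero.1 h0).resolve_left (pow_ne_zero _ h1)
    refine ⟨∑ i ∈ Finset.range (e + 1 + 1), C (g i) *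
      ((∑ j ∈ Finset.range i, X 0 ^ j * (C c * X 1) ^ (i - 1 - j)) * X 1 ^ (e + 1 - i)), ?_, ?_⟩
    · refine IsHomogeneous.sum _ _ _ fun i hi => ?_
      rw [Finset.mem_range] at hi
      by_cases hi0 : i = 0
      · rw [hi0, Finset.range_zero, Finset.sum_empty, zero_mul, mul_zero]
        exact isHomogeneous_zero _ _ _
      have h3 : (∑ j ∈ Finset.range i, X 0 ^ j * (C c * X 1) ^ (i - 1 - j) :
          MvPolynomial (Fin 2) K).IsHomogeneous (i - 1) := by
        refine IsHomogeneous.sum _ _ _ fun j hj => ?_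
        rw [Finset.mem_range] at hj
        have h4 := ((isHomogeneous_X K (0 : Fin 2)).pow j).mul
          (((isHomogeneous_C (Fin 2) c).mul (isHomogeneous_X K (1 : Fin 2))).pow (i - 1 - j))
        have h5 : 1 * j + (0 + 1) * (i - 1 - j) = i - 1 := by omega
        rwa [h5] at h4
      have h6 := (isHomogeneous_C (Fin 2) (g i)).mul
        (h3.mul ((isHomogeneous_X K (1 : Fin 2)).pow (e + 1 - i)))
      have h7 : 0 + (i - 1 + 1 * (e + 1 - i)) = e := by omega
      rwa [h7] at h6
    · rw [Finset.mul_sum]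
      have h3 : ∀ i ∈ Finset.range (e + 1 + 1), (X 0 - C c * X 1) * (C (g i) *
          ((∑ j ∈ Finset.range i, X 0 ^ j * (C c * X 1) ^ (i - 1 - j)) * X 1 ^ (e + 1 - i))) =
          C (g i) * (X 0 ^ i * X 1 ^ (e + 1 - i)) -
            C (g i * c ^ i) * (X 1 : MvPolynomial (Fin 2) K) ^ (e + 1) := by
        intro i hi
        rw [Finset.mem_range] at hi
        have h4 := Commute.mul_geom_sum₂ (Commute.all (X 0 : MvPolynomial (Fin 2) K) (C c * X 1)) i
        have h5 : (X 0 - C c * X 1) * (C (g i) *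
            ((∑ j ∈ Finset.range i, X 0 ^ j * (C c * X 1) ^ (i - 1 - j)) * X 1 ^ (e + 1 - i))) =
            C (g i) * (((X 0 - C c * X 1) *
              (∑ j ∈ Finset.range i, X 0 ^ j * (C c * X 1) ^ (i - 1 - j))) *
                (X 1 : MvPolynomial (Fin 2) K) ^ (e + 1 - i)) := by ring
        rw [h5, h4, mul_pow, sub_mul]
        have h6 : (X 1 : MvPolynomial (Fin 2) K) ^ (e + 1) = X 1 ^ i * X 1 ^ (e + 1 - i) := by
          rw [← pow_add]
          congr 1
          omega
        rw [h6, C_mul, C_pow]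
        ring
      rw [Finset.sum_congr rfl h3, Finset.sum_sub_distrib, ← Finset.sum_mul, ← map_sum, h2,
        map_zero, zero_mul, sub_zero]
      exact hs

/-- A zero of a binary form. -/
theorem bin_zero [IsAlgClosed K] {G : MvPolynomial (Fin 2) K} {e : ℕ}
    (hG : G.IsHomogeneous (e + 1)) : ∃ w : Fin 2 → K, w ≠ 0 ∧ eval w G = 0 := by
  classical
  obtain ⟨g, hg⟩ : ∃ g : ℕ → K, ∀ i, g i =
    coeff (Finsupp.single 0 i + Finsupp.single 1 (e + 1 - i)) G := ⟨_, fun _ => rfl⟩
  have hs : G = ∑ i ∈ Finset.range (e + 1 + 1), C (g i) * (X 0 ^ i * X 1 ^ (e + 1 - i)) := by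
    simp only [hg]
    exact bin_sum hG
  by_cases h1 : g (e + 1) = 0
  · refine ⟨![1, 0], fun h => one_ne_zero (congrFun h 0), ?_⟩
    rw [hs, map_sum, Finset.sum_eq_zero]
    intro i hi
    rw [Finset.mem_range] at hi
    by_cases h2 : i = e + 1
    · rw [h2, h1, map_zero, zero_mul, map_zero]
    · have h3 : e + 1 - i ≠ 0 := by omega
      simp only [map_mul, eval_C, map_pow, eval_X, Matrix.cons_val_zero, Matrix.cons_val_one,
        zero_pow h3, mul_zero]
  · obtain ⟨P, hP⟩ : ∃ P : Polynomial K, P = ∑ i ∈ Finset.range (e + 1 + 1),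
      Polynomial.C (g i) * Polynomial.X ^ i := ⟨_, rfl⟩
    have hc : ∀ m, P.coeff m = if m < e + 1 + 1 then g m else 0 := by
      intro m
      rw [hP, Polynomial.finsetSum_coeff]
      simp only [Polynomial.coeff_C_mul_X_pow]
      rw [Finset.sum_ite_eq]
      simp only [Finset.mem_range]
    have hd : P.degree ≠ 0 := by
      intro h
      have h2 := Polynomial.eq_C_of_degree_le_zero h.le
      have h3 := hc (e + 1)
      rw [if_pos (by omega), h2, Polynomial.coeff_C, if_neg (by omega)] at h3
      exact h1 h3.symm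
    obtain ⟨z, hz⟩ := IsAlgClosed.exists_root P hd
    refine ⟨![z, 1], fun h => one_ne_zero (congrFun h 1), ?_⟩
    rw [Polynomial.IsRoot, hP, Polynomial.eval_finsetSum] at hz
    rw [hs, map_sum, ← hz]
    refine Finset.sum_congr rfl fun i _ => ?_
    simp

/-- Binary forms with at most two zeros. -/
theorem bin_factor [IsAlgClosed K] {w1 w2 : Fin 2 → K} (hw1 : w1 ≠ 0) (hw2 : w2 ≠ 0) {e : ℕ}
    {G : MvPolynomial (Fin 2) K} (hG : G.IsHomogeneous e) (h0 : G ≠ 0)
    (h : ∀ w, eval w G = 0 → Par w w1 ∨ Par w w2) :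
    ∃ (c : K) (i j : ℕ), c ≠ 0 ∧ G = C c * (lam w1 ^ i * lam w2 ^ j) := by
  induction e generalizing G with
  | zero =>
    obtain ⟨c, hc⟩ : ∃ c, G = C c := by
      have h1 := bin_sum hG
      rw [Finset.sum_range_one, pow_zero, Nat.sub_self, pow_zero, mul_one, mul_one] at h1
      exact ⟨_, h1⟩
    refine ⟨c, 0, 0, ?_, by rw [pow_zero, pow_zero, mul_one, mul_one, hc]⟩
    rintro rfl
    rw [map_zero] at hc
    exact h0 hc
  | succ e ih =>
    obtain ⟨w, hw, hwG⟩ := bin_zero hG
    obtain ⟨G', hG', hGG⟩ := bin_div hG hw hwG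
    have h0' : G' ≠ 0 := by
      rintro rfl
      rw [mul_zero] at hGG
      exact h0 hGG
    obtain ⟨c, i, j, hc, hij⟩ := ih hG' h0' fun z hz => h z (by rw [hGG, map_mul, hz, mul_zero])
    rcases h w hwG with h1 | h1
    · refine ⟨c, i + 1, j, hc, ?_⟩
      rw [hGG, lam_par hw hw1 h1, hij]
      ring
    · refine ⟨c, i, j + 1, hc, ?_⟩
      rw [hGG, lam_par hw hw2 h1, hij]
      ring

end Pool.Agent.Run7.h621.LG
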