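import Pool.Agent.Run7.h621.LG.Rows

/-!
The change of the chart.
-/

set_option autoImplicit false
set_option linter.unusedSectionVars false

open MvPolynomial
open Pool.Agent.Run7.h621.NG (dt dt_lin dt_cols dt_rows dt_tri dt_diag dt_ne_zero)
open Pool.Agent.Run7.h621.MP (Vr sM cor sM_zero sM_top mon mon_add mon_zero mon_sum mon_single
  mon_sM mon_cor mon_step Rd R Eu cS sc sT Rd_scale Eu_scale dt_trans)

namespace Pool.Agent.Run7.h621.LG

variable {ι : Type} [Fintype ι] [DecidableEq ι] {n : ι → ℕ}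
  {L : Type} [Field L] {A S X τ υ : Type}

/-- The tangent vectors are spanned by the base rows. -/
def Spans (c : ∀ i, Fin (n i + 1)) (dg : A → ι → ℕ)
    (D : A → (Vr n →₀ ℕ) → Derivation ℤ L L) (θ : A → (Vr n →₀ ℕ) → S → L) (κ : ι → S → L)
    (E : X → Derivation ℤ L L) (η : X → S → L) (t : τ → Ti A n) (x : Vr n → L) : Prop :=
  ∀ p, T c dg D θ x p ∈ Submodule.span L (Set.range (brow c dg D θ κ E η t x))

/-- The change of the chart. -/
theorem dt_chart [Fintype S] [DecidableEq S] [Fintype X] [Fintype τ] [Fintype A] [Fintype υ]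
    {c : ∀ i, Fin (n i + 1)} {dg : A → ι → ℕ}
    {D : A → (Vr n →₀ ℕ) → Derivation ℤ L L} {θ : A → (Vr n →₀ ℕ) → S → L} {κ : ι → S → L}
    {E : X → Derivation ℤ L L} {η : X → S → L} {t : τ → Ti A n}
    (e : Vr n ⊕ S ≃ (ι ⊕ (X ⊕ τ)) ⊕ (A ⊕ υ)) {lam : ι → L} (hl : ∀ i, lam i ≠ 0)
    {x' : Vr n → L} {j : ∀ i, Fin (n i + 1)} (hj : ∀ i, x' ⟨i, j i⟩ = 1)
    (hc : ∀ i, sc lam x' ⟨i, c i⟩ = 1) (hsp : Spans c dg D θ κ E η t (sc lam x'))
    (u : υ → Vr n ⊕ S → L) :
    (∏ p : Vr n, (lam p.1)⁻¹) * dt e (row c dg D θ κ E η t (fun a => cor c (dg a)) u (sc lam x')) =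
      (∏ a, ∏ i, (lam i)⁻¹ ^ dg a i) * ((∏ y, lam (t y).2.1) *
        dt e (row c dg D (fun a I => sT κ lam (D a I) (θ a I)) κ E
          (fun ξ => sT κ lam (E ξ) (η ξ)) t (fun a => cor j (dg a))
          (fun y q => cS S lam q * u y q) x')) := by
  classical
  have hxc : ∀ i, sc lam x' ⟨i, c i⟩ ≠ 0 := fun i => by rw [hc i]; exact one_ne_zero
  have hxj : ∀ i, sc lam x' ⟨i, j i⟩ = lam i := fun i => by
    change lam i * x' ⟨i, j i⟩ = lam i
    rw [hj, mul_one]
  -- the change of the exponents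
  have h1 : dt e (row c dg D θ κ E η t (fun a => cor c (dg a)) u (sc lam x')) =
      (∏ i : A ⊕ υ, Sum.elim (fun a => ∏ i, (lam i)⁻¹ ^ dg a i) (fun _ => 1) i) *
        dt e (row c dg D θ κ E η t (fun a => cor j (dg a)) u (sc lam x')) := by
    refine dt_diag e _ (fun i => rfl) fun i => ?_
    rcases i with a | y
    · have h2 := R_cor (D := D) (θ := θ) (dg := dg) (c := c) (sc lam x') hxc a j (fun i => by
        rw [hxj]; exact hl i)
      have h3 : Submodule.span L (Set.range (T c dg D θ (sc lam x'))) ≤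
          Submodule.span L (Set.range (brow c dg D θ κ E η t (sc lam x'))) := by
        rw [Submodule.span_le]
        rintro _ ⟨p, rfl⟩
        exact hsp p
      have h4 : mon (sc lam x') (cor c (dg a)) / mon (sc lam x') (cor j (dg a)) =
          ∏ i, (lam i)⁻¹ ^ dg a i := by
        rw [mon_cor, mon_cor, ← Finset.prod_div_distrib]
        refine Finset.prod_congr rfl fun i _ => ?_
        rw [hc, hxj, one_pow, inv_pow, one_div]
      rw [h4] at h2
      exact h3 h2
    · change u y - (1 : L) • u y ∈ _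
      rw [one_smul, sub_self]
      exact zero_mem _
  have h2 : (∏ i : A ⊕ υ, Sum.elim (fun a => ∏ i, (lam i)⁻¹ ^ dg a i) (fun _ => 1) i) =
      ∏ a, ∏ i, (lam i)⁻¹ ^ dg a i := by
    rw [Fintype.prod_sum_type]
    simp only [Sum.elim_inl, Sum.elim_inr, Finset.prod_const_one, mul_one]
  -- the scaling
  obtain ⟨f, hf⟩ : ∃ f : (ι ⊕ (X ⊕ τ)) ⊕ (A ⊕ υ) ≃ ι ⊕ ((X ⊕ τ) ⊕ (A ⊕ υ)),
    f = Equiv.sumAssoc _ _ _ := ⟨_, rfl⟩
  obtain ⟨cf, hcf⟩ : ∃ cf : (X ⊕ τ) ⊕ (A ⊕ υ) → L, cf = fun i => match i with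
    | Sum.inl (Sum.inl _) => 1
    | Sum.inl (Sum.inr y) => lam (t y).2.1
    | Sum.inr _ => 1 := ⟨_, rfl⟩
  have hEu : ∀ s : ι → L, ∑ i, s i • Eu κ x' i ∈ Submodule.span L (Set.range fun i : ι =>
      ((row c dg D (fun a I => sT κ lam (D a I) (θ a I)) κ E
          (fun ξ => sT κ lam (E ξ) (η ξ)) t (fun a => cor j (dg a))
          (fun y q => cS S lam q * u y q) x') ∘ f.symm) (Sum.inl i)) := fun s =>
    Submodule.sum_mem _ fun i _ => Submodule.smul_mem _ _ (Submodule.subset_span ⟨i, by
      rw [hf]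
      rfl⟩)
  have h3 : dt e (fun i q => cS S lam q *
      row c dg D θ κ E η t (fun a => cor j (dg a)) u (sc lam x') i q) =
      (∏ i, cf i) * dt e (row c dg D (fun a I => sT κ lam (D a I) (θ a I)) κ E
          (fun ξ => sT κ lam (E ξ) (η ξ)) t (fun a => cor j (dg a))
          (fun y q => cS S lam q * u y q) x') := by
    rw [dt_trans e f, dt_trans e f (row c dg D (fun a I => sT κ lam (D a I) (θ a I)) κ E _ t _ _ x')]
    refine dt_diag _ cf (fun i => ?_) fun i => ?_
    · rw [hf]
      exact Eu_scale κ hl x' i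
    · rcases i with (ξ | y) | (a | y)
      · have h4 := Rd_scale (n := n) κ hl (E ξ) (η ξ) x'
        have h5 : ((fun i q => cS S lam q *
            row c dg D θ κ E η t (fun a => cor j (dg a)) u (sc lam x') i q) ∘ f.symm)
            (Sum.inr (Sum.inl (Sum.inl ξ))) =
            fun q => cS (n := n) S lam q * Rd (E ξ) (η ξ) (sc lam x') q := by
          rw [hf]
          rfl
        have h6 : ((row c dg D (fun a I => sT κ lam (D a I) (θ a I)) κ E
            (fun ξ => sT κ lam (E ξ) (η ξ)) t (fun a => cor j (dg a))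
            (fun y q => cS S lam q * u y q) x') ∘ f.symm) (Sum.inr (Sum.inl (Sum.inl ξ))) =
            Rd (E ξ) (sT κ lam (E ξ) (η ξ)) x' := by
          rw [hf]
          rfl
        have h7 : cf (Sum.inl (Sum.inl ξ)) = 1 := by rw [hcf]
        rw [h5, h6, h4, h7, one_smul, add_sub_cancel_left]
        exact hEu _
      · obtain ⟨s, hs⟩ := T_scale (c := c) (dg := dg) (D := D) (θ := θ) κ hl x' (t y)
        have h5 : ((fun i q => cS S lam q *
            row c dg D θ κ E η t (fun a => cor j (dg a)) u (sc lam x') i q) ∘ f.symm)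
            (Sum.inr (Sum.inl (Sum.inr y))) =
            fun q => cS (n := n) S lam q * T c dg D θ (sc lam x') (t y) q := by
          rw [hf]
          rfl
        have h6 : ((row c dg D (fun a I => sT κ lam (D a I) (θ a I)) κ E
            (fun ξ => sT κ lam (E ξ) (η ξ)) t (fun a => cor j (dg a))
            (fun y q => cS S lam q * u y q) x') ∘ f.symm) (Sum.inr (Sum.inl (Sum.inr y))) =
            T c dg D (fun a I => sT κ lam (D a I) (θ a I)) x' (t y) := by
          rw [hf]
          rfl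
        have h7 : cf (Sum.inl (Sum.inr y)) = lam (t y).2.1 := by rw [hcf]
        rw [h5, h6, hs, h7, add_sub_cancel_left]
        exact hEu _
      · have h4 := Rd_scale (n := n) κ hl (D a (cor j (dg a))) (θ a (cor j (dg a))) x'
        have h5 : ((fun i q => cS S lam q *
            row c dg D θ κ E η t (fun a => cor j (dg a)) u (sc lam x') i q) ∘ f.symm)
            (Sum.inr (Sum.inr (Sum.inl a))) =
            fun q => cS (n := n) S lam q * Rd (D a (cor j (dg a))) (θ a (cor j (dg a)))
              (sc lam x') q := by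
          rw [hf]
          rfl
        have h6 : ((row c dg D (fun a I => sT κ lam (D a I) (θ a I)) κ E
            (fun ξ => sT κ lam (E ξ) (η ξ)) t (fun a => cor j (dg a))
            (fun y q => cS S lam q * u y q) x') ∘ f.symm) (Sum.inr (Sum.inr (Sum.inl a))) =
            Rd (D a (cor j (dg a))) (sT κ lam (D a (cor j (dg a))) (θ a (cor j (dg a)))) x' := by
          rw [hf]
          rfl
        have h7 : cf (Sum.inr (Sum.inl a)) = 1 := by rw [hcf]
        rw [h5, h6, h4, h7, one_smul, add_sub_cancel_left]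
        exact hEu _
      · have h5 : ((fun i q => cS S lam q *
            row c dg D θ κ E η t (fun a => cor j (dg a)) u (sc lam x') i q) ∘ f.symm)
            (Sum.inr (Sum.inr (Sum.inr y))) = fun q => cS (n := n) S lam q * u y q := by
          rw [hf]
          rfl
        have h6 : ((row c dg D (fun a I => sT κ lam (D a I) (θ a I)) κ E
            (fun ξ => sT κ lam (E ξ) (η ξ)) t (fun a => cor j (dg a))
            (fun y q => cS S lam q * u y q) x') ∘ f.symm) (Sum.inr (Sum.inr (Sum.inr y))) =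
            fun q => cS (n := n) S lam q * u y q := by
          rw [hf]
          rfl
        have h7 : cf (Sum.inr (Sum.inr y)) = 1 := by rw [hcf]
        rw [h5, h6, h7, one_smul, sub_self]
        exact zero_mem _
  rw [dt_cols] at h3
  have h4 : ∏ q, cS (n := n) S lam q = ∏ p : Vr n, (lam p.1)⁻¹ := by
    rw [Fintype.prod_sum_type]
    simp [cS]
  have h5 : ∏ i, cf i = ∏ y, lam (t y).2.1 := by
    rw [hcf, Fintype.prod_sum_type, Fintype.prod_sum_type]
    simp only [Finset.prod_const_one, one_mul, mul_one]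
  rw [h4, h5] at h3
  rw [h1, h2, ← h3]
  ring

end Pool.Agent.Run7.h621.LG
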