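import Pool.Agent.Run7.h621.LG.Fin
import Pool.Agent.W602.GT.NG
import Pool.Agent.W619.PQ.Curve

/-!
Lines that meet the boundary in at most two points are not of log general type, and contain
multiplicative groups.
-/

set_option autoImplicit false
set_option linter.unusedSectionVars false

namespace Pool.Agent.Run7.h621.LG

open MvPolynomial FF Pool.Agent.W603.LV Pool.Agent.W603.PV Pool.Agent.W602.GT Pool.Agent.TH145.MG

variable {n : ℕ}

/-- Binary forms with at most two zeros. -/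
theorem bin_factor' {K : Type} [Field K] [IsAlgClosed K] {w1 w2 : Fin 2 → K} (hw1 : w1 ≠ 0)
    (hw2 : w2 ≠ 0) {e : ℕ} {G : MvPolynomial (Fin 2) K} (hG : G.IsHomogeneous e) (h0 : G ≠ 0)
    (h : ∀ w, eval w G = 0 → Par w w1 ∨ Par w w2) :
    ∃ (c : K) (i j : ℕ), c ≠ 0 ∧ i + j = e ∧ G = C c * (lam w1 ^ i * lam w2 ^ j) := by
  obtain ⟨c, i, j, hc, hij⟩ := bin_factor hw1 hw2 hG h0 h
  refine ⟨c, i, j, hc, ?_, hij⟩
  have h1 : (C c * (lam w1 ^ i * lam w2 ^ j)).IsHomogeneous (i + j) := by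
    have h2 := (isHomogeneous_C (Fin 2) c).mul (((lam_hom w1).pow i).mul ((lam_hom w2).pow j))
    have h3 : 0 + (1 * i + 1 * j) = i + j := by omega
    rwa [h3] at h2
  rw [← hij] at h1
  exact h1.inj_right hG h0

/-- The value of the linear form. -/
theorem lam_val {K : Type} [Field K] {w : Fin 2 → K} (hw : w ≠ 0) :
    ∃ c : K, c ≠ 0 ∧ ∀ (L : Type) [Field L] [Algebra K L] (X Y : L), aeval ![X, Y] (lam w) =
      algebraMap K L c * (algebraMap K L (w 1) * X - algebraMap K L (w 0) * Y) := by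
  classical
  by_cases h4 : w 1 = 0
  · have hw0 : w 0 ≠ 0 := by
      intro h0
      apply hw
      funext i
      fin_cases i
      · exact h0
      · exact h4
    refine ⟨-(w 0)⁻¹, neg_ne_zero.2 (inv_ne_zero hw0), fun L _ _ X Y => ?_⟩
    have h5 : algebraMap K L (w 0) ≠ 0 := fun h => hw0 ((map_eq_zero _).1 h)
    have h6 : (![X, Y] : Fin 2 → L) 1 = Y := rfl
    rw [lam, if_pos h4, aeval_X, h4, map_zero, map_neg, map_inv₀, h6]
    field_simp
    ring
  · refine ⟨(w 1)⁻¹, inv_ne_zero h4, fun L _ _ X Y => ?_⟩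
    have h5 : algebraMap K L (w 1) ≠ 0 := fun h => h4 ((map_eq_zero _).1 h)
    have h6 : (![X, Y] : Fin 2 → L) 1 = Y := rfl
    have h7 : (![X, Y] : Fin 2 → L) 0 = X := rfl
    rw [lam, if_neg h4, map_sub, map_mul, aeval_X, aeval_X, aeval_C, map_div₀, map_inv₀, h6, h7]
    field_simp

/-- A basis of a line that contains the points of the boundary. -/
theorem adapt {K A : Type} [Field K] [IsAlgClosed K] {H : A → MvPolynomial (Fin (n + 1)) K}
    {d : A → ℕ} (hH : ∀ a, (H a).IsHomogeneous (d a)) {C : Finset A} {p r : Fin (n + 1) → K}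
    (hl : LinearIndependent K ![p, r]) (hfew : FewPoints H C p r)
    (hne0 : ∀ b, b ∉ C → ∃ u v : K, eval (fun i => u * p i + v * r i) (H b) ≠ 0) :
    ∃ y z : Fin (n + 1) → K, LinearIndependent K ![y, z] ∧
      (∀ u v : K, ∃ a b : K, ∀ i, u * y i + v * z i = a * p i + b * r i) ∧
      (∀ a b : K, ∃ u v : K, ∀ i, a * p i + b * r i = u * y i + v * z i) ∧
      ∀ b, b ∉ C → ∃ (c : K) (i j : ℕ), c ≠ 0 ∧ i + j = d b ∧
        ∀ (L : Type) [Field L] [Algebra K L] (U W : L),
          aeval (fun l => U * algebraMap K L (y l) + W * algebraMap K L (z l)) (H b) =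
            algebraMap K L c * (U ^ i * W ^ j) := by
  classical
  obtain ⟨i0, i1, p', r', hne, hp0, hp1, hr0, hr1, hmem, hpr⟩ := exists_nb hl
  have hinf : Infinite K := IsAlgClosed.instInfinite
  obtain ⟨y0, z0, hyz⟩ := hfew
  have hco : ∀ (w : Fin 2 → K) (c : K) (y : Fin (n + 1) → K),
      (∀ i, w 0 * p' i + w 1 * r' i = c * y i) → w 0 = c * y i0 ∧ w 1 = c * y i1 := by
    intro w c y hwc
    have h3 := hwc i0
    have h4 := hwc i1
    rw [hp0, hr0, mul_one, mul_zero, add_zero] at h3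
    rw [hp1, hr1, mul_one, mul_zero, zero_add] at h4
    exact ⟨h3, h4⟩
  have hpt : ∀ y : Fin (n + 1) → K, ∃ w1 : Fin 2 → K, w1 ≠ 0 ∧ ∀ (w : Fin 2 → K) (c : K),
      (∀ i, w 0 * p' i + w 1 * r' i = c * y i) → Par w w1 := by
    intro y
    by_cases hy : (![y i0, y i1] : Fin 2 → K) = 0
    · refine ⟨![1, 0], fun h => one_ne_zero (congrFun h 0), fun w c hwc => ?_⟩
      have h5 := congrFun hy 0
      have h6 := congrFun hy 1
      simp only [Matrix.cons_val_zero, Matrix.cons_val_one, Pi.zero_apply] at h5 h6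
      obtain ⟨h3, h4⟩ := hco w c y hwc
      unfold Par
      rw [h3, h4, h5, h6]
      simp
    · refine ⟨_, hy, fun w c hwc => ?_⟩
      obtain ⟨h3, h4⟩ := hco w c y hwc
      unfold Par
      rw [h3, h4]
      simp only [Matrix.cons_val_zero, Matrix.cons_val_one]
      ring
  obtain ⟨w1, hw1, hpw1⟩ := hpt y0
  obtain ⟨w2', hw2', hpw2'⟩ := hpt z0
  -- two points that are not equal
  obtain ⟨w2, hw2, hD, hpw2⟩ : ∃ w2 : Fin 2 → K, w2 ≠ 0 ∧ w1 0 * w2 1 - w1 1 * w2 0 ≠ 0 ∧
      ∀ w, Par w w1 ∨ Par w w2' → Par w w1 ∨ Par w w2 := by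
    by_cases hpar : Par w1 w2'
    · have h1 : ∀ w, Par w w1 ∨ Par w w2' → Par w w1 := by
        rintro w (h | h)
        · exact h
        · obtain ⟨c, hc0, hc1⟩ := par_mul hw2' h
          obtain ⟨e, he0, he1⟩ := par_mul hw2' hpar
          unfold Par
          rw [hc0, hc1, he0, he1]
          ring
      by_cases h0 : w1 0 = 0
      · have h10 : w1 1 ≠ 0 := by
          intro h1
          apply hw1
          funext i
          fin_cases i
          · exact h0
          · exact h1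
        refine ⟨![1, 0], fun h => one_ne_zero (congrFun h 0), ?_, fun w hw => Or.inl (h1 w hw)⟩
        simpa [h0] using h10
      · refine ⟨![0, 1], fun h => one_ne_zero (congrFun h 1), ?_, fun w hw => Or.inl (h1 w hw)⟩
        simpa using h0
    · refine ⟨w2', hw2', fun h => hpar ?_, fun w hw => hw⟩
      unfold Par
      linear_combination h
  obtain ⟨y, hy⟩ : ∃ y : Fin (n + 1) → K, ∀ i, y i = w1 0 * p' i + w1 1 * r' i := ⟨_, fun _ => rfl⟩
  obtain ⟨z, hz⟩ : ∃ z : Fin (n + 1) → K, ∀ i, z i = w2 0 * p' i + w2 1 * r' i := ⟨_, fun _ => rfl⟩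
  refine ⟨y, z, ?_, fun u v => ?_, fun a b => ?_, fun b hb => ?_⟩
  · rw [LinearIndependent.pair_iff]
    intro a b hab
    have h3 := congrFun hab i0
    have h4 := congrFun hab i1
    simp only [Pi.add_apply, Pi.smul_apply, smul_eq_mul, Pi.zero_apply, hy, hz, hp0, hp1, hr0, hr1,
      mul_one, mul_zero, add_zero, zero_add] at h3 h4
    constructor
    · have h5 : a * (w1 0 * w2 1 - w1 1 * w2 0) = 0 := by linear_combination w2 1 * h3 - w2 0 * h4
      exact (mul_eq_zero.1 h5).resolve_right hD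
    · have h5 : b * (w1 0 * w2 1 - w1 1 * w2 0) = 0 := by
        linear_combination w1 0 * h4 - w1 1 * h3
      exact (mul_eq_zero.1 h5).resolve_right hD
  · obtain ⟨a, b, hab⟩ := hmem (u * w1 0 + v * w2 0) (u * w1 1 + v * w2 1)
    refine ⟨a, b, fun i => ?_⟩
    rw [← hab, hy, hz]
    ring
  · obtain ⟨X, hX⟩ : ∃ X, X = a * p i0 + b * r i0 := ⟨_, rfl⟩
    obtain ⟨Y, hY⟩ : ∃ Y, Y = a * p i1 + b * r i1 := ⟨_, rfl⟩
    obtain ⟨D, hDD⟩ : ∃ D, D = w1 0 * w2 1 - w1 1 * w2 0 := ⟨_, rfl⟩
    rw [← hDD] at hD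
    refine ⟨(X * w2 1 - Y * w2 0) / D, (w1 0 * Y - w1 1 * X) / D, fun i => ?_⟩
    rw [hpr, ← hX, ← hY, hy, hz]
    field_simp
    rw [hDD]
    ring
  · have hG := rs_homogeneous p' r' (hH b)
    obtain ⟨G, hGG⟩ : ∃ G, G = rs p' r' (H b) := ⟨_, rfl⟩
    rw [← hGG] at hG
    have hG0 : G ≠ 0 := by
      intro h0
      obtain ⟨u, v, huv⟩ := hne0 b hb
      apply huv
      have h1 := rs_eval p' r' (H b) (u * p i0 + v * r i0) (u * p i1 + v * r i1)
      rw [← hGG, h0, map_zero] at h1
      rw [h1]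
      congr 1
      exact congrArg _ (funext fun i => hpr u v i)
    have hzero : ∀ w, eval w G = 0 → Par w w1 ∨ Par w w2 := by
      intro w hw
      apply hpw2
      obtain ⟨u, v, huv⟩ := hmem (w 0) (w 1)
      have h3 : w = ![w 0, w 1] := by
        funext i
        fin_cases i <;> rfl
      rw [h3, hGG, rs_eval, show (fun i => w 0 * p' i + w 1 * r' i) = fun i => u * p i + v * r i
        from funext huv] at hw
      rcases hyz b hb u v hw with ⟨c, hc⟩ | ⟨c, hc⟩
      · exact Or.inl (hpw1 w c fun i => (huv i).trans (hc i))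
      · exact Or.inr (hpw2' w c fun i => (huv i).trans (hc i))
    obtain ⟨c, i, j, hc, hij, hfac⟩ := bin_factor' hw1 hw2 hG hG0 hzero
    obtain ⟨c1, hc1, hl1⟩ := lam_val hw1
    obtain ⟨c2, hc2, hl2⟩ := lam_val hw2
    refine ⟨c * ((c1 * (w1 1 * w2 0 - w1 0 * w2 1)) ^ i * (c2 * (w2 1 * w1 0 - w2 0 * w1 1)) ^ j),
      j, i, ?_, by omega, ?_⟩
    · have h1 : w1 1 * w2 0 - w1 0 * w2 1 ≠ 0 := fun h => hD (by linear_combination -h)
      have h2 : w2 1 * w1 0 - w2 0 * w1 1 ≠ 0 := fun h => hD (by linear_combination h)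
      exact mul_ne_zero hc (mul_ne_zero (pow_ne_zero _ (mul_ne_zero hc1 h1))
        (pow_ne_zero _ (mul_ne_zero hc2 h2)))
    · intro L _ _ U W
      have h1 : aeval (fun l => U * algebraMap K L (y l) + W * algebraMap K L (z l)) (H b) =
          aeval ![U * algebraMap K L (w1 0) + W * algebraMap K L (w2 0),
            U * algebraMap K L (w1 1) + W * algebraMap K L (w2 1)] G := by
        rw [hGG, aeval_rs]
        congr 1
        refine congrArg _ (funext fun l => ?_)
        rw [hy, hz, map_add, map_add, map_mul, map_mul, map_mul, map_mul]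
        ring
      rw [h1, hfac, map_mul, map_mul, map_pow, map_pow, aeval_C, hl1 L, hl2 L]
      simp only [map_mul, map_pow, map_sub]
      have e1 : algebraMap K L (w1 1) * (U * algebraMap K L (w1 0) + W * algebraMap K L (w2 0)) -
          algebraMap K L (w1 0) * (U * algebraMap K L (w1 1) + W * algebraMap K L (w2 1)) =
          (algebraMap K L (w1 1) * algebraMap K L (w2 0) -
            algebraMap K L (w1 0) * algebraMap K L (w2 1)) * W := by ring
      have e2 : algebraMap K L (w2 1) * (U * algebraMap K L (w1 0) + W * algebraMap K L (w2 0)) -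
          algebraMap K L (w2 0) * (U * algebraMap K L (w1 1) + W * algebraMap K L (w2 1)) =
          (algebraMap K L (w2 1) * algebraMap K L (w1 0) -
            algebraMap K L (w2 0) * algebraMap K L (w1 1)) * U := by ring
      rw [e1, e2]
      simp only [mul_pow]
      ring

end Pool.Agent.Run7.h621.LG
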