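import Pool.Agent.Run7.h621.LG.Conv

/-!
Lines that meet the boundary in at most two points are not of log general type, and contain
multiplicative groups.
-/

set_option autoImplicit false
set_option linter.unusedSectionVars false

namespace Pool.Agent.Run7.h621.LG

open MvPolynomial FF Pool.Agent.W603.LV Pool.Agent.W603.PV Pool.Agent.W602.GT Pool.Agent.TH145.MG

variable {n : ℕ}

/-- A nonconstant point is not a multiple of a constant one. -/
theorem ne_zero_of_nc {K L : Type} [Field K] [Field L] [Algebra K L] {x : Fin (n + 1) → L}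
    {y z : Fin (n + 1) → K} {U W : L} (hx : ∀ i, x i = U * algebraMap K L (y i) +
      W * algebraMap K L (z i)) (hnc : ∃ j l, Transcendental K (x j / x l)) : U ≠ 0 ∧ W ≠ 0 := by
  have key : ∀ (U : L) (y : Fin (n + 1) → K), (∀ i, x i = U * algebraMap K L (y i)) → False := by
    intro U y h
    obtain ⟨j, l, ht⟩ := hnc
    apply ht
    rw [h, h]
    by_cases hU : U = 0
    · rw [hU, zero_mul, zero_div]
      exact isAlgebraic_zero
    · rw [mul_div_mul_left _ _ hU, ← map_div₀]
      exact isAlgebraic_algebraMap _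
  refine ⟨fun h => key W z fun i => ?_, fun h => key U y fun i => ?_⟩
  · rw [hx, h, zero_mul, zero_add]
  · rw [hx, h, zero_mul, add_zero]

/-- Lines that meet the boundary in at most two points are not of log general type. -/
theorem not_gt_of_line {K L A : Type} [Field K] [Field L] [Algebra K L] [IsAlgClosed K]
    [CharZero K] {C : Finset A} {H : A → MvPolynomial (Fin (n + 1)) K} {d : A → ℕ}
    {x : Fin (n + 1) → L} {y z : Fin (n + 1) → K} {U W : L}
    (hx : ∀ i, x i = U * algebraMap K L (y i) + W * algebraMap K L (z i))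
    (hnc : ∃ j l, Transcendental K (x j / x l))
    (hfac : ∀ b, b ∉ C → ∃ (c : K) (i j : ℕ), c ≠ 0 ∧ i + j = d b ∧
      aeval x (H b) = algebraMap K L c * (U ^ i * W ^ j))
    (htop : coords K x = ⊤) (w : ℕ) : ¬ LogGeneralType K L w fun Q => Q ∈ bdry C H d x := by
  classical
  obtain ⟨hU, hW⟩ := ne_zero_of_nc hx hnc
  obtain ⟨σ, hσ⟩ : ∃ σ, σ = U / W := ⟨_, rfl⟩
  have hσ0 : σ ≠ 0 := by rw [hσ]; exact div_ne_zero hU hW
  have hxσ : ∀ i, x i = W * (σ * algebraMap K L (y i) + algebraMap K L (z i)) := fun i => by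
    rw [hx, hσ]
    field_simp
  have hKσ : IntermediateField.adjoin K {σ} = ⊤ := by
    rw [eq_top_iff, ← htop, coords, IntermediateField.adjoin_le_iff]
    rintro _ ⟨j, l, hl, rfl⟩
    rw [hxσ j, hxσ l, mul_div_mul_left _ _ hW]
    have hm : ∀ i, σ * algebraMap K L (y i) + algebraMap K L (z i) ∈
        IntermediateField.adjoin K {σ} := fun i =>
      add_mem (mul_mem (IntermediateField.mem_adjoin_simple_self K σ)
        (IntermediateField.algebraMap_mem _ _)) (IntermediateField.algebraMap_mem _ _)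
    exact div_mem (hm j) (hm l)
  have hσt : Transcendental K σ := by
    intro hc
    obtain ⟨j, l, ht⟩ := hnc
    apply ht
    rw [hxσ j, hxσ l, mul_div_mul_left _ _ hW, div_eq_mul_inv]
    exact ((hc.mul (isAlgebraic_algebraMap _)).add (isAlgebraic_algebraMap _)).mul
      ((hc.mul (isAlgebraic_algebraMap _)).add (isAlgebraic_algebraMap _)).inv
  have hind : AlgebraicIndependent K (fun _ : Fin 1 => σ) :=
    algebraicIndependent_unique_type_iff.2 hσt
  have hL : Algebra.trdeg K L ≤ 1 := by
    have h1 := Pool.Agent.Run7.h621.FV.trdeg_le_card (fun _ : Unit => σ)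
      (⊤ : IntermediateField K L) (by
        rw [Set.range_const, hKσ])
    have h2 : Algebra.trdeg K (⊤ : IntermediateField K L) = Algebra.trdeg K L :=
      (IntermediateField.topEquiv (F := K) (E := L)).trdeg_eq
    rw [h2] at h1
    simpa using h1
  have htb : IsTranscendenceBasis K (fun _ : Fin 1 => σ) :=
    hind.isTranscendenceBasis_of_trdeg_le (hL.trans_lt Cardinal.one_lt_aleph0)
      (by simpa using hL)
  obtain ⟨E, hE⟩ := exists_dual htb
  have hEσ : E 0 σ = 1 := by
    have := congrFun (congrFun hE 0) 0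
    simpa using this
  have hδσ : (σ • E 0) σ = σ := by
    rw [Derivation.smul_apply, hEσ, smul_eq_mul, mul_one]
  have htop' : IntermediateField.adjoin (consts (σ • E 0)) {σ} = ⊤ := by
    rw [eq_top_iff]
    intro f _
    have h1 : f ∈ IntermediateField.adjoin K {σ} := by
      rw [hKσ]
      exact IntermediateField.mem_top
    have h2 : IntermediateField.adjoin K {σ} ≤
        (IntermediateField.adjoin (consts (σ • E 0)) {σ}).restrictScalars K := by
      rw [IntermediateField.adjoin_le_iff]
      rintro _ rfl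
      exact IntermediateField.mem_adjoin_simple_self _ _
    exact h2 h1
  refine not_log_gt (σ • E 0) hσ0 hδσ htop' fun Q _ hQσ hQ => ?_
  obtain ⟨b, hb, hbQ⟩ := hQ
  obtain ⟨c, i, j, hc, hij, hf⟩ := hfac b hb
  have hc' : algebraMap K L c ≠ 0 := fun h => hc ((map_eq_zero _).1 h)
  have hUW : Q.ord U = Q.ord W := by
    rw [hσ, Q.ord_div hU hW] at hQσ
    omega
  rw [hf, Q.ord_mul hc' (mul_ne_zero (pow_ne_zero _ hU) (pow_ne_zero _ hW)), Q.ord_const hc,
    zero_add, Q.ord_mul (pow_ne_zero _ hU) (pow_ne_zero _ hW), Q.ord_pow, Q.ord_pow, ← hUW,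
    ← add_mul] at hbQ
  have h1 : ((i : ℤ) + j) = d b := by exact_mod_cast hij
  rw [h1] at hbQ
  have h2 : Q.ord U ≤ pord Q x := by
    have hx0 : ∃ l, x l ≠ 0 := by
      obtain ⟨j, l, ht⟩ := hnc
      refine ⟨l, fun h => ht ?_⟩
      rw [h, div_zero]
      exact isAlgebraic_zero
    obtain ⟨l, hl, hlo⟩ := exists_pord Q hx0
    rw [← hlo]
    have hcc : ∀ c : K, Ge Q 0 (algebraMap K L c) := by
      intro c
      by_cases h : c = 0
      · rw [h, map_zero]
        exact Or.inl rfl
      · exact Or.inr (Q.ord_const h).ge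
    have h3 : Ge Q (Q.ord U) (x l) := by
      rw [hx]
      have h4 := (show Ge Q (Q.ord U) U from Or.inr le_rfl).mul (hcc (y l))
      have h5 := (show Ge Q (Q.ord U) W from Or.inr hUW.le).mul (hcc (z l))
      rw [add_zero] at h4 h5
      exact h4.add h5
    exact h3.resolve_left hl
  have h3 := mul_le_mul_of_nonneg_left h2 (Int.natCast_nonneg (d b))
  linarith

variable {k K : Type} [Field k] [Field K] [IsAlgClosed K] [CharZero K] [Algebra k K]
  {m s q : ℕ} {V : Set (MvPolynomial (Fin (n + 1)) (algebraicClosure k K))}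
  {A : Type} {d : A → ℕ} {H : A → MvPolynomial (Fin (n + 1)) K}

omit [CharZero K] in
/-- A line through a point of the pair is not in the boundary. -/
theorem ne_of_point {C : Finset A} {L : Type} [Field L] [Algebra K L] {x : Fin (n + 1) → L}
    {p r : Fin (n + 1) → K} {u v : L}
    (hx : ∀ i, x i = u * algebraMap K L (p i) + v * algebraMap K L (r i)) {b : A}
    (hb : aeval x (H b) ≠ 0) : ∃ u v : K, eval (fun i => u * p i + v * r i) (H b) ≠ 0 := by
  have hinf : Infinite K := IsAlgClosed.instInfinite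
  by_contra hcon
  push Not at hcon
  apply hb
  have h1 : rs p r (H b) = 0 := by
    refine MvPolynomial.funext fun w => ?_
    have h3 : w = ![w 0, w 1] := by
      funext i
      fin_cases i <;> rfl
    rw [h3, rs_eval, map_zero]
    exact hcon _ _
  have h2 := aeval_rs p r (H b) u v
  rw [h1, map_zero] at h2
  rw [show x = fun i => u * algebraMap K L (p i) + v * algebraMap K L (r i) from funext hx]
  exact h2.symm

/-- Bad lines are not of log general type. -/
theorem bad_not_gt (hH : ∀ a, (H a).IsHomogeneous (d a)) {C : Finset A} {L : Type} [Field L]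
    [Algebra K L] {x : Fin (n + 1) → L} (hbad : OnBadLine V H C x)
    (hnc : ∃ j l, Transcendental K (x j / x l)) (hxD : ∀ b, b ∉ C → aeval x (H b) ≠ 0)
    (htop : coords K x = ⊤) (w : ℕ) : ¬ LogGeneralType K L w fun Q => Q ∈ bdry C H d x := by
  obtain ⟨p, r, hl, hfew, u, v, hx⟩ := hbad
  obtain ⟨y, z, -, -, hab, hfac⟩ := adapt hH hl.1 hfew fun b hb => ne_of_point (C := C) hx (hxD b hb)
  obtain ⟨a1, b1, h1⟩ := hab 1 0
  obtain ⟨a2, b2, h2⟩ := hab 0 1
  have hx' : ∀ i, x i = (u * algebraMap K L a1 + v * algebraMap K L a2) * algebraMap K L (y i) +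
      (u * algebraMap K L b1 + v * algebraMap K L b2) * algebraMap K L (z i) := by
    intro i
    have e1 := h1 i
    have e2 := h2 i
    simp only [one_mul, zero_mul, add_zero, zero_add] at e1 e2
    rw [hx, e1, e2]
    simp only [map_add, map_mul]
    ring
  refine not_gt_of_line hx' hnc (fun b hb => ?_) htop w
  obtain ⟨c, i, j, hc, hij, hf⟩ := hfac b hb
  refine ⟨c, i, j, hc, hij, ?_⟩
  rw [← hf]
  congr 1
  exact congrArg _ (funext hx')

omit [CharZero K] in
/-- Bad lines contain multiplicative groups. -/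
theorem gm_of_bad (hH : ∀ a, (H a).IsHomogeneous (d a)) {C : Finset A} {p r : Fin (n + 1) → K}
    (hl : LineIn (eqs V H C) p r) (hfew : FewPoints H C p r)
    (hne0 : ∀ b, b ∉ C → ∃ u v : K, eval (fun i => u * p i + v * r i) (H b) ≠ 0) :
    ∃ y z : Fin (n + 1) → K, LinearIndependent K ![y, z] ∧ ∀ t : K, t ≠ 0 →
      (∀ f ∈ eqs V H C, eval (fun i => y i + t * z i) f = 0) ∧
      ∀ b, b ∉ C → eval (fun i => y i + t * z i) (H b) ≠ 0 := by
  obtain ⟨y, z, hyz, hba, -, hfac⟩ := adapt hH hl.1 hfew hne0
  refine ⟨y, z, hyz, fun t ht => ⟨fun f hf => ?_, fun b hb => ?_⟩⟩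
  · obtain ⟨a, b, hab⟩ := hba 1 t
    rw [show (fun i => y i + t * z i) = fun i => a * p i + b * r i from funext fun i => by
      rw [← hab, one_mul]]
    exact hl.2 f hf a b
  · obtain ⟨c, i, j, hc, -, hf⟩ := hfac b hb
    have h1 := hf K 1 t
    simp only [Algebra.algebraMap_self, RingHom.id_apply, one_mul, one_pow] at h1
    rw [aeval_eq_eval] at h1
    change eval (fun i => y i + t * z i) (H b) = _ at h1
    rw [h1]
    exact mul_ne_zero hc (pow_ne_zero _ ht)

end Pool.Agent.Run7.h621.LG
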