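import Pool.Agent.Run7.h621.LG.Bin

/-!
The number of conditions for a line that meets the boundary in few points.
-/

set_option autoImplicit false
set_option linter.unusedSectionVars false

open MvPolynomial
open Pool.Agent.Run7.h621.FV (Ex)

namespace Pool.Agent.Run7.h621.LG

variable {n : ℕ}

/-- The coefficients of the binary monomials. -/
theorem coeff_bin' {K : Type} [Field K] {i0 i1 : Fin (n + 1)} (hne : i0 ≠ i1)
    {p q : Fin (n + 1) → K} (hp0 : p i0 = 1) (hp1 : p i1 = 0)
    (hq0 : q i0 = 0) (hq1 : q i1 = 1) {f : MvPolynomial (Fin (n + 1)) K} {e : ℕ}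
    (hf : f.IsHomogeneous e) [DecidablePred (Bin i0 i1)]
    {I : Fin (n + 1) →₀ ℕ} (hI : Bin i0 i1 I)
    (hIe : I.degree = e) : coeff I f =
      coeff (Finsupp.single 0 (I i0) + Finsupp.single 1 (I i1)) (rs p q f) -
      ∑ I' ∈ f.support with ¬ Bin i0 i1 I', coeff I' f *
      coeff (Finsupp.single 0 (I i0) + Finsupp.single 1 (I i1)) (rs p q (monomial I' 1)) := by
  classical
  have h1 : rs p q f = ∑ I' ∈ f.support, C (coeff I' f) * rs p q (monomial I' 1) := by
    conv_lhs => rw [f.as_sum, map_sum]
    refine Finset.sum_congr rfl fun I' _ => ?_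
    rw [← algebraMap_eq, ← AlgHom.commutes (rs p q), ← map_mul, algebraMap_eq, C_mul_monomial,
      mul_one]
  have h2 := congrArg (coeff (Finsupp.single 0 (I i0) + Finsupp.single 1 (I i1))) h1
  rw [coeff_sum, ← Finset.sum_filter_add_sum_filter_not f.support (Bin i0 i1)] at h2
  simp only [coeff_C_mul] at h2
  have h3 : ∑ I' ∈ f.support with Bin i0 i1 I', coeff I' f *
      coeff (Finsupp.single 0 (I i0) + Finsupp.single 1 (I i1)) (rs p q (monomial I' 1)) =
      coeff I f := by
    rw [Finset.sum_eq_single I]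
    · rw [rs_bin hne hp0 hp1 hq0 hq1 hI, coeff_monomial, if_pos rfl, mul_one]
    · intro I' hI' hne'
      rw [Finset.mem_filter] at hI'
      rw [rs_bin hne hp0 hp1 hq0 hq1 hI'.2, coeff_monomial, if_neg, mul_zero]
      intro h
      apply hne'
      have h4 := DFunLike.congr_fun h 0
      simp only [Finsupp.add_apply, Finsupp.single_eq_same] at h4
      have h5 : I' i0 = I i0 := by simpa using h4
      have h6 : I'.degree = e := by
        rw [Finsupp.degree_eq_weight_one]
        exact hf (mem_support_iff.1 hI'.1)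
      have h7 := bin_degree hne hI
      have h8 := bin_degree hne hI'.2
      ext j
      by_cases hj0 : j = i0
      · rw [hj0, h5]
      · by_cases hj1 : j = i1
        · rw [hj1]
          omega
        · rw [hI j hj0 hj1, hI'.2 j hj0 hj1]
    · intro h
      rw [Finset.mem_filter, not_and] at h
      have h4 : coeff I f = 0 := by
        by_contra h5
        exact h (mem_support_iff.2 h5) hI
      rw [h4, zero_mul]
  rw [h3] at h2
  rw [eq_sub_iff_add_eq, ← h2]

/-- The number of conditions for a line that meets the boundary in few points. -/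
theorem line_count2 {k K A : Type} [Field k] [Field K] [Algebra k K] [Fintype A] {d : A → ℕ}
    {H : A → MvPolynomial (Fin (n + 1)) K} (hH : ∀ a, (H a).IsHomogeneous (d a))
    (h0 : ∀ a, H a ≠ 0) (S : Finset A) {i0 i1 : Fin (n + 1)} (hne : i0 ≠ i1)
    {p q : Fin (n + 1) → K} (hp0 : p i0 = 1) (hp1 : p i1 = 0) (hq0 : q i0 = 0) (hq1 : q i1 = 1)
    (hC : ∀ a ∈ S, rs p q (H a) = 0) {e : ℕ} (z : Fin e → K)
    (hD : ∀ b, b ∉ S → ∃ (c : K) (g : MvPolynomial (Fin 2) K), c ≠ 0 ∧ rs p q (H b) = C c * g ∧
      ∀ E : IntermediateField k K, (∀ j, z j ∈ E) → ∀ m, coeff m g ∈ E)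
    {F : IntermediateField k K}
    (hF : F ≤ IntermediateField.adjoin k ({z | ∃ a I I', z = coeff I (H a) / coeff I' (H a)} ∪
      (Set.range p ∪ Set.range q))) :
    Algebra.trdeg k F + ((∑ a, d a + S.card + Fintype.card A + 2 : ℕ) : Cardinal) ≤
      ((∑ a, Fintype.card (Ex (Fin (n + 1)) (d a)) + 2 * n + e : ℕ) : Cardinal) := by
  classical
  -- the monomials for the ratios
  have hex : ∀ a, ∃ I : Ex (Fin (n + 1)) (d a), coeff I.1 (H a) ≠ 0 ∧ (a ∈ S → ¬ Bin i0 i1 I.1) := by
    intro a
    by_cases ha : a ∈ S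
    · by_contra hcon
      push Not at hcon
      apply h0 a
      have h1 : ∀ I ∈ (H a).support, Bin i0 i1 I := by
        intro I hI
        have h2 : I.degree = d a := by
          rw [Finsupp.degree_eq_weight_one]
          exact hH a (mem_support_iff.1 hI)
        exact (hcon ⟨I, h2⟩ (mem_support_iff.1 hI)).2
      ext I
      rw [coeff_zero]
      by_contra hI
      have h2 : I.degree = d a := by
        rw [Finsupp.degree_eq_weight_one]
        exact hH a hI
      apply hI
      rw [coeff_bin hne hp0 hp1 hq0 hq1 (hH a) (hC a ha) (h1 I (mem_support_iff.2 hI)) h2,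
        Finset.sum_eq_zero, neg_zero]
      intro I' hI'
      rw [Finset.mem_filter] at hI'
      exact absurd (h1 I' hI'.1) hI'.2
    · obtain ⟨I, hI⟩ := MvPolynomial.ne_zero_iff.1 (h0 a)
      have h2 : I.degree = d a := by
        rw [Finsupp.degree_eq_weight_one]
        exact hH a hI
      exact ⟨⟨I, h2⟩, hI, fun h => absurd h ha⟩
  choose I0 hI0 hI0b using hex
  have hD' : ∀ b, ∃ (c : K) (g : MvPolynomial (Fin 2) K), c ≠ 0 ∧ (b ∉ S →
      rs p q (H b) = C c * g ∧
      ∀ E : IntermediateField k K, (∀ j, z j ∈ E) → ∀ m, coeff m g ∈ E) := by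
    intro b
    by_cases hb : b ∈ S
    · exact ⟨1, 0, one_ne_zero, fun h => absurd hb h⟩
    · obtain ⟨c, g, h1, h2, h3⟩ := hD b hb
      exact ⟨c, g, h1, fun _ => ⟨h2, h3⟩⟩
  choose c g hc0 hcg using hD'
  obtain ⟨π, hπ⟩ : ∃ π : A → K, ∀ a, π a = if a ∈ S then coeff (I0 a).1 (H a) else c a :=
    ⟨_, fun _ => rfl⟩
  have hπ0 : ∀ a, π a ≠ 0 := fun a => by
    rw [hπ]
    split_ifs
    · exact hI0 a
    · exact hc0 a
  obtain ⟨y, hy⟩ : ∃ y : ((({j : Fin (n + 1) // j ≠ i0 ∧ j ≠ i1} × Bool) ⊕ Fin e) ⊕ ((a : A) ×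
      {I : Ex (Fin (n + 1)) (d a) // ¬ Bin i0 i1 I.1 ∧ (a ∈ S → I ≠ I0 a)})) → K,
      y = Sum.elim (Sum.elim (fun j => if j.2 then p j.1 else q j.1) z)
        fun I => coeff I.2.1.1 (H I.1) / π I.1 := ⟨_, rfl⟩
  obtain ⟨E, hE⟩ : ∃ E, E = IntermediateField.adjoin k (Set.range y) := ⟨_, rfl⟩
  have hyE : ∀ i, y i ∈ E := fun i => by
    rw [hE]
    exact IntermediateField.subset_adjoin _ _ ⟨i, rfl⟩
  have hpE : ∀ j, p j ∈ E := by
    intro j
    by_cases hj0 : j = i0
    · rw [hj0, hp0]
      exact one_mem _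
    · by_cases hj1 : j = i1
      · rw [hj1, hp1]
        exact zero_mem _
      · have h1 := hyE (Sum.inl (Sum.inl (⟨j, hj0, hj1⟩, true)))
        rw [hy] at h1
        exact h1
  have hqE : ∀ j, q j ∈ E := by
    intro j
    by_cases hj0 : j = i0
    · rw [hj0, hq0]
      exact zero_mem _
    · by_cases hj1 : j = i1
      · rw [hj1, hq1]
        exact one_mem _
      · have h1 := hyE (Sum.inl (Sum.inl (⟨j, hj0, hj1⟩, false)))
        rw [hy] at h1
        exact h1
  have hzE : ∀ j, z j ∈ E := by
    intro j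
    have h1 := hyE (Sum.inl (Sum.inr j))
    rw [hy] at h1
    exact h1
  have hrsE : ∀ I m, coeff m (rs p q (monomial I 1)) ∈ E := by
    intro I m
    obtain ⟨p', hp'⟩ : ∃ p' : Fin (n + 1) → E, ∀ j, p' j = ⟨p j, hpE j⟩ := ⟨_, fun _ => rfl⟩
    obtain ⟨q', hq'⟩ : ∃ q' : Fin (n + 1) → E, ∀ j, q' j = ⟨q j, hqE j⟩ := ⟨_, fun _ => rfl⟩
    have h1 : rs p q (monomial I 1) = map (algebraMap E K) (rs p' q' (monomial I 1)) := by
      rw [rs, rs, aeval_monomial, aeval_monomial, map_one, one_mul, map_one, one_mul,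
        Finsupp.prod_fintype _ _ (fun i => pow_zero _),
        Finsupp.prod_fintype _ _ (fun i => pow_zero _), map_prod]
      refine Finset.prod_congr rfl fun j _ => ?_
      rw [map_pow, map_add, map_mul, map_mul, map_C, map_C, map_X, map_X, hp', hq']
      rfl
    rw [h1, coeff_map]
    exact (coeff m (rs p' q' (monomial I 1))).2
  have hnb : ∀ a, ∀ I : Ex (Fin (n + 1)) (d a), ¬ Bin i0 i1 I.1 →
      coeff I.1 (H a) / π a ∈ E := by
    intro a I hI
    by_cases h : a ∈ S ∧ I = I0 a
    · rw [h.2, hπ, if_pos h.1, div_self (hI0 a)]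
      exact one_mem _
    · rw [not_and] at h
      have h1 := hyE (Sum.inr ⟨a, I, hI, h⟩)
      rw [hy] at h1
      exact h1
  have hall : ∀ a, ∀ I : Fin (n + 1) →₀ ℕ, coeff I (H a) / π a ∈ E := by
    intro a I
    by_cases hz : coeff I (H a) = 0
    · rw [hz, zero_div]
      exact zero_mem _
    have h2 : I.degree = d a := by
      rw [Finsupp.degree_eq_weight_one]
      exact hH a hz
    by_cases h : Bin i0 i1 I
    · rw [coeff_bin' hne hp0 hp1 hq0 hq1 (hH a) h h2, sub_div, Finset.sum_div]
      refine sub_mem ?_ (sum_mem fun I' hI' => ?_)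
      · by_cases ha : a ∈ S
        · rw [hC a ha, coeff_zero, zero_div]
          exact zero_mem _
        · rw [(hcg a ha).1, coeff_C_mul, hπ, if_neg ha, mul_div_cancel_left₀ _ (hc0 a)]
          exact (hcg a ha).2 E hzE _
      · rw [Finset.mem_filter] at hI'
        have h3 : I'.degree = d a := by
          rw [Finsupp.degree_eq_weight_one]
          exact hH a (mem_support_iff.1 hI'.1)
        rw [mul_div_right_comm]
        exact mul_mem (hnb a ⟨I', h3⟩ hI'.2) (hrsE _ _)
    · exact hnb a ⟨I, h2⟩ h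
  have hle : F ≤ IntermediateField.adjoin k (Set.range y) := by
    refine hF.trans ?_
    rw [← hE, IntermediateField.adjoin_le_iff]
    rintro _ (⟨a, I, I', rfl⟩ | ⟨j, rfl⟩ | ⟨j, rfl⟩)
    · by_cases hz : coeff I' (H a) = 0
      · rw [hz, div_zero]
        exact zero_mem _
      · rw [← div_div_div_cancel_right₀ (hπ0 a)]
        exact div_mem (hall a I) (hall a I')
    · exact hpE j
    · exact hqE j
  have h1 := Pool.Agent.Run7.h621.FV.trdeg_le_card y _ hle
  -- the number of the generators
  have hc1 : Fintype.card {j : Fin (n + 1) // j ≠ i0 ∧ j ≠ i1} + 2 ≤ n + 1 := by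
    have h2 : Fintype.card {j : Fin (n + 1) // j ≠ i0 ∧ j ≠ i1} + Fintype.card Bool ≤
        Fintype.card (Fin (n + 1)) := by
      rw [← Fintype.card_sum]
      refine Fintype.card_le_of_injective
        (Sum.elim (fun j => j.1) fun b => if b then i0 else i1) ?_
      rintro (⟨j, hj⟩ | b) (⟨j', hj'⟩ | b') h
      · simp only [Sum.elim_inl] at h
        subst h
        rfl
      · simp only [Sum.elim_inl, Sum.elim_inr] at h
        cases b'
        · exact absurd h hj.2
        · exact absurd h hj.1
      · simp only [Sum.elim_inl, Sum.elim_inr] at h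
        cases b
        · exact absurd h.symm hj'.2
        · exact absurd h.symm hj'.1
      · simp only [Sum.elim_inr] at h
        cases b <;> cases b'
        · rfl
        · exact absurd h.symm hne
        · exact absurd h hne
        · rfl
    simpa using h2
  have hc2 : ∀ a, Fintype.card {I : Ex (Fin (n + 1)) (d a) // ¬ Bin i0 i1 I.1 ∧
      (a ∈ S → I ≠ I0 a)} + (if a ∈ S then 1 else 0) + d a + 1 ≤
      Fintype.card (Ex (Fin (n + 1)) (d a)) := by
    intro a
    by_cases ha : a ∈ S
    · rw [if_pos ha]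
      have h2 : Fintype.card {I : Ex (Fin (n + 1)) (d a) // ¬ Bin i0 i1 I.1 ∧
          (a ∈ S → I ≠ I0 a)} + Fintype.card (Option (Fin (d a + 1))) ≤
          Fintype.card (Ex (Fin (n + 1)) (d a)) := by
        rw [← Fintype.card_sum]
        refine Fintype.card_le_of_injective
          (Sum.elim (fun j => j.1) fun o => o.elim (I0 a) (bm hne (d a))) ?_
        rintro (⟨j, hj⟩ | (_ | i)) (⟨j', hj'⟩ | (_ | i')) h
        · simp only [Sum.elim_inl] at h
          subst h
          rfl
        · exact absurd h (hj.2 ha)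
        · simp only [Sum.elim_inl, Sum.elim_inr, Option.elim_some] at h
          exact absurd (by rw [h]; exact bm_bin hne _ _) hj.1
        · exact absurd h.symm (hj'.2 ha)
        · rfl
        · simp only [Sum.elim_inr, Option.elim_some, Option.elim_none] at h
          exact absurd (by rw [h]; exact bm_bin hne _ _) (hI0b a ha)
        · simp only [Sum.elim_inl, Sum.elim_inr, Option.elim_some] at h
          exact absurd (by rw [← h]; exact bm_bin hne _ _) hj'.1
        · simp only [Sum.elim_inr, Option.elim_some, Option.elim_none] at h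
          exact absurd (by rw [← h]; exact bm_bin hne _ _) (hI0b a ha)
        · simp only [Sum.elim_inr, Option.elim_some] at h
          have h3 : i = i' := by
            apply Fin.ext
            rw [← bm_i0 hne (d a) i, h, bm_i0]
          rw [h3]
      rw [Fintype.card_option, Fintype.card_fin] at h2
      omega
    · rw [if_neg ha, add_zero]
      have h2 : Fintype.card {I : Ex (Fin (n + 1)) (d a) // ¬ Bin i0 i1 I.1 ∧
          (a ∈ S → I ≠ I0 a)} + Fintype.card (Fin (d a + 1)) ≤
          Fintype.card (Ex (Fin (n + 1)) (d a)) := by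
        rw [← Fintype.card_sum]
        refine Fintype.card_le_of_injective
          (Sum.elim (fun j => j.1) (bm hne (d a))) ?_
        rintro (⟨j, hj⟩ | i) (⟨j', hj'⟩ | i') h
        · simp only [Sum.elim_inl] at h
          subst h
          rfl
        · simp only [Sum.elim_inl, Sum.elim_inr] at h
          exact absurd (by rw [h]; exact bm_bin hne _ _) hj.1
        · simp only [Sum.elim_inl, Sum.elim_inr] at h
          exact absurd (by rw [← h]; exact bm_bin hne _ _) hj'.1
        · simp only [Sum.elim_inr] at h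
          have h3 : i = i' := by
            apply Fin.ext
            rw [← bm_i0 hne (d a) i, h, bm_i0]
          rw [h3]
      rw [Fintype.card_fin] at h2
      omega
  rw [Fintype.card_sum, Fintype.card_sum, Fintype.card_prod, Fintype.card_bool, Fintype.card_fin,
    Fintype.card_sigma] at h1
  have hc3 : ∑ a, Fintype.card {I : Ex (Fin (n + 1)) (d a) // ¬ Bin i0 i1 I.1 ∧
      (a ∈ S → I ≠ I0 a)} + S.card + ∑ a, d a + Fintype.card A ≤
      ∑ a, Fintype.card (Ex (Fin (n + 1)) (d a)) := by
    have h2 := Finset.sum_le_sum fun a (_ : a ∈ Finset.univ) => hc2 a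
    rw [Finset.sum_add_distrib, Finset.sum_add_distrib, Finset.sum_add_distrib,
      Finset.sum_ite_mem, Finset.univ_inter, Finset.sum_const, Finset.sum_const, Finset.card_univ,
      smul_eq_mul, smul_eq_mul, mul_one, mul_one] at h2
    exact h2
  refine (add_le_add_left h1 _).trans ?_
  rw [← Nat.cast_add, Nat.cast_le]
  omega

end Pool.Agent.Run7.h621.LG
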