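import Pool.Agent.W602.GT.Sys

/-!
The elements killed by all derivations.
-/

set_option autoImplicit false

namespace Pool.Agent.Run7.h621.LG

open Pool.Agent.W602.GT

/-- The elements that are killed by all derivations are constants. -/
theorem const_of_ders {K L : Type} [Field K] [Field L] [Algebra K L] [IsAlgClosed K] [CharZero K]
    {w : ℕ} (htr : Algebra.trdeg K L = w) {z : L} (h : ∀ D : Derivation K L L, D z = 0) :
    ∃ r : K, z = algebraMap K L r := by
  classical
  by_cases hz : IsAlgebraic K z
  · have h2 := IsAlgClosed.degree_eq_one_of_irreducible K (minpoly.irreducible hz.isIntegral)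
    obtain ⟨c, hc⟩ := minpoly.mem_range_of_degree_eq_one K z h2
    exact ⟨c, hc.symm⟩
  · exfalso
    have h1 : AlgebraicIndepOn K id ({z} : Set L) := by
      have h2 : Transcendental K z := hz
      rw [AlgebraicIndepOn, algebraicIndependent_unique_type_iff]
      exact h2
    obtain ⟨t, hzt, ht⟩ := exists_isTranscendenceBasis_superset h1
    have h2 := ht.cardinalMk_eq_trdeg
    rw [htr] at h2
    obtain ⟨φ⟩ : Nonempty (Fin w ≃ t) := by
      rw [← Cardinal.eq, Cardinal.mk_fin]
      exact h2.symm
    obtain ⟨D, hD⟩ := exists_dual (ht.comp_equiv φ)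
    obtain ⟨i, hi⟩ := φ.surjective ⟨z, hzt rfl⟩
    have h3 := congrFun (congrFun hD i) i
    rw [Matrix.of_apply, Matrix.one_apply_eq] at h3
    have h4 : (((fun x : t => (x : L)) ∘ φ) i : L) = z := by
      change ((φ i : t) : L) = z
      rw [hi]
    have h5 := h (D i)
    rw [← h4] at h5
    exact one_ne_zero (h3.symm.trans h5)

end Pool.Agent.Run7.h621.LG
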