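import Pool.Agent.Run7.h621.LG.LogFinal
import Pool.Agent.Run7.h621.MP.Curve

/-!
The degrees of curves on logarithmic pairs that are not lines.
-/

set_option autoImplicit false
set_option linter.unusedSectionVars false

open MvPolynomial FF Pool.Agent.W603.LV Pool.Agent.W603.PV Pool.Agent.TH145.GH
open Pool.Agent.W602.GT Pool.Agent.TH145.GF Pool.Agent.TH145.MG
open Pool.Agent.Run7.h621.FV (cd coeff_cd exists_tb)
open Pool.Agent.Run7.h621.NG (Bt cj)
open Pool.Agent.Run7.h621.MP (Vr sc ph Norm exists_norm ph_nonneg ge_ph IsMulti mcoords NF NF_multi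
  map_NF ph_const MDimLE PrDimLE form_eq aeval_sc reg_unif log_unif alg_of_mem)

namespace Pool.Agent.Run7.h621.LG

variable {k0 A : Type} [Field k0] {n : Unit → ℕ} {J : A → Type}
  [∀ a, Fintype (J a)] {P : ∀ a, J a → MvPolynomial (Vr n) k0} {j0 : ∀ a, J a}

/-- The degree inequality for curves. -/
theorem curve_chart {K L : Type} [Field K] [Field L] [Algebra k0 K] [Algebra K L]
    [IsAlgClosed K] [CharZero K] [IsFF K L] [Fintype A] [DecidableEq A]
    {dg : A → Unit → ℕ} (hP : ∀ a j, IsMulti (P a j) (dg a)) (C : Finset A)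
    {V : Set (MvPolynomial (Vr n) k0)} {m s : ℕ} {mi : Unit → ℕ} (hV : MDimLE k0 V m)
    (hVi : ∀ i, PrDimLE k0 V i (mi i))
    {c0 : ∀ i, Fin (n i + 1)} (hSt : ∀ a I, Dg I (dg a) → ∃ j', P a j' = monomial I 1)
    (hinj : ∀ a j j', P a j = P a j' → j = j')
    (hmo : ∀ a j, ∃ I, Dg I (dg a) ∧ P a j = monomial I 1)
    {c : Bt j0 → K} {B : Set (Bt j0)} (hB : Nat.card {b : Bt j0 // b ∉ B} ≤ s)
    {q0 : ℕ} (hq0 : q0 = 0 ∨ (Fintype.card A + 2 * q0 ≤ Nat.card {b : Bt j0 // b ∉ B} ∧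
      Fintype.card A + 4 * q0 ≤ Nat.card {b : Bt j0 // b ∉ B} + 3))
    (hind : AlgebraicIndependent k0 fun b : B => c b)
    {x : Vr n → L} (hx : ∀ i, x ⟨i, c0 i⟩ = 1) {p0 : Vr n} (hp0 : Transcendental K (x p0))
    (hxV : ∀ f ∈ V, aeval x (map (algebraMap k0 K) f) = 0)
    {F : A → MvPolynomial (Vr n) K} (hF : ∀ a, F a = NF P j0 c a)
    (hC : ∀ a ∈ C, aeval x (F a) = 0) (hBd : ∀ a, a ∉ C → aeval x (F a) ≠ 0) :
    {Q : Place K L | ∃ b, b ∉ C ∧
      ∑ i, (dg b i : ℤ) * pord Q (fun j => x ⟨i, j⟩) < Q.ord (aeval x (F b))}.Finite ∧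
    (OnLine K x ∨ num C dg mi 1 m s q0 * pht K (fun j => x ⟨(), j⟩) ≤ canDeg K L +
      {Q : Place K L | ∃ b, b ∉ C ∧
        ∑ i, (dg b i : ℤ) * pord Q (fun j => x ⟨i, j⟩) < Q.ord (aeval x (F b))}.ncard) := by
  classical
  let _ : Algebra k0 L := ((algebraMap K L).comp (algebraMap k0 K)).toAlgebra
  have hst : IsScalarTower k0 K L := IsScalarTower.of_algebraMap_eq fun _ => rfl
  have hx0 : ∀ i, ∃ j, x ⟨i, j⟩ ≠ 0 := fun i => ⟨c0 i, by rw [hx]; exact one_ne_zero⟩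
  have hxV' : ∀ f ∈ V, aeval x f = 0 := by
    intro f hf
    have h1 := hxV f hf
    rwa [aeval_map_algebraMap] at h1
  have hev : ∀ a, aeval x (F a) = eval x (map (algebraMap K L) (F a)) := fun a => by
    rw [eval_map, aeval_def]
  have hgen : Algebra.IsAlgebraic (IntermediateField.adjoin K (Set.range x)) L :=
    alg_of_mem ⟨p0, rfl⟩ hp0
  have htr : Algebra.trdeg K L = (1 : ℕ) := by
    rw [IsFF.trdeg, Nat.cast_one]
  obtain ⟨Bd, hBdd⟩ : ∃ Bd : Set (Place K L), Bd = {Q : Place K L | ∃ b, b ∉ C ∧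
      ∑ i, (dg b i : ℤ) * pord Q (fun j => x ⟨i, j⟩) < Q.ord (aeval x (F b))} := ⟨_, rfl⟩
  rw [← hBdd]
  have hpf : ∀ i, {Q : Place K L | pord Q (fun j => x ⟨i, j⟩) ≠ 0}.Finite := fun i =>
    pord_finite (k := K) (hx0 i)
  have hBfin : Bd.Finite := by
    have h1 : (⋃ a : A, {Q : Place K L | Q.ord (aeval x (F a)) ≠ 0}).Finite :=
      Set.finite_iUnion fun a => finite_support (k := K) _
    have h2 : (⋃ i : Unit, {Q : Place K L | pord Q (fun j => x ⟨i, j⟩) ≠ 0}).Finite :=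
      Set.finite_iUnion hpf
    refine (h1.union h2).subset fun Q hQ => ?_
    rw [hBdd] at hQ
    obtain ⟨b, -, hQ⟩ := hQ
    by_contra hcon
    rw [Set.mem_union, not_or, Set.mem_iUnion, Set.mem_iUnion, not_exists, not_exists] at hcon
    have h3 : Q.ord (aeval x (F b)) = 0 := not_not.1 (hcon.1 b)
    have h4 : ∀ i, pord Q (fun j => x ⟨i, j⟩) = 0 := fun i => not_not.1 (hcon.2 i)
    rw [h3, Finset.sum_eq_zero fun i _ => by rw [h4 i, mul_zero]] at hQ
    exact lt_irrefl _ hQ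
  refine ⟨hBfin, ?_⟩
  rcases core_forms (c := c) (w := 1)
    (F := fun a => map (algebraMap K L) (F a))
    (s := s) hP C hSt hinj hmo one_pos hB hq0 hind htr hx hgen
    (hV L x hx0 hxV') (fun i => hVi i L x hx0 hxV') (fun a => by rw [hF])
    (fun a ha => by rw [← hev]; exact hC a ha) (fun a ha => by rw [← hev]; exact hBd a ha) with
    ⟨p1, la, μ, hline⟩ | ⟨Δ, l, E', hl, hΔE, hlin, hΔ⟩
  · left
    refine ⟨la, μ, x p1, 1, fun p => ?_⟩
    rw [hline p, one_mul, mul_comm]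
  right
  obtain ⟨E, hE⟩ : ∃ E, E = E' 0 := ⟨_, rfl⟩
  have hmul : ∀ h : L, Δ (fun _ => h • E) = h * Δ E' := by
    intro h
    rw [hlin (Matrix.of fun _ _ => h) (fun _ => h • E) E' fun i f => by
      rw [Fintype.sum_unique, Derivation.coe_smul, Pi.smul_apply, smul_eq_mul, hE]
      rfl]
    rw [Matrix.det_fin_one, Matrix.of_apply]
  have hE0 : E ≠ 0 := by
    intro h
    apply hΔE
    have h1 : E' = fun _ => (0 : L) • E := by
      funext i
      rw [Subsingleton.elim i 0, ← hE, h, smul_zero]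
    rw [h1, hmul, zero_mul]
  obtain ⟨S, hS⟩ : ∃ S : Place K L → ℤ, ∀ Q, S Q = num C dg mi 1 m s q0 * ph Q x () :=
    ⟨_, fun _ => rfl⟩
  have hπ0 : ∀ Q : Place K L, unif Q ≠ 0 := by
    intro Q h
    have := ord_unif Q
    rw [h, Q.ord_zero] at this
    omega
  have hloc : ∀ Q : Place K L, S Q + vo Q E - (if Q ∈ Bd then 1 else 0) ≤ Q.ord (Δ E') := by
    intro Q
    have h0 := der_pi_ne_zero hE0 Q (ord_unif Q)
    have hv : Q.ord (E (unif Q)) = vo Q E := rfl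
    split_ifs with hQ
    · have h1 := hΔ Q (divisorial_one Q) (fun _ => (unif Q * (E (unif Q))⁻¹) • E)
        (Or.inl fun _ => log_unif Q hE0)
      rw [hmul, ← hS] at h1
      have h2 := h1.resolve_left (mul_ne_zero (mul_ne_zero (hπ0 Q) (inv_ne_zero h0)) hΔE)
      rw [Q.ord_mul (mul_ne_zero (hπ0 Q) (inv_ne_zero h0)) hΔE, Q.ord_mul (hπ0 Q) (inv_ne_zero h0),
        Q.ord_inv, ord_unif, hv] at h2
      linarith
    · have h1 := hΔ Q (divisorial_one Q) (fun _ => (E (unif Q))⁻¹ • E)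
        (Or.inr ⟨fun _ => reg_unif Q hE0, fun b hb h => hQ (by
          rw [hBdd]
          exact ⟨b, hb, by rwa [hev]⟩)⟩)
      rw [hmul, ← hS] at h1
      have h2 := h1.resolve_left (mul_ne_zero (inv_ne_zero h0) hΔE)
      rw [Q.ord_mul (inv_ne_zero h0) hΔE, Q.ord_inv, hv] at h2
      linarith
  obtain ⟨T, hT⟩ : ∃ T : Finset (Place K L), T = (finite_support (k := K) (Δ E')).toFinset ∪
    ((vo_finite hE0).toFinset ∪ (hBfin.toFinset ∪ Finset.univ.biUnion fun i =>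
      (hpf i).toFinset)) := ⟨_, rfl⟩
  have hs1 : ∑ Q ∈ T, Q.ord (Δ E') = 0 := sum_ord_finset _ _ fun Q hQ => by
    rw [hT]
    exact Finset.mem_union_left _ ((Set.Finite.mem_toFinset _).2 hQ)
  have hs2 : ∑ Q ∈ T, vo Q E = - canDeg K L := canDeg_finset hE0 T fun Q hQ => by
    rw [hT]
    exact Finset.mem_union_right _ (Finset.mem_union_left _ ((Set.Finite.mem_toFinset _).2 hQ))
  have hs3 : ∑ Q ∈ T, (if Q ∈ Bd then (1 : ℤ) else 0) = Bd.ncard := by
    rw [← Finset.sum_filter, Finset.sum_const, nsmul_eq_mul, mul_one,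
      Set.ncard_eq_toFinset_card Bd hBfin]
    congr 2
    ext Q
    rw [Finset.mem_filter, Set.Finite.mem_toFinset]
    constructor
    · exact fun h => h.2
    · intro h
      refine ⟨?_, h⟩
      rw [hT]
      exact Finset.mem_union_right _ (Finset.mem_union_right _ (Finset.mem_union_left _
        ((Set.Finite.mem_toFinset _).2 h)))
  have hs4 : ∑ Q ∈ T, S Q = num C dg mi 1 m s q0 * pht K (fun j => x ⟨(), j⟩) := by
    simp only [hS]
    rw [← Finset.mul_sum]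
    congr 1
    unfold pht
    rw [finsum_eq_sum_of_support_subset (s := T), ← Finset.sum_neg_distrib]
    · rfl
    · intro Q hQ
      rw [hT]
      exact Finset.mem_union_right _ (Finset.mem_union_right _ (Finset.mem_union_right _
        (Finset.mem_biUnion.2 ⟨(), Finset.mem_univ _, (Set.Finite.mem_toFinset _).2 hQ⟩)))
  have hs5 := Finset.sum_le_sum (s := T) fun Q _ => hloc Q
  rw [Finset.sum_sub_distrib, Finset.sum_add_distrib, hs1, hs2, hs3, hs4] at hs5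
  linarith

/-- The degree inequality for curves. -/
theorem curve_sub {K L : Type} [Field K] [Field L] [Algebra k0 K] [Algebra K L]
    [IsAlgClosed K] [CharZero K] [IsFF K L] [Fintype A] [DecidableEq A]
    {dg : A → Unit → ℕ} (hP : ∀ a j, IsMulti (P a j) (dg a)) (C : Finset A)
    {V : Set (MvPolynomial (Vr n) k0)} (hVh : ∀ f ∈ V, ∃ d, IsMulti f d)
    {m s : ℕ} {mi : Unit → ℕ} (hV : MDimLE k0 V m)
    (hVi : ∀ i, PrDimLE k0 V i (mi i))
    {c0 : ∀ i, Fin (n i + 1)} (hSt : ∀ a I, Dg I (dg a) → ∃ j', P a j' = monomial I 1)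
    (hinj : ∀ a j j', P a j = P a j' → j = j')
    (hmo : ∀ a j, ∃ I, Dg I (dg a) ∧ P a j = monomial I 1)
    (t : ∀ a, J a → K) (h0 : ∀ a, t a (j0 a) ≠ 0)
    {B : Set (Bt j0)} (hB : Nat.card {b : Bt j0 // b ∉ B} ≤ s)
    {q0 : ℕ} (hq0 : q0 = 0 ∨ (Fintype.card A + 2 * q0 ≤ Nat.card {b : Bt j0 // b ∉ B} ∧
      Fintype.card A + 4 * q0 ≤ Nat.card {b : Bt j0 // b ∉ B} + 3))
    (hind : AlgebraicIndependent k0 fun p : B => t p.1.1 p.1.2.1 / t p.1.1 (j0 p.1.1))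
    {F : A → MvPolynomial (Vr n) K}
    (hF : ∀ a, F a = ∑ j, MvPolynomial.C (t a j) * map (algebraMap k0 K) (P a j))
    {x : Vr n → L} (hx : ∀ i, x ⟨i, c0 i⟩ ≠ 0)
    (hnc : ∃ (i : Unit) (j l : Fin (n i + 1)), Transcendental K (x ⟨i, j⟩ / x ⟨i, l⟩))
    (hxV : ∀ f ∈ V, aeval x (map (algebraMap k0 K) f) = 0)
    (hC : ∀ a ∈ C, aeval x (F a) = 0) (hBd : ∀ a, a ∉ C → aeval x (F a) ≠ 0) :
    {Q : Place K L | ∃ b, b ∉ C ∧
      ∑ i, (dg b i : ℤ) * pord Q (fun j => x ⟨i, j⟩) < Q.ord (aeval x (F b))}.Finite ∧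
    (OnLine K x ∨ num C dg mi 1 m s q0 * pht K (fun j => x ⟨(), j⟩) ≤ canDeg K L +
      {Q : Place K L | ∃ b, b ∉ C ∧
        ∑ i, (dg b i : ℤ) * pord Q (fun j => x ⟨i, j⟩) < Q.ord (aeval x (F b))}.ncard) := by
  obtain ⟨lam, hlam⟩ : ∃ lam : Unit → L, ∀ i, lam i = x ⟨i, c0 i⟩ := ⟨_, fun _ => rfl⟩
  have hl : ∀ i, lam i ≠ 0 := fun i => by rw [hlam]; exact hx i
  obtain ⟨x', hx'⟩ : ∃ x' : Vr n → L, x' = sc (fun i => (lam i)⁻¹) x := ⟨_, rfl⟩
  have hxx : x = sc lam x' := by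
    funext p
    rw [hx']
    change x p = lam p.1 * ((lam p.1)⁻¹ * x p)
    rw [mul_inv_cancel_left₀ (hl _)]
  have hx1 : ∀ i, x' ⟨i, c0 i⟩ = 1 := fun i => by
    rw [hx']
    change (lam i)⁻¹ * x ⟨i, c0 i⟩ = 1
    rw [← hlam, inv_mul_cancel₀ (hl i)]
  obtain ⟨c, hc⟩ : ∃ c : Bt j0 → K, ∀ p, c p = t p.1 p.2.1 / t p.1 (j0 p.1) := ⟨_, fun _ => rfl⟩
  have hc' : c = fun p : Bt j0 => t p.1 p.2.1 / t p.1 (j0 p.1) := funext hc
  have hFa : ∀ a, F a = MvPolynomial.C (t a (j0 a)) * NF P j0 c a := fun a => by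
    rw [hF, form_eq t h0, ← hc']
  have hFx : ∀ a, aeval x (F a) = algebraMap K L (t a (j0 a)) * ((∏ i, lam i ^ dg a i) *
      aeval x' (NF P j0 c a)) := fun a => by
    rw [hFa, map_mul, aeval_C]
    congr 1
    conv_lhs => rw [hxx]
    exact aeval_sc (NF_multi hP c a) lam x'
  have ht0 : ∀ a, algebraMap K L (t a (j0 a)) ≠ 0 := fun a h => h0 a ((map_eq_zero _).1 h)
  have hl0 : ∀ a, (∏ i, lam i ^ dg a i) ≠ 0 := fun a =>
    Finset.prod_ne_zero_iff.2 fun i _ => pow_ne_zero _ (hl i)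
  have hxe : ∀ i, (fun j => x ⟨i, j⟩) = fun j => lam i * x' ⟨i, j⟩ := by
    intro i
    funext j
    rw [hxx]
    rfl
  have hpo : ∀ (Q : Place K L) i, pord Q (fun j => x ⟨i, j⟩) =
      Q.ord (lam i) + pord Q (fun j => x' ⟨i, j⟩) := by
    intro Q i
    rw [hxe]
    exact Pool.Agent.W603.PV.pord_scale Q (f := fun j => x' ⟨i, j⟩) ⟨c0 i, by
      rw [hx1]; exact one_ne_zero⟩ (hl i)
  have hph : ∀ i, pht K (fun j => x ⟨i, j⟩) = pht K (fun j => x' ⟨i, j⟩) := by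
    intro i
    rw [hxe]
    exact pht_scale (f := fun j => x' ⟨i, j⟩) ⟨c0 i, by
      rw [hx1]; exact one_ne_zero⟩ (hl i)
  obtain ⟨p0, hp0⟩ : ∃ p0, Transcendental K (x' p0) := by
    obtain ⟨i, j, l, h⟩ := hnc
    by_contra hcon
    push Not at hcon
    apply h
    have h1 : ∀ p, IsAlgebraic K (x' p) := fun p => not_not.1 (hcon p)
    have h2 : x ⟨i, j⟩ / x ⟨i, l⟩ = x' ⟨i, j⟩ / x' ⟨i, l⟩ := by
      rw [hxx]
      change lam i * x' ⟨i, j⟩ / (lam i * x' ⟨i, l⟩) = _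
      rw [mul_div_mul_left _ _ (hl i)]
    rw [h2, div_eq_mul_inv]
    exact (h1 _).mul (h1 _).inv
  have h1 := curve_chart (c := c) hP C hV hVi hSt hinj hmo hB hq0 (by simpa only [hc] using hind) hx1 hp0
    (fun f hf => by
      obtain ⟨d, hd⟩ := hVh f hf
      rw [hx', aeval_sc (hd.map _), hxV f hf, mul_zero]) (F := NF P j0 c) (fun _ => rfl)
    (fun a ha => by
      have h2 := hC a ha
      rw [hFx] at h2
      exact (mul_eq_zero.1 ((mul_eq_zero.1 h2).resolve_left (ht0 a))).resolve_left (hl0 a))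
    (fun a ha h2 => hBd a ha (by rw [hFx, h2, mul_zero, mul_zero]))
  have h2 : {Q : Place K L | ∃ b, b ∉ C ∧
      ∑ i, (dg b i : ℤ) * pord Q (fun j => x ⟨i, j⟩) < Q.ord (aeval x (F b))} =
      {Q : Place K L | ∃ b, b ∉ C ∧
      ∑ i, (dg b i : ℤ) * pord Q (fun j => x' ⟨i, j⟩) < Q.ord (aeval x' (NF P j0 c b))} := by
    ext Q
    refine exists_congr fun b => and_congr_right fun hb => ?_
    have h3 : aeval x' (NF P j0 c b) ≠ 0 := by
      intro h
      apply hBd b hb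
      rw [hFx, h, mul_zero, mul_zero]
    rw [hFx, Q.ord_mul (ht0 b) (mul_ne_zero (hl0 b) h3), Q.ord_const (h0 b), zero_add,
      Q.ord_mul (hl0 b) h3, Pool.Agent.TH145.GC.ord_prod Q _ _ fun i _ =>
        pow_ne_zero _ (hl i)]
    simp only [hpo, mul_add, Finset.sum_add_distrib, Q.ord_pow]
    constructor
    · intro h; linarith
    · intro h; linarith
  rw [h2, hph]
  refine ⟨h1.1, ?_⟩
  rcases h1.2 with ⟨p, q, u, v, h⟩ | h1
  · left
    refine ⟨p, q, lam () * u, lam () * v, fun i => ?_⟩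
    rw [hxx]
    change lam i.1 * x' i = _
    rw [h]
    change lam () * _ = _
    ring
  exact Or.inr h1

end Pool.Agent.Run7.h621.LG
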