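import Pool.Agent.Run7.h621.LG.Stm

/-!
Families of lines.
-/

set_option autoImplicit false

namespace Pool.Agent.Run7.h621.LG

open MvPolynomial Pool.Agent.W603.LV Pool.Agent.W603.PV Pool.Agent.W602.GT Pool.Agent.TH145.MG
open Pool.Agent.Run7.h621.FV (Ex)
open Pool.Agent.Run7.h621.NG (Bt)

variable {n : ℕ}

section

variable {k K Ω : Type} [Field k] [Field K] [Field Ω] [Algebra k K] [Algebra K Ω] {A : Type}
  [Fintype A] {H : A → MvPolynomial (Fin (n + 1)) K} {d : A → ℕ} {s : ℕ}

/-- The dimension of the families of lines. -/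
theorem family (h : ConditionsLE k H d s) (C : Finset A) {i0 i1 : Fin (n + 1)} (hne : i0 ≠ i1)
    {p q : Fin (n + 1) → Ω} (hp0 : p i0 = 1) (hp1 : p i1 = 0) (hq0 : q i0 = 0) (hq1 : q i1 = 1)
    (hC : ∀ a ∈ C, rs p q (map (algebraMap K Ω) (H a)) = 0) {f : ℕ}
    (hf : Algebra.trdeg K (IntermediateField.adjoin K (Set.range (Sum.elim p q))) = f) :
    ∑ a ∈ C, (d a + 1) + f + 2 ≤ s + 2 * n := by
  classical
  let _ : Algebra k Ω := ((algebraMap K Ω).comp (algebraMap k K)).toAlgebra
  have hst : IsScalarTower k K Ω := IsScalarTower.of_algebraMap_eq fun _ => rfl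
  obtain ⟨y, hy⟩ : ∃ y : Fin (n + 1) ⊕ Fin (n + 1) → Ω, y = Sum.elim p q := ⟨_, rfl⟩
  rw [← hy] at hf
  obtain ⟨M, hM⟩ : ∃ M, M = IntermediateField.adjoin K (Set.range y) := ⟨_, rfl⟩
  rw [← hM] at hf
  have hyM : ∀ i, y i ∈ M := fun i => by
    rw [hM]
    exact IntermediateField.subset_adjoin _ _ ⟨i, rfl⟩
  obtain ⟨y', hy'⟩ : ∃ y' : Fin (n + 1) ⊕ Fin (n + 1) → M, ∀ i, y' i = ⟨y i, hyM i⟩ :=
    ⟨_, fun _ => rfl⟩
  have htop : IntermediateField.adjoin K (Set.range y') = ⊤ := by
    apply IntermediateField.lift_injective M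
    rw [IntermediateField.lift_adjoin, IntermediateField.lift_top, ← Set.range_comp]
    have h1 : (Subtype.val ∘ y' : _ → Ω) = y := by
      funext b
      rw [Function.comp_apply, hy']
    rw [h1, hM]
  have halg : Algebra.IsAlgebraic (IntermediateField.adjoin K (Set.range y')) M := by
    rw [htop]
    exact ⟨fun z => isAlgebraic_algebraMap (⟨z, trivial⟩ : (⊤ : IntermediateField K M))⟩
  obtain ⟨l, hl⟩ := Pool.Agent.Run7.h621.FV.exists_tb hf halg
  have hT : AlgebraicIndependent K fun i => y (l i) := by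
    have h1 := hl.1.map' (f := M.val) (RingHom.injective _)
    have h2 : (⇑M.val ∘ fun i => y' (l i)) = fun i => y (l i) := by
      funext i
      rw [Function.comp_apply, hy']
      rfl
    rwa [h2] at h1
  obtain ⟨I0, hI0⟩ := exists_base h
  obtain ⟨B, hB, hBs, -⟩ := exists_B h I0 hI0
  have hS := hB.sumElim_comp hT
  obtain ⟨F, hF⟩ : ∃ F : IntermediateField k Ω, F = IntermediateField.adjoin k
    ({z | ∃ a I I', z = coeff I (map (algebraMap K Ω) (H a)) /
      coeff I' (map (algebraMap K Ω) (H a))} ∪ (Set.range p ∪ Set.range q)) := ⟨_, rfl⟩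
  have hmem : ∀ i, Sum.elim (fun i => y (l i)) (algebraMap K Ω ∘ fun p : B =>
      coeff p.1.2.1.1 (H p.1.1) / coeff (I0 p.1.1).1 (H p.1.1)) i ∈ F := by
    rintro (i | b)
    · rw [Sum.elim_inl, hF, hy]
      refine IntermediateField.subset_adjoin _ _ (Or.inr ?_)
      rcases l i with j | j
      · exact Or.inl ⟨j, rfl⟩
      · exact Or.inr ⟨j, rfl⟩
    · rw [Sum.elim_inr, hF]
      refine IntermediateField.subset_adjoin _ _ (Or.inl ⟨b.1.1, b.1.2.1.1, (I0 b.1.1).1, ?_⟩)
      rw [Function.comp_apply, map_div₀, coeff_map, coeff_map]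
  have h1 : AlgebraicIndependent k fun i => (⟨_, hmem i⟩ : F) :=
    AlgebraicIndependent.of_comp F.val hS
  have h2 := h1.cardinalMk_le_trdeg
  have h3 := line_count (k := k) (K := Ω) (H := fun a => map (algebraMap K Ω) (H a))
    (fun a => ((h.1 a).2).map _) (fun a h0 => (h.1 a).1 (by
      apply map_injective (algebraMap K Ω) (algebraMap K Ω).injective
      rw [h0, map_zero])) C hne hp0 hp1 hq0 hq1 hC (F := F) hF.le
  have h4 : ∑ a, Fintype.card (Ex (Fin (n + 1)) (d a)) =
      ∑ a, ((d a + n).choose n - 1) + Fintype.card A := by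
    rw [Fintype.card_eq_sum_ones, ← Finset.sum_add_distrib]
    refine Finset.sum_congr rfl fun a _ => ?_
    rw [card_Ex]
    have : 0 < (d a + n).choose n := Nat.choose_pos (by omega)
    omega
  rw [h4] at h3
  have h5 : Nat.card {b : Bt I0 // b ∉ B} + Fintype.card B = Nat.card (Bt I0) := by
    rw [Nat.card_eq_fintype_card, Nat.card_eq_fintype_card, Fintype.card_subtype_compl]
    have h4 : Fintype.card B ≤ Fintype.card (Bt I0) := Fintype.card_subtype_le _
    exact Nat.sub_add_cancel h4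
  rw [card_Bt] at h5
  rw [Cardinal.mk_sum, Cardinal.lift_id, Cardinal.lift_id, Cardinal.mk_fin, Cardinal.mk_fintype,
    ← Nat.cast_add] at h2
  have h6 := (add_le_add_left h2 _).trans h3
  rw [← Nat.cast_add, Nat.cast_le] at h6
  omega

/-- The union of the lines. -/
theorem through (h : ConditionsLE k H d s) (C : Finset A) {p r : Fin (n + 1) → Ω} [Infinite Ω]
    (hl : LinearIndependent Ω ![p, r])
    (hC : ∀ a ∈ C, ∀ u v : Ω, aeval (fun i => u * p i + v * r i) (H a) = 0)
    {x : Fin (n + 1) → Ω} {u v : Ω} (hx : ∀ i, x i = u * p i + v * r i) {w : ℕ}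
    (hw : (w : Cardinal) ≤ Algebra.trdeg K (coords K x)) :
    ∑ a ∈ C, (d a + 1) + w + 1 ≤ s + 2 * n := by
  classical
  have h1 : Module.finrank Ω (Submodule.span Ω (Set.range ![p, r])) = 2 := by
    rw [finrank_span_eq_card hl, Fintype.card_fin]
  obtain ⟨i0, i1, p', r', hne, hp, hr, hp0, hp1, hr0, hr1⟩ := exists_nbasis h1
  have hmem : ∀ z ∈ Submodule.span Ω (Set.range ![p, r]), ∃ u v : Ω, z = fun i =>
      u * p i + v * r i := by
    intro z hz
    rw [Matrix.range_cons, Matrix.range_cons, Matrix.range_empty, Set.union_empty,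
      Set.singleton_union, Submodule.mem_span_pair] at hz
    obtain ⟨u, v, rfl⟩ := hz
    exact ⟨u, v, rfl⟩
  have h2 : ∀ a ∈ C, rs p' r' (map (algebraMap K Ω) (H a)) = 0 := by
    intro a ha
    refine MvPolynomial.funext fun w => ?_
    have h3 : w = ![w 0, w 1] := by
      funext i
      fin_cases i <;> rfl
    rw [h3, rs_eval, map_zero]
    obtain ⟨u, v, huv⟩ := hmem (w 0 • p' + w 1 • r')
      (Submodule.add_mem _ (Submodule.smul_mem _ _ hp) (Submodule.smul_mem _ _ hr))
    have h4 : (fun i => w 0 * p' i + w 1 * r' i) = fun i => u * p i + v * r i := huv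
    rw [h4, eval_map]
    exact hC a ha u v
  -- the point in the new coordinates
  have hpr : ∀ z ∈ Submodule.span Ω (Set.range ![p, r]), ∀ i, z i = z i0 * p' i + z i1 * r' i := by
    have h3 : Submodule.span Ω (Set.range ![p', r']) = Submodule.span Ω (Set.range ![p, r]) := by
      have hl' : LinearIndependent Ω ![p', r'] := by
        rw [LinearIndependent.pair_iff]
        intro a b hab
        have h4 := congrFun hab i0
        have h5 := congrFun hab i1
        simp only [Pi.add_apply, Pi.smul_apply, smul_eq_mul, Pi.zero_apply, hp0, hp1, hr0, hr1,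
          mul_one, mul_zero, add_zero, zero_add] at h4 h5
        exact ⟨h4, h5⟩
      have : FiniteDimensional Ω (Submodule.span Ω (Set.range ![p, r])) :=
        FiniteDimensional.span_of_finite Ω (Set.finite_range _)
      refine Submodule.eq_of_le_of_finrank_eq ?_ ?_
      · rw [Submodule.span_le]
        rintro _ ⟨i, rfl⟩
        fin_cases i
        · exact hp
        · exact hr
      · rw [h1, finrank_span_eq_card hl', Fintype.card_fin]
    intro z hz i
    rw [← h3, Matrix.range_cons, Matrix.range_cons, Matrix.range_empty, Set.union_empty,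
      Set.singleton_union, Submodule.mem_span_pair] at hz
    obtain ⟨a, b, rfl⟩ := hz
    simp only [Pi.add_apply, Pi.smul_apply, smul_eq_mul, hp0, hp1, hr0, hr1, mul_one, mul_zero,
      add_zero, zero_add]
  have hxs : x ∈ Submodule.span Ω (Set.range ![p, r]) := by
    have h3 : x = u • p + v • r := funext hx
    rw [h3]
    exact Submodule.add_mem _
      (Submodule.smul_mem _ _ (Submodule.subset_span ⟨0, rfl⟩))
      (Submodule.smul_mem _ _ (Submodule.subset_span ⟨1, rfl⟩))
  have hx' := hpr x hxs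
  obtain ⟨M, hM⟩ : ∃ M, M = IntermediateField.adjoin K (Set.range (Sum.elim p' r')) := ⟨_, rfl⟩
  have hpM : ∀ i, p' i ∈ M := fun i => by
    rw [hM]
    exact IntermediateField.subset_adjoin _ _ ⟨Sum.inl i, rfl⟩
  have hrM : ∀ i, r' i ∈ M := fun i => by
    rw [hM]
    exact IntermediateField.subset_adjoin _ _ ⟨Sum.inr i, rfl⟩
  have hMfin : Algebra.trdeg K M < Cardinal.aleph0 :=
    (Pool.Agent.Run7.h621.FV.trdeg_le_card _ M hM.le).trans_lt Cardinal.natCast_lt_aleph0
  obtain ⟨f, hf⟩ := Cardinal.lt_aleph0.1 hMfin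
  have h5 := family h C hne hp0 hp1 hr0 hr1 h2 (f := f) (by rw [← hM, hf])
  obtain ⟨z, hz⟩ : ∃ z, z = x i1 / x i0 := ⟨_, rfl⟩
  obtain ⟨M', hM'⟩ : ∃ M' : IntermediateField M Ω, M' = IntermediateField.adjoin M
    (Set.range fun _ : Unit => z) := ⟨_, rfl⟩
  have h6 : Algebra.trdeg M M' ≤ 1 := by
    have h7 := Pool.Agent.Run7.h621.FV.trdeg_le_card (fun _ : Unit => z) M' hM'.le
    simpa using h7
  have h7 := trdeg_add_eq (R := K) (S := M) (A := M')
  have hMM : ∀ e : Ω, e ∈ M → e ∈ M' := fun e he => M'.algebraMap_mem ⟨e, he⟩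
  have hzM : z ∈ M' := by
    rw [hM']
    exact IntermediateField.subset_adjoin _ _ ⟨(), rfl⟩
  have h8 : coords K x ≤ M'.restrictScalars K := by
    rw [coords, IntermediateField.adjoin_le_iff]
    rintro _ ⟨j, l, hl0, rfl⟩
    change x j / x l ∈ M'
    by_cases h0 : x i0 = 0
    · have h9 : ∀ i, x i = x i1 * r' i := fun i => by
        rw [hx' i, h0, zero_mul, zero_add]
      have h10 : x i1 ≠ 0 := fun h => hl0 (by rw [h9, h, zero_mul])
      rw [h9 j, h9 l, mul_div_mul_left _ _ h10]
      exact div_mem (hMM _ (hrM j)) (hMM _ (hrM l))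
    · have h9 : ∀ i, x i = x i0 * (p' i + z * r' i) := fun i => by
        rw [hx' i, hz]
        field_simp
      rw [h9 j, h9 l, mul_div_mul_left _ _ h0]
      exact div_mem (add_mem (hMM _ (hpM j)) (mul_mem hzM (hMM _ (hrM j))))
        (add_mem (hMM _ (hpM l)) (mul_mem hzM (hMM _ (hrM l))))
  have h9 : Algebra.trdeg K (coords K x) ≤ Algebra.trdeg K (M'.restrictScalars K) :=
    trdeg_le_of_injective (IntermediateField.inclusion h8)
      (IntermediateField.inclusion_injective _)
  have h10 : Algebra.trdeg K (M'.restrictScalars K) = Algebra.trdeg K M' := rfl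
  rw [h10, ← h7, hf] at h9
  have h11 : (w : Cardinal) ≤ ((f + 1 : ℕ) : Cardinal) := by
    refine hw.trans (h9.trans ?_)
    rw [Nat.cast_add, Nat.cast_one]
    exact add_le_add_right h6 _
  rw [Nat.cast_le] at h11
  omega

end

end Pool.Agent.Run7.h621.LG
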