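import Pool.Agent.Run7.h621.LG.Pairs

/-!
The exceptional subvarieties are the lines that meet the boundary in at most two points.
-/

set_option autoImplicit false

namespace Pool.Agent.Run7.h621.LG

open MvPolynomial FF Pool.Agent.W603.LV Pool.Agent.W603.PV Pool.Agent.W602.GT Pool.Agent.TH145.MG

variable {n : ℕ} {k K : Type} [Field k] [Field K] [IsAlgClosed K] [CharZero K] [Algebra k K]
  {m s q : ℕ} {V : Set (MvPolynomial (Fin (n + 1)) (algebraicClosure k K))}
  {A : Type} [Fintype A] {d : A → ℕ} {H : A → MvPolynomial (Fin (n + 1)) K}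

/-- The point `x` is on a line over `K` in the zero set of the equations that meets the boundary in
at most two points. -/
def OnBadLine (V : Set (MvPolynomial (Fin (n + 1)) (algebraicClosure k K)))
    (H : A → MvPolynomial (Fin (n + 1)) K) (C : Finset A) {L : Type} [Field L] [Algebra K L]
    (x : Fin (n + 1) → L) : Prop :=
  ∃ p r : Fin (n + 1) → K, LineIn (eqs V H C) p r ∧ FewPoints H C p r ∧
    ∃ u v : L, ∀ i, x i = u * algebraMap K L (p i) + v * algebraMap K L (r i)

omit [IsAlgClosed K] [CharZero K] in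
theorem nc_of {L : Type} [Field L] [Algebra K L] {w : ℕ} {x : Fin (n + 1) → L} (hw : 0 < w)
    (htr : Algebra.trdeg K L = w) (hxL : Algebra.IsAlgebraic (coords K x) L) :
    ∃ j l, Transcendental K (x j / x l) := by
  by_contra hcon
  push Not at hcon
  have h2 : Algebra.IsAlgebraic K (coords K x) := by
    rw [coords]
    have h3 : ∀ z ∈ {z : L | ∃ j l, x l ≠ 0 ∧ z = x j / x l}, IsAlgebraic K z := by
      rintro _ ⟨j, l, -, rfl⟩
      have := hcon j l
      unfold Transcendental at this
      rwa [not_not] at this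
    exact IntermediateField.isAlgebraic_adjoin fun z hz => (h3 z hz).isIntegral
  have h3 : Algebra.IsAlgebraic K L := Algebra.IsAlgebraic.trans K (coords K x) L
  rw [trdeg_eq_zero (R := K) (A := L)] at htr
  have h4 : (w : Cardinal) = ((0 : ℕ) : Cardinal) := by rw [← htr, Nat.cast_zero]
  rw [Nat.cast_inj] at h4
  omega

omit [IsAlgClosed K] [CharZero K] in
/-- Subvarieties of lines are curves. -/
theorem w_eq_one {L : Type} [Field L] [Algebra K L] {w : ℕ} {x : Fin (n + 1) → L} (hw : 0 < w)
    (htr : Algebra.trdeg K L = w) (hxL : Algebra.IsAlgebraic (coords K x) L)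
    {p r : Fin (n + 1) → K} (hl : LinearIndependent K ![p, r]) {u v : L}
    (hx : ∀ i, x i = u * algebraMap K L (p i) + v * algebraMap K L (r i)) : w = 1 := by
  classical
  obtain ⟨i0, i1, p', r', hne, hp0, hp1, hr0, hr1, -, hpr⟩ := exists_nb hl
  have hx' : ∀ i, x i = x i0 * algebraMap K L (p' i) + x i1 * algebraMap K L (r' i) := by
    intro i
    have h1 := hpr 1 0 i
    have h2 := hpr 0 1 i
    simp only [one_mul, zero_mul, add_zero, zero_add] at h1 h2
    rw [hx i, hx i0, hx i1, h1, h2]
    simp only [map_add, map_mul]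
    ring
  obtain ⟨f, hf, hf1⟩ := trdeg_point (K := K) (p' := fun i => algebraMap K L (p' i))
    (r' := fun i => algebraMap K L (r' i)) hx'
  have h1 : IntermediateField.adjoin K (Set.range (Sum.elim (fun i => algebraMap K L (p' i))
      fun i => algebraMap K L (r' i))) = ⊥ := by
    rw [IntermediateField.adjoin_eq_bot_iff]
    rintro _ ⟨i | i, rfl⟩
    · exact IntermediateField.algebraMap_mem _ _
    · exact IntermediateField.algebraMap_mem _ _
  rw [h1] at hf
  have h2 : Algebra.IsAlgebraic K (⊥ : IntermediateField K L) := by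
    refine ⟨fun z => ?_⟩
    obtain ⟨c, hc⟩ := IntermediateField.mem_bot.1 z.2
    have h3 : z = algebraMap K (⊥ : IntermediateField K L) c := Subtype.ext hc.symm
    rw [h3]
    exact isAlgebraic_algebraMap c
  rw [trdeg_eq_zero (R := K) (A := (⊥ : IntermediateField K L))] at hf
  have h3 : f = 0 := by
    have h4 : ((0 : ℕ) : Cardinal) = f := by rw [← hf, Nat.cast_zero]
    rw [Nat.cast_inj] at h4
    exact h4.symm
  rw [h3, zero_add] at hf1
  have h4 := trdeg_add_eq (R := K) (S := coords K x) (A := L)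
  rw [trdeg_eq_zero (R := coords K x) (A := L), add_zero] at h4
  rw [h4, htr, Nat.cast_le] at hf1
  omega

/-- Closed subvarieties that are not of log general type are lines. -/
theorem main_sub (hVh : ∀ f ∈ V, ∃ e, f.IsHomogeneous e)
    (hV : DimLE (algebraicClosure k K) V m) (h : ConditionsLE k H d s) (hq : Small n d s q)
    (C : Finset A) {L : Type} [Field L] [Algebra K L] {w : ℕ} {x : Fin (n + 1) → L} (hw : 0 < w)
    (htr : Algebra.trdeg K L = w) (hx0 : x ≠ 0) (hxL : Algebra.IsAlgebraic (coords K x) L)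
    (hx : OnPairOf V H C x) (hnum : 2 * m + s + 2 ≤ ∑ a, d a + C.card + w + q) :
    OnBadLine V H C x ∨ LogGeneralType K L w fun Q => Q ∈ bdry C H d x := by
  classical
  rcases subvarieties hVh hV h hq C hw htr hx0 hxL hx hnum with ⟨p, r, hl, u, v, huv⟩ | h1
  · by_cases hfew : FewPoints H C p r
    · exact Or.inl ⟨p, r, hl, hfew, u, v, huv⟩
    · right
      have h1 := w_eq_one hw htr hxL hl.1 huv
      subst h1
      exact gt_of_line (fun a => (h.1 a).2) hl.1 huv (nc_of hw htr hxL) htr hx.2 hfew
  · exact Or.inr h1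

/-- Curves. -/
theorem main_curves (hVh : ∀ f ∈ V, ∃ e, f.IsHomogeneous e)
    (hV : DimLE (algebraicClosure k K) V m) (h : ConditionsLE k H d s) (hq : Small n d s q)
    (C : Finset A) {L : Type} [Field L] [Algebra K L] [IsFF K L] {x : Fin (n + 1) → L}
    (hnc : ∃ j l, Transcendental K (x j / x l)) (hx : OnPairOf V H C x)
    (hnum : 2 * m + s + 1 ≤ ∑ a, d a + C.card + q) :
    (bdry C H d x).Finite ∧ (OnBadLine V H C x ∨
      pht K x ≤ canDeg K L + (bdry C H d x).ncard) := by
  classical
  obtain ⟨hfin, h1⟩ := curves hVh hV h hq C hnc hx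
  refine ⟨hfin, ?_⟩
  rcases h1 with ⟨p, r, hl, u, v, huv⟩ | h1
  · by_cases hfew : FewPoints H C p r
    · exact Or.inl ⟨p, r, hl, hfew, u, v, huv⟩
    · exact Or.inr (deg_of_line (fun a => (h.1 a).2) hl.1 huv hnc hx.2 hfew hfin)
  · right
    have h2 : 0 ≤ pht K x := by
      have hx0 : ∃ j, x j ≠ 0 := by
        obtain ⟨j, l, ht⟩ := hnc
        refine ⟨l, fun h => ht ?_⟩
        rw [h, div_zero]
        exact isAlgebraic_zero
      obtain ⟨l, hl⟩ := hx0
      have h3 : pht K (fun j => (x l)⁻¹ * x j) = pht K x :=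
        pht_scale ⟨l, hl⟩ (inv_ne_zero hl)
      rw [← h3, pht, ← finsum_neg_distrib]
      apply finsum_nonneg
      intro Q
      rw [neg_nonneg]
      have h4 : (x l)⁻¹ * x l ≠ 0 := mul_ne_zero (inv_ne_zero hl) hl
      have h5 := pord_le Q (f := fun j => (x l)⁻¹ * x j) h4
      rw [inv_mul_cancel₀ hl, Q.ord_one] at h5
      exact h5
    refine le_trans ?_ h1
    have h3 : (1 : ℤ) ≤ (∑ a, (d a : ℤ)) + C.card + q - 2 * m - s := by
      zify at hnum
      linarith
    nlinarith

end Pool.Agent.Run7.h621.LG
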