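import Pool.Agent.Run7.h621.LG.Rows

/-!
Functionals on the forms of a given degree.
-/

set_option autoImplicit false
set_option linter.unusedSectionVars false

open Pool.Agent.Run7.h621.MP (Vr)

namespace Pool.Agent.Run7.h621.LG

variable {n : Unit → ℕ} {L : Type} [Field L] {A S : Type}

theorem sum_Vr (f : Vr n → ℕ) : ∑ p, f p = ∑ j, f ⟨(), j⟩ := by
  rw [Fintype.sum_sigma, Fintype.sum_unique]

theorem Dg_iff {I : Vr n →₀ ℕ} {d : Unit → ℕ} : Dg I d ↔ ∑ p, I p = d () := by
  rw [sum_Vr]
  exact ⟨fun h => h (), fun h i => by cases i; exact h⟩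

/-- A functional that is determined by one value. -/
theorem point_zero {d : Unit → ℕ} {h : (Vr n →₀ ℕ) → L} {κ : Vr n → L} {p0 : Vr n}
    (hκ : ∀ G, Dg (G + Finsupp.single p0 1) d → ∀ p, h (G + Finsupp.single p 1) =
      κ p * h (G + Finsupp.single p0 1)) (h0 : h (Finsupp.single p0 (d ())) = 0)
    {I : Vr n →₀ ℕ} (hI : Dg I d) : h I = 0 := by
  classical
  obtain ⟨N, hN⟩ : ∃ N, N = ∑ p ∈ Finset.univ.erase p0, I p := ⟨_, rfl⟩
  induction N generalizing I with
  | zero =>
    have h1 : ∀ p, p ≠ p0 → I p = 0 := fun p hp =>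
      (Finset.sum_eq_zero_iff.1 hN.symm) p (Finset.mem_erase.2 ⟨hp, Finset.mem_univ _⟩)
    have h2 : I = Finsupp.single p0 (d ()) := by
      have h3 := Dg_iff.1 hI
      rw [← Finset.add_sum_erase _ _ (Finset.mem_univ p0), ← hN, add_zero] at h3
      ext p
      by_cases hp : p = p0
      · rw [hp, Finsupp.single_eq_same, h3]
      · rw [h1 p hp, Finsupp.single_apply, if_neg (Ne.symm hp)]
    rw [h2, h0]
  | succ N ih =>
    obtain ⟨p, hp, hp0⟩ : ∃ p ∈ Finset.univ.erase p0, I p ≠ 0 := by
      by_contra hcon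
      push Not at hcon
      rw [Finset.sum_eq_zero hcon] at hN
      omega
    have hpp := Finset.ne_of_mem_erase hp
    obtain ⟨G, hG⟩ : ∃ G : Vr n →₀ ℕ, I = G + Finsupp.single p 1 := by
      refine ⟨I - Finsupp.single p 1, ?_⟩
      rw [tsub_add_cancel_of_le]
      rw [Finsupp.single_le_iff]
      omega
    have h1 : Dg (G + Finsupp.single p0 1) d := by
      rw [hG] at hI
      exact Dg.swap (p := p) (q := p0) (Subsingleton.elim _ _) hI
    have h2 := hκ G h1 p
    rw [← hG] at h2
    rw [h2, ih h1, mul_zero]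
    have h3 : ∀ q, I q = G q + (Finsupp.single p 1 : Vr n →₀ ℕ) q := fun q => by rw [hG]; rfl
    have h4 : ∑ q ∈ Finset.univ.erase p0, I q = ∑ q ∈ Finset.univ.erase p0, G q + 1 := by
      simp only [h3]
      rw [Finset.sum_add_distrib, Finset.sum_eq_single_of_mem (f := fun q =>
        (Finsupp.single p 1 : Vr n →₀ ℕ) q) p hp, Finsupp.single_eq_same]
      intro q _ hq
      exact Finsupp.single_eq_of_ne hq
    have h5 : ∑ q ∈ Finset.univ.erase p0, (G + Finsupp.single p0 1 : Vr n →₀ ℕ) q =
        ∑ q ∈ Finset.univ.erase p0, G q := by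
      refine Finset.sum_congr rfl fun q hq => ?_
      rw [Finsupp.add_apply, Finsupp.single_eq_of_ne (Finset.ne_of_mem_erase hq), add_zero]
    omega

/-- The functional with the coefficients `w`. -/
def fw [Fintype S] (θ : A → (Vr n →₀ ℕ) → S → L) (w : S → L) (a : A) (I : Vr n →₀ ℕ) : L :=
  ∑ r, θ a I r * w r

/-- The space of the functionals that are determined by one value for each form. -/
theorem point_rank [Fintype S] [Fintype A] {dg : A → Unit → ℕ} {θ : A → (Vr n →₀ ℕ) → S → L}
    (hθ : ∀ w, (∀ a I, Dg I (dg a) → fw θ w a I = 0) → w = 0) (W : Submodule L (S → L))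
    {κ : Vr n → L} {p0 : Vr n}
    (hκ : ∀ w ∈ W, ∀ a G, Dg (G + Finsupp.single p0 1) (dg a) → ∀ p,
      fw θ w a (G + Finsupp.single p 1) = κ p * fw θ w a (G + Finsupp.single p0 1)) :
    Module.finrank L W ≤ Fintype.card A := by
  obtain ⟨f, hf⟩ : ∃ f : W →ₗ[L] (A → L), ∀ w a, f w a =
      fw θ w.1 a (Finsupp.single p0 (dg a ())) :=
    ⟨{ toFun := fun w a => fw θ w.1 a (Finsupp.single p0 (dg a ()))
       map_add' := fun w w' => by
        funext a
        simp only [fw, Submodule.coe_add, Pi.add_apply, mul_add, Finset.sum_add_distrib]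
       map_smul' := fun s w => by
        funext a
        simp only [fw, Submodule.coe_smul, Pi.smul_apply, smul_eq_mul, RingHom.id_apply,
          Finset.mul_sum]
        exact Finset.sum_congr rfl fun r _ => by ring }, fun _ _ => rfl⟩
  have hinj : Function.Injective f := by
    rw [← LinearMap.ker_eq_bot, LinearMap.ker_eq_bot']
    intro w h0
    apply Subtype.ext
    refine hθ w.1 fun a I hI => ?_
    refine point_zero (d := dg a) (h := fun I => fw θ w.1 a I) (κ := κ) (p0 := p0)
      (fun G hG p => hκ w.1 w.2 a G hG p) ?_ hI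
    change fw θ w.1 a (Finsupp.single p0 (dg a ())) = 0
    rw [← hf, h0]
    rfl
  have h1 := LinearMap.finrank_le_finrank_of_injective hinj
  rwa [Module.finrank_fintype_fun_eq_card] at h1

/-- The space of the vectors with given linear equations. -/
def kerW {Z : Type} [Fintype S] (M : Z → S → L) : Submodule L (S → L) where
  carrier := {w | ∀ z, ∑ r, M z r * w r = 0}
  add_mem' := by
    intro w w' h h' z
    simp only [Pi.add_apply, mul_add, Finset.sum_add_distrib]
    rw [h, h', add_zero]
  zero_mem' := fun z => by simp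
  smul_mem' := by
    intro s w h z
    have h1 : ∑ r, M z r * (s • w) r = s * ∑ r, M z r * w r := by
      rw [Finset.mul_sum]
      exact Finset.sum_congr rfl fun r _ => by
        rw [Pi.smul_apply, smul_eq_mul]
        ring
    rw [h1, h, mul_zero]

theorem kerW_rank {Z : Type} [Fintype Z] [Fintype S] (M : Z → S → L) :
    Fintype.card S ≤ Module.finrank L (kerW M) + Fintype.card Z := by
  obtain ⟨f, hf⟩ : ∃ f : (S → L) →ₗ[L] (Z → L), ∀ w z, f w z = ∑ r, M z r * w r :=
    ⟨{ toFun := fun w z => ∑ r, M z r * w r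
       map_add' := fun w w' => by
        funext z
        simp only [Pi.add_apply, mul_add, Finset.sum_add_distrib]
       map_smul' := fun s w => by
        funext z
        simp only [Pi.smul_apply, smul_eq_mul, RingHom.id_apply, Finset.mul_sum]
        exact Finset.sum_congr rfl fun r _ => by ring }, fun _ _ => rfl⟩
  have h1 : LinearMap.ker f = kerW M := by
    ext w
    rw [LinearMap.mem_ker]
    constructor
    · intro h z
      rw [← hf, h]
      rfl
    · intro h
      funext z
      rw [hf]
      exact h z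
  have h2 := LinearMap.finrank_range_add_finrank_ker f
  have h3 := Submodule.finrank_le (LinearMap.range f)
  rw [Module.finrank_fintype_fun_eq_card] at h2 h3
  rw [h1] at h2
  omega

end Pool.Agent.Run7.h621.LG
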