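import Pool.Agent.Run7.h621.LG.Log
import Pool.Agent.Run7.h621.NG.Final

/-!
Subvarieties of logarithmic pairs that are not lines are of logarithmic general type.
-/

set_option autoImplicit false
set_option linter.unusedSectionVars false

open MvPolynomial FF Pool.Agent.W603.LV Pool.Agent.W603.PV Pool.Agent.TH145.GH
open Pool.Agent.W602.GT Pool.Agent.TH145.GF Pool.Agent.TH145.MG
open Pool.Agent.Run7.h621.FV (cd coeff_cd exists_tb)
open Pool.Agent.Run7.h621.NG (Bt cj)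
open Pool.Agent.Run7.h621.MP (Vr sc ph Norm exists_norm ph_nonneg ge_ph IsMulti mcoords NF NF_multi
  map_NF ph_const MDimLE PrDimLE form_eq aeval_sc)

namespace Pool.Agent.Run7.h621.LG

variable {k0 A : Type} [Field k0] {n : Unit → ℕ} {J : A → Type}
  [∀ a, Fintype (J a)] {P : ∀ a, J a → MvPolynomial (Vr n) k0} {j0 : ∀ a, J a}

/-- The point lies on a line over `K`. -/
def OnLine (K : Type) {L : Type} [Field K] [Field L] [Algebra K L] (x : Vr n → L) : Prop :=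
  ∃ (p q : Vr n → K) (u v : L), ∀ i, x i = u * algebraMap K L (p i) + v * algebraMap K L (q i)

/-- Subvarieties are of log general type, in a chart. -/
theorem log_chart {K L : Type} [Field K] [Field L] [Algebra k0 K] [Algebra K L]
    [IsAlgClosed K] [CharZero K] [Fintype A] [DecidableEq A]
    {dg : A → Unit → ℕ} (hP : ∀ a j, IsMulti (P a j) (dg a)) (C : Finset A)
    {V : Set (MvPolynomial (Vr n) k0)} {m s w : ℕ} {mi : Unit → ℕ} (hV : MDimLE k0 V m)
    (hVi : ∀ i, PrDimLE k0 V i (mi i))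
    {c0 : ∀ i, Fin (n i + 1)} (hSt : ∀ a I, Dg I (dg a) → ∃ j', P a j' = monomial I 1)
    (hinj : ∀ a j j', P a j = P a j' → j = j')
    (hmo : ∀ a j, ∃ I, Dg I (dg a) ∧ P a j = monomial I 1) (hw : 0 < w)
    {c : Bt j0 → K} {B : Set (Bt j0)} (hB : Nat.card {b : Bt j0 // b ∉ B} ≤ s)
    {q0 : ℕ} (hq0 : q0 = 0 ∨ (Fintype.card A + 2 * q0 ≤ Nat.card {b : Bt j0 // b ∉ B} ∧
      Fintype.card A + 4 * q0 ≤ Nat.card {b : Bt j0 // b ∉ B} + 3))
    (hind : AlgebraicIndependent k0 fun b : B => c b) (htr : Algebra.trdeg K L = w)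
    {x : Vr n → L} (hx : ∀ i, x ⟨i, c0 i⟩ = 1)
    (hnum : m + mi () + s + 2 ≤ ∑ a, dg a () + C.card + w + q0)
    (hgen : Algebra.IsAlgebraic (IntermediateField.adjoin K (Set.range x)) L)
    (hxV : ∀ f ∈ V, aeval x (map (algebraMap k0 K) f) = 0)
    {F : A → MvPolynomial (Vr n) K} (hF : ∀ a, F a = NF P j0 c a)
    (hC : ∀ a ∈ C, aeval x (F a) = 0) (hBd : ∀ a, a ∉ C → aeval x (F a) ≠ 0) :
    OnLine K x ∨ LogGeneralType K L w fun Q : Place K L => ∃ b, b ∉ C ∧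
      ∑ i, (dg b i : ℤ) * pord Q (fun j => x ⟨i, j⟩) < Q.ord (aeval x (F b)) := by
  classical
  let _ : Algebra k0 L := ((algebraMap K L).comp (algebraMap k0 K)).toAlgebra
  have hst : IsScalarTower k0 K L := IsScalarTower.of_algebraMap_eq fun _ => rfl
  have hx0 : ∀ i, ∃ j, x ⟨i, j⟩ ≠ 0 := fun i => ⟨c0 i, by rw [hx]; exact one_ne_zero⟩
  have hxV' : ∀ f ∈ V, aeval x f = 0 := by
    intro f hf
    have h1 := hxV f hf
    rwa [aeval_map_algebraMap] at h1
  have hev : ∀ a, aeval x (F a) = eval x (map (algebraMap K L) (F a)) := fun a => by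
    rw [eval_map, aeval_def]
  rcases core_forms (c := c) (F := fun a => map (algebraMap K L) (F a))
    (s := s) hP C hSt hinj hmo hw hB hq0 hind htr hx hgen
    (hV L x hx0 hxV') (fun i => hVi i L x hx0 hxV') (fun a => by rw [hF])
    (fun a ha => by rw [← hev]; exact hC a ha) (fun a ha => by rw [← hev]; exact hBd a ha) with
    ⟨p1, la, μ, hline⟩ | ⟨Δ, l, E, hl, hΔE, hlin, hΔ⟩
  · left
    refine ⟨la, μ, x p1, 1, fun p => ?_⟩
    rw [hline p, one_mul, mul_comm]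
  right
  obtain ⟨t, ht⟩ : ∃ t : Fin w → L, ∀ i, t i = x (l i) := ⟨_, fun _ => rfl⟩
  have htb : IsTranscendenceBasis K t := by
    have : t = fun i => x (l i) := funext ht
    rw [this]
    exact hl
  obtain ⟨y, hy⟩ : ∃ y : Fin (w + 1) → L, y = Fin.cons 1 t := ⟨_, rfl⟩
  -- the signs
  have hn1 : 1 ≤ num C dg mi w m s q0 := by
    unfold num
    zify at hnum
    linarith
  have hp0 : ∀ Q : Place K L, 0 ≤ ph Q x () := fun Q => ph_nonneg Q hx ()
  have hreg : ∀ (Q : Place K L) (z : L) (j : Fin (w + 1)),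
      Ge Q (num C dg mi w m s q0 * ph Q x ()) z → Ge Q 0 (z * y j) := by
    intro Q z j hz
    have h2 := mul_le_mul_of_nonneg_right hn1 (hp0 Q)
    have h3 := hp0 Q
    rw [hy]
    refine Fin.cases ?_ (fun i => ?_) j
    · rw [Fin.cons_zero, mul_one]
      exact hz.mono (by linarith)
    · rw [Fin.cons_succ, ht]
      have h1 := hz.mul (ge_ph Q x (l i))
      refine h1.mono ?_
      change 0 ≤ num C dg mi w m s q0 * ph Q x () + - ph Q x ()
      linarith
  refine ⟨htr, 1, one_pos, fun j Dd => Δ Dd * y j, fun j M Dd => ?_, fun Q hQ j Dd hDd => ?_,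
    fun Q hQ hQB j Dd hDd => ?_, E, ?_, ?_⟩
  · change Δ _ * y j = M.det ^ 1 * (Δ Dd * y j)
    rw [pow_one, hlin M _ Dd (fun i f => ?_)]
    · ring
    · rw [← Derivation.coeFnAddMonoidHom_apply, map_sum, Finset.sum_apply]
      rfl
  · exact hreg Q _ j (hΔ Q hQ Dd (Or.inl hDd))
  · refine hreg Q _ j (hΔ Q hQ Dd (Or.inr ⟨hDd, fun b hb h => hQB ⟨b, hb, ?_⟩⟩))
    rwa [hev]
  · rw [hy]
    change Δ E * (Fin.cons 1 t : Fin (w + 1) → L) 0 ≠ 0
    rw [Fin.cons_zero, mul_one]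
    exact hΔE
  · have h1 : (fun i : Fin w => Δ E * y i.succ / (Δ E * y 0)) = t := by
      funext i
      rw [hy, Fin.cons_succ, Fin.cons_zero, mul_one, mul_div_cancel_left₀ _ hΔE]
    change AlgebraicIndependent K (fun i : Fin w => Δ E * y i.succ / (Δ E * y 0))
    rw [h1]
    exact htb.1

/-- Subvarieties are of log general type. -/
theorem log_sub {K L : Type} [Field K] [Field L] [Algebra k0 K] [Algebra K L]
    [IsAlgClosed K] [CharZero K] [Fintype A] [DecidableEq A]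
    {dg : A → Unit → ℕ} (hP : ∀ a j, IsMulti (P a j) (dg a)) (C : Finset A)
    {V : Set (MvPolynomial (Vr n) k0)} (hVh : ∀ f ∈ V, ∃ d, IsMulti f d)
    {m s w : ℕ} {mi : Unit → ℕ} (hV : MDimLE k0 V m)
    (hVi : ∀ i, PrDimLE k0 V i (mi i))
    {c0 : ∀ i, Fin (n i + 1)} (hSt : ∀ a I, Dg I (dg a) → ∃ j', P a j' = monomial I 1)
    (hinj : ∀ a j j', P a j = P a j' → j = j')
    (hmo : ∀ a j, ∃ I, Dg I (dg a) ∧ P a j = monomial I 1) (hw : 0 < w)
    (t : ∀ a, J a → K) (h0 : ∀ a, t a (j0 a) ≠ 0)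
    {B : Set (Bt j0)} (hB : Nat.card {b : Bt j0 // b ∉ B} ≤ s)
    {q0 : ℕ} (hq0 : q0 = 0 ∨ (Fintype.card A + 2 * q0 ≤ Nat.card {b : Bt j0 // b ∉ B} ∧
      Fintype.card A + 4 * q0 ≤ Nat.card {b : Bt j0 // b ∉ B} + 3))
    (hind : AlgebraicIndependent k0 fun p : B => t p.1.1 p.1.2.1 / t p.1.1 (j0 p.1.1))
    {F : A → MvPolynomial (Vr n) K}
    (hF : ∀ a, F a = ∑ j, MvPolynomial.C (t a j) * map (algebraMap k0 K) (P a j))
    (htr : Algebra.trdeg K L = w)
    {x : Vr n → L} (hx : ∀ i, x ⟨i, c0 i⟩ ≠ 0)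
    (hnum : m + mi () + s + 2 ≤ ∑ a, dg a () + C.card + w + q0)
    (hgen : Algebra.IsAlgebraic (mcoords K x) L)
    (hxV : ∀ f ∈ V, aeval x (map (algebraMap k0 K) f) = 0)
    (hC : ∀ a ∈ C, aeval x (F a) = 0) (hBd : ∀ a, a ∉ C → aeval x (F a) ≠ 0) :
    OnLine K x ∨ LogGeneralType K L w fun Q : Place K L => ∃ b, b ∉ C ∧
      ∑ i, (dg b i : ℤ) * pord Q (fun j => x ⟨i, j⟩) < Q.ord (aeval x (F b)) := by
  obtain ⟨lam, hlam⟩ : ∃ lam : Unit → L, ∀ i, lam i = x ⟨i, c0 i⟩ := ⟨_, fun _ => rfl⟩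
  have hl : ∀ i, lam i ≠ 0 := fun i => by rw [hlam]; exact hx i
  obtain ⟨x', hx'⟩ : ∃ x' : Vr n → L, x' = sc (fun i => (lam i)⁻¹) x := ⟨_, rfl⟩
  have hxx : x = sc lam x' := by
    funext p
    rw [hx']
    change x p = lam p.1 * ((lam p.1)⁻¹ * x p)
    rw [mul_inv_cancel_left₀ (hl _)]
  have hx1 : ∀ i, x' ⟨i, c0 i⟩ = 1 := fun i => by
    rw [hx']
    change (lam i)⁻¹ * x ⟨i, c0 i⟩ = 1
    rw [← hlam, inv_mul_cancel₀ (hl i)]
  obtain ⟨c, hc⟩ : ∃ c : Bt j0 → K, ∀ p, c p = t p.1 p.2.1 / t p.1 (j0 p.1) := ⟨_, fun _ => rfl⟩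
  have hc' : c = fun p : Bt j0 => t p.1 p.2.1 / t p.1 (j0 p.1) := funext hc
  have hFa : ∀ a, F a = MvPolynomial.C (t a (j0 a)) * NF P j0 c a := fun a => by
    rw [hF, form_eq t h0, ← hc']
  have hFx : ∀ a, aeval x (F a) = algebraMap K L (t a (j0 a)) * ((∏ i, lam i ^ dg a i) *
      aeval x' (NF P j0 c a)) := fun a => by
    rw [hFa, map_mul, aeval_C]
    congr 1
    conv_lhs => rw [hxx]
    exact aeval_sc (NF_multi hP c a) lam x'
  have ht0 : ∀ a, algebraMap K L (t a (j0 a)) ≠ 0 := fun a h => h0 a ((map_eq_zero _).1 h)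
  have hl0 : ∀ a, (∏ i, lam i ^ dg a i) ≠ 0 := fun a =>
    Finset.prod_ne_zero_iff.2 fun i _ => pow_ne_zero _ (hl i)
  have hmc : IntermediateField.adjoin K (Set.range x') = mcoords K x := by
    apply le_antisymm
    · rw [IntermediateField.adjoin_le_iff]
      rintro _ ⟨⟨i, j⟩, rfl⟩
      refine IntermediateField.subset_adjoin _ _ ⟨i, j, c0 i, hx i, ?_⟩
      rw [hx']
      change (lam i)⁻¹ * x ⟨i, j⟩ = _
      rw [hlam, div_eq_inv_mul]
    · rw [mcoords, IntermediateField.adjoin_le_iff]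
      rintro _ ⟨i, j, l, h, rfl⟩
      have h1 : x ⟨i, j⟩ / x ⟨i, l⟩ = x' ⟨i, j⟩ / x' ⟨i, l⟩ := by
        rw [hxx]
        change lam i * x' ⟨i, j⟩ / (lam i * x' ⟨i, l⟩) = _
        rw [mul_div_mul_left _ _ (hl i)]
      rw [h1]
      exact div_mem (IntermediateField.subset_adjoin _ _ ⟨_, rfl⟩)
        (IntermediateField.subset_adjoin _ _ ⟨_, rfl⟩)
  have hpo : ∀ (Q : Place K L) i, pord Q (fun j => x ⟨i, j⟩) =
      Q.ord (lam i) + pord Q (fun j => x' ⟨i, j⟩) := by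
    intro Q i
    have h1 : (fun j => x ⟨i, j⟩) = fun j => lam i * x' ⟨i, j⟩ := by
      funext j
      rw [hxx]
      rfl
    rw [h1]
    exact Pool.Agent.W603.PV.pord_scale Q (f := fun j => x' ⟨i, j⟩) ⟨c0 i, by
      rw [hx1]; exact one_ne_zero⟩ (hl i)
  have h1 := log_chart (c := c) hP C hV hVi hSt hinj hmo hw hB hq0 (by simpa only [hc] using hind)
    htr hx1 hnum (by rw [hmc]; exact hgen) (fun f hf => by
      obtain ⟨d, hd⟩ := hVh f hf
      rw [hx', aeval_sc (hd.map _), hxV f hf, mul_zero]) (F := NF P j0 c) (fun _ => rfl)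
    (fun a ha => by
      have h2 := hC a ha
      rw [hFx] at h2
      exact (mul_eq_zero.1 ((mul_eq_zero.1 h2).resolve_left (ht0 a))).resolve_left (hl0 a))
    (fun a ha h2 => hBd a ha (by rw [hFx, h2, mul_zero, mul_zero]))
  have h2 : (fun Q : Place K L => ∃ b, b ∉ C ∧
      ∑ i, (dg b i : ℤ) * pord Q (fun j => x ⟨i, j⟩) < Q.ord (aeval x (F b))) =
      fun Q : Place K L => ∃ b, b ∉ C ∧
      ∑ i, (dg b i : ℤ) * pord Q (fun j => x' ⟨i, j⟩) < Q.ord (aeval x' (NF P j0 c b)) := by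
    funext Q
    refine propext (exists_congr fun b => and_congr_right fun hb => ?_)
    have h3 : aeval x' (NF P j0 c b) ≠ 0 := by
      intro h
      apply hBd b hb
      rw [hFx, h, mul_zero, mul_zero]
    rw [hFx, Q.ord_mul (ht0 b) (mul_ne_zero (hl0 b) h3), Q.ord_const (h0 b), zero_add,
      Q.ord_mul (hl0 b) h3, Pool.Agent.TH145.GC.ord_prod Q _ _ fun i _ =>
        pow_ne_zero _ (hl i)]
    simp only [hpo, mul_add, Finset.sum_add_distrib, Q.ord_pow]
    constructor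
    · intro h; linarith
    · intro h; linarith
  rcases h1 with ⟨p, q, u, v, h⟩ | h1
  · left
    refine ⟨p, q, lam () * u, lam () * v, fun i => ?_⟩
    rw [hxx]
    change lam i.1 * x' i = _
    rw [h]
    change lam () * _ = _
    ring
  right
  rw [h2]
  exact h1

end Pool.Agent.Run7.h621.LG
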