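import Pool.Agent.Run7.h621.LG.Curve
import Pool.Agent.Run7.h621.LG.LogFinal
import Pool.Agent.Run7.h621.LG.Count
import Pool.Agent.Run7.h621.MP.One

/-!
Subvarieties and curves in pairs in projective space, in the usual coordinates.
-/

set_option autoImplicit false
set_option linter.unusedSectionVars false

open MvPolynomial FF Pool.Agent.W603.LV Pool.Agent.W603.PV Pool.Agent.TH145.GH
open Pool.Agent.W602.GT Pool.Agent.TH145.GF Pool.Agent.TH145.MG
open Pool.Agent.Run7.h621.NG (Bt cj)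
open Pool.Agent.Run7.h621.FV (Ex)
open Pool.Agent.Run7.h621.MP (Vr V1 em multi_one aeval_one coords_one dim_one)

namespace Pool.Agent.Run7.h621.LG

variable {n : ℕ}

/-- The monomials. -/
noncomputable def pm {k0 A : Type} [Field k0] (n : ℕ) (d : A → ℕ) (a : A) (I : Ex (Fin (n + 1)) (d a)) :
    MvPolynomial (V1 n) k0 :=
  rename (em n) (monomial I.1 1)

theorem em_inj (n : ℕ) : Function.Injective (em n) := fun a b h => by
  simpa [Pool.Agent.Run7.h621.MP.em] using h

theorem pm_multi {k0 A : Type} [Field k0] (d : A → ℕ) (a : A) (I : Ex (Fin (n + 1)) (d a)) :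
    Pool.Agent.Run7.h621.MP.IsMulti (pm (k0 := k0) n d a I) fun _ : Unit => d a :=
  multi_one (isHomogeneous_monomial 1 I.2)

theorem pm_eq {k0 A : Type} [Field k0] (d : A → ℕ) (a : A) (I : Ex (Fin (n + 1)) (d a)) :
    pm (k0 := k0) n d a I = monomial (Finsupp.mapDomain (em n) I.1) 1 := by
  rw [pm, rename_monomial]

theorem Dg_map (I : Fin (n + 1) →₀ ℕ) (e : ℕ) :
    Dg (ι := Unit) (Finsupp.mapDomain (em n) I) (fun _ => e) ↔ I.degree = e := by
  have h1 : ∀ i : Unit, ∑ j, (Finsupp.mapDomain (em n) I : V1 n →₀ ℕ) ⟨i, j⟩ = I.degree := by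
    intro i
    rw [Finsupp.degree_eq_sum]
    exact Finset.sum_congr rfl fun j _ => Finsupp.mapDomain_apply (em_inj n) I j
  constructor
  · intro h
    rw [← h1 ()]
    exact h ()
  · intro h i
    rw [h1, h]

theorem exists_map (I : V1 n →₀ ℕ) : ∃ I' : Fin (n + 1) →₀ ℕ, I = Finsupp.mapDomain (em n) I' := by
  refine ⟨Finsupp.equivFunOnFinite.symm fun j => I (em n j), ?_⟩
  ext ⟨i, j⟩
  cases i
  have := Finsupp.mapDomain_apply (em_inj n) (Finsupp.equivFunOnFinite.symm fun j => I (em n j)) j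
  exact this.symm

theorem pm_hSt {k0 A : Type} [Field k0] (d : A → ℕ) (a : A) (I : V1 n →₀ ℕ)
    (hI : Dg (ι := Unit) I fun _ => d a) : ∃ j', pm (k0 := k0) n d a j' = monomial I 1 := by
  obtain ⟨I', rfl⟩ := exists_map I
  exact ⟨⟨I', (Dg_map I' _).1 hI⟩, pm_eq d a _⟩

theorem pm_inj {k0 A : Type} [Field k0] (d : A → ℕ) (a : A) (j j' : Ex (Fin (n + 1)) (d a))
    (h : pm (k0 := k0) n d a j = pm n d a j') : j = j' := by
  rw [pm, pm] at h
  have h1 := rename_injective _ (em_inj n) h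
  rw [monomial_left_inj one_ne_zero] at h1
  exact Subtype.ext h1

theorem pm_hmo {k0 A : Type} [Field k0] (d : A → ℕ) (a : A) (j : Ex (Fin (n + 1)) (d a)) :
    ∃ I, Dg (ι := Unit) I (fun _ => d a) ∧ pm (k0 := k0) n d a j = monomial I 1 :=
  ⟨_, (Dg_map _ _).2 j.2, pm_eq d a j⟩

/-- The forms as sums of monomials. -/
theorem form_sum {k0 K A : Type} [Field k0] [Field K] [Algebra k0 K] {d : A → ℕ}
    {H : A → MvPolynomial (Fin (n + 1)) K} (hH : ∀ a, (H a).IsHomogeneous (d a)) (a : A) :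
    rename (em n) (H a) =
      ∑ j, MvPolynomial.C (coeff j.1 (H a)) * map (algebraMap k0 K) (pm n d a j) := by
  classical
  have h1 : H a = ∑ j : Ex (Fin (n + 1)) (d a), monomial j.1 (coeff j.1 (H a)) := by
    ext u
    rw [coeff_sum]
    by_cases hu : u.degree = d a
    · rw [Finset.sum_eq_single (⟨u, hu⟩ : Ex (Fin (n + 1)) (d a))]
      · rw [coeff_monomial, if_pos rfl]
      · intro j _ hj
        rw [coeff_monomial, if_neg]
        intro h
        exact hj (Subtype.ext h)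
      · intro h
        exact absurd (Finset.mem_univ _) h
    · rw [Finset.sum_eq_zero]
      · by_contra h
        apply hu
        rw [Finsupp.degree_eq_weight_one]
        exact hH a h
      · intro j _
        rw [coeff_monomial, if_neg]
        intro h
        exact hu (by rw [← h]; exact j.2)
  conv_lhs => rw [h1, map_sum]
  refine Finset.sum_congr rfl fun j _ => ?_
  rw [pm, map_rename, MvPolynomial.map_monomial, map_one, rename_monomial, rename_monomial, C_mul_monomial,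
    mul_one]

/-- The place conditions. -/
theorem bd_one {K L A : Type} [Field K] [Field L] [Algebra K L] {d : A → ℕ}
    {H : A → MvPolynomial (Fin (n + 1)) K} (C : Finset A) (x : Fin (n + 1) → L) (Q : Place K L) :
    (∃ b, b ∉ C ∧
      ∑ i : Unit, ((d b : ℕ) : ℤ) * pord Q (fun j => (fun p : V1 n => x p.2) ⟨i, j⟩) <
        Q.ord (aeval (fun p : V1 n => x p.2) (rename (em n) (H b)))) ↔
      ∃ b, b ∉ C ∧ d b * pord Q x < Q.ord (aeval x (H b)) := by
  refine exists_congr fun b => and_congr_right fun hb => ?_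
  rw [aeval_one, Fintype.sum_unique]
  rfl

variable {k0 K L A : Type} [Field k0] [Field K] [Field L] [Algebra k0 K] [Algebra K L]
  [IsAlgClosed K] [CharZero K] [Fintype A] [DecidableEq A] {d : A → ℕ}
  {H : A → MvPolynomial (Fin (n + 1)) K} {V : Set (MvPolynomial (Fin (n + 1)) k0)} {m s q : ℕ}

/-- The subvarieties. -/
theorem sub_one (hH : ∀ a, (H a).IsHomogeneous (d a)) (C : Finset A)
    (hVh : ∀ f ∈ V, ∃ e, f.IsHomogeneous e) (hV : DimLE k0 V m)
    (I0 : ∀ a, Ex (Fin (n + 1)) (d a)) (h0 : ∀ a, coeff (I0 a).1 (H a) ≠ 0)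
    {B : Set (Bt I0)} (hB : Nat.card {b : Bt I0 // b ∉ B} ≤ s)
    (hq : q = 0 ∨ (Fintype.card A + 2 * q ≤ Nat.card {b : Bt I0 // b ∉ B} ∧
      Fintype.card A + 4 * q ≤ Nat.card {b : Bt I0 // b ∉ B} + 3))
    (hind : AlgebraicIndependent k0 fun p : B =>
      coeff p.1.2.1.1 (H p.1.1) / coeff (I0 p.1.1).1 (H p.1.1))
    {w : ℕ} (hw : 0 < w) (htr : Algebra.trdeg K L = w) {x : Fin (n + 1) → L} (hx : x ≠ 0)
    (hnum : 2 * m + s + 2 ≤ ∑ a, d a + C.card + w + q)
    (hgen : Algebra.IsAlgebraic (coords K x) L)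
    (hxV : ∀ f ∈ V, aeval x (map (algebraMap k0 K) f) = 0)
    (hC : ∀ a ∈ C, aeval x (H a) = 0) (hBd : ∀ a, a ∉ C → aeval x (H a) ≠ 0) :
    (∃ (p r : Fin (n + 1) → K) (u v : L), ∀ i, x i = u * algebraMap K L (p i) +
      v * algebraMap K L (r i)) ∨ LogGeneralType K L w fun Q : Place K L =>
        ∃ b, b ∉ C ∧ d b * pord Q x < Q.ord (aeval x (H b)) := by
  obtain ⟨h1, h2⟩ := dim_one hV
  obtain ⟨c0, hc0⟩ := Function.ne_iff.1 hx
  have h3 := log_sub (n := fun _ : Unit => n) (P := pm (k0 := k0) n d) (j0 := I0)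
    (dg := fun a _ => d a) (fun a j => pm_multi d a j) C (V := rename (em n) '' V)
    (by
      rintro _ ⟨f, hf, rfl⟩
      obtain ⟨e, he⟩ := hVh f hf
      exact ⟨_, multi_one he⟩) (m := m) (s := s) (w := w) (mi := fun _ => m) h1 h2
    (c0 := fun _ => c0) (fun a I hI => pm_hSt d a I hI) (fun a j j' h => pm_inj d a j j' h)
    (fun a j => pm_hmo d a j) hw (fun a j => coeff j.1 (H a)) h0 hB hq hind
    (F := fun a => rename (em n) (H a)) (fun a => form_sum hH a) htr (x := fun p => x p.2)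
    (fun _ => hc0) (by omega) (by
      rw [coords_one]
      exact hgen) (by
      rintro _ ⟨f, hf, rfl⟩
      rw [map_rename, aeval_one]
      exact hxV f hf) (fun a ha => by
      rw [aeval_one]
      exact hC a ha) (fun a ha => by
      rw [aeval_one]
      exact hBd a ha)
  rcases h3 with ⟨p, r, u, v, h⟩ | h3
  · left
    exact ⟨fun j => p (em n j), fun j => r (em n j), u, v, fun j => h (em n j)⟩
  · right
    have h4 : (fun Q : Place K L => ∃ b, b ∉ C ∧ d b * pord Q x < Q.ord (aeval x (H b))) =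
        (fun Q : Place K L => ∃ b, b ∉ C ∧
        ∑ i : Unit, ((d b : ℕ) : ℤ) * pord Q (fun j => (fun p : V1 n => x p.2) ⟨i, j⟩) <
          Q.ord (aeval (fun p : V1 n => x p.2) (rename (em n) (H b)))) :=
      funext fun Q => propext (bd_one C x Q).symm
    rw [h4]
    exact h3

/-- The curves. -/
theorem curve_one [IsFF K L] (hH : ∀ a, (H a).IsHomogeneous (d a)) (C : Finset A)
    (hVh : ∀ f ∈ V, ∃ e, f.IsHomogeneous e) (hV : DimLE k0 V m)
    (I0 : ∀ a, Ex (Fin (n + 1)) (d a)) (h0 : ∀ a, coeff (I0 a).1 (H a) ≠ 0)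
    {B : Set (Bt I0)} (hB : Nat.card {b : Bt I0 // b ∉ B} ≤ s)
    (hq : q = 0 ∨ (Fintype.card A + 2 * q ≤ Nat.card {b : Bt I0 // b ∉ B} ∧
      Fintype.card A + 4 * q ≤ Nat.card {b : Bt I0 // b ∉ B} + 3))
    (hind : AlgebraicIndependent k0 fun p : B =>
      coeff p.1.2.1.1 (H p.1.1) / coeff (I0 p.1.1).1 (H p.1.1))
    {x : Fin (n + 1) → L} (hnc : ∃ j l, Transcendental K (x j / x l))
    (hxV : ∀ f ∈ V, aeval x (map (algebraMap k0 K) f) = 0)
    (hC : ∀ a ∈ C, aeval x (H a) = 0) (hBd : ∀ a, a ∉ C → aeval x (H a) ≠ 0) :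
    {Q : Place K L | ∃ b, b ∉ C ∧ d b * pord Q x < Q.ord (aeval x (H b))}.Finite ∧
    ((∃ (p r : Fin (n + 1) → K) (u v : L), ∀ i, x i = u * algebraMap K L (p i) +
      v * algebraMap K L (r i)) ∨
      ((∑ a, (d a : ℤ)) + C.card + q - 2 * m - s) * pht K x ≤ canDeg K L +
        {Q : Place K L | ∃ b, b ∉ C ∧ d b * pord Q x < Q.ord (aeval x (H b))}.ncard) := by
  obtain ⟨h1, h2⟩ := dim_one hV
  obtain ⟨jj, c0, hjc⟩ := hnc
  have hc0 : x c0 ≠ 0 := by
    intro h
    apply hjc
    rw [h, div_zero]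
    exact isAlgebraic_zero
  have h3 := curve_sub (n := fun _ : Unit => n) (P := pm (k0 := k0) n d) (j0 := I0)
    (dg := fun a _ => d a) (fun a j => pm_multi d a j) C (V := rename (em n) '' V)
    (by
      rintro _ ⟨f, hf, rfl⟩
      obtain ⟨e, he⟩ := hVh f hf
      exact ⟨_, multi_one he⟩) (m := m) (s := s) (mi := fun _ => m) h1 h2
    (c0 := fun _ => c0) (fun a I hI => pm_hSt d a I hI) (fun a j j' h => pm_inj d a j j' h)
    (fun a j => pm_hmo d a j) (fun a j => coeff j.1 (H a)) h0 hB hq hind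
    (F := fun a => rename (em n) (H a)) (fun a => form_sum hH a) (x := fun p => x p.2)
    (fun _ => hc0) ⟨(), jj, c0, hjc⟩ (by
      rintro _ ⟨f, hf, rfl⟩
      rw [map_rename, aeval_one]
      exact hxV f hf) (fun a ha => by
      rw [aeval_one]
      exact hC a ha) (fun a ha => by
      rw [aeval_one]
      exact hBd a ha)
  have h4 : {Q : Place K L | ∃ b, b ∉ C ∧ d b * pord Q x < Q.ord (aeval x (H b))} =
      {Q : Place K L | ∃ b, b ∉ C ∧
      ∑ i : Unit, ((d b : ℕ) : ℤ) * pord Q (fun j => (fun p : V1 n => x p.2) ⟨i, j⟩) <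
        Q.ord (aeval (fun p : V1 n => x p.2) (rename (em n) (H b)))} :=
    Set.ext fun Q => (bd_one C x Q).symm
  rw [h4]
  refine ⟨h3.1, ?_⟩
  rcases h3.2 with ⟨p, r, u, v, h⟩ | h5
  · left
    exact ⟨fun j => p (em n j), fun j => r (em n j), u, v, fun j => h (em n j)⟩
  · right
    refine le_trans (le_of_eq ?_) h5
    have h6 : num C (fun a (_ : Unit) => d a) (fun _ => m) 1 m s q =
        (∑ a, (d a : ℤ)) + C.card + q - 2 * m - s := by
      unfold num
      push_cast
      ring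
    rw [h6]

end Pool.Agent.Run7.h621.LG
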