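import Pool.Agent.Run7.h621.FV.Dim
import Pool.Agent.TH145.GH.DataE

/-!
Forms that vanish on a line; the number of conditions.
-/

set_option autoImplicit false
set_option linter.unusedSectionVars false

open MvPolynomial

namespace Pool.Agent.Run7.h621.LG

variable {n : ℕ}

/-- The restriction to the line through two points. -/
noncomputable def rs {K : Type} [Field K] (p q : Fin (n + 1) → K) :
    MvPolynomial (Fin (n + 1)) K →ₐ[K] MvPolynomial (Fin 2) K :=
  aeval fun i => C (p i) * X 0 + C (q i) * X 1

theorem aeval_rs {K R : Type} [Field K] [CommRing R] [Algebra K R] (p q : Fin (n + 1) → K)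
    (f : MvPolynomial (Fin (n + 1)) K) (u v : R) : aeval ![u, v] (rs p q f) =
      aeval (fun i => u * algebraMap K R (p i) + v * algebraMap K R (q i)) f := by
  rw [rs, ← AlgHom.comp_apply]
  congr 1
  refine algHom_ext fun i => ?_
  rw [AlgHom.comp_apply, aeval_X, aeval_X, map_add, map_mul, map_mul, aeval_X, aeval_X]
  simp only [← algebraMap_eq, AlgHom.commutes, Matrix.cons_val_zero, Matrix.cons_val_one]
  ring

theorem rs_eval {K : Type} [Field K] (p q : Fin (n + 1) → K)
    (f : MvPolynomial (Fin (n + 1)) K) (u v : K) : eval ![u, v] (rs p q f) =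
      eval (fun i => u * p i + v * q i) f := by
  have h := aeval_rs (R := K) p q f u v
  simp only [Algebra.algebraMap_self, RingHom.id_apply] at h
  rw [aeval_eq_eval, aeval_eq_eval] at h
  exact h

theorem rs_homogeneous {K : Type} [Field K] (p q : Fin (n + 1) → K)
    {f : MvPolynomial (Fin (n + 1)) K} {e : ℕ} (hf : f.IsHomogeneous e) :
    (rs p q f).IsHomogeneous e := by
  have h := hf.aeval (n := 1) (fun i => C (p i) * X (0 : Fin 2) + C (q i) * X 1) fun i => by
    refine IsHomogeneous.add ?_ ?_
    · have := (isHomogeneous_C (Fin 2) (p i)).mul (isHomogeneous_X K (0 : Fin 2))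
      rwa [zero_add] at this
    · have := (isHomogeneous_C (Fin 2) (q i)).mul (isHomogeneous_X K (1 : Fin 2))
      rwa [zero_add] at this
  rw [one_mul] at h
  exact h

/-- Binary forms with a zero that is not constant. -/
theorem binary_zero {K L : Type} [Field K] [Field L] [Algebra K L]
    {G : MvPolynomial (Fin 2) K} {e : ℕ} (hG : G.IsHomogeneous e) {u v : L} (hv : v ≠ 0)
    (ht : Transcendental K (u / v)) (h0 : aeval ![u, v] G = 0) : G = 0 := by
  classical
  obtain ⟨g, hg⟩ : ∃ g : Polynomial K, g = aeval ![Polynomial.X, 1] G := ⟨_, rfl⟩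
  have h1 : Polynomial.aeval (u / v) g = 0 := by
    have h2 : Polynomial.aeval (u / v) g = aeval ![u / v, 1] G := by
      rw [hg, ← AlgHom.comp_apply]
      congr 1
      refine algHom_ext fun i => ?_
      rw [AlgHom.comp_apply, aeval_X, aeval_X]
      fin_cases i
      · simp
      · simp
    have h3 : aeval ![u, v] G = v ^ e * aeval ![u / v, 1] G := by
      rw [aeval_def, aeval_def, eval₂_eq, eval₂_eq, Finset.mul_sum]
      refine Finset.sum_congr rfl fun m hm => ?_
      have h4 : m.degree = e := by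
        rw [Finsupp.degree_eq_weight_one]
        exact hG (mem_support_iff.1 hm)
      rw [Finsupp.degree_eq_sum, Fin.sum_univ_two] at h4
      have h5 : ∀ f : Fin 2 → L, ∏ i ∈ m.support, f i ^ m i = f 0 ^ m 0 * f 1 ^ m 1 := by
        intro f
        rw [← Fin.prod_univ_two (fun i => f i ^ m i)]
        refine Finset.prod_subset (Finset.subset_univ _) fun i _ hi => ?_
        rw [Finsupp.notMem_support_iff.1 hi, pow_zero]
      rw [h5, h5]
      simp only [Matrix.cons_val_zero, Matrix.cons_val_one, one_pow, mul_one]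
      rw [← h4, pow_add, div_pow]
      field_simp
    rw [h3] at h0
    rw [h2]
    exact (mul_eq_zero.1 h0).resolve_left (pow_ne_zero _ hv)
  have h2 : g = 0 := by
    by_contra hne
    exact ht ⟨g, hne, h1⟩
  ext m
  rw [coeff_zero]
  by_contra hm
  have hdeg : ∀ m', coeff m' G ≠ 0 → m' 0 + m' 1 = e := by
    intro m' hm'
    have h4 : m'.degree = e := by
      rw [Finsupp.degree_eq_weight_one]
      exact hG hm'
    rw [Finsupp.degree_eq_sum, Fin.sum_univ_two] at h4
    exact h4
  have h3 : g.coeff (m 0) = coeff m G := by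
    rw [hg, aeval_def, eval₂_eq, Polynomial.finsetSum_coeff, Finset.sum_eq_single m]
    · have h5 : ∏ i ∈ m.support, (![Polynomial.X, 1] : Fin 2 → Polynomial K) i ^ m i =
          Polynomial.X ^ m 0 := by
        rw [Finset.prod_subset (Finset.subset_univ _) (fun i _ hi => by
          rw [Finsupp.notMem_support_iff.1 hi, pow_zero]), Fin.prod_univ_two]
        simp
      rw [h5, ← Polynomial.C_eq_algebraMap, Polynomial.coeff_C_mul, Polynomial.coeff_X_pow,
        if_pos rfl, mul_one]
    · intro m' hm' hne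
      have h5 : ∏ i ∈ m'.support, (![Polynomial.X, 1] : Fin 2 → Polynomial K) i ^ m' i =
          Polynomial.X ^ m' 0 := by
        rw [Finset.prod_subset (Finset.subset_univ _) (fun i _ hi => by
          rw [Finsupp.notMem_support_iff.1 hi, pow_zero]), Fin.prod_univ_two]
        simp
      rw [h5, ← Polynomial.C_eq_algebraMap, Polynomial.coeff_C_mul, Polynomial.coeff_X_pow,
        if_neg, mul_zero]
      intro h6
      apply hne
      have h7 := hdeg m hm
      have h8 := hdeg m' (mem_support_iff.1 hm')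
      ext i
      fin_cases i
      · exact h6.symm
      · change m' 1 = m 1
        omega
    · intro h
      exact absurd (mem_support_iff.2 hm) h
  rw [h2, Polynomial.coeff_zero] at h3
  exact hm h3.symm

/-- Forms that vanish at the generic point of a line. -/
theorem rs_zero {K L : Type} [Field K] [Field L] [Algebra K L] {f : MvPolynomial (Fin (n + 1)) K}
    {e : ℕ} (hf : f.IsHomogeneous e) {p q : Fin (n + 1) → K} {u v : L} {x : Fin (n + 1) → L}
    (hx : ∀ i, x i = u * algebraMap K L (p i) + v * algebraMap K L (q i)) {i j : Fin (n + 1)}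
    (ht : Transcendental K (x i / x j)) (h0 : aeval x f = 0) : rs p q f = 0 := by
  have hv : v ≠ 0 := by
    rintro rfl
    apply ht
    rw [hx, hx, zero_mul, zero_mul, add_zero, add_zero]
    by_cases hu : u = 0
    · rw [hu, zero_mul, zero_div]
      exact isAlgebraic_zero
    · rw [mul_div_mul_left _ _ hu, ← map_div₀]
      exact isAlgebraic_algebraMap _
  have ht' : Transcendental K (u / v) := by
    intro h
    apply ht
    have h1 : x i / x j = (u / v * algebraMap K L (p i) + algebraMap K L (q i)) /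
        (u / v * algebraMap K L (p j) + algebraMap K L (q j)) := by
      have h2 : ∀ i, x i = v * (u / v * algebraMap K L (p i) + algebraMap K L (q i)) := by
        intro i
        rw [hx]
        field_simp
      rw [h2 i, h2 j, mul_div_mul_left _ _ hv]
    rw [h1, div_eq_mul_inv]
    exact ((h.mul (isAlgebraic_algebraMap _)).add (isAlgebraic_algebraMap _)).mul
      ((h.mul (isAlgebraic_algebraMap _)).add (isAlgebraic_algebraMap _)).inv
  refine binary_zero (rs_homogeneous p q hf) hv ht' ?_
  rw [aeval_rs, ← h0]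
  congr 1
  exact congrArg _ (funext fun i => (hx i).symm)

/-- A normalised basis of a line. -/
theorem exists_nbasis {K : Type} [Field K] {W : Submodule K (Fin (n + 1) → K)}
    (hW : Module.finrank K W = 2) : ∃ (i0 i1 : Fin (n + 1)) (p q : Fin (n + 1) → K), i0 ≠ i1 ∧
      p ∈ W ∧ q ∈ W ∧ p i0 = 1 ∧ p i1 = 0 ∧ q i0 = 0 ∧ q i1 = 1 := by
  obtain ⟨v, hv, hv0⟩ : ∃ v ∈ W, v ≠ 0 := by
    by_contra hcon
    push Not at hcon
    have h1 : W = ⊥ := (Submodule.eq_bot_iff _).2 hcon
    rw [h1, finrank_bot] at hW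
    omega
  obtain ⟨i0, hi0⟩ := Function.ne_iff.1 hv0
  change v i0 ≠ 0 at hi0
  obtain ⟨w, hw, hw0, hwi⟩ : ∃ w ∈ W, w ≠ 0 ∧ w i0 = 0 := by
    obtain ⟨f, hf⟩ : ∃ f : W →ₗ[K] K, ∀ w, f w = w.1 i0 :=
      ⟨(LinearMap.proj i0).comp W.subtype, fun _ => rfl⟩
    have h1 := LinearMap.finrank_range_add_finrank_ker f
    have h2 := Submodule.finrank_le (LinearMap.range f)
    rw [Module.finrank_self] at h2
    have h3 : LinearMap.ker f ≠ ⊥ := by
      intro h
      rw [h, finrank_bot] at h1
      omega
    obtain ⟨w, hw, hw0⟩ := Submodule.exists_mem_ne_zero_of_ne_bot h3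
    refine ⟨w.1, w.2, fun h => hw0 (Subtype.ext h), ?_⟩
    rw [← hf]
    exact hw
  obtain ⟨i1, hi1⟩ := Function.ne_iff.1 hw0
  change w i1 ≠ 0 at hi1
  have hne : i0 ≠ i1 := by
    rintro rfl
    exact hi1 hwi
  refine ⟨i0, i1, (v i0)⁻¹ • v - ((v i0)⁻¹ * v i1 * (w i1)⁻¹) • w, (w i1)⁻¹ • w, hne,
    W.sub_mem (W.smul_mem _ hv) (W.smul_mem _ hw), W.smul_mem _ hw, ?_, ?_, ?_, ?_⟩
  · simp [hwi, hi0]
  · simp only [Pi.sub_apply, Pi.smul_apply, smul_eq_mul]
    field_simp
    ring
  · simp [hwi]
  · simp [hi1]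

end Pool.Agent.Run7.h621.LG
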