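import Pool.Agent.Run7.h621.FV.Pick

/-!
The selection of pairs of vectors, and families of vectors of rank at most one.
-/

set_option autoImplicit false

open Pool.Agent.Run7.h621.FV (ext_family sum_indep)

namespace Pool.Agent.Run7.h621.LG

variable {L V : Type} [Field L] [AddCommGroup V] [Module L V]

/-- The selection of pairs. -/
theorem select {ι0 K0 : Type} {v0 : ι0 → V} (hv0 : LinearIndependent L v0) (T : K0 → V)
    (r : K0 → K0 → Prop) (q : ℕ) :
    (∃ (β : Type) (_ : Fintype β) (t : β ⊕ β → K0), Fintype.card β = q ∧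
      (∀ z, r (t (Sum.inl z)) (t (Sum.inr z))) ∧ LinearIndependent L (Sum.elim v0 (T ∘ t))) ∨
    (∃ (β : Type) (_ : Fintype β) (t : β ⊕ β → K0), Fintype.card β < q ∧
      (∀ z, r (t (Sum.inl z)) (t (Sum.inr z))) ∧ LinearIndependent L (Sum.elim v0 (T ∘ t)) ∧
      ∀ k1 k2, r k1 k2 → ¬ LinearIndependent L
        ![(Submodule.span L (Set.range (Sum.elim v0 (T ∘ t)))).mkQ (T k1),
          (Submodule.span L (Set.range (Sum.elim v0 (T ∘ t)))).mkQ (T k2)]) := by
  induction q with
  | zero =>
    left
    refine ⟨Empty, inferInstance, Sum.elim (fun z => z.elim) fun z => z.elim, rfl,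
      fun z => z.elim, ?_⟩
    refine LinearIndependent.sum_type hv0 (linearIndependent_empty_type) ?_
    have h1 : Set.range (T ∘ (Sum.elim (fun z : Empty => (z.elim : K0))
        fun z : Empty => (z.elim : K0))) = ∅ :=
      Set.range_eq_empty _
    rw [h1, Submodule.span_empty]
    exact disjoint_bot_right
  | succ q ih =>
    rcases ih with ⟨β, i1, t, hβ, hr, ht⟩ | ⟨β, i1, t, hβ, hr, ht, hm⟩
    · by_cases hm : ∀ k1 k2, r k1 k2 → ¬ LinearIndependent L
        ![(Submodule.span L (Set.range (Sum.elim v0 (T ∘ t)))).mkQ (T k1),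
          (Submodule.span L (Set.range (Sum.elim v0 (T ∘ t)))).mkQ (T k2)]
      · exact Or.inr ⟨β, i1, t, by omega, hr, ht, hm⟩
      · left
        push Not at hm
        obtain ⟨k1, k2, hk, hm⟩ := hm
        obtain ⟨W, hW⟩ : ∃ W, W = Submodule.span L (Set.range (Sum.elim v0 (T ∘ t))) := ⟨_, rfl⟩
        rw [← hW] at hm
        have h1 := sum_indep W.mkQ ht (fun i => by
          rw [Submodule.mkQ_apply, Submodule.Quotient.mk_eq_zero, hW]
          exact Submodule.subset_span ⟨i, rfl⟩) (w := ![T k1, T k2]) (by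
          have h2 : (fun k => W.mkQ ((![T k1, T k2] : Fin 2 → V) k)) =
              ![W.mkQ (T k1), W.mkQ (T k2)] := by
            funext k
            fin_cases k <;> rfl
          rw [h2]
          exact hm)
        refine ⟨Option β, inferInstance, Sum.elim
          (fun z => match z with
            | none => k1
            | some z => t (Sum.inl z))
          (fun z => match z with
            | none => k2
            | some z => t (Sum.inr z)), by rw [Fintype.card_option, hβ], ?_, ?_⟩
        · rintro (_ | z)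
          · exact hk
          · exact hr z
        · obtain ⟨f, hf⟩ : ∃ f : ι0 ⊕ (Option β ⊕ Option β) → (ι0 ⊕ (β ⊕ β)) ⊕ Fin 2, f =
            fun i => match i with
              | Sum.inl i => Sum.inl (Sum.inl i)
              | Sum.inr (Sum.inl none) => Sum.inr 0
              | Sum.inr (Sum.inl (some z)) => Sum.inl (Sum.inr (Sum.inl z))
              | Sum.inr (Sum.inr none) => Sum.inr 1
              | Sum.inr (Sum.inr (some z)) => Sum.inl (Sum.inr (Sum.inr z)) := ⟨_, rfl⟩
          have h3 := h1.comp f (by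
            rw [hf]
            rintro (i | (_ | z) | (_ | z)) (i' | (_ | z') | (_ | z')) h <;> simp_all)
          convert h3 using 1
          rw [hf]
          funext i
          rcases i with i | (_ | z) | (_ | z) <;> rfl
    · exact Or.inr ⟨β, i1, t, by omega, hr, ht, hm⟩

theorem det_pair {u v : V} (h : LinearIndependent L ![u, v]) {a b a' b' : L}
    (h2 : ¬ LinearIndependent L ![a • u + b • v, a' • u + b' • v]) : a * b' = a' * b := by
  by_contra hne
  apply h2
  rw [LinearIndependent.pair_iff] at h ⊢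
  intro s t hst
  have h3 : (s * a + t * a') • u + (s * b + t * b') • v = 0 := by
    rw [← hst]
    simp only [smul_add, smul_smul, add_smul]
    abel
  obtain ⟨h4, h5⟩ := h _ _ h3
  have h6 : a * b' - a' * b ≠ 0 := sub_ne_zero.2 hne
  have h7 : s * (a * b' - a' * b) = 0 := by linear_combination b' * h4 - a' * h5
  have h8 : t * (a * b' - a' * b) = 0 := by linear_combination a * h5 - b * h4
  exact ⟨(mul_eq_zero.1 h7).resolve_right h6, (mul_eq_zero.1 h8).resolve_right h6⟩

/-- Families of vectors of rank at most one. -/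
theorem contact {G0 J : Type} (t : G0 → J → V)
    (h1 : ∀ g j j', ¬ LinearIndependent L ![t g j, t g j'])
    (h2 : ∀ g g', g ≠ g' → ∀ j j', ¬ LinearIndependent L ![t g j + t g' j, t g j' + t g' j']) :
    (∃ g1 j1, ∀ g j, ∃ z : L, t g j = z • t g1 j1) ∨
    (∀ g j, t g j = 0) ∨
    ∃ (lam : J → L) (j1 : J), lam j1 = 1 ∧ ∀ g j, t g j = lam j • t g j1 := by
  by_cases h0 : ∀ g j, t g j = 0
  · exact Or.inr (Or.inl h0)
  push Not at h0
  obtain ⟨g1, j1, h10⟩ := h0
  by_cases ha : ∀ g j, ∃ z : L, t g j = z • t g1 j1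
  · exact Or.inl ⟨g1, j1, ha⟩
  refine Or.inr (Or.inr ?_)
  have hsp : ∀ g j0, t g j0 ≠ 0 → ∀ j, ∃ z : L, t g j = z • t g j0 := by
    intro g j0 h j
    have h3 := h1 g j0 j
    rw [LinearIndependent.pair_iff' h] at h3
    push Not at h3
    obtain ⟨z, hz⟩ := h3
    exact ⟨z, hz.symm⟩
  choose lam hlam using hsp g1 j1 h10
  have hlam1 : lam j1 = 1 := by
    have h3 := hlam j1
    have h4 : (lam j1 - 1) • t g1 j1 = 0 := by
      rw [sub_smul, one_smul, ← h3, sub_self]
    have h5 := (smul_eq_zero.1 h4).resolve_right h10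
    linear_combination h5
  -- the vectors that are not in the span
  have hout : ∀ g, (∃ j0, ∀ z : L, t g j0 ≠ z • t g1 j1) →
      (∀ j, t g j = lam j • t g j1) ∧ ∀ z : L, t g j1 ≠ z • t g1 j1 := by
    rintro g ⟨j0, hj0⟩
    have h3 : t g j0 ≠ 0 := by
      intro h
      apply hj0 0
      rw [h, zero_smul]
    choose μ hμ using hsp g j0 h3
    have hind : LinearIndependent L ![t g1 j1, t g j0] := by
      rw [LinearIndependent.pair_iff' h10]
      intro z hz
      exact hj0 z hz.symm
    have hg : g1 ≠ g := by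
      rintro rfl
      exact hj0 _ (hlam j0)
    have h4 : ∀ j j', lam j * μ j' = lam j' * μ j := by
      intro j j'
      refine det_pair hind ?_
      have h5 := h2 g1 g hg j j'
      rwa [hlam j, hlam j', hμ j, hμ j'] at h5
    have h5 : μ j0 = 1 := by
      have h6 := hμ j0
      have h7 : (μ j0 - 1) • t g j0 = 0 := by
        rw [sub_smul, one_smul, ← h6, sub_self]
      have h8 := (smul_eq_zero.1 h7).resolve_right h3
      linear_combination h8
    have h6 : ∀ j, μ j = lam j * μ j1 := by
      intro j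
      have := h4 j j1
      rw [hlam1, one_mul] at this
      exact this.symm
    have h7 : μ j1 ≠ 0 := by
      intro h
      have := h6 j0
      rw [h5, h, mul_zero] at this
      exact one_ne_zero this
    refine ⟨fun j => ?_, fun z hz => ?_⟩
    · rw [hμ j, hμ j1, h6 j, mul_smul]
    · apply hj0 ((μ j1)⁻¹ * z)
      rw [mul_smul, ← hz, hμ j1, smul_smul, inv_mul_cancel₀ h7, one_smul]
  refine ⟨lam, j1, hlam1, fun g j => ?_⟩
  by_cases hg : ∃ j0, ∀ z : L, t g j0 ≠ z • t g1 j1
  · exact (hout g hg).1 j
  push Not at hg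
  push Not at ha
  obtain ⟨g2, hg2⟩ := ha
  obtain ⟨h3, h4⟩ := hout g2 hg2
  choose ν hν using hg
  have hgg : g ≠ g2 := by
    rintro rfl
    obtain ⟨j0, hj0⟩ := hg2
    exact hj0 _ (hν j0)
  have hind : LinearIndependent L ![t g1 j1, t g2 j1] := by
    rw [LinearIndependent.pair_iff' h10]
    intro z hz
    exact h4 z hz.symm
  have h5 : ν j * 1 = ν j1 * lam j := by
    refine det_pair hind ?_
    have h6 := h2 g g2 hgg j j1
    rw [hν j, hν j1, h3 j] at h6
    rwa [one_smul]
  rw [mul_one] at h5
  rw [hν j, hν j1, h5, smul_smul, mul_comm]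

end Pool.Agent.Run7.h621.LG
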