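import Pool.Agent.Run7.h621.LG.Fun
import Pool.Agent.Run7.h621.LG.Sel
import Pool.Agent.Run7.h621.LG.Cst

/-!
If there are no further pairs of independent tangent vectors with the same monomials, then the point
lies on a line over the field of constants.
-/

set_option autoImplicit false
set_option linter.unusedSectionVars false

open Pool.Agent.Run7.h621.MP (Vr Rd R Eu)

namespace Pool.Agent.Run7.h621.LG

variable {n : Unit → ℕ} {K L : Type} [Field K] [Field L] [Algebra K L] {A S Sb X : Type}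

section

variable {c : ∀ i, Fin (n i + 1)} {dg : A → Unit → ℕ}
  {D : A → (Vr n →₀ ℕ) → Derivation ℤ L L} {θE : A → (Vr n →₀ ℕ) → S ⊕ Sb → L} {x : Vr n → L}

/-- The functional given by a combination of the additional columns. -/
noncomputable def Psi (n : Unit → ℕ) (Sb : Type) [Fintype S] (w : S → L) :
    (Vr n ⊕ (S ⊕ Sb) → L) →ₗ[L] L where
  toFun v := ∑ r, v (Sum.inr (Sum.inl r)) * w r
  map_add' v v' := by
    simp only [Pi.add_apply, add_mul, Finset.sum_add_distrib]
  map_smul' s v := by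
    simp only [Pi.smul_apply, smul_eq_mul, RingHom.id_apply, Finset.mul_sum]
    exact Finset.sum_congr rfl fun r _ => by ring

theorem Psi_T [Fintype S] (hc : ∀ i, x ⟨i, c i⟩ = 1) (w : S → L) {a : A} {G : Vr n →₀ ℕ}
    (hG : Dg (G + Finsupp.single ⟨(), c ()⟩ 1) (dg a)) (p : Vr n) :
    Psi n Sb w (T c dg D θE x ({(a, G)}, p)) =
      fw (fun a I r => θE a I (Sum.inl r)) w a (G + Finsupp.single p 1) -
        x p * fw (fun a I r => θE a I (Sum.inl r)) w a (G + Finsupp.single ⟨(), c ()⟩ 1) := by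
  have hG' : Dg (G + Finsupp.single p 1) (dg a) :=
    Dg.swap (p := ⟨(), c ()⟩) (q := p) (Subsingleton.elim _ _) hG
  obtain ⟨⟨⟩, j⟩ := p
  rw [T]
  change Psi n Sb w (x ⟨(), c ()⟩ • RS dg D θE x {(a, G)} ⟨(), j⟩ -
    x ⟨(), j⟩ • RS dg D θE x {(a, G)} ⟨(), c ()⟩) = _
  rw [RS_single dg D θE x hG', RS_single dg D θE x hG, map_sub, map_smul, map_smul, hc, one_smul,
    smul_eq_mul]
  rfl

theorem T_add {g g' : A × (Vr n →₀ ℕ)} (h : g ≠ g') [DecidableEq A] [DecidableEq (A × (Vr n →₀ ℕ))]
    (p : Vr n) :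
    T c dg D θE x ({g, g'}, p) = T c dg D θE x ({g}, p) + T c dg D θE x ({g'}, p) := by
  have h1 : ∀ p, RS dg D θE x {g, g'} p = RS dg D θE x {g} p + RS dg D θE x {g'} p := by
    intro p
    rw [RS, RS, RS, Finset.sum_pair h, Finset.sum_singleton, Finset.sum_singleton]
  simp only [T, h1, smul_add]
  abel

end

/-- The relation between the indices of the pairs. -/
def Rel (k1 k2 : Ti A n) : Prop := k1.1 = k2.1 ∧ k1.2.1 = k2.2.1

variable [IsAlgClosed K] [CharZero K] [Fintype A] [Fintype S] {c : ∀ i, Fin (n i + 1)}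
  {dg : A → Unit → ℕ} {D : A → (Vr n →₀ ℕ) → Derivation ℤ L L}
  {θE : A → (Vr n →₀ ℕ) → S ⊕ Sb → L} {x : Vr n → L} {ι0 β : Type} [Fintype β]
  {v0 : ι0 → Vr n ⊕ (S ⊕ Sb) → L} {t : β ⊕ β → Ti A n}

/-- The point lies on a line over the field of constants. -/
theorem line_of_max (hc : ∀ i, x ⟨i, c i⟩ = 1) {w : ℕ} (htr : Algebra.trdeg K L = w)
    (hv0 : ∀ i r, v0 i (Sum.inr (Sum.inl r)) = 0)
    (hθK : ∀ a I r, ∃ z : K, θE a I (Sum.inl r) = algebraMap K L z)
    (hθ : ∀ w : S → L, (∀ a I, Dg I (dg a) →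
      fw (fun a I r => θE a I (Sum.inl r)) w a I = 0) → w = 0)
    (hm : ∀ k1 k2 : Ti A n, Rel k1 k2 → ¬ LinearIndependent L
        ![(Submodule.span L (Set.range (Sum.elim v0 (T c dg D θE x ∘ t)))).mkQ
            (T c dg D θE x k1),
          (Submodule.span L (Set.range (Sum.elim v0 (T c dg D θE x ∘ t)))).mkQ
            (T c dg D θE x k2)])
    (hs1 : Fintype.card A + 2 * Fintype.card β + 2 ≤ Fintype.card S)
    (hs2 : Fintype.card A + 4 * Fintype.card β + 1 ≤ Fintype.card S) :
    ∃ (p1 : Vr n) (lam μ : Vr n → K),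
      ∀ p, x p = algebraMap K L (lam p) * x p1 + algebraMap K L (μ p) := by
  classical
  obtain ⟨V, hV⟩ : ∃ V, V = Submodule.span L (Set.range (Sum.elim v0 (T c dg D θE x ∘ t))) :=
    ⟨_, rfl⟩
  rw [← hV] at hm
  obtain ⟨θ, hθd⟩ : ∃ θ : A → (Vr n →₀ ℕ) → S → L, θ = fun a I r => θE a I (Sum.inl r) := ⟨_, rfl⟩
  rw [← hθd] at hθ
  obtain ⟨p0, hp0⟩ : ∃ p0 : Vr n, p0 = ⟨(), c ()⟩ := ⟨_, rfl⟩
  obtain ⟨M, hM⟩ : ∃ M : β ⊕ β → S → L, ∀ z r, M z r = T c dg D θE x (t z) (Sum.inr (Sum.inl r)) :=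
    ⟨_, fun _ _ => rfl⟩
  have hPV : ∀ w ∈ kerW M, ∀ v ∈ V, Psi n Sb w v = 0 := by
    intro w hw v hv
    have h1 : V ≤ LinearMap.ker (Psi n Sb w) := by
      rw [hV, Submodule.span_le]
      rintro _ ⟨i | z, rfl⟩
      · change Psi n Sb w (v0 i) = 0
        refine Finset.sum_eq_zero fun r _ => ?_
        rw [hv0, zero_mul]
      · change Psi n Sb w (T c dg D θE x (t z)) = 0
        have h2 := hw z
        simp only [hM] at h2
        exact h2
    exact h1 hv
  have hPT : ∀ (w : S → L) (a : A) (G : Vr n →₀ ℕ), Dg (G + Finsupp.single p0 1) (dg a) → ∀ p,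
      Psi n Sb w (T c dg D θE x ({(a, G)}, p)) =
      fw θ w a (G + Finsupp.single p 1) - x p * fw θ w a (G + Finsupp.single p0 1) := by
    intro w a G hG p
    rw [hp0] at hG ⊢
    rw [hθd]
    exact Psi_T hc w hG p
  obtain ⟨tQ, htQ⟩ : ∃ tQ : A × (Vr n →₀ ℕ) → Vr n → ((Vr n ⊕ (S ⊕ Sb) → L) ⧸ V),
      ∀ g p, tQ g p = V.mkQ (T c dg D θE x ({g}, p)) := ⟨_, fun _ _ => rfl⟩
  have hmod : ∀ (g g' : A × (Vr n →₀ ℕ)) (p p' : Vr n) (z : L), tQ g p = z • tQ g' p' →
      ∀ w ∈ kerW M, Psi n Sb w (T c dg D θE x ({g}, p)) =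
        z * Psi n Sb w (T c dg D θE x ({g'}, p')) := by
    intro g g' p p' z h w hw
    rw [htQ, htQ, ← map_smul, ← sub_eq_zero, ← map_sub, Submodule.mkQ_apply,
      Submodule.Quotient.mk_eq_zero] at h
    have h1 := hPV w hw _ h
    rw [map_sub, map_smul, smul_eq_mul] at h1
    exact sub_eq_zero.1 h1
  rcases contact tQ (fun g p p' => by
      rw [htQ, htQ]
      exact hm _ _ ⟨rfl, Subsingleton.elim _ _⟩) (fun g g' hg p p' => by
      rw [htQ, htQ, htQ, htQ, ← map_add, ← map_add, ← T_add hg, ← T_add hg]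
      exact hm _ _ ⟨rfl, Subsingleton.elim _ _⟩) with ⟨g1, q1, h⟩ | h | ⟨lam, p1, hlam1, h⟩
  · -- one more vector
    exfalso
    obtain ⟨M', hM'⟩ : ∃ M' : Option (β ⊕ β) → S → L, (∀ r, M' none r =
      T c dg D θE x ({g1}, q1) (Sum.inr (Sum.inl r))) ∧ ∀ z, M' (some z) = M z :=
      ⟨fun z => match z with
        | none => fun r => T c dg D θE x ({g1}, q1) (Sum.inr (Sum.inl r))
        | some z => M z, fun _ => rfl, fun _ => rfl⟩
    have h1 : ∀ w ∈ kerW M', w ∈ kerW M ∧ Psi n Sb w (T c dg D θE x ({g1}, q1)) = 0 := by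
      intro w hw
      refine ⟨fun z => ?_, ?_⟩
      · have h2 := hw (some z)
        rw [hM'.2] at h2
        exact h2
      · have h2 := hw none
        simp only [hM'.1] at h2
        exact h2
    have h2 := point_rank (dg := dg) hθ (kerW M') (κ := x) (p0 := p0) (by
      intro w hw a G hG p
      obtain ⟨h3, h4⟩ := h1 w hw
      obtain ⟨z, hz⟩ := h (a, G) p
      have h5 := hmod _ _ _ _ _ hz w h3
      rw [h4, mul_zero, hPT w a G hG p] at h5
      exact sub_eq_zero.1 h5)
    have h3 := kerW_rank M'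
    rw [Fintype.card_option, Fintype.card_sum] at h3
    omega
  · exfalso
    have h2 := point_rank (dg := dg) hθ (kerW M) (κ := x) (p0 := p0) (by
      intro w hw a G hG p
      have h5 := hmod (a, G) (a, G) p p 0 (by rw [h, smul_zero]) w hw
      rw [zero_mul, hPT w a G hG p] at h5
      exact sub_eq_zero.1 h5)
    have h3 := kerW_rank M
    rw [Fintype.card_sum] at h3
    omega
  · obtain ⟨μ, hμ⟩ : ∃ μ : Vr n → L, ∀ p, μ p = x p - lam p * x p1 := ⟨_, fun _ => rfl⟩
    -- the relations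
    have hrel : ∀ w ∈ kerW M, ∀ a G, Dg (G + Finsupp.single p0 1) (dg a) → ∀ p,
        fw θ w a (G + Finsupp.single p 1) = lam p * fw θ w a (G + Finsupp.single p1 1) +
          μ p * fw θ w a (G + Finsupp.single p0 1) := by
      intro w hw a G hG p
      have h5 := hmod _ _ _ _ _ (h (a, G) p) w hw
      rw [hPT w a G hG p, hPT w a G hG p1] at h5
      rw [hμ]
      linear_combination h5
    have hder : ∀ (dd : Derivation K L L) (p : Vr n), dd (lam p) = 0 ∧ dd (μ p) = 0 := by
      intro dd p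
      by_contra hcon
      obtain ⟨M', hM'⟩ : ∃ M' : (β ⊕ β) ⊕ (β ⊕ β) → S → L, (∀ z, M' (Sum.inl z) = M z) ∧
        ∀ z r, M' (Sum.inr z) r = dd (M z r) :=
        ⟨Sum.elim M fun z r => dd (M z r), fun _ => rfl, fun _ _ => rfl⟩
      have h1 : ∀ w ∈ kerW M', w ∈ kerW M ∧ (fun r => dd (w r)) ∈ kerW M := by
        intro w hw
        have h2 : w ∈ kerW M := fun z => by
          have h2 := hw (Sum.inl z)
          rw [hM'.1] at h2
          exact h2
        refine ⟨h2, fun z => ?_⟩
        have h3 := hw (Sum.inr z)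
        simp only [hM'.2] at h3
        have h4 := congrArg dd (h2 z)
        rw [map_sum, map_zero] at h4
        have h5 : ∑ r, dd (M z r * w r) = ∑ r, M z r * dd (w r) + ∑ r, dd (M z r) * w r := by
          rw [← Finset.sum_add_distrib]
          refine Finset.sum_congr rfl fun r _ => ?_
          rw [dd.leibniz, smul_eq_mul, smul_eq_mul]
          ring
        rw [h5, h3, add_zero] at h4
        exact h4
      have hfd : ∀ (w : S → L) a I, dd (fw θ w a I) = fw θ (fun r => dd (w r)) a I := by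
        intro w a I
        rw [fw, fw, map_sum]
        refine Finset.sum_congr rfl fun r _ => ?_
        obtain ⟨z, hz⟩ := hθK a I r
        rw [hθd]
        change dd (θE a I (Sum.inl r) * w r) = θE a I (Sum.inl r) * dd (w r)
        rw [dd.leibniz, hz, dd.map_algebraMap, smul_zero, add_zero, smul_eq_mul]
      have hrel2 : ∀ w ∈ kerW M', ∀ a G, Dg (G + Finsupp.single p0 1) (dg a) →
          dd (lam p) * fw θ w a (G + Finsupp.single p1 1) +
            dd (μ p) * fw θ w a (G + Finsupp.single p0 1) = 0 := by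
        intro w hw a G hG
        obtain ⟨h2, h3⟩ := h1 w hw
        have h4 := congrArg dd (hrel w h2 a G hG p)
        have h5 := hrel _ h3 a G hG p
        rw [map_add, dd.leibniz, dd.leibniz, smul_eq_mul, smul_eq_mul, smul_eq_mul, smul_eq_mul,
          hfd, hfd, hfd] at h4
        linear_combination h5 - h4
      have h6 := kerW_rank M'
      rw [Fintype.card_sum, Fintype.card_sum] at h6
      by_cases hl : dd (lam p) = 0
      · have hμ0 : dd (μ p) ≠ 0 := fun h' => hcon ⟨hl, h'⟩
        have h7 := point_rank (dg := dg) hθ (kerW M') (κ := lam) (p0 := p1) (by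
          intro w hw a G hG q
          have hG0 : Dg (G + Finsupp.single p0 1) (dg a) :=
            Dg.swap (p := p1) (q := p0) (Subsingleton.elim _ _) hG
          have h8 := hrel2 w hw a G hG0
          rw [hl, zero_mul, zero_add] at h8
          have h9 := (mul_eq_zero.1 h8).resolve_left hμ0
          rw [hrel w (h1 w hw).1 a G hG0 q, h9, mul_zero, add_zero])
        omega
      · have h7 := point_rank (dg := dg) hθ (kerW M')
          (κ := fun q => lam q * (- dd (μ p) / dd (lam p)) + μ q) (p0 := p0) (by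
          intro w hw a G hG q
          have h8 := hrel2 w hw a G hG
          have h9 : fw θ w a (G + Finsupp.single p1 1) =
              (- dd (μ p) / dd (lam p)) * fw θ w a (G + Finsupp.single p0 1) := by
            field_simp
            linear_combination h8
          rw [hrel w (h1 w hw).1 a G hG q, h9]
          ring)
        omega
    have h7 : ∀ p, ∃ r : K, lam p = algebraMap K L r := fun p =>
      const_of_ders htr fun dd => (hder dd p).1
    have h8 : ∀ p, ∃ r : K, μ p = algebraMap K L r := fun p =>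
      const_of_ders htr fun dd => (hder dd p).2
    choose lam' hlam' using h7
    choose μ' hμ' using h8
    refine ⟨p1, lam', μ', fun p => ?_⟩
    rw [← hlam', ← hμ', hμ]
    ring

end Pool.Agent.Run7.h621.LG
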