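import Pool.Agent.Run7.h621.LG.Chart
import Pool.Agent.Run7.h621.MP.Local

/-!
The order of the determinant of the rows at a place; pairs of tangent vectors with the same
monomials have a smaller cost.
-/

set_option autoImplicit false
set_option linter.unusedSectionVars false

open MvPolynomial FF Pool.Agent.W603.LV Pool.Agent.W603.PV Pool.Agent.TH145.GH
open Pool.Agent.TH145.GC (ord_prod)
open Pool.Agent.Run7.h621.NG (dt dt_lin dt_cols dt_rows dt_tri dt_diag dt_ne_zero ge_dt)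
open Pool.Agent.Run7.h621.MP (Vr sM cor sM_zero sM_top mon mon_add mon_zero mon_sum mon_single
  mon_sM mon_cor mon_step Rd R Eu cS sc sT Rd_scale Eu_scale dt_trans ph Norm exists_norm ph_nonneg
  ge_ph wt)

namespace Pool.Agent.Run7.h621.LG

theorem dt_off {κ ι' L β : Type} [Fintype κ] [DecidableEq κ] [Field L] [Fintype ι'] [Fintype β]
    (e : κ ≃ ι') {o : β → ι'} (ho : Function.Injective o) (c : β → L) {v v' : ι' → κ → L}
    (h1 : ∀ i, i ∉ Set.range o → v i = v' i)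
    (h2 : ∀ z, v (o z) - c z • v' (o z) ∈ Submodule.span L (v' '' (Set.range o)ᶜ)) :
    dt e v = (∏ z, c z) * dt e v' := by
  classical
  have hf : Function.Bijective (Sum.elim (Subtype.val : {i // i ∉ Set.range o} → ι') o) := by
    constructor
    · rintro (i | z) (i' | z') h
      · exact congrArg Sum.inl (Subtype.ext h)
      · exact absurd ⟨z', h.symm⟩ i.2
      · exact absurd ⟨z, h⟩ i'.2
      · exact congrArg Sum.inr (ho h)
    · intro i
      by_cases h : i ∈ Set.range o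
      · obtain ⟨z, hz⟩ := h
        exact ⟨Sum.inr z, hz⟩
      · exact ⟨Sum.inl ⟨i, h⟩, rfl⟩
  obtain ⟨f, hf'⟩ : ∃ f : {i // i ∉ Set.range o} ⊕ β ≃ ι',
      ∀ z, f z = Sum.elim (Subtype.val : {i // i ∉ Set.range o} → ι') o z :=
    ⟨Equiv.ofBijective _ hf, fun _ => rfl⟩
  rw [dt_trans e f.symm v, dt_trans e f.symm v']
  refine dt_diag _ c (fun i => ?_) fun z => ?_
  · change v (f (Sum.inl i)) = v' (f (Sum.inl i))
    rw [hf']
    exact h1 _ i.2
  · change v (f (Sum.inr z)) - c z • v' (f (Sum.inr z)) ∈ _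
    rw [hf']
    refine (Submodule.span_mono ?_) (h2 z)
    rintro _ ⟨i, hi, rfl⟩
    refine ⟨⟨i, hi⟩, ?_⟩
    change v' (f (Sum.inl ⟨i, hi⟩)) = v' i
    rw [hf']
    rfl

variable {k L : Type} [Field k] [Field L] [Algebra k L] {ι : Type} [Fintype ι] [DecidableEq ι]
  {n : ι → ℕ} {A S X τ υ : Type}

theorem exists_ratio (P : Place k L) {u v : L} :
    (∃ μ, Ge P 0 μ ∧ v = μ * u) ∨ (∃ μ, Ge P 0 μ ∧ u = μ * v) := by
  by_cases hu : u = 0
  · exact Or.inr ⟨0, Ge.zero, by rw [hu, zero_mul]⟩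
  by_cases hv : v = 0
  · exact Or.inl ⟨0, Ge.zero, by rw [hv, zero_mul]⟩
  rcases le_total (P.ord u) (P.ord v) with h | h
  · refine Or.inl ⟨v / u, Or.inr ?_, by rw [div_mul_cancel₀ _ hu]⟩
    rw [P.ord_div hv hu]
    omega
  · refine Or.inr ⟨u / v, Or.inr ?_, by rw [div_mul_cancel₀ _ hv]⟩
    rw [P.ord_div hu hv]
    omega

theorem T_pair {c : ∀ i, Fin (n i + 1)} {dg : A → ι → ℕ}
    {D : A → (Vr n →₀ ℕ) → Derivation ℤ L L} {θ : A → (Vr n →₀ ℕ) → S → L} {x : Vr n → L}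
    {p1 p2 : Ti A n} (h1 : p1.1 = p2.1) (h2 : p1.2.1 = p2.2.1) {μ : L} (hμ : x p2.2 = μ * x p1.2) :
    T c dg D θ x p2 - μ • T c dg D θ x p1 = x ⟨p1.2.1, c p1.2.1⟩ •
      (RS dg D θ x p1.1 p2.2 - μ • RS dg D θ x p1.1 p1.2) := by
  obtain ⟨ρ, ⟨i, j⟩⟩ := p1
  obtain ⟨ρ', ⟨i', j'⟩⟩ := p2
  change ρ = ρ' at h1
  change i = i' at h2
  subst h1
  subst h2
  change x ⟨i, j'⟩ = μ * x ⟨i, j⟩ at hμ
  change x ⟨i, c i⟩ • RS dg D θ x ρ ⟨i, j'⟩ - x ⟨i, j'⟩ • RS dg D θ x ρ ⟨i, c i⟩ -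
    μ • (x ⟨i, c i⟩ • RS dg D θ x ρ ⟨i, j⟩ - x ⟨i, j⟩ • RS dg D θ x ρ ⟨i, c i⟩) =
    x ⟨i, c i⟩ • (RS dg D θ x ρ ⟨i, j'⟩ - μ • RS dg D θ x ρ ⟨i, j⟩)
  rw [hμ]
  funext q
  simp only [Pi.sub_apply, Pi.smul_apply, smul_eq_mul]
  ring

/-- Pairs of tangent vectors with the same monomials. -/
structure Pairs {β : Type} (t : τ → Ti A n) (p : β ⊕ β → τ) : Prop where
  inj : Function.Injective p
  fst : ∀ z, (t (p (Sum.inl z))).1 = (t (p (Sum.inr z))).1
  snd : ∀ z, (t (p (Sum.inl z))).2.1 = (t (p (Sum.inr z))).2.1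

/-- The order of the determinant of the rows at a place. -/
theorem ord_dt [Fintype S] [DecidableEq S] [Fintype X] [Fintype τ] [Fintype A] [Fintype υ]
    (P : Place k L) {c : ∀ i, Fin (n i + 1)} {dg : A → ι → ℕ}
    {D : A → (Vr n →₀ ℕ) → Derivation ℤ L L} {θ : A → (Vr n →₀ ℕ) → S → L} {κ : ι → S → L}
    {E : X → Derivation ℤ L L} {η : X → S → L} {t : τ → Ti A n}
    (e : Vr n ⊕ S ≃ (ι ⊕ (X ⊕ τ)) ⊕ (A ⊕ υ)) {x : Vr n → L} (hc : ∀ i, x ⟨i, c i⟩ = 1)
    (hsp : Spans c dg D θ κ E η t x) (u : υ → Vr n ⊕ S) {β : Type} [Fintype β] {p : β ⊕ β → τ}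
    (hp : Pairs t p) {e' : ℤ}
    (hD : ∀ f, Ge P 0 f → ∀ a I, Dg I (dg a) → Ge P (-e') (D a I f))
    (hθ : ∀ lam x', Norm P x lam x' → ∀ a I, Dg I (dg a) → ∀ s,
      Ge P (-e') (sT κ lam (D a I) (θ a I) s))
    (hE : ∀ f, Ge P 0 f → ∀ ξ, Ge P 0 (E ξ f))
    (hη : ∀ lam x', Norm P x lam x' → ∀ ξ s, Ge P 0 (sT κ lam (E ξ) (η ξ) s))
    (hκ : ∀ i s, Ge P 0 (κ i s))
    (hne : dt e (row c dg D θ κ E η t (fun a => cor c (dg a)) (fun y => Pi.single (u y) 1) x) ≠ 0) :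
    ∑ i, (∑ a, (dg a i : ℤ)) * ph P x i - ∑ p : Vr n, ph P x p.1 - ∑ y, ph P x (t y).2.1 +
      ∑ z, ph P x (t (p (Sum.inl z))).2.1 +
      ∑ y, wt (ph P x) (u y) - ((Fintype.card τ : ℤ) + Fintype.card A) * e' ≤
    P.ord (dt e (row c dg D θ κ E η t (fun a => cor c (dg a)) (fun y => Pi.single (u y) 1) x)) := by
  classical
  obtain ⟨lam, x', hN, hlam⟩ := exists_norm P (x := x) fun i => ⟨c i, by
    rw [hc]; exact one_ne_zero⟩
  have hN' := hN
  obtain ⟨hl, hx, hx', h1'⟩ := hN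
  choose j hj using h1'
  obtain ⟨h, hh⟩ : ∃ h, h = ph P x := ⟨_, rfl⟩
  rw [← hh] at hlam ⊢
  obtain ⟨u', hu'⟩ : ∃ u' : υ → Vr n ⊕ S → L, u' = fun y => Pi.single (u y) 1 := ⟨_, rfl⟩
  rw [← hu'] at hne ⊢
  have h1 := dt_chart (c := c) (dg := dg) (D := D) (θ := θ) (κ := κ) (E := E) (η := η) (t := t)
    e hl hj (by rw [← hx]; exact hc) (by rw [← hx]; exact hsp) u'
  rw [← hx] at h1
  obtain ⟨Θ, hΘ⟩ : ∃ Θ, Θ = dt e (row c dg D θ κ E η t (fun a => cor c (dg a)) u' x) := ⟨_, rfl⟩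
  rw [← hΘ] at h1 hne ⊢
  obtain ⟨θ', hθ'⟩ : ∃ θ' : A → (Vr n →₀ ℕ) → S → L, θ' = fun a I => sT κ lam (D a I) (θ a I) :=
    ⟨_, rfl⟩
  obtain ⟨v', hv'⟩ : ∃ v', v' = row c dg D (fun a I => sT κ lam (D a I) (θ a I)) κ E
    (fun ξ => sT κ lam (E ξ) (η ξ)) t (fun a => cor j (dg a))
    (fun y q => cS S lam q * u' y q) x' := ⟨_, rfl⟩
  rw [← hv'] at h1
  have hvT : ∀ y, v' (Sum.inl (Sum.inr (Sum.inr y))) = T c dg D θ' x' (t y) := fun y => by
    rw [hv', hθ']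
    rfl
  -- the pairs
  have hpair : ∀ z, ∃ (a b : τ) (μ : L), ((a = p (Sum.inl z) ∧ b = p (Sum.inr z)) ∨
      (a = p (Sum.inr z) ∧ b = p (Sum.inl z))) ∧ Ge P 0 μ ∧
      T c dg D θ' x' (t b) - μ • T c dg D θ' x' (t a) =
        x' ⟨(t (p (Sum.inl z))).2.1, c (t (p (Sum.inl z))).2.1⟩ •
        (RS dg D θ' x' (t (p (Sum.inl z))).1 (t b).2 -
          μ • RS dg D θ' x' (t (p (Sum.inl z))).1 (t a).2) := by
    intro z
    rcases exists_ratio P (u := x' (t (p (Sum.inl z))).2) (v := x' (t (p (Sum.inr z))).2) with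
      ⟨μ, hμ, h⟩ | ⟨μ, hμ, h⟩
    · exact ⟨_, _, μ, Or.inl ⟨rfl, rfl⟩, hμ, T_pair (hp.fst z) (hp.snd z) h⟩
    · refine ⟨_, _, μ, Or.inr ⟨rfl, rfl⟩, hμ, ?_⟩
      rw [T_pair (hp.fst z).symm (hp.snd z).symm h, hp.fst z, hp.snd z]
  choose a b μ hab hμ hT using hpair
  have hbinj : Function.Injective b := by
    intro z z' h
    rcases hab z with ⟨-, h1⟩ | ⟨-, h1⟩ <;> rcases hab z' with ⟨-, h2⟩ | ⟨-, h2⟩
    · rw [h1, h2] at h
      exact Sum.inr_injective (hp.inj h)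
    · rw [h1, h2] at h
      exact absurd (hp.inj h) (by simp)
    · rw [h1, h2] at h
      exact absurd (hp.inj h) (by simp)
    · rw [h1, h2] at h
      exact Sum.inl_injective (hp.inj h)
  have hanb : ∀ z z', a z ≠ b z' := by
    intro z z' h
    rcases hab z with ⟨h1, h3⟩ | ⟨h1, h3⟩ <;> rcases hab z' with ⟨h2, h4⟩ | ⟨h2, h4⟩
    · rw [h1, h4] at h
      exact absurd (hp.inj h) (by simp)
    · have h5 : z = z' := by
        rw [h1, h4] at h
        exact Sum.inl_injective (hp.inj h)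
      subst h5
      rw [h1] at h2
      exact absurd (hp.inj h2) (by simp)
    · have h5 : z = z' := by
        rw [h1, h4] at h
        exact Sum.inr_injective (hp.inj h)
      subst h5
      rw [h1] at h2
      exact absurd (hp.inj h2) (by simp)
    · rw [h1, h4] at h
      exact absurd (hp.inj h) (by simp)
  obtain ⟨o, ho⟩ : ∃ o : β → (ι ⊕ (X ⊕ τ)) ⊕ (A ⊕ υ), ∀ z, o z = Sum.inl (Sum.inr (Sum.inr (b z))) :=
    ⟨_, fun _ => rfl⟩
  have hoinj : Function.Injective o := by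
    intro z z' h
    rw [ho, ho] at h
    exact hbinj (Sum.inr_injective (Sum.inr_injective (Sum.inl_injective h)))
  obtain ⟨U, hU⟩ : ∃ U : β → Vr n ⊕ S → L, ∀ z, U z =
    RS dg D θ' x' (t (p (Sum.inl z))).1 (t (b z)).2 -
      μ z • RS dg D θ' x' (t (p (Sum.inl z))).1 (t (a z)).2 := ⟨_, fun _ => rfl⟩
  obtain ⟨v2, hv2, hv2'⟩ : ∃ v2 : (ι ⊕ (X ⊕ τ)) ⊕ (A ⊕ υ) → Vr n ⊕ S → L,
      (∀ z, v2 (o z) = U z) ∧ ∀ i, i ∉ Set.range o → v2 i = v' i := by
    refine ⟨fun i => if h : ∃ z, o z = i then U h.choose else v' i, fun z => ?_, fun i hi => ?_⟩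
    · have h : ∃ z', o z' = o z := ⟨z, rfl⟩
      change (if h : ∃ z', o z' = o z then U h.choose else v' (o z)) = U z
      rw [dif_pos h]
      congr 1
      exact hoinj h.choose_spec
    · exact dif_neg fun h => hi h
  have hdt : dt e v' = (∏ z, x' ⟨(t (p (Sum.inl z))).2.1, c (t (p (Sum.inl z))).2.1⟩) *
      dt e v2 := by
    refine dt_off e hoinj _ (fun i hi => (hv2' i hi).symm) fun z => ?_
    have h3 : Sum.inl (Sum.inr (Sum.inr (a z))) ∉ Set.range o := by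
      rintro ⟨z', hz'⟩
      rw [ho] at hz'
      exact hanb z z' (Sum.inr_injective (Sum.inr_injective (Sum.inl_injective hz'))).symm
    have h4 : v' (o z) - x' ⟨(t (p (Sum.inl z))).2.1, c (t (p (Sum.inl z))).2.1⟩ • v2 (o z) =
        μ z • v2 (Sum.inl (Sum.inr (Sum.inr (a z)))) := by
      rw [hv2, hv2' _ h3, ho, hvT, hvT, hU, ← hT]
      abel
    rw [h4]
    exact Submodule.smul_mem _ _ (Submodule.subset_span ⟨_, h3, rfl⟩)
  have hxc : ∀ i, x' ⟨i, c i⟩ ≠ 0 := by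
    intro i h3
    have h4 := hc i
    rw [hx] at h4
    change lam i * x' ⟨i, c i⟩ = 1 at h4
    rw [h3, mul_zero] at h4
    exact zero_ne_one h4
  have hoc : ∀ i, P.ord (x' ⟨i, c i⟩) = h i := by
    intro i
    have h4 := hc i
    rw [hx] at h4
    change lam i * x' ⟨i, c i⟩ = 1 at h4
    have h5 := congrArg P.ord h4
    rw [P.ord_mul (hl i) (hxc i), P.ord_one, hlam] at h5
    omega
  have p1 : (∏ p : Vr n, (lam p.1)⁻¹) ≠ 0 := Finset.prod_ne_zero_iff.2 fun p _ => inv_ne_zero (hl _)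
  have p2 : (∏ a, ∏ i, (lam i)⁻¹ ^ dg a i) ≠ 0 := Finset.prod_ne_zero_iff.2 fun a _ =>
    Finset.prod_ne_zero_iff.2 fun i _ => pow_ne_zero _ (inv_ne_zero (hl i))
  have p3 : (∏ y, lam (t y).2.1) ≠ 0 := Finset.prod_ne_zero_iff.2 fun y _ => hl _
  have p4 : (∏ z, x' ⟨(t (p (Sum.inl z))).2.1, c (t (p (Sum.inl z))).2.1⟩) ≠ 0 :=
    Finset.prod_ne_zero_iff.2 fun y _ => hxc _
  have hv'0 : dt e v' ≠ 0 := by
    intro h2
    rw [h2, mul_zero, mul_zero] at h1
    exact mul_ne_zero p1 hne h1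
  have hv20 : dt e v2 ≠ 0 := by
    intro h2
    rw [h2, mul_zero] at hdt
    exact hv'0 hdt
  have h2 := congrArg P.ord h1
  rw [P.ord_mul p1 hne, P.ord_mul p2 (mul_ne_zero p3 hv'0), P.ord_mul p3 hv'0,
    ord_prod P _ _ fun p _ => inv_ne_zero (hl _), ord_prod P _ _ fun a _ =>
      Finset.prod_ne_zero_iff.2 fun i _ => pow_ne_zero _ (inv_ne_zero (hl i)),
    ord_prod P _ _ fun y _ => hl _, hdt, P.ord_mul p4 hv20, ord_prod P _ _ fun z _ => hxc _] at h2
  have h3 : ∑ p : Vr n, P.ord (lam p.1)⁻¹ = ∑ p : Vr n, h p.1 :=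
    Finset.sum_congr rfl fun p _ => by rw [P.ord_inv, hlam, neg_neg]
  have h4 : ∑ a, P.ord (∏ i, (lam i)⁻¹ ^ dg a i) = ∑ i, (∑ a, (dg a i : ℤ)) * h i := by
    simp only [Finset.sum_mul]
    rw [Finset.sum_comm]
    refine Finset.sum_congr rfl fun a _ => ?_
    rw [ord_prod P _ _ fun i _ => pow_ne_zero _ (inv_ne_zero (hl i))]
    refine Finset.sum_congr rfl fun i _ => ?_
    rw [P.ord_pow, P.ord_inv, hlam, neg_neg]
  have h5 : ∑ y, P.ord (lam (t y).2.1) = - ∑ y, h (t y).2.1 := by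
    rw [← Finset.sum_neg_distrib]
    exact Finset.sum_congr rfl fun y _ => hlam _
  rw [h3, h4, h5] at h2
  simp only [hoc] at h2
  have hR : ∀ a I, Dg I (dg a) → ∀ q, Ge P (-e') (R D θ' x' a I q) := by
    intro a I he q
    rw [hθ']
    rcases q with p | s
    · exact hD _ (hx' p) a I he
    · exact hθ lam x' hN' a I he s
  have hRS : ∀ ρ p q, Ge P (-e') (RS dg D θ' x' ρ p q) := by
    intro ρ p q
    rw [RS, Finset.sum_apply]
    refine Ge.sum _ _ fun g _ => ?_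
    split_ifs with hg
    · exact hR _ _ hg q
    · exact Ge.zero
  have h6 := ge_dt P e (v := v2) (w := fun i => match i with
    | Sum.inl (Sum.inl _) => 0
    | Sum.inl (Sum.inr (Sum.inl _)) => 0
    | Sum.inl (Sum.inr (Sum.inr _)) => -e'
    | Sum.inr (Sum.inl _) => -e'
    | Sum.inr (Sum.inr y) => wt h (u y)) (by
    intro i q
    by_cases hi : i ∈ Set.range o
    · obtain ⟨z, rfl⟩ := hi
      rw [hv2, ho, hU]
      change Ge P (-e') _
      refine Ge.sub (hRS _ _ q) ?_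
      have h7 := (hμ z).mul (hRS (t (p (Sum.inl z))).1 (t (a z)).2 q)
      rw [zero_add] at h7
      exact h7
    rw [hv2' i hi]
    clear hi
    revert i q
    rintro ((i | ξ | y) | (a | y)) q
    · rw [hv']
      rcases q with p | s
      · change Ge P 0 (if p.1 = i then x' p else 0)
        split_ifs
        · exact hx' p
        · exact Ge.zero
      · exact hκ i s
    · rw [hv']
      rcases q with p | s
      · exact hE _ (hx' p) ξ
      · exact hη lam x' hN' ξ s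
    · rw [hvT]
      change Ge P (-e') (x' _ * RS dg D θ' x' _ _ q - x' _ * RS dg D θ' x' _ _ q)
      refine Ge.mono (by omega : -e' ≤ 0 + -e') (Ge.sub ?_ ?_)
      · exact (hx' _).mul (hRS _ _ q)
      · exact (hx' _).mul (hRS _ _ q)
    · rw [hv']
      change Ge P (-e') (R D (fun a I => sT κ lam (D a I) (θ a I)) x' a (cor j (dg a)) q)
      rw [← hθ']
      exact hR a _ (Dg_cor j (dg a)) q
    · rw [hv']
      change Ge P (wt h (u y)) (cS S lam q * u' y q)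
      rw [hu']
      change Ge P (wt h (u y)) (cS S lam q * (Pi.single (u y) 1 : Vr n ⊕ S → L) q)
      rw [Pi.single_apply]
      split_ifs with hq
      · rw [hq, mul_one]
        rcases u y with p | s
        · refine Or.inr ?_
          change h p.1 ≤ P.ord (lam p.1)⁻¹
          rw [P.ord_inv, hlam, neg_neg]
        · exact Ge.one
      · rw [mul_zero]
        exact Ge.zero)
  rw [Fintype.sum_sum_type, Fintype.sum_sum_type, Fintype.sum_sum_type, Fintype.sum_sum_type] at h6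
  simp only [Finset.sum_const_zero, Finset.sum_const, Finset.card_univ, nsmul_eq_mul,
    zero_add] at h6
  have h7 := h6.resolve_left hv20
  linarith

end Pool.Agent.Run7.h621.LG
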