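import Pool.Agent.Run7.h621.LG.Core
import Pool.Agent.Run7.h621.LG.Change
import Pool.Agent.Run7.h621.LG.Data
import Pool.Agent.Run7.h621.MP.LogFinal

/-!
The forms on subvarieties of logarithmic pairs that are not lines.
-/

set_option autoImplicit false
set_option linter.unusedSectionVars false

open MvPolynomial FF Pool.Agent.W603.LV Pool.Agent.W603.PV Pool.Agent.TH145.GH
open Pool.Agent.W602.GT Pool.Agent.TH145.GF Pool.Agent.TH145.MG
open Pool.Agent.Run7.h621.FV (cd coeff_cd exists_tb)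
open Pool.Agent.Run7.h621.NG (Bt cj Dr Dr_apply θr dt dt_ne_zero)
open Pool.Agent.Run7.h621.MP (Vr sM cor sM_zero sM_top mon mon_add mon_zero mon_sum mon_single
  mon_sM mon_cor mon_step Rd R Eu cS sc sT Rd_scale Eu_scale dt_trans ph Norm exists_norm ph_nonneg
  ge_ph wt blk blk_card kE tE eE qE sum_qE Ph_u Ph_E Ph Ph_apply Ph_Eu Ph_Rd eval_monomial' IsMulti
  mcoords MTan mtan_rank mtan_block trdeg_chart eval_sc logder NF NF_multi map_NF ph_const Qr
  eval_mon)

namespace Pool.Agent.Run7.h621.LG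

variable {k0 A : Type} [Field k0] {n : Unit → ℕ} {J : A → Type}
  [∀ a, Fintype (J a)] {P : ∀ a, J a → MvPolynomial (Vr n) k0} {j0 : ∀ a, J a}

/-- The forms on a subvariety. -/
theorem core_forms {K L : Type} [Field K] [Field L] [Algebra k0 K] [Algebra K L] [Algebra k0 L]
    [IsScalarTower k0 K L] [IsAlgClosed K] [CharZero K] [Fintype A] [DecidableEq A]
    {dg : A → Unit → ℕ} (hP : ∀ a j, IsMulti (P a j) (dg a)) (C : Finset A) {m s w : ℕ} {mi : Unit → ℕ}
    {c0 : ∀ i, Fin (n i + 1)} (hSt : ∀ a I, Dg I (dg a) → ∃ j', P a j' = monomial I 1)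
    (hinj : ∀ a j j', P a j = P a j' → j = j')
    (hmo : ∀ a j, ∃ I, Dg I (dg a) ∧ P a j = monomial I 1) (hw : 0 < w)
    {c : Bt j0 → K} {B : Set (Bt j0)} (hB : Nat.card {b : Bt j0 // b ∉ B} ≤ s)
    {q0 : ℕ} (hq0 : q0 = 0 ∨ (Fintype.card A + 2 * q0 ≤ Nat.card {b : Bt j0 // b ∉ B} ∧
      Fintype.card A + 4 * q0 ≤ Nat.card {b : Bt j0 // b ∉ B} + 3))
    (hind : AlgebraicIndependent k0 fun b : B => c b) (htr : Algebra.trdeg K L = w)
    {x : Vr n → L} (hx : ∀ i, x ⟨i, c0 i⟩ = 1)
    (hgen : Algebra.IsAlgebraic (IntermediateField.adjoin K (Set.range x)) L)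
    (hm : Algebra.trdeg k0 (mcoords k0 x) ≤ m)
    (hmi : ∀ i, Algebra.trdeg k0 (coords k0 fun j => x ⟨i, j⟩) ≤ mi i)
    {F : A → MvPolynomial (Vr n) L} (hF : ∀ a, F a = map (algebraMap K L) (NF P j0 c a))
    (hC : ∀ a ∈ C, eval x (F a) = 0) (hBd : ∀ a, a ∉ C → eval x (F a) ≠ 0) :
    (∃ (p1 : Vr n) (lam μ : Vr n → K),
      ∀ p, x p = algebraMap K L (lam p) * x p1 + algebraMap K L (μ p)) ∨
    ∃ (Δ : (Fin w → Derivation K L L) → L) (l : Fin w → Vr n) (E : Fin w → Derivation K L L),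
      IsTranscendenceBasis K (fun i => x (l i)) ∧ Δ E ≠ 0 ∧
      (∀ (B : Matrix (Fin w) (Fin w) L) (D1 D2 : Fin w → Derivation K L L),
        (∀ i f, D1 i f = ∑ j, B i j * D2 j f) → Δ D1 = B.det * Δ D2) ∧
      ∀ Q : Place K L, Divisorial w Q → ∀ Dd : Fin w → Derivation K L L,
        ((∀ i, DerLog Q (Dd i)) ∨ ((∀ i, DerReg Q (Dd i)) ∧ ∀ b, b ∉ C →
          ¬ ∑ i, (dg b i : ℤ) * pord Q (fun j => x ⟨i, j⟩) < Q.ord (eval x (F b)))) →
        Ge Q (num C dg mi w m s q0 * ph Q x ()) (Δ Dd) := by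
  classical
  have hL : CharZero L := charZero_of_injective_algebraMap (algebraMap K L).injective
  have := Fintype.ofFinite B
  have := Fintype.ofFinite {b : Bt j0 // b ∉ B}
  obtain ⟨l, hl⟩ := exists_tb htr hgen
  obtain ⟨t, ht⟩ : ∃ t : Fin w → L, ∀ i, t i = x (l i) := ⟨_, fun _ => rfl⟩
  have htb : IsTranscendenceBasis K t := by
    have : t = fun i => x (l i) := funext ht
    rw [this]
    exact hl
  -- the vertical derivations
  obtain ⟨E, hE⟩ : ∃ E : Fin w → Derivation K L L, ∀ i j, E i (t j) = if i = j then 1 else 0 := by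
    obtain ⟨E, hE⟩ := exists_dual htb
    refine ⟨E, fun i j => ?_⟩
    have := congrFun (congrFun hE i) j
    rw [Matrix.of_apply, Matrix.one_apply] at this
    rw [this]
  -- the dual derivations
  obtain ⟨δ, hδS, hδ⟩ := exists_dualsG htb (fun b : B => c b) hind
  have hδk : ∀ b (r : k0), δ b (algebraMap k0 L r) = 0 := fun b r => (δ b).map_algebraMap r
  obtain ⟨ρ, ε, hρ, hε, hnd, hD⟩ := exists_data (P := P) (fun b => (δ b).restrictScalars ℤ)
    hδk (fun b => algebraMap K L (c b)) (fun b b' => by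
      by_cases h : b = b'
      · exact Or.inl ⟨h, (hδ b b').trans (if_pos h)⟩
      · exact Or.inr ⟨h, (hδ b b').trans (if_neg h)⟩)
    (G := fun a => {I | Dg I (dg a)}) hSt hinj hmo
  obtain ⟨D, hDd⟩ : ∃ D : A → (Vr n →₀ ℕ) → Derivation ℤ L L, D = fun a I =>
    Dr (fun b => (δ b).restrictScalars ℤ) (ρ a I) := ⟨_, rfl⟩
  obtain ⟨θ, hθd⟩ : ∃ θ : A → (Vr n →₀ ℕ) → {b : Bt j0 // b ∉ B} → L, θ = fun a I =>
    θr (fun b => (δ b).restrictScalars ℤ) (fun b => algebraMap K L (c b)) (ρ a I) := ⟨_, rfl⟩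
  have hFN : ∀ a, F a = NF P j0 (fun b => algebraMap K L (c b)) a := fun a => by
    rw [hF, map_NF]
  have hdual : Dual F dg D θ ε (Qr P L B) := by
    intro a b I hI
    rw [hFN, hDd, hθd]
    exact hD a b I hI
  have hnd' : ∀ w : {b : Bt j0 // b ∉ B} → L,
      (∀ a I, Dg I (dg a) → ∑ r, θ a I r * w r = 0) → w = 0 := by
    intro w hw
    funext r
    obtain ⟨a, I, hI, h⟩ := hnd r
    have h1 := hw a I hI
    rw [hθd, Finset.sum_eq_single r] at h1
    · rcases h r with ⟨-, h2⟩ | ⟨h2, -⟩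
      · dsimp only at h1
        rw [h2] at h1
        rw [Pi.zero_apply]
        linear_combination -h1
      · exact absurd rfl h2
    · intro r' _ hr'
      rcases h r' with ⟨h2, -⟩ | ⟨-, h2⟩
      · exact absurd h2 hr'
      · dsimp only
        rw [h2, zero_mul]
    · intro h; exact absurd (Finset.mem_univ _) h
  have hFm : ∀ a, IsMulti (F a) (dg a) := fun a => by
    rw [hFN]
    exact NF_multi hP _ a
  have hDf : ∀ a I f, D a I f = ∑ b : B, ρ a I b * δ b f := fun a I f => by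
    rw [hDd]
    exact Dr_apply _ _ _
  have hρK : ∀ a I q, ∃ z : K, ρ a I q = algebraMap K L z := fun a I q => by
    rcases hρ a I q with h | h | h
    · exact ⟨0, by rw [h, map_zero]⟩
    · exact ⟨1, by rw [h, map_one]⟩
    · exact ⟨-c q, by rw [h, map_neg]⟩
  have hDk : ∀ a I (r : k0), D a I (algebraMap k0 L r) = 0 := by
    intro a I r
    rw [hDf]
    exact Finset.sum_eq_zero fun b _ => by rw [hδk, mul_zero]
  have hDS' : ∀ a I (r : K), ∃ z : K, D a I (algebraMap K L r) = algebraMap K L z := by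
    intro a I r
    have h2 : ∀ b, ∃ z : K, δ b (algebraMap K L r) = algebraMap K L z := fun b => hδS b r
    choose z1 hz1 using hρK a I
    choose z2 hz2 using h2
    refine ⟨∑ b : B, z1 b * z2 b, ?_⟩
    rw [hDf, map_sum]
    exact Finset.sum_congr rfl fun b _ => by rw [hz1, hz2, map_mul]
  have hDS : ∀ a I, Sem K (D a I) := fun a I r => hDS' a I r
  have hθK : ∀ a I r, ∃ z : K, θ a I r = algebraMap K L z := by
    intro a I r
    have h2 : ∀ b, ∃ z : K, δ b (algebraMap K L (c r)) = algebraMap K L z := fun b => hδS b (c r)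
    choose z1 hz1 using hρK a I
    choose z2 hz2 using h2
    refine ⟨∑ b : B, z1 b * z2 b - z1 r, ?_⟩
    rw [hθd, map_sub, map_sum, ← hz1 r]
    change ∑ b : B, ρ a I b * δ b (algebraMap K L (c r)) - ρ a I r = _
    congr 1
    exact Finset.sum_congr rfl fun b _ => by rw [hz1, hz2, map_mul]
  have hX : LinearIndependent L (fun (ξ : Fin w) (p : Vr n) =>
      (E ξ).restrictScalars ℤ (x p)) := by
    rw [Fintype.linearIndependent_iff]
    intro g hg j
    have h4 := congrFun hg (l j)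
    rw [Finset.sum_apply, Finset.sum_eq_single j] at h4
    · change g j * E j (x (l j)) = 0 at h4
      rwa [← ht, hE, if_pos rfl, mul_one] at h4
    · intro i _ hi
      change g i * E i (x (l j)) = 0
      rw [← ht, hE, if_neg hi, mul_zero]
    · intro h; exact absurd (Finset.mem_univ _) h
  have hEF : ∀ (D' : Derivation K L L) (b : A), cd (D'.restrictScalars ℤ) (F b) = 0 := by
    intro D' b
    ext u
    rw [coeff_cd, coeff_zero, hF, coeff_map]
    exact D'.map_algebraMap _
  rcases pickF (k0 := k0) (K := K) (m := m) (mi := mi) htr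
    hFm hdual hDk
    (E := fun ξ => (E ξ).restrictScalars ℤ) (fun ξ r => by
      change E ξ (algebraMap k0 L r) = 0
      rw [IsScalarTower.algebraMap_apply k0 K L]
      exact (E ξ).map_algebraMap _) (fun ξ b => hEF (E ξ) b) hx hC hBd hX hm hmi hθK hnd'
    (q0 := q0) (by rwa [Nat.card_eq_fintype_card] at hq0) with hline |
    ⟨τ, i1, υ, i2, tt, u, e, β, i0, pp, hβ, hpp, hsp, hli, hcard, hu⟩
  · exact Or.inl hline
  right
  obtain ⟨Δ, hΔ⟩ : ∃ Δ : (Fin w → Derivation K L L) → L, ∀ Dd, Δ Dd =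
    dt e (row c0 dg D (tE C F x D θ ε) (kE C _ L dg) (fun ξ => (Dd ξ).restrictScalars ℤ)
      (eE C F x _ fun ξ => (Dd ξ).restrictScalars ℤ) tt
      (fun a => cor c0 (dg a)) (fun y => Pi.single (u y) 1) x) := ⟨_, fun _ => rfl⟩
  have hΔE : Δ E ≠ 0 := by
    rw [hΔ]
    exact dt_ne_zero e hli
  have heE : ∀ (M : Matrix (Fin w) (Fin w) L) (D1 D2 : Fin w → Derivation K L L),
      (∀ i f, D1 i f = ∑ j, M i j * D2 j f) → ∀ i s,
      eE C F x {b : Bt j0 // b ∉ B} (fun ξ => (D1 ξ).restrictScalars ℤ) i s =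
        ∑ j, M i j * eE C F x {b : Bt j0 // b ∉ B} (fun ξ => (D2 ξ).restrictScalars ℤ) j s := by
    intro M D1 D2 h i s
    rcases s with s | b
    · symm
      exact Finset.sum_eq_zero fun j _ => mul_zero (M i j)
    · change D1 i (eval x (F b.1)) / eval x (F b.1) =
        ∑ j, M i j * (D2 j (eval x (F b.1)) / eval x (F b.1))
      rw [h, Finset.sum_div]
      exact Finset.sum_congr rfl fun j _ => by rw [mul_div_assoc]
  have hlin : ∀ (M : Matrix (Fin w) (Fin w) L) (D1 D2 : Fin w → Derivation K L L),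
      (∀ i f, D1 i f = ∑ j, M i j * D2 j f) → Δ D1 = M.det * Δ D2 := by
    intro M D1 D2 h
    rw [hΔ, hΔ]
    exact dt_change e h (heE M D1 D2 h) (r := fun _ _ _ => 0) (fun a I f => by simp)
      (fun a I s => by simp) _ _ x
  refine ⟨Δ, l, E, hl, hΔE, hlin, fun Q hQ Dd hDd => ?_⟩
  obtain ⟨B', hB'⟩ : ∃ B' : Matrix (Fin w) (Fin w) L, B' = Matrix.of fun i j => Dd i (t j) :=
    ⟨_, rfl⟩
  have hDE : ∀ i f, Dd i f = ∑ j, B' i j * E j f := fun i f => by
    rw [der_comb htb hE (Dd i) f, hB']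
    rfl
  have h1 := hlin B' Dd E hDE
  by_cases hB0 : B'.det = 0
  · rw [h1, hB0, zero_mul]
    exact Ge.zero
  have hΔD : Δ Dd ≠ 0 := by
    rw [h1]
    exact mul_ne_zero hB0 hΔE
  choose ξ hξ using fun a I => exists_lift hw htr hQ (hDS a I)
  obtain ⟨D2, hD2⟩ : ∃ D2 : A → (Vr n →₀ ℕ) → Derivation ℤ L L, ∀ a I f, D2 a I f =
    D a I f - ξ a I f := ⟨fun a I => D a I - (ξ a I).restrictScalars ℤ, fun a I f => by simp⟩
  have hED : ∀ i f, E i f = ∑ j, B'⁻¹ i j * Dd j f := by
    intro i f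
    have h2 : ∀ j, B'⁻¹ i j * Dd j f = ∑ k, B'⁻¹ i j * B' j k * E k f := fun j => by
      rw [hDE, Finset.mul_sum]
      exact Finset.sum_congr rfl fun k _ => by ring
    rw [Finset.sum_congr rfl fun j _ => h2 j, Finset.sum_comm]
    have h3 : ∀ k, ∑ j, B'⁻¹ i j * B' j k * E k f =
        (1 : Matrix (Fin w) (Fin w) L) i k * E k f := by
      intro k
      rw [← Finset.sum_mul, ← Matrix.nonsing_inv_mul B' (isUnit_iff_ne_zero.2 hB0),
        Matrix.mul_apply]
    rw [Finset.sum_congr rfl fun k _ => h3 k, Finset.sum_eq_single i]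
    · rw [Matrix.one_apply_eq, one_mul]
    · intro k _ hk
      rw [Matrix.one_apply_ne (Ne.symm hk), zero_mul]
    · intro h; exact absurd (Finset.mem_univ _) h
  obtain ⟨r, hr⟩ : ∃ r : A → (Vr n →₀ ℕ) → Fin w → L, ∀ a I j, r a I j =
    ∑ k, ξ a I (t k) * B'⁻¹ k j := ⟨fun a I j => ∑ k, ξ a I (t k) * B'⁻¹ k j, fun _ _ _ => rfl⟩
  have hDD2 : ∀ a I f, D a I f = D2 a I f + ∑ j, r a I j * Dd j f := by
    intro a I f
    rw [hD2]
    have h2 : ξ a I f = ∑ j, r a I j * Dd j f := by
      rw [der_comb htb hE (ξ a I) f]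
      simp only [hr, Finset.sum_mul]
      rw [Finset.sum_comm]
      refine Finset.sum_congr rfl fun k _ => ?_
      rw [hED, Finset.mul_sum]
      exact Finset.sum_congr rfl fun j _ => by ring
    rw [← h2]
    ring
  have htt : ∀ a I s, tE C F x D θ ε a I s = tE C F x D2 θ ε a I s +
      ∑ j, r a I j * eE C F x {b : Bt j0 // b ∉ B} (fun ξ => (Dd ξ).restrictScalars ℤ) j s := by
    intro a I s
    rcases s with s | b
    · have h0 : ∑ j, r a I j * eE C F x {b : Bt j0 // b ∉ B}
          (fun ξ => (Dd ξ).restrictScalars ℤ) j (Sum.inl s) = 0 :=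
        Finset.sum_eq_zero fun j _ => mul_zero (r a I j)
      rw [h0, add_zero]
      rfl
    · change D a I (eval x (F b.1)) / eval x (F b.1) + (if a = b.1 then ε a I else 0) =
        D2 a I (eval x (F b.1)) / eval x (F b.1) + (if a = b.1 then ε a I else 0) +
          ∑ j, r a I j * (Dd j (eval x (F b.1)) / eval x (F b.1))
      have h5 : ∑ j, r a I j * (Dd j (eval x (F b.1)) / eval x (F b.1)) =
          (∑ j, r a I j * Dd j (eval x (F b.1))) / eval x (F b.1) := by
        rw [Finset.sum_div]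
        exact Finset.sum_congr rfl fun j _ => by rw [mul_div_assoc]
      rw [hDD2, h5, add_div]
      ring
  have hΔ2 : Δ Dd = dt e (row c0 dg D2 (tE C F x D2 θ ε) (kE C _ L dg)
      (fun ξ => (Dd ξ).restrictScalars ℤ) (eE C F x _ fun ξ => (Dd ξ).restrictScalars ℤ) tt
      (fun a => cor c0 (dg a)) (fun y => Pi.single (u y) 1) x) := by
    have h2 := dt_change (c := c0) (dg := dg) (D1 := D) (D2 := D2) (θ1 := tE C F x D θ ε)
      (θ2 := tE C F x D2 θ ε) (κ := kE C _ L dg)
      (E1 := fun ξ => (E ξ).restrictScalars ℤ)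
      (E2 := fun ξ => (Dd ξ).restrictScalars ℤ) (t := tt) e (B := B'⁻¹) hED
      (heE B'⁻¹ E Dd hED) hDD2 htt
      (fun a => cor c0 (dg a)) (fun y => Pi.single (u y) 1) x
    rw [h1, hΔ, h2, ← mul_assoc, ← Matrix.det_mul, Matrix.mul_nonsing_inv _
      (isUnit_iff_ne_zero.2 hB0), Matrix.det_one, one_mul]
  have hFge : ∀ x' : Vr n → L, (∀ p, Ge Q 0 (x' p)) → ∀ b, Ge Q 0 (eval x' (F b)) := by
    intro x' hx' b
    rw [MP.eval_mon]
    refine Ge.sum _ _ fun v _ => ?_
    rw [hF, coeff_map]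
    have h3 := (Ge.const (P := Q) (coeff v (NF P j0 c b))).mul
      (Ge.prod (P := Q) Finset.univ (fun p => x' p ^ v p) (fun _ => 0) fun p _ => by
        have h4 := (hx' p).pow (v p)
        rwa [mul_zero] at h4)
    rw [Finset.sum_const_zero, add_zero] at h3
    exact h3
  have hFne : ∀ lam x', Norm Q x lam x' → ∀ b, b ∉ C → eval x' (F b) ≠ 0 := by
    intro lam x' hN b hb h
    apply hBd b hb
    rw [hN.eq, eval_sc (hFm b), h, mul_zero]
  have hDreg : ∀ i, DerReg Q (Dd i) := by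
    rcases hDd with h | h
    · intro i f hf
      by_cases hf0 : f = 0
      · rw [hf0, map_zero]
        exact Or.inl rfl
      · have h3 : Ge Q (0 + 0) (Dd i f / f * f) := Ge.mul (h i f) hf
        rw [div_mul_cancel₀ _ hf0, add_zero] at h3
        exact h3
    · exact h.1
  have h3 := ordF (C := C) (F := F) (x := x) (dg := dg) (D := D2) (θ := θ) (ε := ε)
    (E := fun ξ => (Dd ξ).restrictScalars ℤ) (c := c0) Q hFm e hx hBd
    (spans_change hED (heE B'⁻¹ E Dd hED) hDD2 htt hsp) u hpp (e' := 0) le_rfl (fun f hf a I _ => by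
      rw [neg_zero, hD2]
      by_cases hf0 : f = 0
      · rw [hf0, map_zero, map_zero, sub_zero]
        exact Ge.zero
      · exact (hξ a _ f hf0).mono (hf.resolve_left hf0)) (fun a I _ s => by
      obtain ⟨z, hz⟩ := hθK a I s
      rw [hz, neg_zero]
      exact Ge.const z) (fun a I => by
      rcases hε a I with h | h
      · rw [h]; exact Ge.zero
      · rw [h]; exact Ge.one) (fun f hf ξ => hDreg ξ f hf) (fun lam x' hN b hb a I _ => by
      have h4 := hFne lam x' hN b hb
      rw [neg_zero, hD2]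
      rcases hξ a I _ h4 with h5 | h5
      · rw [h5, zero_div]
        exact Ge.zero
      · by_cases h6 : D a I (eval x' (F b)) - ξ a I (eval x' (F b)) = 0
        · rw [h6, zero_div]
          exact Ge.zero
        · refine Or.inr ?_
          rw [Q.ord_div h6 h4]
          omega) (fun lam x' hN b hb ξ' => by
      have h4 := hFne lam x' hN b hb
      rcases hDd with h | h
      · exact h ξ' _
      · have h5 := hFge x' hN.ge b
        have h6 : Q.ord (eval x' (F b)) = 0 := by
          refine le_antisymm ?_ (h5.resolve_left h4)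
          by_contra hcon
          apply h.2 b hb
          have h7 : eval x (F b) = (∏ i, lam i ^ dg b i) * eval x' (F b) := by
            rw [hN.eq]
            exact eval_sc (hFm b) lam x'
          have h8 : (∏ i, lam i ^ dg b i) ≠ 0 :=
            Finset.prod_ne_zero_iff.2 fun i _ => pow_ne_zero _ (hN.ne i)
          rw [h7, Q.ord_mul h8 h4, Pool.Agent.TH145.GC.ord_prod Q _ _ fun i _ =>
            pow_ne_zero _ (hN.ne i)]
          have h9 : ∀ i, Q.ord (lam i ^ dg b i) = (dg b i : ℤ) * pord Q (fun j => x ⟨i, j⟩) := by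
            intro i
            rw [Q.ord_pow, hN.ord]
          rw [Finset.sum_congr rfl fun i _ => h9 i]
          omega
        have h7 : Ge Q 0 (Dd ξ' (eval x' (F b))) := h.1 ξ' _ h5
        rcases h7 with h7 | h7
        · left
          change Dd ξ' (eval x' (F b)) / eval x' (F b) = 0
          rw [h7, zero_div]
        · by_cases h8 : Dd ξ' (eval x' (F b)) = 0
          · left
            change Dd ξ' (eval x' (F b)) / eval x' (F b) = 0
            rw [h8, zero_div]
          · right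
            change 0 ≤ Q.ord (Dd ξ' (eval x' (F b)) / eval x' (F b))
            rw [Q.ord_div h8 h4, h6, sub_zero]
            exact h7) (s := s) hcard (by rwa [Nat.card_eq_fintype_card] at hB) hu (by
      rw [← hΔ2]
      exact hΔD)
  rw [← hΔ2, mul_zero, sub_zero, Fintype.card_fin, hβ] at h3
  exact Or.inr h3

end Pool.Agent.Run7.h621.LG
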