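import Pool.Agent.Run7.h621.LG.Punct

/-!
Lines that meet the boundary in at most two points.
-/

set_option autoImplicit false
set_option linter.unusedSectionVars false

namespace Pool.Agent.Run7.h621.LG

open MvPolynomial FF Pool.Agent.W603.LV Pool.Agent.W603.PV Pool.Agent.W602.GT Pool.Agent.TH145.MG
open Pool.Agent.Run7.h621.FV (Ex)
open Pool.Agent.Run7.h621.NG (Bt)
open Pool.Agent.Run7.h621.MP (reg_unif log_unif)

variable {n : ℕ}

/-- The line spanned by `p` and `r` meets the hypersurfaces `H b = 0`, `b` not in `C`, only in the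
points `y` and `z`. -/
def FewPoints {K Ω A : Type} [Field K] [Field Ω] [Algebra K Ω]
    (H : A → MvPolynomial (Fin (n + 1)) K) (C : Finset A) (p r : Fin (n + 1) → Ω) : Prop :=
  ∃ y z : Fin (n + 1) → Ω, ∀ b, b ∉ C → ∀ u v : Ω, aeval (fun i => u * p i + v * r i) (H b) = 0 →
    (∃ c : Ω, ∀ i, u * p i + v * r i = c * y i) ∨ ∃ c : Ω, ∀ i, u * p i + v * r i = c * z i

/-- A normalised basis. -/
theorem exists_nb {K : Type} [Field K] {p r : Fin (n + 1) → K} (hl : LinearIndependent K ![p, r]) :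
    ∃ (i0 i1 : Fin (n + 1)) (p' r' : Fin (n + 1) → K), i0 ≠ i1 ∧ p' i0 = 1 ∧ p' i1 = 0 ∧
      r' i0 = 0 ∧ r' i1 = 1 ∧
      (∀ u v : K, ∃ a b : K, ∀ i, u * p' i + v * r' i = a * p i + b * r i) ∧
      ∀ (a b : K) (i : Fin (n + 1)), a * p i + b * r i =
        (a * p i0 + b * r i0) * p' i + (a * p i1 + b * r i1) * r' i := by
  classical
  have h1 : Module.finrank K (Submodule.span K (Set.range ![p, r])) = 2 := by
    rw [finrank_span_eq_card hl, Fintype.card_fin]
  obtain ⟨i0, i1, p', r', hne, hp, hr, hp0, hp1, hr0, hr1⟩ := exists_nbasis h1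
  have hmem : ∀ z ∈ Submodule.span K (Set.range ![p, r]), ∃ u v : K, z = fun i =>
      u * p i + v * r i := by
    intro z hz
    rw [Matrix.range_cons, Matrix.range_cons, Matrix.range_empty, Set.union_empty,
      Set.singleton_union, Submodule.mem_span_pair] at hz
    obtain ⟨u, v, rfl⟩ := hz
    exact ⟨u, v, rfl⟩
  have hpr : ∀ z ∈ Submodule.span K (Set.range ![p, r]), ∀ i, z i = z i0 * p' i + z i1 * r' i := by
    have h3 : Submodule.span K (Set.range ![p', r']) = Submodule.span K (Set.range ![p, r]) := by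
      have hl' : LinearIndependent K ![p', r'] := by
        rw [LinearIndependent.pair_iff]
        intro a b hab
        have h4 := congrFun hab i0
        have h5 := congrFun hab i1
        simp only [Pi.add_apply, Pi.smul_apply, smul_eq_mul, Pi.zero_apply, hp0, hp1, hr0, hr1,
          mul_one, mul_zero, add_zero, zero_add] at h4 h5
        exact ⟨h4, h5⟩
      have : FiniteDimensional K (Submodule.span K (Set.range ![p, r])) :=
        FiniteDimensional.span_of_finite K (Set.finite_range _)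
      refine Submodule.eq_of_le_of_finrank_eq ?_ ?_
      · rw [Submodule.span_le]
        rintro _ ⟨i, rfl⟩
        fin_cases i
        · exact hp
        · exact hr
      · rw [h1, finrank_span_eq_card hl', Fintype.card_fin]
    intro z hz i
    rw [← h3, Matrix.range_cons, Matrix.range_cons, Matrix.range_empty, Set.union_empty,
      Set.singleton_union, Submodule.mem_span_pair] at hz
    obtain ⟨a, b, rfl⟩ := hz
    simp only [Pi.add_apply, Pi.smul_apply, smul_eq_mul, hp0, hp1, hr0, hr1, mul_one, mul_zero,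
      add_zero, zero_add]
  refine ⟨i0, i1, p', r', hne, hp0, hp1, hr0, hr1, fun u v => ?_, fun a b i => ?_⟩
  · obtain ⟨a, b, hab⟩ := hmem (u • p' + v • r')
      (Submodule.add_mem _ (Submodule.smul_mem _ _ hp) (Submodule.smul_mem _ _ hr))
    exact ⟨a, b, fun i => congrFun hab i⟩
  · exact hpr (a • p + b • r) (Submodule.add_mem _
      (Submodule.smul_mem _ _ (Submodule.subset_span ⟨0, rfl⟩))
      (Submodule.smul_mem _ _ (Submodule.subset_span ⟨1, rfl⟩))) i

theorem par_mul {K : Type} [Field K] {w w' : Fin 2 → K} (hw' : w' ≠ 0) (h : Par w w') :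
    ∃ c : K, w 0 = c * w' 0 ∧ w 1 = c * w' 1 := by
  unfold Par at h
  by_cases h0 : w' 0 = 0
  · have h1 : w' 1 ≠ 0 := by
      intro h1
      apply hw'
      funext i
      fin_cases i
      · exact h0
      · exact h1
    rw [h0, mul_zero] at h
    refine ⟨w 1 / w' 1, ?_, ?_⟩
    · rw [h0, mul_zero, (mul_eq_zero.1 h).resolve_right h1]
    · rw [div_mul_cancel₀ _ h1]
  · refine ⟨w 0 / w' 0, ?_, ?_⟩
    · rw [div_mul_cancel₀ _ h0]
    · rw [div_mul_eq_mul_div, h, mul_div_cancel_right₀ _ h0]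

/-- The orders of two linear forms. -/
theorem pair_ord {K L : Type} [Field K] [Field L] [Algebra K L] {X Y : L} {w w' : Fin 2 → K}
    (hD : w 0 * w' 1 - w 1 * w' 0 ≠ 0)
    (h1 : algebraMap K L (w 1) * X - algebraMap K L (w 0) * Y ≠ 0)
    (h2 : algebraMap K L (w' 1) * X - algebraMap K L (w' 0) * Y ≠ 0) (Q : Place K L) :
    Q.ord (algebraMap K L (w 1) * X - algebraMap K L (w 0) * Y) = pord Q ![X, Y] ∨
    Q.ord (algebraMap K L (w' 1) * X - algebraMap K L (w' 0) * Y) = pord Q ![X, Y] := by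
  classical
  obtain ⟨ν, hν⟩ : ∃ ν, ν = pord Q ![X, Y] := ⟨_, rfl⟩
  rw [← hν]
  have hc : ∀ c : K, Ge Q 0 (algebraMap K L c) := by
    intro c
    by_cases h : c = 0
    · rw [h, map_zero]
      exact Or.inl rfl
    · exact Or.inr (Q.ord_const h).ge
  have hX : Ge Q ν X := by rw [hν]; exact ge_pord Q ![X, Y] 0
  have hY : Ge Q ν Y := by rw [hν]; exact ge_pord Q ![X, Y] 1
  have hge : ∀ w : Fin 2 → K, Ge Q ν (algebraMap K L (w 1) * X - algebraMap K L (w 0) * Y) := by
    intro w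
    have h3 := (hc (w 1)).mul hX
    have h4 := (hc (w 0)).mul hY
    rw [zero_add] at h3 h4
    exact h3.sub h4
  by_contra hcon
  rw [not_or] at hcon
  obtain ⟨l, hl⟩ : ∃ l, l = algebraMap K L (w 1) * X - algebraMap K L (w 0) * Y := ⟨_, rfl⟩
  obtain ⟨l', hl'⟩ : ∃ l', l' = algebraMap K L (w' 1) * X - algebraMap K L (w' 0) * Y := ⟨_, rfl⟩
  have h3 := (hge w).resolve_left h1
  have h4 := (hge w').resolve_left h2
  rw [← hl] at hcon h1 h3
  rw [← hl'] at hcon h2 h4
  have h5 : Ge Q (ν + 1) l := Or.inr (by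
    have := lt_of_le_of_ne h3 (Ne.symm hcon.1)
    omega)
  have h6 : Ge Q (ν + 1) l' := Or.inr (by
    have := lt_of_le_of_ne h4 (Ne.symm hcon.2)
    omega)
  have hD' : algebraMap K L (w 0 * w' 1 - w 1 * w' 0) ≠ 0 := fun h => hD ((map_eq_zero _).1 h)
  have hX' : X = algebraMap K L (w 0 * w' 1 - w 1 * w' 0)⁻¹ *
      (algebraMap K L (w 0) * l' - algebraMap K L (w' 0) * l) := by
    rw [map_inv₀, eq_inv_mul_iff_mul_eq₀ hD', hl, hl', map_sub, map_mul, map_mul]
    ring
  have hY' : Y = algebraMap K L (w 0 * w' 1 - w 1 * w' 0)⁻¹ *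
      (algebraMap K L (w 1) * l' - algebraMap K L (w' 1) * l) := by
    rw [map_inv₀, eq_inv_mul_iff_mul_eq₀ hD', hl, hl', map_sub, map_mul, map_mul]
    ring
  have hcomb : ∀ a b c : K, Ge Q (ν + 1) (algebraMap K L a * (algebraMap K L b * l' -
      algebraMap K L c * l)) := by
    intro a b c
    have h7 := (hc b).mul h6
    have h8 := (hc c).mul h5
    rw [zero_add] at h7 h8
    have h9 := (hc a).mul (h7.sub h8)
    rwa [zero_add] at h9
  have h7 : Ge Q (ν + 1) X := by rw [hX']; exact hcomb _ _ _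
  have h8 : Ge Q (ν + 1) Y := by rw [hY']; exact hcomb _ _ _
  have h9 : ∃ j, (![X, Y] : Fin 2 → L) j ≠ 0 := by
    by_contra hcon'
    push Not at hcon'
    have e1 := hcon' 0
    have e2 := hcon' 1
    simp only [Matrix.cons_val_zero, Matrix.cons_val_one] at e1 e2
    apply h1
    rw [hl, e1, e2, mul_zero, mul_zero, sub_zero]
  obtain ⟨j, hj, hjo⟩ := exists_pord Q h9
  rw [← hν] at hjo
  have h10 : Ge Q (ν + 1) ((![X, Y] : Fin 2 → L) j) := by
    fin_cases j
    · exact h7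
    · exact h8
  have h11 := h10.resolve_left hj
  omega

/-- Three points of the boundary. -/
theorem three_points {K L A : Type} [Field K] [Field L] [Algebra K L] {C : Finset A}
    {H : A → MvPolynomial (Fin (n + 1)) K} {d : A → ℕ} (hH : ∀ a, (H a).IsHomogeneous (d a))
    {x : Fin (n + 1) → L} {p r : Fin (n + 1) → K} (hl : LinearIndependent K ![p, r]) {u v : L}
    (hx : ∀ i, x i = u * algebraMap K L (p i) + v * algebraMap K L (r i))
    (hnc : ∃ j l, Transcendental K (x j / x l))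
    (hb : ∀ b, b ∉ C → aeval x (H b) ≠ 0) (hfew : ¬ FewPoints H C p r) :
    ∃ (l1 l2 l3 : L) (α β : K), l1 ≠ 0 ∧ l2 ≠ 0 ∧ l3 ≠ 0 ∧ α ≠ 0 ∧ β ≠ 0 ∧
      l2 = algebraMap K L α * l1 + algebraMap K L β * l3 ∧ Transcendental K (l1 / l3) ∧
      (∀ Q, Q ∉ bdry C H d x → Q.ord l1 = pord Q x ∧ Q.ord l2 = pord Q x ∧
        Q.ord l3 = pord Q x) ∧
      ∀ Q : Place K L, Q.ord l2 = pord Q x ∨ (Q.ord l1 = pord Q x ∧ Q.ord l3 = pord Q x) := by
  classical
  obtain ⟨i0, i1, p', r', hne, hp0, hp1, hr0, hr1, -, hpr⟩ := exists_nb hl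
  have hx' : ∀ i, x i = x i0 * algebraMap K L (p' i) + x i1 * algebraMap K L (r' i) := by
    intro i
    have h1 := hpr 1 0 i
    have h2 := hpr 0 1 i
    simp only [one_mul, zero_mul, add_zero, zero_add] at h1 h2
    rw [hx i, hx i0, hx i1, h1, h2]
    simp only [map_add, map_mul]
    ring
  unfold FewPoints at hfew
  push Not at hfew
  obtain ⟨b1, hb1, u1, v1, h1, h1y, -⟩ := hfew 0 0
  obtain ⟨a1, ha1⟩ : ∃ a1 : Fin (n + 1) → K, ∀ i, a1 i = u1 * p i + v1 * r i := ⟨_, fun _ => rfl⟩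
  obtain ⟨b2, hb2, u2, v2, h2, h2y, -⟩ := hfew a1 a1
  obtain ⟨a2, ha2⟩ : ∃ a2 : Fin (n + 1) → K, ∀ i, a2 i = u2 * p i + v2 * r i := ⟨_, fun _ => rfl⟩
  obtain ⟨b3, hb3, u3, v3, h3, h3y, h3z⟩ := hfew a1 a2
  obtain ⟨a3, ha3⟩ : ∃ a3 : Fin (n + 1) → K, ∀ i, a3 i = u3 * p i + v3 * r i := ⟨_, fun _ => rfl⟩
  simp only [← ha1, ← ha2, ← ha3] at h1 h2 h3 h1y h2y h3y h3z
  have e1 : ∀ i, a1 i = a1 i0 * p' i + a1 i1 * r' i := fun i => by
    rw [ha1, ha1 i0, ha1 i1]; exact hpr u1 v1 i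
  have e2 : ∀ i, a2 i = a2 i0 * p' i + a2 i1 * r' i := fun i => by
    rw [ha2, ha2 i0, ha2 i1]; exact hpr u2 v2 i
  have e3 : ∀ i, a3 i = a3 i0 * p' i + a3 i1 * r' i := fun i => by
    rw [ha3, ha3 i0, ha3 i1]; exact hpr u3 v3 i
  obtain ⟨w1, hw1⟩ : ∃ w1 : Fin 2 → K, w1 = ![a1 i0, a1 i1] := ⟨_, rfl⟩
  obtain ⟨w2, hw2⟩ : ∃ w2 : Fin 2 → K, w2 = ![a2 i0, a2 i1] := ⟨_, rfl⟩
  obtain ⟨w3, hw3⟩ : ∃ w3 : Fin 2 → K, w3 = ![a3 i0, a3 i1] := ⟨_, rfl⟩
  have w10 : w1 0 = a1 i0 := by rw [hw1]; rfl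
  have w11 : w1 1 = a1 i1 := by rw [hw1]; rfl
  have w20 : w2 0 = a2 i0 := by rw [hw2]; rfl
  have w21 : w2 1 = a2 i1 := by rw [hw2]; rfl
  have w30 : w3 0 = a3 i0 := by rw [hw3]; rfl
  have w31 : w3 1 = a3 i1 := by rw [hw3]; rfl
  have hz1 : w1 ≠ 0 := by
    intro h
    obtain ⟨i, hi⟩ := h1y 0
    apply hi
    rw [e1, ← w10, ← w11, h]
    simp
  have hz2 : w2 ≠ 0 := by
    intro h
    obtain ⟨i, hi⟩ := h2y 0
    apply hi
    rw [e2, ← w20, ← w21, h]
    simp
  have hz3 : w3 ≠ 0 := by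
    intro h
    obtain ⟨i, hi⟩ := h3y 0
    apply hi
    rw [e3, ← w30, ← w31, h]
    simp
  have p21 : ¬ Par w2 w1 := by
    intro h
    obtain ⟨c, hc0, hc1⟩ := par_mul hz1 h
    obtain ⟨i, hi⟩ := h2y c
    apply hi
    rw [e2, e1 i, ← w20, ← w21, hc0, hc1, w10, w11]
    ring
  have p31 : ¬ Par w3 w1 := by
    intro h
    obtain ⟨c, hc0, hc1⟩ := par_mul hz1 h
    obtain ⟨i, hi⟩ := h3y c
    apply hi
    rw [e3, e1 i, ← w30, ← w31, hc0, hc1, w10, w11]
    ring
  have p32 : ¬ Par w3 w2 := by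
    intro h
    obtain ⟨c, hc0, hc1⟩ := par_mul hz2 h
    obtain ⟨i, hi⟩ := h3z c
    apply hi
    rw [e3, e2 i, ← w30, ← w31, hc0, hc1, w20, w21]
    ring
  unfold Par at p21 p31 p32
  have hD : w1 0 * w3 1 - w1 1 * w3 0 ≠ 0 := fun h => p31 (by linear_combination -h)
  have hα : w2 0 * w3 1 - w2 1 * w3 0 ≠ 0 := fun h => p32 (by linear_combination -h)
  have hβ : w1 0 * w2 1 - w1 1 * w2 0 ≠ 0 := fun h => p21 (by linear_combination -h)
  obtain ⟨m1, o1⟩ := ord_punct hx' (hH b1) (hb b1 hb1) hz1 (by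
    have : (fun i => w1 0 * p' i + w1 1 * r' i) = a1 := funext fun i => by rw [w10, w11, ← e1]
    rw [this]; exact h1)
  obtain ⟨m2, o2⟩ := ord_punct hx' (hH b2) (hb b2 hb2) hz2 (by
    have : (fun i => w2 0 * p' i + w2 1 * r' i) = a2 := funext fun i => by rw [w20, w21, ← e2]
    rw [this]; exact h2)
  obtain ⟨m3, o3⟩ := ord_punct hx' (hH b3) (hb b3 hb3) hz3 (by
    have : (fun i => w3 0 * p' i + w3 1 * r' i) = a3 := funext fun i => by rw [w30, w31, ← e3]
    rw [this]; exact h3)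
  obtain ⟨D, hDD⟩ : ∃ D, D = w1 0 * w3 1 - w1 1 * w3 0 := ⟨_, rfl⟩
  rw [← hDD] at hD
  have hD' : algebraMap K L D ≠ 0 := fun h => hD ((map_eq_zero _).1 h)
  have hDL : algebraMap K L D = algebraMap K L (w1 0) * algebraMap K L (w3 1) -
      algebraMap K L (w1 1) * algebraMap K L (w3 0) := by
    rw [hDD, map_sub, map_mul, map_mul]
  refine ⟨_, _, _, (w2 0 * w3 1 - w2 1 * w3 0) / D, (w1 0 * w2 1 - w1 1 * w2 0) / D, m1, m2, m3,
    div_ne_zero hα hD, div_ne_zero hβ hD, ?_, ?_, ?_, ?_⟩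
  · rw [map_div₀, map_div₀, map_sub, map_sub, map_mul, map_mul, map_mul, map_mul]
    field_simp
    rw [hDL]
    ring
  · intro hc
    obtain ⟨l1, hl1⟩ : ∃ l1, l1 = algebraMap K L (w1 1) * x i0 - algebraMap K L (w1 0) * x i1 :=
      ⟨_, rfl⟩
    obtain ⟨l3, hl3⟩ : ∃ l3, l3 = algebraMap K L (w3 1) * x i0 - algebraMap K L (w3 0) * x i1 :=
      ⟨_, rfl⟩
    rw [← hl1, ← hl3] at hc
    rw [← hl3] at m3
    have hX : x i0 / l3 = (algebraMap K L (w1 0) - algebraMap K L (w3 0) * (l1 / l3)) *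
        algebraMap K L D⁻¹ := by
      rw [map_inv₀]
      field_simp
      rw [hDL, hl1, hl3]
      ring
    have hY : x i1 / l3 = (algebraMap K L (w1 1) - algebraMap K L (w3 1) * (l1 / l3)) *
        algebraMap K L D⁻¹ := by
      rw [map_inv₀]
      field_simp
      rw [hDL, hl1, hl3]
      ring
    have hXa : IsAlgebraic K (x i0 / l3) := by
      rw [hX]
      exact ((isAlgebraic_algebraMap _).sub ((isAlgebraic_algebraMap _).mul hc)).mul
        (isAlgebraic_algebraMap _)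
    have hYa : IsAlgebraic K (x i1 / l3) := by
      rw [hY]
      exact ((isAlgebraic_algebraMap _).sub ((isAlgebraic_algebraMap _).mul hc)).mul
        (isAlgebraic_algebraMap _)
    obtain ⟨j, l, ht⟩ := hnc
    apply ht
    have h4 : ∀ i, IsAlgebraic K (x i / l3) := by
      intro i
      have h5 : x i / l3 = x i0 / l3 * algebraMap K L (p' i) + x i1 / l3 * algebraMap K L (r' i) := by
        rw [hx' i]
        field_simp
      rw [h5]
      exact (hXa.mul (isAlgebraic_algebraMap _)).add (hYa.mul (isAlgebraic_algebraMap _))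
    rw [← div_div_div_cancel_right₀ m3]
    rw [div_eq_mul_inv]
    exact (h4 j).mul (h4 l).inv
  · intro Q hQ
    have hQ' : ∀ b, b ∉ C → ¬ (d b * pord Q x < Q.ord (aeval x (H b))) :=
      fun b hb h => hQ ⟨b, hb, h⟩
    exact ⟨o1 Q (hQ' b1 hb1), o2 Q (hQ' b2 hb2), o3 Q (hQ' b3 hb3)⟩
  · intro Q
    have hx0 : ∃ j, x j ≠ 0 := by
      obtain ⟨j, l, ht⟩ := hnc
      refine ⟨l, fun h => ht ?_⟩
      rw [h, div_zero]
      exact isAlgebraic_zero
    rw [← pord_line hx0 hx' Q]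
    by_cases h2Q : Q.ord (algebraMap K L (w2 1) * x i0 - algebraMap K L (w2 0) * x i1) =
      pord Q ![x i0, x i1]
    · exact Or.inl h2Q
    · right
      refine ⟨?_, ?_⟩
      · exact (pair_ord hβ m1 m2 Q).resolve_right h2Q
      · exact (pair_ord hα m2 m3 Q).resolve_left h2Q

/-- Lines that meet the boundary in at least three points. -/
theorem gt_of_line {K L A : Type} [Field K] [Field L] [Algebra K L] [CharZero K] {C : Finset A}
    {H : A → MvPolynomial (Fin (n + 1)) K} {d : A → ℕ} (hH : ∀ a, (H a).IsHomogeneous (d a))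
    {x : Fin (n + 1) → L} {p r : Fin (n + 1) → K} (hl : LinearIndependent K ![p, r]) {u v : L}
    (hx : ∀ i, x i = u * algebraMap K L (p i) + v * algebraMap K L (r i))
    (hnc : ∃ j l, Transcendental K (x j / x l)) (htr : Algebra.trdeg K L = (1 : ℕ))
    (hb : ∀ b, b ∉ C → aeval x (H b) ≠ 0) (hfew : ¬ FewPoints H C p r) :
    LogGeneralType K L 1 fun Q => Q ∈ bdry C H d x := by
  obtain ⟨l1, l2, l3, α, β, m1, m2, m3, hα, hβ, hlin, ht, ho, -⟩ :=
    three_points (d := d) hH hl hx hnc hb hfew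
  refine gt_of_three htr m1 m2 m3 hα hβ hlin ht fun Q hQ => ?_
  obtain ⟨e1, e2, e3⟩ := ho Q hQ
  rw [e1, e2, e3]
  exact ⟨rfl, rfl⟩

/-- The degrees of the curves on lines that meet the boundary in at least three points. -/
theorem deg_of_line {K L A : Type} [Field K] [Field L] [Algebra K L] [IsAlgClosed K] [CharZero K]
    [IsFF K L] {C : Finset A}
    {H : A → MvPolynomial (Fin (n + 1)) K} {d : A → ℕ} (hH : ∀ a, (H a).IsHomogeneous (d a))
    {x : Fin (n + 1) → L} {p r : Fin (n + 1) → K} (hl : LinearIndependent K ![p, r]) {u v : L}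
    (hx : ∀ i, x i = u * algebraMap K L (p i) + v * algebraMap K L (r i))
    (hnc : ∃ j l, Transcendental K (x j / x l))
    (hb : ∀ b, b ∉ C → aeval x (H b) ≠ 0) (hfew : ¬ FewPoints H C p r)
    (hfin : (bdry C H d x).Finite) :
    pht K x ≤ canDeg K L + (bdry C H d x).ncard := by
  classical
  obtain ⟨l1, l2, l3, α, β, m1, m2, m3, hα, hβ, hlin, ht, ho, hor⟩ :=
    three_points (d := d) hH hl hx hnc hb hfew
  have hx0 : ∃ j, x j ≠ 0 := by
    obtain ⟨j, l, ht⟩ := hnc
    refine ⟨l, fun h => ht ?_⟩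
    rw [h, div_zero]
    exact isAlgebraic_zero
  obtain ⟨T, hT⟩ : ∃ T, T = l1 / l3 := ⟨_, rfl⟩
  rw [← hT] at ht
  have hT0 : T ≠ 0 := by rw [hT]; exact div_ne_zero m1 m3
  obtain ⟨U, hU⟩ : ∃ U, U = l2 / l3 := ⟨_, rfl⟩
  have hU0 : U ≠ 0 := by rw [hU]; exact div_ne_zero m2 m3
  have hUT : U = algebraMap K L α * T + algebraMap K L β := by
    rw [hU, hT, hlin]
    field_simp
  have hα' : algebraMap K L α ≠ 0 := fun h => hα ((map_eq_zero _).1 h)
  obtain ⟨E, hE0⟩ := exists_der (k := K) (K := L)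
  have hET : E T ≠ 0 := der_ne_zero hE0 ht
  have hDU : ∀ D : Derivation K L L, D U = algebraMap K L α * D T := by
    intro D
    rw [hUT, map_add, Derivation.leibniz, Derivation.map_algebraMap, Derivation.map_algebraMap]
    simp
  obtain ⟨W, hW⟩ : ∃ W, W = E T / (T * U) := ⟨_, rfl⟩
  have hW0 : W ≠ 0 := by rw [hW]; exact div_ne_zero hET (mul_ne_zero hT0 hU0)
  have hπ0 : ∀ Q : Place K L, unif Q ≠ 0 := by
    intro Q h
    have := ord_unif Q
    rw [h, Q.ord_zero] at this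
    omega
  have hloc : ∀ Q : Place K L, (Q.ord l3 - pord Q x) + vo Q E -
      (if Q ∈ bdry C H d x then 1 else 0) ≤ Q.ord W := by
    intro Q
    have h0 := der_pi_ne_zero hE0 Q (ord_unif Q)
    have hv : Q.ord (E (unif Q)) = vo Q E := rfl
    have hWo : Q.ord W = Q.ord (E T) - Q.ord T - Q.ord U := by
      rw [hW, Q.ord_div hET (mul_ne_zero hT0 hU0), Q.ord_mul hT0 hU0]
      ring
    have hTo : Q.ord T = Q.ord l1 - Q.ord l3 := by rw [hT, Q.ord_div m1 m3]
    have hUo : Q.ord U = Q.ord l2 - Q.ord l3 := by rw [hU, Q.ord_div m2 m3]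
    split_ifs with hQ
    · have hlog := log_unif Q hE0
      have h1 := hlog T
      have h2 := hlog U
      have hz : unif Q * (E (unif Q))⁻¹ ≠ 0 := mul_ne_zero (hπ0 Q) (inv_ne_zero h0)
      rw [Derivation.coe_smul, Pi.smul_apply, smul_eq_mul] at h1 h2
      have h3 := h1.resolve_left (div_ne_zero (mul_ne_zero hz hET) hT0)
      rw [Q.ord_div (mul_ne_zero hz hET) hT0, Q.ord_mul hz hET,
        Q.ord_mul (hπ0 Q) (inv_ne_zero h0), Q.ord_inv, ord_unif, hv] at h3
      rw [hDU] at h2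
      have hαE := mul_ne_zero hα' hET
      have h4 := h2.resolve_left (div_ne_zero (mul_ne_zero hz hαE) hU0)
      rw [Q.ord_div (mul_ne_zero hz hαE) hU0, Q.ord_mul hz hαE,
        Q.ord_mul (hπ0 Q) (inv_ne_zero h0), Q.ord_inv, ord_unif, hv, Q.ord_mul hα' hET,
        Q.ord_const hα] at h4
      rcases hor Q with h5 | ⟨h5, h6⟩
      · rw [hWo]
        linarith
      · rw [hWo]
        linarith
    · obtain ⟨e1, e2, e3⟩ := ho Q hQ
      have h1 := reg_unif Q hE0 T (Or.inr (by rw [hTo, e1, e3, sub_self]))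
      rw [Derivation.coe_smul, Pi.smul_apply, smul_eq_mul] at h1
      have h2 := h1.resolve_left (mul_ne_zero (inv_ne_zero h0) hET)
      rw [Q.ord_mul (inv_ne_zero h0) hET, Q.ord_inv, hv] at h2
      rw [hWo]
      linarith
  have hpf := pord_finite (k := K) hx0
  obtain ⟨S, hS⟩ : ∃ S : Finset (Place K L), S = (finite_support (k := K) W).toFinset ∪
    ((finite_support (k := K) l3).toFinset ∪
    ((vo_finite hE0).toFinset ∪ (hfin.toFinset ∪ hpf.toFinset))) := ⟨_, rfl⟩
  have hs1 : ∑ Q ∈ S, Q.ord W = 0 := sum_ord_finset _ _ fun Q hQ => by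
    rw [hS]
    exact Finset.mem_union_left _ ((Set.Finite.mem_toFinset _).2 hQ)
  have hs0 : ∑ Q ∈ S, Q.ord l3 = 0 := sum_ord_finset _ _ fun Q hQ => by
    rw [hS]
    exact Finset.mem_union_right _ (Finset.mem_union_left _ ((Set.Finite.mem_toFinset _).2 hQ))
  have hs2 : ∑ Q ∈ S, vo Q E = - canDeg K L := canDeg_finset hE0 S fun Q hQ => by
    rw [hS]
    exact Finset.mem_union_right _ (Finset.mem_union_right _
      (Finset.mem_union_left _ ((Set.Finite.mem_toFinset _).2 hQ)))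
  have hs3 : ∑ Q ∈ S, (if Q ∈ bdry C H d x then (1 : ℤ) else 0) = (bdry C H d x).ncard := by
    rw [← Finset.sum_filter, Finset.sum_const, nsmul_eq_mul, mul_one,
      Set.ncard_eq_toFinset_card (bdry C H d x) hfin]
    congr 2
    ext Q
    rw [Finset.mem_filter, Set.Finite.mem_toFinset]
    constructor
    · exact fun h => h.2
    · intro h
      refine ⟨?_, h⟩
      rw [hS]
      exact Finset.mem_union_right _ (Finset.mem_union_right _ (Finset.mem_union_right _
        (Finset.mem_union_left _ ((Set.Finite.mem_toFinset _).2 h))))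
  have hs4 : ∑ Q ∈ S, pord Q x = - pht K x := by
    unfold pht
    rw [neg_neg, finsum_eq_sum_of_support_subset (s := S)]
    intro Q hQ
    rw [hS]
    exact Finset.mem_union_right _ (Finset.mem_union_right _ (Finset.mem_union_right _
      (Finset.mem_union_right _ ((Set.Finite.mem_toFinset _).2 hQ))))
  have hs5 := Finset.sum_le_sum (s := S) fun Q _ => hloc Q
  rw [Finset.sum_sub_distrib, Finset.sum_add_distrib, Finset.sum_sub_distrib, hs1, hs0, hs2, hs3,
    hs4] at hs5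
  linarith

theorem lam_mem {k K : Type} [Field k] [Field K] [Algebra k K] {w : Fin 2 → K}
    {E : IntermediateField k K} (h : w 0 / w 1 ∈ E) : ∃ g : MvPolynomial (Fin 2) E,
      lam w = map (algebraMap E K) g := by
  classical
  rw [lam]
  split_ifs
  · exact ⟨X 1, by rw [map_X]⟩
  · refine ⟨X 0 - MvPolynomial.C ⟨_, h⟩ * X 1, ?_⟩
    rw [map_sub, map_mul, map_X, map_X, map_C]
    rfl

section

variable {k K Ω : Type} [Field k] [Field K] [Field Ω] [Algebra k K] [Algebra K Ω] {A : Type}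
  [Fintype A] {H : A → MvPolynomial (Fin (n + 1)) K} {d : A → ℕ} {s : ℕ}

/-- The dimension of the families of lines that meet the boundary in at most two points. -/
theorem family2 [IsAlgClosed Ω] (h : ConditionsLE k H d s) (C : Finset A) {i0 i1 : Fin (n + 1)}
    (hne : i0 ≠ i1) {p q : Fin (n + 1) → Ω} (hp0 : p i0 = 1) (hp1 : p i1 = 0) (hq0 : q i0 = 0)
    (hq1 : q i1 = 1) (hC : ∀ a ∈ C, rs p q (map (algebraMap K Ω) (H a)) = 0)
    {w1 w2 : Fin 2 → Ω} (hw1 : w1 ≠ 0) (hw2 : w2 ≠ 0)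
    (hD : ∀ b, b ∉ C → rs p q (map (algebraMap K Ω) (H b)) ≠ 0 ∧
      ∀ w, eval w (rs p q (map (algebraMap K Ω) (H b))) = 0 → Par w w1 ∨ Par w w2) {f : ℕ}
    (hf : Algebra.trdeg K (IntermediateField.adjoin K (Set.range (Sum.elim p q))) = f) :
    ∑ a, d a + C.card + f ≤ s + 2 * n := by
  classical
  let _ : Algebra k Ω := ((algebraMap K Ω).comp (algebraMap k K)).toAlgebra
  have hst : IsScalarTower k K Ω := IsScalarTower.of_algebraMap_eq fun _ => rfl
  obtain ⟨y, hy⟩ : ∃ y : Fin (n + 1) ⊕ Fin (n + 1) → Ω, y = Sum.elim p q := ⟨_, rfl⟩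
  rw [← hy] at hf
  obtain ⟨M, hM⟩ : ∃ M, M = IntermediateField.adjoin K (Set.range y) := ⟨_, rfl⟩
  rw [← hM] at hf
  have hyM : ∀ i, y i ∈ M := fun i => by
    rw [hM]
    exact IntermediateField.subset_adjoin _ _ ⟨i, rfl⟩
  obtain ⟨y', hy'⟩ : ∃ y' : Fin (n + 1) ⊕ Fin (n + 1) → M, ∀ i, y' i = ⟨y i, hyM i⟩ :=
    ⟨_, fun _ => rfl⟩
  have htop : IntermediateField.adjoin K (Set.range y') = ⊤ := by
    apply IntermediateField.lift_injective M
    rw [IntermediateField.lift_adjoin, IntermediateField.lift_top, ← Set.range_comp]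
    have h1 : (Subtype.val ∘ y' : _ → Ω) = y := by
      funext b
      rw [Function.comp_apply, hy']
    rw [h1, hM]
  have halg : Algebra.IsAlgebraic (IntermediateField.adjoin K (Set.range y')) M := by
    rw [htop]
    exact ⟨fun z => isAlgebraic_algebraMap (⟨z, trivial⟩ : (⊤ : IntermediateField K M))⟩
  obtain ⟨l, hl⟩ := Pool.Agent.Run7.h621.FV.exists_tb hf halg
  have hT : AlgebraicIndependent K fun i => y (l i) := by
    have h1 := hl.1.map' (f := M.val) (RingHom.injective _)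
    have h2 : (⇑M.val ∘ fun i => y' (l i)) = fun i => y (l i) := by
      funext i
      rw [Function.comp_apply, hy']
      rfl
    rwa [h2] at h1
  obtain ⟨I0, hI0⟩ := exists_base h
  obtain ⟨B, hB, hBs, -⟩ := exists_B h I0 hI0
  have hS := hB.sumElim_comp hT
  obtain ⟨F, hF⟩ : ∃ F : IntermediateField k Ω, F = IntermediateField.adjoin k
    ({z | ∃ a I I', z = coeff I (map (algebraMap K Ω) (H a)) /
      coeff I' (map (algebraMap K Ω) (H a))} ∪ (Set.range p ∪ Set.range q)) := ⟨_, rfl⟩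
  have hmem : ∀ i, Sum.elim (fun i => y (l i)) (algebraMap K Ω ∘ fun p : B =>
      coeff p.1.2.1.1 (H p.1.1) / coeff (I0 p.1.1).1 (H p.1.1)) i ∈ F := by
    rintro (i | b)
    · rw [Sum.elim_inl, hF, hy]
      refine IntermediateField.subset_adjoin _ _ (Or.inr ?_)
      rcases l i with j | j
      · exact Or.inl ⟨j, rfl⟩
      · exact Or.inr ⟨j, rfl⟩
    · rw [Sum.elim_inr, hF]
      refine IntermediateField.subset_adjoin _ _ (Or.inl ⟨b.1.1, b.1.2.1.1, (I0 b.1.1).1, ?_⟩)
      rw [Function.comp_apply, map_div₀, coeff_map, coeff_map]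
  have h1 : AlgebraicIndependent k fun i => (⟨_, hmem i⟩ : F) :=
    AlgebraicIndependent.of_comp F.val hS
  have h2 := h1.cardinalMk_le_trdeg
  have h3 := line_count2 (k := k) (K := Ω) (H := fun a => map (algebraMap K Ω) (H a))
    (fun a => ((h.1 a).2).map _) (fun a h0 => (h.1 a).1 (by
      apply map_injective (algebraMap K Ω) (algebraMap K Ω).injective
      rw [h0, map_zero])) C hne hp0 hp1 hq0 hq1 hC ![w1 0 / w1 1, w2 0 / w2 1] (fun b hb => by
        obtain ⟨c, i, j, hc, hcij⟩ := bin_factor hw1 hw2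
          (rs_homogeneous p q (((h.1 b).2).map (algebraMap K Ω))) (hD b hb).1 (hD b hb).2
        refine ⟨c, lam w1 ^ i * lam w2 ^ j, hc, hcij, fun E hE m => ?_⟩
        obtain ⟨g1, hg1⟩ := lam_mem (w := w1) (E := E) (hE 0)
        obtain ⟨g2, hg2⟩ := lam_mem (w := w2) (E := E) (hE 1)
        rw [hg1, hg2, ← map_pow, ← map_pow, ← map_mul, coeff_map]
        exact (coeff m (g1 ^ i * g2 ^ j)).2) (F := F) hF.le
  have h4 : ∑ a, Fintype.card (Ex (Fin (n + 1)) (d a)) =
      ∑ a, ((d a + n).choose n - 1) + Fintype.card A := by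
    rw [Fintype.card_eq_sum_ones, ← Finset.sum_add_distrib]
    refine Finset.sum_congr rfl fun a _ => ?_
    rw [card_Ex]
    have : 0 < (d a + n).choose n := Nat.choose_pos (by omega)
    omega
  rw [h4] at h3
  have h5 : Nat.card {b : Bt I0 // b ∉ B} + Fintype.card B = Nat.card (Bt I0) := by
    rw [Nat.card_eq_fintype_card, Nat.card_eq_fintype_card, Fintype.card_subtype_compl]
    have h4 : Fintype.card B ≤ Fintype.card (Bt I0) := Fintype.card_subtype_le _
    exact Nat.sub_add_cancel h4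
  rw [card_Bt] at h5
  rw [Cardinal.mk_sum, Cardinal.lift_id, Cardinal.lift_id, Cardinal.mk_fin, Cardinal.mk_fintype,
    ← Nat.cast_add] at h2
  have h6 := (add_le_add_left h2 _).trans h3
  rw [← Nat.cast_add, Nat.cast_le] at h6
  omega

/-- The dimension of the family of lines through the points of the line. -/
theorem trdeg_point {p' r' x : Fin (n + 1) → Ω} {i0 i1 : Fin (n + 1)}
    (hx' : ∀ i, x i = x i0 * p' i + x i1 * r' i) : ∃ f : ℕ,
      Algebra.trdeg K (IntermediateField.adjoin K (Set.range (Sum.elim p' r'))) = f ∧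
      Algebra.trdeg K (coords K x) ≤ ((f + 1 : ℕ) : Cardinal) := by
  classical
  obtain ⟨M, hM⟩ : ∃ M, M = IntermediateField.adjoin K (Set.range (Sum.elim p' r')) := ⟨_, rfl⟩
  have hpM : ∀ i, p' i ∈ M := fun i => by
    rw [hM]
    exact IntermediateField.subset_adjoin _ _ ⟨Sum.inl i, rfl⟩
  have hrM : ∀ i, r' i ∈ M := fun i => by
    rw [hM]
    exact IntermediateField.subset_adjoin _ _ ⟨Sum.inr i, rfl⟩
  have hMfin : Algebra.trdeg K M < Cardinal.aleph0 :=
    (Pool.Agent.Run7.h621.FV.trdeg_le_card _ M hM.le).trans_lt Cardinal.natCast_lt_aleph0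
  obtain ⟨f, hf⟩ := Cardinal.lt_aleph0.1 hMfin
  obtain ⟨z, hz⟩ : ∃ z, z = x i1 / x i0 := ⟨_, rfl⟩
  obtain ⟨M', hM'⟩ : ∃ M' : IntermediateField M Ω, M' = IntermediateField.adjoin M
    (Set.range fun _ : Unit => z) := ⟨_, rfl⟩
  have h6 : Algebra.trdeg M M' ≤ 1 := by
    have h7 := Pool.Agent.Run7.h621.FV.trdeg_le_card (fun _ : Unit => z) M' hM'.le
    simpa using h7
  have h7 := trdeg_add_eq (R := K) (S := M) (A := M')
  have hMM : ∀ e : Ω, e ∈ M → e ∈ M' := fun e he => M'.algebraMap_mem ⟨e, he⟩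
  have hzM : z ∈ M' := by
    rw [hM']
    exact IntermediateField.subset_adjoin _ _ ⟨(), rfl⟩
  have h8 : coords K x ≤ M'.restrictScalars K := by
    rw [coords, IntermediateField.adjoin_le_iff]
    rintro _ ⟨j, l, hl0, rfl⟩
    change x j / x l ∈ M'
    by_cases h0 : x i0 = 0
    · have h9 : ∀ i, x i = x i1 * r' i := fun i => by
        rw [hx' i, h0, zero_mul, zero_add]
      have h10 : x i1 ≠ 0 := fun h => hl0 (by rw [h9, h, zero_mul])
      rw [h9 j, h9 l, mul_div_mul_left _ _ h10]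
      exact div_mem (hMM _ (hrM j)) (hMM _ (hrM l))
    · have h9 : ∀ i, x i = x i0 * (p' i + z * r' i) := fun i => by
        rw [hx' i, hz]
        field_simp
      rw [h9 j, h9 l, mul_div_mul_left _ _ h0]
      exact div_mem (add_mem (hMM _ (hpM j)) (mul_mem hzM (hMM _ (hrM j))))
        (add_mem (hMM _ (hpM l)) (mul_mem hzM (hMM _ (hrM l))))
  have h9 : Algebra.trdeg K (coords K x) ≤ Algebra.trdeg K (M'.restrictScalars K) :=
    trdeg_le_of_injective (IntermediateField.inclusion h8)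
      (IntermediateField.inclusion_injective _)
  have h10 : Algebra.trdeg K (M'.restrictScalars K) = Algebra.trdeg K M' := rfl
  rw [h10, ← h7, hf] at h9
  refine ⟨f, by rw [← hM, hf], h9.trans ?_⟩
  rw [Nat.cast_add, Nat.cast_one]
  exact add_le_add_right h6 _

/-- The union of the lines that meet the boundary in at most two points. -/
theorem through2 [IsAlgClosed Ω] (h : ConditionsLE k H d s) (C : Finset A)
    {p r : Fin (n + 1) → Ω} (hl : LinearIndependent Ω ![p, r])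
    (hC : ∀ a ∈ C, ∀ u v : Ω, aeval (fun i => u * p i + v * r i) (H a) = 0)
    (hfew : FewPoints H C p r)
    {x : Fin (n + 1) → Ω} {u v : Ω} (hx : ∀ i, x i = u * p i + v * r i)
    (hxD : ∀ b, b ∉ C → aeval x (H b) ≠ 0) {w : ℕ}
    (hw : (w : Cardinal) ≤ Algebra.trdeg K (coords K x)) :
    ∑ a, d a + C.card + w ≤ s + 2 * n + 1 := by
  classical
  have hinf : Infinite Ω := IsAlgClosed.instInfinite
  obtain ⟨i0, i1, p', r', hne, hp0, hp1, hr0, hr1, hmem, hpr⟩ := exists_nb hl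
  have hev : ∀ (a : A) (w : Fin 2 → Ω), ∃ u v : Ω, (∀ i, w 0 * p' i + w 1 * r' i =
      u * p i + v * r i) ∧ eval w (rs p' r' (map (algebraMap K Ω) (H a))) =
        aeval (fun i => u * p i + v * r i) (H a) := by
    intro a w
    obtain ⟨u, v, huv⟩ := hmem (w 0) (w 1)
    refine ⟨u, v, huv, ?_⟩
    have h3 : w = ![w 0, w 1] := by
      funext i
      fin_cases i <;> rfl
    rw [h3, rs_eval]
    have h4 : (fun i => w 0 * p' i + w 1 * r' i) = fun i => u * p i + v * r i := funext huv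
    rw [h4, eval_map]
    rfl
  have h2 : ∀ a ∈ C, rs p' r' (map (algebraMap K Ω) (H a)) = 0 := by
    intro a ha
    refine MvPolynomial.funext fun w => ?_
    obtain ⟨u, v, -, h1⟩ := hev a w
    rw [h1, map_zero]
    exact hC a ha u v
  have hx' : ∀ i, x i = x i0 * p' i + x i1 * r' i := fun i => by
    rw [hx i, hx i0, hx i1]
    exact hpr u v i
  obtain ⟨f, hf, hf1⟩ := trdeg_point (K := K) hx'
  obtain ⟨y, z, hyz⟩ := hfew
  -- the points in the coordinates of the line
  have hpt : ∀ y : Fin (n + 1) → Ω, ∃ w1 : Fin 2 → Ω, w1 ≠ 0 ∧ ∀ (w : Fin 2 → Ω) (c : Ω),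
      (∀ i, w 0 * p' i + w 1 * r' i = c * y i) → Par w w1 := by
    intro y
    have hco : ∀ (w : Fin 2 → Ω) (c : Ω), (∀ i, w 0 * p' i + w 1 * r' i = c * y i) →
        w 0 = c * y i0 ∧ w 1 = c * y i1 := by
      intro w c hwc
      have h3 := hwc i0
      have h4 := hwc i1
      rw [hp0, hr0, mul_one, mul_zero, add_zero] at h3
      rw [hp1, hr1, mul_one, mul_zero, zero_add] at h4
      exact ⟨h3, h4⟩
    by_cases hy : (![y i0, y i1] : Fin 2 → Ω) = 0
    · refine ⟨![1, 0], fun h => one_ne_zero (congrFun h 0), fun w c hwc => ?_⟩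
      have h5 := congrFun hy 0
      have h6 := congrFun hy 1
      simp only [Matrix.cons_val_zero, Matrix.cons_val_one, Pi.zero_apply] at h5 h6
      obtain ⟨h3, h4⟩ := hco w c hwc
      unfold Par
      rw [h3, h4, h5, h6]
      simp
    · refine ⟨_, hy, fun w c hwc => ?_⟩
      obtain ⟨h3, h4⟩ := hco w c hwc
      unfold Par
      rw [h3, h4]
      simp only [Matrix.cons_val_zero, Matrix.cons_val_one]
      ring
  obtain ⟨w1, hw1, hpw1⟩ := hpt y
  obtain ⟨w2, hw2, hpw2⟩ := hpt z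
  have h5 := family2 h C hne hp0 hp1 hr0 hr1 h2 hw1 hw2 (fun b hb => ⟨fun h0 => ?_, fun w hwb => ?_⟩)
    hf
  · have h6 := hw.trans hf1
    rw [Nat.cast_le] at h6
    omega
  · apply hxD b hb
    have h6 := aeval_rs (R := Ω) p' r' (map (algebraMap K Ω) (H b)) (x i0) (x i1)
    rw [h0, map_zero] at h6
    simp only [Algebra.algebraMap_self, RingHom.id_apply] at h6
    rw [show (fun i => x i0 * p' i + x i1 * r' i) = x from funext fun i => (hx' i).symm,
      aeval_map_algebraMap] at h6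
    exact h6.symm
  · obtain ⟨u, v, huv, h6⟩ := hev b w
    rw [h6] at hwb
    rcases hyz b hb u v hwb with ⟨c, hc⟩ | ⟨c, hc⟩
    · exact Or.inl (hpw1 w c fun i => (huv i).trans (hc i))
    · exact Or.inr (hpw2 w c fun i => (huv i).trans (hc i))

end

end Pool.Agent.Run7.h621.LG
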