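import Pool.Agent.Run7.h621.LG.Local
import Pool.Agent.Run7.h621.LG.Lines
import Pool.Agent.Run7.h621.MP.Pick

/-!
The choice of the rows, with pairs of tangent vectors.
-/

set_option autoImplicit false
set_option linter.unusedSectionVars false

open MvPolynomial
open Pool.Agent.Run7.h621.FV (ext_family sum_indep)
open Pool.Agent.Run7.h621.NG (unit_span)
open Pool.Agent.Run7.h621.MP (Vr sM cor sM_zero sM_top mon mon_add mon_zero mon_sum mon_single
  mon_sM mon_cor mon_step Rd R Eu cS sc sT Rd_scale Eu_scale dt_trans ph Norm exists_norm ph_nonneg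
  ge_ph wt blk blk_card)

namespace Pool.Agent.Run7.h621.LG

variable {L : Type} [Field L] {n : Unit → ℕ} {A S X : Type}

/-- The base vectors. -/
noncomputable def base (κ : Unit → S → L) (E : X → Derivation ℤ L L) (η : X → S → L)
    (x : Vr n → L) : Unit ⊕ X → Vr n ⊕ S → L :=
  Sum.elim (fun i => Eu κ x i) (fun ξ => Rd (E ξ) (η ξ) x)

/-- The choice of the rows. -/
theorem pick [Fintype A] [DecidableEq A] [Fintype S] [DecidableEq S] [Fintype X]
    {c : ∀ i, Fin (n i + 1)} {dg : A → Unit → ℕ}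
    {D : A → (Vr n →₀ ℕ) → Derivation ℤ L L} {θ : A → (Vr n →₀ ℕ) → S → L} {κ : Unit → S → L}
    {E : X → Derivation ℤ L L} {η : X → S → L} {x : Vr n → L} (hc : ∀ i, x ⟨i, c i⟩ = 1)
    (Φ : (Vr n ⊕ S → L) →ₗ[L] (A → L)) (hΦu : ∀ i, Φ (Eu κ x i) = 0)
    (hΦE : ∀ ξ, Φ (Rd (E ξ) (η ξ) x) = 0)
    (hΦR : ∀ a I, Dg I (dg a) → ∀ b, Φ (R D θ x a I) b = if a = b then - mon x I else 0)
    (hX : LinearIndependent L (fun (ξ : X) (p : Vr n) => E ξ (x p)))
    {N : Submodule L (Vr n → L)} {m : ℕ} {mi : Unit → ℕ}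
    (hN : Module.finrank L N ≤ m + Fintype.card Unit)
    (hNi : ∀ i, Module.finrank L (N.map (blk L n i)) ≤ mi i + 1)
    (hN0 : ∀ i, (fun p => if p.1 = i then x p else 0) ∈ N)
    (hN1 : ∀ a I, (fun p => D a I (x p)) ∈ N) (hN2 : ∀ ξ, (fun p => E ξ (x p)) ∈ N) (q0 : ℕ) :
    (∃ (β : Type) (_ : Fintype β) (t : β ⊕ β → Ti A n), Fintype.card β < q0 ∧
      ∀ k1 k2 : Ti A n, Rel k1 k2 → ¬ LinearIndependent L
        ![(Submodule.span L (Set.range (Sum.elim (base κ E η x) (T c dg D θ x ∘ t)))).mkQ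
            (T c dg D θ x k1),
          (Submodule.span L (Set.range (Sum.elim (base κ E η x) (T c dg D θ x ∘ t)))).mkQ
            (T c dg D θ x k2)]) ∨
    ∃ (τ : Type) (_ : Fintype τ) (υ : Type) (_ : Fintype υ) (t : τ → Ti A n)
      (u : υ → Vr n ⊕ S) (_ : Vr n ⊕ S ≃ (Unit ⊕ (X ⊕ τ)) ⊕ (A ⊕ υ))
      (β : Type) (_ : Fintype β) (p : β ⊕ β → τ),
      Fintype.card β = q0 ∧ Pairs t p ∧
      Spans c dg D θ κ E η t x ∧
      LinearIndependent L (row c dg D θ κ E η t (fun a => cor c (dg a))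
        (fun y => Pi.single (u y) 1) x) ∧
      Fintype.card X + Fintype.card τ + Fintype.card A ≤ m + Fintype.card S ∧
      ∀ h : Unit → ℤ, (∀ i, 0 ≤ h i) →
        ∑ p : Vr n, h p.1 ≤ ∑ y, wt h (u y) + ∑ i, ((mi i : ℤ) + 1) * h i := by
  classical
  -- the base
  obtain ⟨v0, hv0⟩ : ∃ v0 : Unit ⊕ X → Vr n ⊕ S → L, v0 = base κ E η x := ⟨_, rfl⟩
  obtain ⟨prj, hprj⟩ : ∃ prj : (Vr n ⊕ S → L) →ₗ[L] (Vr n → L), ∀ v, prj v = fun p => v (Sum.inl p) :=
    ⟨{ toFun := fun v j => v (Sum.inl j)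
       map_add' := fun v w => rfl
       map_smul' := fun s v => rfl }, fun _ => rfl⟩
  obtain ⟨fc, hfc⟩ : ∃ fc : (Vr n ⊕ S → L) →ₗ[L] (Unit → L),
      ∀ v, fc v = fun i => v (Sum.inl ⟨i, c i⟩) :=
    ⟨{ toFun := fun v i => v (Sum.inl ⟨i, c i⟩)
       map_add' := fun v w => rfl
       map_smul' := fun s v => rfl }, fun _ => rfl⟩
  have hEi : LinearIndependent L (fun ξ => Rd (E ξ) (η ξ) x) := by
    refine LinearIndependent.of_comp prj ?_
    have h1 : prj ∘ (fun ξ => Rd (E ξ) (η ξ) x) = fun ξ p => E ξ (x p) := by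
      funext ξ
      rw [Function.comp_apply, hprj]
      rfl
    rw [h1]
    exact hX
  have hv0i : LinearIndependent L v0 := by
    have h1 := sum_indep fc hEi (fun ξ => by
      rw [hfc]
      funext i
      change E ξ (x ⟨i, c i⟩) = 0
      rw [hc, (E ξ).map_one_eq_zero]) (w := fun i => Eu κ x i) (by
      have h2 : (fun i => fc (Eu κ x i)) = fun i => (Pi.single i 1 : Unit → L) := by
        funext i
        rw [hfc]
        funext i'
        change (if i' = i then x ⟨i', c i'⟩ else 0) = _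
        rw [Pi.single_apply, hc]
      rw [h2]
      exact Pi.linearIndependent_single_one Unit L)
    have h2 := h1.comp Sum.swap (Equiv.sumComm _ _).injective
    have h3 : Sum.elim (fun ξ => Rd (E ξ) (η ξ) x) (fun i => Eu κ x i) ∘ Sum.swap = v0 := by
      rw [hv0]
      funext i
      rcases i with i | ξ
      · rfl
      · rfl
    rwa [h3] at h2
  rcases select hv0i (T c dg D θ x) Rel q0 with ⟨β, i0, tb, hβ, hr, htb⟩ |
    ⟨β, i0, tb, hβ, hr, htb, hm⟩
  swap
  · rw [hv0] at hm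
    exact Or.inl ⟨β, i0, tb, hβ, hm⟩
  right
  obtain ⟨τ2, i1, -, t2, ht, hts⟩ := ext_family htb (T c dg D θ x)
  obtain ⟨τ, hτ⟩ : ∃ τ, τ = ((β ⊕ β) ⊕ τ2) := ⟨_, rfl⟩
  subst hτ
  obtain ⟨t, htd⟩ : ∃ t : (β ⊕ β) ⊕ τ2 → Ti A n, t = Sum.elim tb t2 := ⟨_, rfl⟩
  have hpairs : Pairs t (Sum.inl : β ⊕ β → (β ⊕ β) ⊕ τ2) := by
    rw [htd]
    exact ⟨Sum.inl_injective, fun z => (hr z).1, fun z => (hr z).2⟩
  -- the base rows
  obtain ⟨eb, heb⟩ : ∃ eb : Unit ⊕ (X ⊕ ((β ⊕ β) ⊕ τ2)) ≃ ((Unit ⊕ X) ⊕ (β ⊕ β)) ⊕ τ2,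
      eb = (Equiv.sumAssoc _ _ _).symm.trans (Equiv.sumAssoc _ _ _).symm :=
    ⟨_, rfl⟩
  have hbrow : brow c dg D θ κ E η t x =
      Sum.elim (Sum.elim v0 (T c dg D θ x ∘ tb)) (T c dg D θ x ∘ t2) ∘ eb := by
    funext i
    rw [hv0, heb, htd]
    rcases i with _ | ξ | (y | y)
    · rfl
    · rfl
    · rfl
    · rfl
  have hbi : LinearIndependent L (brow c dg D θ κ E η t x) := by
    rw [hbrow]
    exact ht.comp _ eb.injective
  have hbs : Set.range (brow c dg D θ κ E η t x) =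
      Set.range (Sum.elim (Sum.elim v0 (T c dg D θ x ∘ tb)) (T c dg D θ x ∘ t2)) := by
    rw [hbrow, Set.range_comp, Equiv.range_eq_univ, Set.image_univ]
  have hsp : Spans c dg D θ κ E η t x := fun p => by rw [hbs]; exact hts p
  -- the functionals
  have hm1 : ∀ (G : Vr n →₀ ℕ) (p : Vr n), mon x (G + Finsupp.single p 1) = mon x G * x p := by
    intro G p
    rw [mon_add, mon_single, pow_one]
  have hRS0 : ∀ ρ p b, Φ (RS dg D θ x ρ p) b = - (∑ g ∈ ρ,
      if Dg (g.2 + Finsupp.single p 1) (dg g.1) then (if g.1 = b then mon x g.2 else 0) else 0) *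
        x p := by
    intro ρ p b
    rw [RS, map_sum, Finset.sum_apply, neg_mul, Finset.sum_mul, ← Finset.sum_neg_distrib]
    refine Finset.sum_congr rfl fun g _ => ?_
    split_ifs with h1 h2
    · rw [hΦR _ _ h1, if_pos h2, hm1]
    · rw [hΦR _ _ h1, if_neg h2, zero_mul, neg_zero]
    · rw [map_zero, Pi.zero_apply, zero_mul, neg_zero]
  have hT0 : ∀ p, Φ (T c dg D θ x p) = 0 := by
    intro p
    funext b
    rw [T, map_sub, map_smul, map_smul, Pi.sub_apply, Pi.smul_apply, Pi.smul_apply, hRS0, hRS0]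
    have h2 : ∀ g : A × (Vr n →₀ ℕ), Dg (g.2 + Finsupp.single p.2 1) (dg g.1) ↔
        Dg (g.2 + Finsupp.single ⟨p.2.1, c p.2.1⟩ 1) (dg g.1) := fun g =>
      ⟨fun h => Dg.swap (p := p.2) (q := ⟨p.2.1, c p.2.1⟩) rfl h,
        fun h => Dg.swap (p := ⟨p.2.1, c p.2.1⟩) (q := p.2) rfl h⟩
    simp only [h2, smul_eq_mul, Pi.zero_apply]
    ring
  have hker : ∀ i, Φ (brow c dg D θ κ E η t x i) = 0 := by
    rintro (i | ξ | y)
    · exact hΦu i
    · exact hΦE ξ
    · exact hT0 _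
  have hvi : LinearIndependent L (fun a : A => Φ (R D θ x a (cor c (dg a)))) := by
    rw [Fintype.linearIndependent_iff]
    intro g hg a
    have h1 := congrFun hg a
    rw [Finset.sum_apply, Finset.sum_eq_single a] at h1
    · rw [Pi.smul_apply, hΦR a _ (Dg_cor c (dg a)), if_pos rfl, mon_cor,
        Finset.prod_eq_one fun i _ => by rw [hc, one_pow], Pi.zero_apply, smul_eq_mul, mul_neg,
        mul_one, neg_eq_zero] at h1
      exact h1
    · intro b _ hb
      rw [Pi.smul_apply, hΦR b _ (Dg_cor c (dg b)), if_neg hb, smul_zero]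
    · intro h; exact absurd (Finset.mem_univ _) h
  have hind := sum_indep Φ hbi hker hvi
  -- the first units
  obtain ⟨q, hq⟩ : ∃ q : (Vr n ⊕ S → L) →ₗ[L] ((Vr n → L) ⧸ N), q = N.mkQ ∘ₗ prj := ⟨_, rfl⟩
  have hq0 : ∀ v, (fun j => v (Sum.inl j)) ∈ N → q v = 0 := fun v hv => by
    rw [hq, LinearMap.comp_apply, hprj, Submodule.mkQ_apply, Submodule.Quotient.mk_eq_zero]
    exact hv
  have hRN : ∀ a I, (fun j => R D θ x a I (Sum.inl j)) ∈ N := fun a I => hN1 a I
  have hRSN : ∀ ρ p, (fun j => RS dg D θ x ρ p (Sum.inl j)) ∈ N := by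
    intro ρ p
    have h1 : (fun j => RS dg D θ x ρ p (Sum.inl j)) = ∑ g ∈ ρ,
        if Dg (g.2 + Finsupp.single p 1) (dg g.1) then
          (fun j => R D θ x g.1 (g.2 + Finsupp.single p 1) (Sum.inl j)) else 0 := by
      funext j
      rw [RS, Finset.sum_apply, Finset.sum_apply]
      refine Finset.sum_congr rfl fun g _ => ?_
      split_ifs
      · rfl
      · rfl
    rw [h1]
    refine Submodule.sum_mem _ fun g _ => ?_
    split_ifs
    · exact hRN _ _
    · exact zero_mem _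
  have hqk : ∀ i, q (Sum.elim (brow c dg D θ κ E η t x)
      (fun a => R D θ x a (cor c (dg a))) i) = 0 := by
    rintro ((i | ξ | y) | a)
    · exact hq0 _ (hN0 i)
    · exact hq0 _ (hN2 ξ)
    · refine hq0 _ ?_
      change (fun j => T c dg D θ x (t y) (Sum.inl j)) ∈ N
      exact sub_mem (Submodule.smul_mem _ _ (hRSN _ _)) (Submodule.smul_mem _ _ (hRSN _ _))
    · exact hq0 _ (hRN _ _)
  obtain ⟨υ1, i3, -, u1, hu1, hu1s⟩ := ext_family
    (linearIndependent_empty_type (R := L) (v := fun z : Empty => z.elim))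
    (fun p : Vr n => N.mkQ (Pi.single p 1))
  have hu1' : LinearIndependent L fun y => N.mkQ (Pi.single (u1 y) 1) :=
    hu1.comp Sum.inr Sum.inr_injective
  have hr1 : Set.range (Sum.elim (fun z : Empty => z.elim)
      ((fun p : Vr n => N.mkQ (Pi.single p 1)) ∘ u1)) =
      Set.range fun y => N.mkQ (Pi.single (u1 y) 1) := by
    rw [Set.Sum.elim_range, Set.range_eq_empty, Set.empty_union]
    rfl
  rw [hr1] at hu1s
  have hspan : ∀ v, N.mkQ v ∈ Submodule.span L (Set.range fun y =>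
      N.mkQ (Pi.single (u1 y) (1 : L))) := by
    intro v
    have h2 := Submodule.mem_map_of_mem (f := N.mkQ) (unit_span v)
    rw [Submodule.map_span] at h2
    refine (Submodule.span_le.2 ?_) h2
    rintro _ ⟨_, ⟨j, rfl⟩, rfl⟩
    exact hu1s j
  have hc1 : Fintype.card υ1 + Module.finrank L N = Fintype.card (Vr n) := by
    have h1 : Submodule.span L (Set.range fun y => N.mkQ (Pi.single (u1 y) (1 : L))) = ⊤ := by
      rw [eq_top_iff]
      rintro z -
      obtain ⟨v, rfl⟩ := N.mkQ_surjective z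
      exact hspan v
    have h2 := finrank_span_eq_card hu1'
    rw [h1, finrank_top] at h2
    rw [← h2, Submodule.finrank_quotient_add_finrank, Module.finrank_fintype_fun_eq_card]
  have hw1 : ∀ y, q (Pi.single (Sum.inl (u1 y)) 1) = N.mkQ (Pi.single (u1 y) 1) := by
    intro y
    rw [hq, LinearMap.comp_apply, hprj]
    congr 1
    funext j
    by_cases h : j = u1 y
    · rw [h, Pi.single_eq_same, Pi.single_eq_same]
    · rw [Pi.single_eq_of_ne h, Pi.single_eq_of_ne fun h' => h (Sum.inl_injective h')]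
  have hind1 := sum_indep q hind hqk (w := fun y => Pi.single (Sum.inl (u1 y)) 1) (by
    simp only [hw1]
    exact hu1')
  -- the other units
  obtain ⟨υ2, i5, -, u2, hu2, hu2s⟩ := ext_family hind1
    (fun p : Vr n ⊕ S => (Pi.single p 1 : Vr n ⊕ S → L))
  obtain ⟨eq, heq⟩ : ∃ eq : (Unit ⊕ (X ⊕ ((β ⊕ β) ⊕ τ2))) ⊕ (A ⊕ (υ1 ⊕ υ2)) ≃
      (((Unit ⊕ (X ⊕ ((β ⊕ β) ⊕ τ2))) ⊕ A) ⊕ υ1) ⊕ υ2,
    eq = (Equiv.sumAssoc _ _ _).symm.trans (Equiv.sumAssoc _ _ _).symm := ⟨_, rfl⟩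
  obtain ⟨fam, hfam⟩ : ∃ fam : (((Unit ⊕ (X ⊕ ((β ⊕ β) ⊕ τ2))) ⊕ A) ⊕ υ1) ⊕ υ2 → Vr n ⊕ S → L,
    fam = Sum.elim (Sum.elim (Sum.elim (brow c dg D θ κ E η t x)
      (fun a => R D θ x a (cor c (dg a))))
      (fun y => Pi.single (Sum.inl (u1 y)) 1))
      ((fun p : Vr n ⊕ S => (Pi.single p 1 : Vr n ⊕ S → L)) ∘ u2) := ⟨_, rfl⟩
  rw [← hfam] at hu2 hu2s
  obtain ⟨u, hu⟩ : ∃ u : υ1 ⊕ υ2 → Vr n ⊕ S, u = Sum.elim (fun y => Sum.inl (u1 y)) u2 := ⟨_, rfl⟩
  have hrow : row c dg D θ κ E η t (fun a => cor c (dg a))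
      (fun y => Pi.single (u y) 1) x = fam ∘ eq := by
    funext i
    rw [hfam, heq, hu]
    rcases i with i | a | y | y
    · rfl
    · rfl
    · rfl
    · rfl
  have hri : LinearIndependent L (row c dg D θ κ E η t (fun a => cor c (dg a))
      (fun y => Pi.single (u y) 1) x) := by
    rw [hrow]
    exact hu2.comp _ eq.injective
  have htop : Submodule.span L (Set.range fam) = ⊤ := by
    rw [eq_top_iff]
    rintro v -
    refine (Submodule.span_le.2 ?_) (unit_span v)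
    rintro _ ⟨p, rfl⟩
    exact hu2s p
  have hcard : Fintype.card (Vr n ⊕ S) =
      Fintype.card ((Unit ⊕ (X ⊕ ((β ⊕ β) ⊕ τ2))) ⊕ (A ⊕ (υ1 ⊕ υ2))) := by
    have h1 := finrank_span_eq_card hu2
    rw [htop, finrank_top, Module.finrank_fintype_fun_eq_card] at h1
    rw [h1]
    exact (Fintype.card_congr eq).symm
  refine ⟨(β ⊕ β) ⊕ τ2, inferInstance, υ1 ⊕ υ2, inferInstance, t, u,
    Fintype.equivOfCardEq hcard, β, i0, Sum.inl, hβ, hpairs, hsp, hri, ?_, fun h h0 => ?_⟩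
  · have h1 : Fintype.card X + Fintype.card ((β ⊕ β) ⊕ τ2) + Fintype.card A ≤
        m + Fintype.card S := by
      simp only [Fintype.card_sum] at hcard ⊢
      omega
    exact h1
  · have h1 : ∀ i, (n i : ℤ) + 1 ≤ (Finset.univ.filter fun y => (u1 y).1 = i).card + (mi i + 1) :=
      fun i => by exact_mod_cast blk_card hspan (hNi i)
    have h2 : ∑ p : Vr n, h p.1 = ∑ i, ((n i : ℤ) + 1) * h i := by
      rw [Fintype.sum_sigma]
      refine Finset.sum_congr rfl fun i _ => ?_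
      change ∑ _y : Fin (n i + 1), h i = _
      rw [Finset.sum_const, Finset.card_univ, Fintype.card_fin, nsmul_eq_mul]
      push_cast
      rfl
    have h3 : ∑ y : υ1, h (u1 y).1 =
        ∑ i, ((Finset.univ.filter fun y => (u1 y).1 = i).card : ℤ) * h i := by
      rw [← Finset.sum_fiberwise (s := Finset.univ) (g := fun y => (u1 y).1)]
      refine Finset.sum_congr rfl fun i _ => ?_
      rw [Finset.sum_congr rfl (g := fun _ => h i) fun y hy => by rw [(Finset.mem_filter.1 hy).2],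
        Finset.sum_const, nsmul_eq_mul]
    have h4 : ∑ y : υ1, h (u1 y).1 ≤ ∑ y, wt h (u y) := by
      rw [hu, Fintype.sum_sum_type]
      simp only [Sum.elim_inl, Sum.elim_inr]
      have h5 : 0 ≤ ∑ y : υ2, wt h (u2 y) := Finset.sum_nonneg fun y _ => by
        rcases u2 y with p | s
        · exact h0 _
        · exact le_rfl
      have h6 : ∑ y : υ1, wt (n := n) (S := S) h (Sum.inl (u1 y)) = ∑ y : υ1, h (u1 y).1 := rfl
      omega
    have h5 : ∑ i, ((n i : ℤ) + 1) * h i ≤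
        ∑ i, (((Finset.univ.filter fun y => (u1 y).1 = i).card : ℤ) * h i +
          ((mi i : ℤ) + 1) * h i) := by
      refine Finset.sum_le_sum fun i _ => ?_
      have h6 := mul_le_mul_of_nonneg_right (h1 i) (h0 i)
      linarith
    rw [Finset.sum_add_distrib, ← h3] at h5
    rw [h2]
    linarith

end Pool.Agent.Run7.h621.LG
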