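import Pool.Agent.Run7.h621.LG.Family
import Pool.Agent.Run7.h621.LG.Count2
import Pool.Agent.W602.GT.Sys

/-!
Lines that meet the boundary in at least three points.
-/

set_option autoImplicit false
set_option linter.unusedSectionVars false

namespace Pool.Agent.Run7.h621.LG

open MvPolynomial FF Pool.Agent.W603.LV Pool.Agent.W603.PV Pool.Agent.W602.GT Pool.Agent.TH145.MG

variable {n : ℕ}

/-- Curves with three points at the boundary. -/
theorem gt_of_three {K L : Type} [Field K] [Field L] [Algebra K L] [CharZero K]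
    (htr : Algebra.trdeg K L = (1 : ℕ)) {l1 l2 l3 : L} (h1 : l1 ≠ 0) (h2 : l2 ≠ 0) (h3 : l3 ≠ 0)
    {α β : K} (hα : α ≠ 0) (hβ : β ≠ 0) (hl : l2 = algebraMap K L α * l1 + algebraMap K L β * l3)
    (ht : Transcendental K (l1 / l3)) {Bd : Place K L → Prop}
    (hBd : ∀ Q, ¬ Bd Q → Q.ord l1 = Q.ord l3 ∧ Q.ord l2 = Q.ord l3) :
    LogGeneralType K L 1 Bd := by
  classical
  obtain ⟨T, hT⟩ : ∃ T, T = l1 / l3 := ⟨_, rfl⟩
  rw [← hT] at ht
  have hT0 : T ≠ 0 := by rw [hT]; exact div_ne_zero h1 h3
  obtain ⟨U, hU⟩ : ∃ U, U = l2 / l3 := ⟨_, rfl⟩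
  have hU0 : U ≠ 0 := by rw [hU]; exact div_ne_zero h2 h3
  have hUT : U = algebraMap K L α * T + algebraMap K L β := by
    rw [hU, hT, hl]
    field_simp
  have hα' : algebraMap K L α ≠ 0 := fun h => hα ((map_eq_zero _).1 h)
  have hβ' : algebraMap K L β ≠ 0 := fun h => hβ ((map_eq_zero _).1 h)
  have hind : AlgebraicIndependent K (fun _ : Fin 1 => T) :=
    algebraicIndependent_unique_type_iff.2 ht
  have htb : IsTranscendenceBasis K (fun _ : Fin 1 => T) :=
    hind.isTranscendenceBasis_of_trdeg_le (by rw [htr]; exact Cardinal.natCast_lt_aleph0)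
      (by rw [htr]; simp)
  obtain ⟨E, hE⟩ := exists_dual htb
  have hET : E 0 T = 1 := by
    have := congrFun (congrFun hE 0) 0
    simpa using this
  have hEU : E 0 U = algebraMap K L α := by
    rw [hUT, map_add, Derivation.leibniz, Derivation.map_algebraMap, Derivation.map_algebraMap,
      hET]
    simp
  refine ⟨htr, 1, one_pos, fun j D => if j = 0 then D 0 T / T else D 0 U / U, fun j M D => ?_,
    fun Q _ j D hD => ?_, fun Q _ hQ j D hD => ?_, E, ?_, ?_⟩
  · rw [Matrix.det_fin_one, pow_one]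
    simp only [Fin.sum_univ_one, Derivation.smul_apply, smul_eq_mul]
    split_ifs <;> ring
  · dsimp only
    split_ifs
    · exact hD 0 T
    · exact hD 0 U
  · obtain ⟨hQ1, hQ2⟩ := hBd Q hQ
    dsimp only
    split_ifs
    · refine ge_logder_reg (hD 0) hT0 ?_
      rw [hT, Q.ord_div h1 h3, hQ1, sub_self]
    · refine ge_logder_reg (hD 0) hU0 ?_
      rw [hU, Q.ord_div h2 h3, hQ2, sub_self]
  · dsimp only
    rw [if_pos rfl, hET]
    exact div_ne_zero one_ne_zero hT0
  · refine algebraicIndependent_unique_type_iff.2 ?_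
    intro hc
    apply ht
    dsimp only at hc
    rw [if_neg (Fin.succ_ne_zero _), if_pos rfl, hET, hEU] at hc
    obtain ⟨c, hcc⟩ : ∃ c, c = algebraMap K L α / U / (1 / T) := ⟨_, rfl⟩
    rw [← hcc] at hc
    have h4 : c * (algebraMap K L α * T + algebraMap K L β) = algebraMap K L α * T := by
      rw [hcc, ← hUT]
      field_simp
    have hc1 : 1 - c ≠ 0 := by
      intro h
      have h5 : c = 1 := (sub_eq_zero.1 h).symm
      rw [h5, one_mul] at h4
      apply hβ'
      linear_combination h4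
    have h5 : T = c * algebraMap K L β * (algebraMap K L α * (1 - c))⁻¹ := by
      field_simp
      linear_combination -h4
    rw [h5]
    exact (hc.mul (isAlgebraic_algebraMap _)).mul
      ((isAlgebraic_algebraMap _).mul (isAlgebraic_one.sub hc)).inv

section

variable {K L : Type} [Field K] [Field L] [Algebra K L]

/-- The order of the point. -/
theorem pord_line {x : Fin (n + 1) → L} {p r : Fin (n + 1) → K} {i0 i1 : Fin (n + 1)}
    (hx0 : ∃ j, x j ≠ 0)
    (hx : ∀ i, x i = x i0 * algebraMap K L (p i) + x i1 * algebraMap K L (r i)) (Q : Place K L) :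
    pord Q ![x i0, x i1] = pord Q x := by
  have h0 : ∃ j, (![x i0, x i1] : Fin 2 → L) j ≠ 0 := by
    by_contra hcon
    push Not at hcon
    obtain ⟨j, hj⟩ := hx0
    apply hj
    rw [hx]
    have h1 := hcon 0
    have h2 := hcon 1
    simp only [Matrix.cons_val_zero, Matrix.cons_val_one] at h1 h2
    rw [h1, h2, zero_mul, zero_mul, add_zero]
  have hc : ∀ c : K, Ge Q 0 (algebraMap K L c) := by
    intro c
    by_cases h : c = 0
    · rw [h, map_zero]
      exact Or.inl rfl
    · exact Or.inr (Q.ord_const h).ge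
  apply le_antisymm
  · obtain ⟨j, hj, hjo⟩ := exists_pord Q hx0
    rw [← hjo]
    have h1 : Ge Q (pord Q ![x i0, x i1]) (x j) := by
      rw [hx j]
      have h2 := (ge_pord Q ![x i0, x i1] 0).mul (hc (p j))
      have h3 := (ge_pord Q ![x i0, x i1] 1).mul (hc (r j))
      rw [add_zero] at h2 h3
      exact h2.add h3
    exact h1.resolve_left hj
  · obtain ⟨j, hj, hjo⟩ := exists_pord Q h0
    rw [← hjo]
    fin_cases j
    · exact pord_le Q hj
    · exact pord_le Q hj

/-- The order of the linear form that vanishes at a point of the boundary. -/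
theorem ord_punct {x : Fin (n + 1) → L} {p r : Fin (n + 1) → K} {i0 i1 : Fin (n + 1)}
    (hx : ∀ i, x i = x i0 * algebraMap K L (p i) + x i1 * algebraMap K L (r i))
    {f : MvPolynomial (Fin (n + 1)) K} {e : ℕ} (hf : f.IsHomogeneous e) (hfx : aeval x f ≠ 0)
    {w : Fin 2 → K} (hw : w ≠ 0) (h0 : eval (fun i => w 0 * p i + w 1 * r i) f = 0) :
    algebraMap K L (w 1) * x i0 - algebraMap K L (w 0) * x i1 ≠ 0 ∧
    ∀ Q : Place K L, ¬ (e * pord Q x < Q.ord (aeval x f)) →
      Q.ord (algebraMap K L (w 1) * x i0 - algebraMap K L (w 0) * x i1) = pord Q x := by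
  classical
  have hG := rs_homogeneous p r hf
  have hGx : aeval ![x i0, x i1] (rs p r f) = aeval x f := by
    rw [aeval_rs]
    congr 1
    exact congrArg _ (funext fun i => (hx i).symm)
  have hGw : eval w (rs p r f) = 0 := by
    have h1 : w = ![w 0, w 1] := by
      funext i
      fin_cases i <;> rfl
    rw [h1, rs_eval]
    exact h0
  obtain ⟨G, hGG⟩ : ∃ G, G = rs p r f := ⟨_, rfl⟩
  rw [← hGG] at hG hGx hGw
  rcases e with _ | e
  · exfalso
    have h4 := bin_sum hG
    rw [Finset.sum_range_one, pow_zero, Nat.sub_self, pow_zero, mul_one, mul_one] at h4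
    rw [h4, eval_C] at hGw
    apply hfx
    rw [← hGx, h4, hGw, map_zero, map_zero]
  obtain ⟨G', hG', hG2⟩ := bin_div hG hw hGw
  have h1 : aeval x f = aeval ![x i0, x i1] (lam w) * aeval ![x i0, x i1] G' := by
    rw [← hGx, hG2, map_mul]
  rw [h1] at hfx
  have h2 := left_ne_zero_of_mul hfx
  have h3 := right_ne_zero_of_mul hfx
  have hx0 : ∃ j, x j ≠ 0 := by
    by_contra hcon
    push Not at hcon
    apply h2
    rw [lam, hcon, hcon]
    split_ifs
    · rw [aeval_X]
      rfl
    · rw [map_sub, map_mul, aeval_X, aeval_X]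
      simp
  obtain ⟨c, hc, hcl⟩ : ∃ c : K, c ≠ 0 ∧ algebraMap K L (w 1) * x i0 -
      algebraMap K L (w 0) * x i1 = algebraMap K L c * aeval ![x i0, x i1] (lam w) := by
    by_cases h4 : w 1 = 0
    · have hw0 : w 0 ≠ 0 := by
        intro h0
        apply hw
        funext i
        fin_cases i
        · exact h0
        · exact h4
      refine ⟨- w 0, neg_ne_zero.2 hw0, ?_⟩
      rw [lam, if_pos h4, aeval_X, h4, map_zero, map_neg]
      simp
    · refine ⟨w 1, h4, ?_⟩
      rw [lam, if_neg h4, map_sub, map_mul, aeval_X, aeval_X, aeval_C, map_div₀]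
      have h5 : algebraMap K L (w 1) ≠ 0 := fun h => h4 ((map_eq_zero _).1 h)
      simp only [Matrix.cons_val_zero, Matrix.cons_val_one]
      field_simp
  have hc' : algebraMap K L c ≠ 0 := fun h => hc ((map_eq_zero _).1 h)
  refine ⟨by rw [hcl]; exact mul_ne_zero hc' h2, fun Q hQ => ?_⟩
  have hconst : ∀ (g : MvPolynomial (Fin 2) K), ∀ α ∈ g.support,
      Ge Q 0 (algebraMap K L (g.coeff α)) := fun g α hα =>
    Or.inr (Q.ord_const (mem_support_iff.1 hα)).ge
  have h5 := (ge_form Q ![x i0, x i1] (lam_hom w) (hconst _)).resolve_left h2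
  have h6 := (ge_form Q ![x i0, x i1] hG' (hconst _)).resolve_left h3
  rw [pord_line hx0 hx] at h5 h6
  rw [h1, Q.ord_mul h2 h3, not_lt] at hQ
  rw [hcl, Q.ord_mul hc' h2, Q.ord_const hc, zero_add]
  push_cast at h5 h6 hQ
  linarith

end

end Pool.Agent.Run7.h621.LG
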