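import Pool.Agent.Run7.h621.MP.Chart

/-!
The rows, with tangent vectors for all monomials and sums of monomials.
-/

set_option autoImplicit false
set_option linter.unusedSectionVars false

open MvPolynomial
open Pool.Agent.Run7.h621.NG (dt dt_lin dt_cols dt_rows dt_tri dt_diag dt_ne_zero)
open Pool.Agent.Run7.h621.MP (Vr sM cor sM_zero sM_top mon mon_add mon_zero mon_sum mon_single
  mon_sM mon_cor mon_step Rd R Eu cS sc sT Rd_scale Eu_scale dt_trans)

namespace Pool.Agent.Run7.h621.LG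

variable {ι : Type} [Fintype ι] [DecidableEq ι] {n : ι → ℕ}

/-- The monomial `I` has the degrees `d`. -/
def Dg (I : Vr n →₀ ℕ) (d : ι → ℕ) : Prop := ∀ i, ∑ j, I ⟨i, j⟩ = d i

theorem deg_add (I I' : Vr n →₀ ℕ) (i : ι) :
    ∑ j, (I + I') ⟨i, j⟩ = ∑ j, I ⟨i, j⟩ + ∑ j, I' ⟨i, j⟩ := by
  rw [← Finset.sum_add_distrib]
  rfl

theorem deg_single (p : Vr n) (m : ℕ) (i : ι) :
    ∑ j, (Finsupp.single p m : Vr n →₀ ℕ) ⟨i, j⟩ = if p.1 = i then m else 0 := by
  classical
  obtain ⟨i', j'⟩ := p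
  split_ifs with h
  · change i' = i at h
    subst h
    rw [Finset.sum_eq_single j']
    · rw [Finsupp.single_eq_same]
    · intro j _ hj
      rw [Finsupp.single_apply, if_neg]
      intro h
      apply hj
      have := (Sigma.mk.inj_iff.1 h).2
      exact (eq_of_heq this).symm
    · intro h; exact absurd (Finset.mem_univ _) h
  · refine Finset.sum_eq_zero fun j _ => ?_
    rw [Finsupp.single_apply, if_neg]
    intro h'
    exact h (Sigma.mk.inj_iff.1 h').1

theorem deg_sum {κ : Type} (s : Finset κ) (u : κ → Vr n →₀ ℕ) (i : ι) :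
    ∑ j, (∑ k ∈ s, u k) ⟨i, j⟩ = ∑ k ∈ s, ∑ j, u k ⟨i, j⟩ := by
  classical
  induction s using Finset.induction_on with
  | empty => simp
  | insert a s ha ih => rw [Finset.sum_insert ha, Finset.sum_insert ha, deg_add, ih]

theorem Dg_sM (c : ∀ i, Fin (n i + 1)) {d : ι → ℕ} (j : ∀ i, Fin (n i + 1)) {e : ι → ℕ}
    (he : ∀ i, e i ≤ d i) : Dg (sM c d j e) d := by
  intro i
  rw [sM, deg_sum, Finset.sum_eq_single i]
  · rw [deg_add, deg_single, deg_single, if_pos rfl, if_pos rfl]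
    have := he i
    omega
  · intro k _ hk
    rw [deg_add, deg_single, deg_single, if_neg hk, if_neg hk, add_zero]
  · intro h; exact absurd (Finset.mem_univ _) h

theorem Dg.swap {I : Vr n →₀ ℕ} {d : ι → ℕ} {p q : Vr n} (hpq : p.1 = q.1)
    (h : Dg (I + Finsupp.single p 1) d) : Dg (I + Finsupp.single q 1) d := by
  intro i
  rw [← h i, deg_add, deg_add, deg_single, deg_single, hpq]

theorem Dg_cor (c : ∀ i, Fin (n i + 1)) (d : ι → ℕ) : Dg (cor c d) d := by
  rw [← sM_zero c d c]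
  exact Dg_sM c c fun _ => Nat.zero_le _

theorem sum_change {M : Type} [AddCommMonoid M] {f f1 : ι → M} {u : M} {i : ι}
    (h1 : ∀ k, k ≠ i → f k = f1 k) (h2 : f i + u = f1 i) : ∑ k, f k + u = ∑ k, f1 k := by
  rw [Fintype.sum_eq_add_sum_compl i, Fintype.sum_eq_add_sum_compl i f1, ← h2]
  have h3 : ∑ k ∈ {i}ᶜ, f k = ∑ k ∈ {i}ᶜ, f1 k := Finset.sum_congr rfl fun k hk => by
    rw [Finset.mem_compl, Finset.mem_singleton] at hk
    exact h1 k hk
  rw [h3]
  exact add_right_comm _ _ _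

/-- The steps of the path between monomials. -/
theorem exists_step (c : ∀ i, Fin (n i + 1)) {d : ι → ℕ} (j : ∀ i, Fin (n i + 1))
    {e : ι → ℕ} {i : ι} (he : e i < d i) :
    ∃ G : Vr n →₀ ℕ, G + Finsupp.single ⟨i, c i⟩ 1 = sM c d j e ∧
      G + Finsupp.single ⟨i, j i⟩ 1 = sM c d j (Function.update e i (e i + 1)) := by
  refine ⟨∑ k, (Finsupp.single ⟨k, c k⟩
    (d k - Function.update e i (e i + 1) k) + Finsupp.single ⟨k, j k⟩ (e k)), ?_, ?_⟩
  · refine sum_change (i := i) (fun k hk => ?_) ?_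
    · rw [Function.update_of_ne hk]
    · rw [Function.update_self, add_right_comm, ← Finsupp.single_add]
      congr 2
      omega
  · refine sum_change (i := i) (fun k hk => ?_) ?_
    · rw [Function.update_of_ne hk]
    · rw [Function.update_self, add_assoc, ← Finsupp.single_add]

variable {L : Type} [Field L] {A S X τ υ : Type}

/-- The indices of the tangent vectors. -/
abbrev Ti (A : Type) (n : ι → ℕ) : Type := Finset (A × (Vr n →₀ ℕ)) × Vr n

open scoped Classical in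
/-- The sums of rows. -/
noncomputable def RS (dg : A → ι → ℕ)
    (D : A → (Vr n →₀ ℕ) → Derivation ℤ L L) (θ : A → (Vr n →₀ ℕ) → S → L) (x : Vr n → L)
    (ρ : Finset (A × (Vr n →₀ ℕ))) (p : Vr n) : Vr n ⊕ S → L :=
  ∑ g ∈ ρ, if Dg (g.2 + Finsupp.single p 1) (dg g.1) then
    R D θ x g.1 (g.2 + Finsupp.single p 1) else 0

/-- The tangent vectors. -/
noncomputable def T (c : ∀ i, Fin (n i + 1)) (dg : A → ι → ℕ)
    (D : A → (Vr n →₀ ℕ) → Derivation ℤ L L) (θ : A → (Vr n →₀ ℕ) → S → L) (x : Vr n → L)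
    (p : Ti A n) : Vr n ⊕ S → L :=
  x ⟨p.2.1, c p.2.1⟩ • RS dg D θ x p.1 p.2 - x p.2 • RS dg D θ x p.1 ⟨p.2.1, c p.2.1⟩

theorem RS_single (dg : A → ι → ℕ)
    (D : A → (Vr n →₀ ℕ) → Derivation ℤ L L) (θ : A → (Vr n →₀ ℕ) → S → L) (x : Vr n → L)
    {a : A} {G : Vr n →₀ ℕ} {p : Vr n} (h : Dg (G + Finsupp.single p 1) (dg a)) :
    RS dg D θ x {(a, G)} p = R D θ x a (G + Finsupp.single p 1) := by
  rw [RS, Finset.sum_singleton, if_pos h]

/-- The base rows. -/
noncomputable def brow (c : ∀ i, Fin (n i + 1)) (dg : A → ι → ℕ)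
    (D : A → (Vr n →₀ ℕ) → Derivation ℤ L L) (θ : A → (Vr n →₀ ℕ) → S → L) (κ : ι → S → L)
    (E : X → Derivation ℤ L L) (η : X → S → L) (t : τ → Ti A n) (x : Vr n → L) :
    ι ⊕ (X ⊕ τ) → Vr n ⊕ S → L
  | Sum.inl i => Eu κ x i
  | Sum.inr (Sum.inl ξ) => Rd (E ξ) (η ξ) x
  | Sum.inr (Sum.inr y) => T c dg D θ x (t y)

/-- The rows. -/
noncomputable def row (c : ∀ i, Fin (n i + 1)) (dg : A → ι → ℕ)
    (D : A → (Vr n →₀ ℕ) → Derivation ℤ L L) (θ : A → (Vr n →₀ ℕ) → S → L) (κ : ι → S → L)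
    (E : X → Derivation ℤ L L) (η : X → S → L) (t : τ → Ti A n) (I : A → Vr n →₀ ℕ)
    (u : υ → Vr n ⊕ S → L) (x : Vr n → L) : (ι ⊕ (X ⊕ τ)) ⊕ (A ⊕ υ) → Vr n ⊕ S → L
  | Sum.inl i => brow c dg D θ κ E η t x i
  | Sum.inr (Sum.inl a) => R D θ x a (I a)
  | Sum.inr (Sum.inr y) => u y

section mod

variable {c : ∀ i, Fin (n i + 1)} {dg : A → ι → ℕ} {D : A → (Vr n →₀ ℕ) → Derivation ℤ L L}
  {θ : A → (Vr n →₀ ℕ) → S → L}

/-- The rows, modulo the tangent vectors. -/
theorem R_mod (x : Vr n → L) (hc : ∀ i, x ⟨i, c i⟩ ≠ 0) (a : A) (j : ∀ i, Fin (n i + 1))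
    {N : ℕ} {e : ι → ℕ} (he : ∀ i, e i ≤ dg a i) (hN : ∑ i, e i = N) :
    R D θ x a (sM c (dg a) j e) -
      (mon x (sM c (dg a) j e) / mon x (cor c (dg a))) • R D θ x a (cor c (dg a)) ∈
      Submodule.span L (Set.range (T c dg D θ x)) := by
  classical
  obtain ⟨W, hW⟩ : ∃ W, W = Submodule.span L (Set.range (T c dg D θ x)) := ⟨_, rfl⟩
  have hgW : ∀ o, T c dg D θ x o ∈ W := fun o => hW ▸ Submodule.subset_span ⟨o, rfl⟩
  have hm0 : mon x (cor c (dg a)) ≠ 0 := by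
    rw [mon_cor]
    exact Finset.prod_ne_zero_iff.2 fun i _ => pow_ne_zero _ (hc i)
  rw [← hW]
  induction N generalizing e with
  | zero =>
    have h0 : e = 0 := by
      funext i
      exact (Finset.sum_eq_zero_iff.1 hN) i (Finset.mem_univ _)
    rw [h0, sM_zero, div_self hm0, one_smul, sub_self]
    exact zero_mem _
  | succ N ih =>
    obtain ⟨i, hi⟩ : ∃ i, e i ≠ 0 := by
      by_contra hcon
      push Not at hcon
      rw [Finset.sum_eq_zero fun i _ => hcon i] at hN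
      omega
    obtain ⟨e', he'⟩ : ∃ e', e' = Function.update e i (e i - 1) := ⟨_, rfl⟩
    have hei : e' i = e i - 1 := by rw [he', Function.update_self]
    have hup : Function.update e' i (e' i + 1) = e := by
      rw [he', Function.update_self, Function.update_idem, Nat.sub_add_cancel (by omega),
        Function.update_eq_self]
    have hle : ∀ k, e' k ≤ dg a k := fun k => by
      by_cases hk : k = i
      · rw [hk, hei]
        have := he i
        omega
      · rw [he', Function.update_of_ne hk]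
        exact he k
    have hs : ∑ k, e' k = N := by
      have h1 : ∑ k, e k = e i + ∑ k ∈ {i}ᶜ, e k := Fintype.sum_eq_add_sum_compl i _
      have h2 : ∑ k, e' k = e' i + ∑ k ∈ {i}ᶜ, e' k := Fintype.sum_eq_add_sum_compl i _
      have h3 : ∑ k ∈ {i}ᶜ, e' k = ∑ k ∈ {i}ᶜ, e k := Finset.sum_congr rfl fun k hk => by
        rw [Finset.mem_compl, Finset.mem_singleton] at hk
        rw [he', Function.update_of_ne hk]
      omega
    have h1 := ih hle hs
    have hlt : e' i < dg a i := by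
      have := he i
      omega
    obtain ⟨G, hG1, hG2⟩ := exists_step c j (d := dg a) hlt
    have h2 := hgW ({(a, G)}, ⟨i, j i⟩)
    have hd1 : Dg (G + Finsupp.single ⟨i, c i⟩ 1) (dg a) := by
      rw [hG1]
      exact Dg_sM c j hle
    have hd2 : Dg (G + Finsupp.single ⟨i, j i⟩ 1) (dg a) :=
      Dg.swap (p := ⟨i, c i⟩) (q := ⟨i, j i⟩) rfl hd1
    change x ⟨i, c i⟩ • RS dg D θ x {(a, G)} ⟨i, j i⟩ -
      x ⟨i, j i⟩ • RS dg D θ x {(a, G)} ⟨i, c i⟩ ∈ W at h2
    rw [RS_single dg D θ x hd2, RS_single dg D θ x hd1, hG1, hG2, hup] at h2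
    have h3 := mon_step x c j (d := dg a) hlt
    rw [hup] at h3
    have hci := hc i
    have h4 : R D θ x a (sM c (dg a) j e) - (mon x (sM c (dg a) j e) / mon x (cor c (dg a))) •
        R D θ x a (cor c (dg a)) =
        (x ⟨i, c i⟩)⁻¹ • (x ⟨i, c i⟩ • R D θ x a (sM c (dg a) j e) -
          x ⟨i, j i⟩ • R D θ x a (sM c (dg a) j e')) +
        (x ⟨i, j i⟩ / x ⟨i, c i⟩) • (R D θ x a (sM c (dg a) j e') -
          (mon x (sM c (dg a) j e') / mon x (cor c (dg a))) • R D θ x a (cor c (dg a))) := by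
      have h5 : mon x (sM c (dg a) j e) = x ⟨i, j i⟩ * mon x (sM c (dg a) j e') / x ⟨i, c i⟩ := by
        rw [← h3]
        field_simp
      rw [h5]
      funext l
      simp only [Pi.add_apply, Pi.sub_apply, Pi.smul_apply, smul_eq_mul]
      field_simp
      ring
    rw [h4]
    exact add_mem (Submodule.smul_mem _ _ h2) (Submodule.smul_mem _ _ h1)

/-- The rows of the corners. -/
theorem R_cor (x : Vr n → L) (hc : ∀ i, x ⟨i, c i⟩ ≠ 0) (a : A) (j : ∀ i, Fin (n i + 1))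
    (hj : ∀ i, x ⟨i, j i⟩ ≠ 0) :
    R D θ x a (cor c (dg a)) - (mon x (cor c (dg a)) / mon x (cor j (dg a))) •
      R D θ x a (cor j (dg a)) ∈ Submodule.span L (Set.range (T c dg D θ x)) := by
  have h1 := R_mod (D := D) (θ := θ) (dg := dg) (c := c) x hc a j (e := dg a) (fun _ => le_rfl) rfl
  rw [sM_top] at h1
  have hc0 : mon x (cor c (dg a)) ≠ 0 := by
    rw [mon_cor]
    exact Finset.prod_ne_zero_iff.2 fun i _ => pow_ne_zero _ (hc i)
  have hj0 : mon x (cor j (dg a)) ≠ 0 := by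
    rw [mon_cor]
    exact Finset.prod_ne_zero_iff.2 fun i _ => pow_ne_zero _ (hj i)
  have h2 : R D θ x a (cor c (dg a)) - (mon x (cor c (dg a)) / mon x (cor j (dg a))) •
      R D θ x a (cor j (dg a)) = -(mon x (cor c (dg a)) / mon x (cor j (dg a))) •
      (R D θ x a (cor j (dg a)) - (mon x (cor j (dg a)) / mon x (cor c (dg a))) •
        R D θ x a (cor c (dg a))) := by
    funext l
    simp only [Pi.sub_apply, Pi.smul_apply, smul_eq_mul]
    field_simp
    ring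
  rw [h2]
  exact Submodule.smul_mem _ _ h1

end mod

theorem RS_scale {dg : A → ι → ℕ}
    {D : A → (Vr n →₀ ℕ) → Derivation ℤ L L} {θ : A → (Vr n →₀ ℕ) → S → L}
    (κ : ι → S → L) {lam : ι → L} (hl : ∀ i, lam i ≠ 0) (x : Vr n → L)
    (ρ : Finset (A × (Vr n →₀ ℕ))) (p : Vr n) :
    ∃ s : ι → L, (fun q => cS (n := n) S lam q * RS dg D θ (sc lam x) ρ p q) =
      RS dg D (fun a I => sT κ lam (D a I) (θ a I)) x ρ p + ∑ i, s i • Eu κ x i := by
  classical
  induction ρ using Finset.induction_on with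
  | empty =>
    refine ⟨0, ?_⟩
    funext q
    simp [RS]
  | insert g ρ hg ih =>
    obtain ⟨s, hs⟩ := ih
    by_cases h : Dg (g.2 + Finsupp.single p 1) (dg g.1)
    · refine ⟨fun i => (D g.1 (g.2 + Finsupp.single p 1) (lam i) / lam i) + s i, ?_⟩
      have h1 := Rd_scale (n := n) κ hl (D g.1 (g.2 + Finsupp.single p 1))
        (θ g.1 (g.2 + Finsupp.single p 1)) x
      have e1 : ∀ (θ' : A → (Vr n →₀ ℕ) → S → L) (y : Vr n → L),
          RS dg D θ' y (insert g ρ) p = R D θ' y g.1 (g.2 + Finsupp.single p 1) +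
            RS dg D θ' y ρ p := fun θ' y => by
        rw [RS, Finset.sum_insert hg, if_pos h]
        rfl
      rw [e1, e1]
      simp only [add_smul, Finset.sum_add_distrib]
      funext q
      have h2 := congrFun h1 q
      have h3 := congrFun hs q
      simp only [Pi.add_apply, MP.R] at h2 h3 ⊢
      rw [mul_add, h2, h3]
      ring
    · refine ⟨s, ?_⟩
      have e1 : ∀ (θ' : A → (Vr n →₀ ℕ) → S → L) (y : Vr n → L),
          RS dg D θ' y (insert g ρ) p = RS dg D θ' y ρ p := fun θ' y => by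
        rw [RS, Finset.sum_insert hg, if_neg h, zero_add]
        rfl
      rw [e1, e1]
      exact hs

theorem T_scale {c : ∀ i, Fin (n i + 1)} {dg : A → ι → ℕ}
    {D : A → (Vr n →₀ ℕ) → Derivation ℤ L L} {θ : A → (Vr n →₀ ℕ) → S → L}
    (κ : ι → S → L) {lam : ι → L} (hl : ∀ i, lam i ≠ 0) (x : Vr n → L) (p : Ti A n) :
    ∃ s : ι → L, (fun q => cS (n := n) S lam q * T c dg D θ (sc lam x) p q) =
      lam p.2.1 • T c dg D (fun a I => sT κ lam (D a I) (θ a I)) x p +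
        ∑ i, s i • Eu κ x i := by
  obtain ⟨s1, h1⟩ := RS_scale (dg := dg) (D := D) (θ := θ) κ hl x p.1 p.2
  obtain ⟨s2, h2⟩ := RS_scale (dg := dg) (D := D) (θ := θ) κ hl x p.1 ⟨p.2.1, c p.2.1⟩
  obtain ⟨y1, hy1⟩ : ∃ y1, y1 = x ⟨p.2.1, c p.2.1⟩ := ⟨_, rfl⟩
  obtain ⟨y2, hy2⟩ : ∃ y2, y2 = x p.2 := ⟨_, rfl⟩
  refine ⟨fun i => lam p.2.1 * y1 * s1 i - lam p.2.1 * y2 * s2 i, ?_⟩
  have e1 : sc lam x ⟨p.2.1, c p.2.1⟩ = lam p.2.1 * y1 := by rw [hy1]; rfl
  have e2 : sc lam x p.2 = lam p.2.1 * y2 := by rw [hy2]; rfl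
  have e3 : ∑ i, (lam p.2.1 * y1 * s1 i - lam p.2.1 * y2 * s2 i) • Eu κ x i =
      (lam p.2.1 * y1) • ∑ i, s1 i • Eu κ x i - (lam p.2.1 * y2) • ∑ i, s2 i • Eu κ x i := by
    rw [Finset.smul_sum, Finset.smul_sum, ← Finset.sum_sub_distrib]
    refine Finset.sum_congr rfl fun i _ => ?_
    rw [sub_smul, smul_smul, smul_smul]
  simp only [T, e1, e2, ← hy1, ← hy2, e3]
  funext q
  have h3 := congrFun h1 q
  have h4 := congrFun h2 q
  simp only [Pi.add_apply, Pi.sub_apply, Pi.smul_apply, smul_eq_mul] at h3 h4 ⊢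
  linear_combination lam p.2.1 * y1 * h3 - lam p.2.1 * y2 * h4

end Pool.Agent.Run7.h621.LG
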