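import Pool.Agent.Run7.h621.LG.Glue
import Pool.Agent.Y735.MainL

/-!
Pairs in projective varieties whose forms satisfy at most `s` independent conditions: the
definitions for the statements, and the main theorems.
-/

set_option autoImplicit false

namespace Pool.Agent.Run7.h621.LG

open MvPolynomial FF Pool.Agent.W603.LV Pool.Agent.W603.PV Pool.Agent.W602.GT Pool.Agent.TH145.MG
open Pool.Agent.Run7.h621.FV (Ex)
open Pool.Agent.Run7.h621.NG (Bt)

variable {n : ℕ}

/-- The forms `H a` are not `0`, have the degrees `d a`, and satisfy at most `s` independent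
conditions over `k`: the ratios of the coefficients, for each of the forms, generate a field of
transcendence degree at least `∑ (binom (d a + n) n - 1) - s` over `k`. -/
def ConditionsLE (k : Type) {K A : Type} [Field k] [Field K] [Algebra k K] [Fintype A]
    (H : A → MvPolynomial (Fin (n + 1)) K) (d : A → ℕ) (s : ℕ) : Prop :=
  (∀ a, H a ≠ 0 ∧ (H a).IsHomogeneous (d a)) ∧
    ((∑ a, ((d a + n).choose n - 1) : ℕ) : Cardinal) ≤ Algebra.trdeg k (coefField k H) + s

/-- The number `q` is admissible: `0`, or small compared with `s`. -/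
def Small {A : Type} [Fintype A] (n : ℕ) (d : A → ℕ) (s q : ℕ) : Prop :=
  q = 0 ∨ (Fintype.card A + 2 * q ≤ s ∧ Fintype.card A + 4 * q ≤ s + 3 ∧
    s ≤ ∑ a, ((d a + n).choose n - 1))

/-- The span of `p` and `r` is a line on which the forms in `E` vanish. -/
def LineIn {K : Type} [Field K] (E : Set (MvPolynomial (Fin (n + 1)) K)) (p r : Fin (n + 1) → K) :
    Prop :=
  LinearIndependent K ![p, r] ∧ ∀ f ∈ E, ∀ u v : K, eval (fun i => u * p i + v * r i) f = 0

/-- The point `x` is on a line over `K` on which the forms in `E` vanish. -/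
def OnLineIn (K : Type) {L : Type} [Field K] [Field L] [Algebra K L]
    (E : Set (MvPolynomial (Fin (n + 1)) K)) (x : Fin (n + 1) → L) : Prop :=
  ∃ p r : Fin (n + 1) → K, LineIn E p r ∧
    ∃ u v : L, ∀ i, x i = u * algebraMap K L (p i) + v * algebraMap K L (r i)

/-- The places `Q` that are mapped to the boundary: `x` meets the hypersurface `H b = 0` at `Q` for
some `b` not in `C`. -/
def bdry {K : Type} [Field K] {A : Type} (C : Finset A) (H : A → MvPolynomial (Fin (n + 1)) K)
    (d : A → ℕ) {L : Type} [Field L] [Algebra K L] (x : Fin (n + 1) → L) : Set (Place K L) :=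
  {Q | ∃ b, b ∉ C ∧ d b * pord Q x < Q.ord (aeval x (H b))}

theorem card_Ex (n e : ℕ) : Fintype.card (Ex (Fin (n + 1)) e) = (e + n).choose n := by
  rw [Pool.Agent.Run7.h621.FV.card_ex, Fintype.card_fin, Nat.multichoose_eq]
  have h2 : n + 1 + e - 1 = e + n := by omega
  rw [h2, ← Nat.choose_symm_add]

theorem card_Bt {A : Type} [Fintype A] {d : A → ℕ} (I0 : ∀ a, Ex (Fin (n + 1)) (d a)) :
    Nat.card (Bt I0) = ∑ a, ((d a + n).choose n - 1) := by
  classical
  rw [Nat.card_eq_fintype_card, Fintype.card_sigma]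
  refine Finset.sum_congr rfl fun a _ => ?_
  rw [Fintype.card_subtype_compl, Fintype.card_subtype_eq, card_Ex]

section

variable {k K : Type} [Field k] [Field K] [Algebra k K] {A : Type} [Fintype A]
  {H : A → MvPolynomial (Fin (n + 1)) K} {d : A → ℕ} {s q : ℕ}

theorem exists_base (h : ConditionsLE k H d s) :
    ∃ I0 : ∀ a, Ex (Fin (n + 1)) (d a), ∀ a, coeff (I0 a).1 (H a) ≠ 0 := by
  have h1 : ∀ a, ∃ I : Ex (Fin (n + 1)) (d a), coeff I.1 (H a) ≠ 0 := by
    intro a
    obtain ⟨I, hI⟩ := MvPolynomial.ne_zero_iff.1 (h.1 a).1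
    refine ⟨⟨I, ?_⟩, hI⟩
    rw [Finsupp.degree_eq_weight_one]
    exact (h.1 a).2 hI
  choose I0 hI0 using h1
  exact ⟨I0, hI0⟩

theorem exists_B (h : ConditionsLE k H d s) (I0 : ∀ a, Ex (Fin (n + 1)) (d a))
    (hI0 : ∀ a, coeff (I0 a).1 (H a) ≠ 0) : ∃ B : Set (Bt I0),
      AlgebraicIndependent k (fun p : B =>
        coeff p.1.2.1.1 (H p.1.1) / coeff (I0 p.1.1).1 (H p.1.1)) ∧
      Nat.card {b : Bt I0 // b ∉ B} ≤ s ∧
      (s ≤ ∑ a, ((d a + n).choose n - 1) → Nat.card {b : Bt I0 // b ∉ B} = s) := by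
  classical
  have hadj : coefField k H = IntermediateField.adjoin k (Set.range fun p : Bt I0 =>
      coeff p.2.1.1 (H p.1) / coeff (I0 p.1).1 (H p.1)) := by
    apply le_antisymm
    · rw [coefField, IntermediateField.adjoin_le_iff]
      rintro _ ⟨a, I, I', rfl⟩
      have h1 : ∀ I, coeff I (H a) / coeff (I0 a).1 (H a) ∈ IntermediateField.adjoin k
          (Set.range fun p : Bt I0 => coeff p.2.1.1 (H p.1) / coeff (I0 p.1).1 (H p.1)) := by
        intro I
        by_cases hz : coeff I (H a) = 0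
        · rw [hz, zero_div]
          exact zero_mem _
        have h2 : I.degree = d a := by
          rw [Finsupp.degree_eq_weight_one]
          exact (h.1 a).2 hz
        by_cases hI : (⟨I, h2⟩ : Ex (Fin (n + 1)) (d a)) = I0 a
        · rw [← hI, div_self hz]
          exact one_mem _
        · exact IntermediateField.subset_adjoin _ _ ⟨⟨a, ⟨⟨I, h2⟩, hI⟩⟩, rfl⟩
      by_cases hz : coeff I' (H a) = 0
      · rw [hz, div_zero]
        exact zero_mem _
      · rw [← div_div_div_cancel_right₀ (hI0 a)]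
        exact div_mem (h1 I) (h1 I')
    · rw [IntermediateField.adjoin_le_iff]
      rintro _ ⟨p, rfl⟩
      exact IntermediateField.subset_adjoin _ _ ⟨_, _, _, rfl⟩
  have h1 := h.2
  rw [← card_Bt I0, hadj] at h1
  obtain ⟨B, hB, hBs⟩ := Pool.Agent.Run7.h621.NG.exists_indep _ h1
  by_cases hs : s ≤ ∑ a, ((d a + n).choose n - 1)
  · obtain ⟨u, hu1, -, hu3⟩ := Finset.exists_subsuperset_card_eq
      (s := Finset.univ.filter fun b : Bt I0 => b ∉ B) (t := Finset.univ) (n := s)
      (Finset.subset_univ _) (by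
        rwa [← Fintype.card_subtype, ← Nat.card_eq_fintype_card]) (by
        rwa [Finset.card_univ, ← Nat.card_eq_fintype_card, card_Bt])
    have h2 : Nat.card {b : Bt I0 // b ∉ {b : Bt I0 | b ∉ u}} = s := by
      rw [Nat.card_eq_fintype_card, Fintype.card_subtype, ← hu3]
      congr 1
      ext b
      simp
    refine ⟨{b | b ∉ u}, ?_, h2.le, fun _ => h2⟩
    have h3 : ∀ b : {b : Bt I0 | b ∉ u}, b.1 ∈ B := fun b => by
      by_contra hb
      exact b.2 (hu1 (Finset.mem_filter.2 ⟨Finset.mem_univ _, hb⟩))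
    exact hB.comp (fun b : {b : Bt I0 | b ∉ u} => (⟨b.1, h3 b⟩ : B)) fun b b' hbb => by
      have := congrArg Subtype.val hbb
      exact Subtype.ext this
  · exact ⟨B, hB, hBs, fun h => absurd h hs⟩

/-- Lines. -/
theorem lines (h : ConditionsLE k H d s) (C : Finset A) {p r : Fin (n + 1) → K} [Infinite K]
    (hl : LineIn {f | ∃ a ∈ C, f = H a} p r) : ∑ a ∈ C, (d a + 1) + 2 ≤ s + 2 * n := by
  classical
  have h1 : Module.finrank K (Submodule.span K (Set.range ![p, r])) = 2 := by
    rw [finrank_span_eq_card hl.1, Fintype.card_fin]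
  obtain ⟨i0, i1, p', r', hne, hp, hr, hp0, hp1, hr0, hr1⟩ := exists_nbasis h1
  have hmem : ∀ z ∈ Submodule.span K (Set.range ![p, r]), ∃ u v : K, z = fun i =>
      u * p i + v * r i := by
    intro z hz
    rw [Matrix.range_cons, Matrix.range_cons, Matrix.range_empty, Set.union_empty,
      Set.singleton_union, Submodule.mem_span_pair] at hz
    obtain ⟨u, v, rfl⟩ := hz
    exact ⟨u, v, rfl⟩
  have h2 : ∀ a ∈ C, rs p' r' (H a) = 0 := by
    intro a ha
    refine MvPolynomial.funext fun w => ?_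
    have h3 : w = ![w 0, w 1] := by
      funext i
      fin_cases i <;> rfl
    rw [h3, rs_eval, map_zero]
    obtain ⟨u, v, huv⟩ := hmem (w 0 • p' + w 1 • r')
      (Submodule.add_mem _ (Submodule.smul_mem _ _ hp) (Submodule.smul_mem _ _ hr))
    have h4 : (fun i => w 0 * p' i + w 1 * r' i) = fun i => u * p i + v * r i := huv
    rw [h4]
    exact hl.2 _ ⟨a, ha, rfl⟩ u v
  have h3 := line_count (k := k) (fun a => (h.1 a).2) (fun a => (h.1 a).1) C hne hp0 hp1 hr0 hr1 h2
    (F := coefField k H) (by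
      rw [coefField]
      exact IntermediateField.adjoin.mono _ _ _ Set.subset_union_left)
  have h4 : ∑ a, Fintype.card (Ex (Fin (n + 1)) (d a)) =
      ∑ a, ((d a + n).choose n - 1) + Fintype.card A := by
    rw [Fintype.card_eq_sum_ones, ← Finset.sum_add_distrib]
    refine Finset.sum_congr rfl fun a _ => ?_
    rw [card_Ex]
    have : 0 < (d a + n).choose n := Nat.choose_pos (by omega)
    omega
  rw [h4] at h3
  have h5 := h.2
  obtain ⟨T, hT⟩ : ∃ T, T = Algebra.trdeg k (coefField k H) := ⟨_, rfl⟩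
  rw [← hT] at h3 h5
  have hT0 : T < Cardinal.aleph0 := by
    refine lt_of_le_of_lt (le_trans ?_ h3) Cardinal.natCast_lt_aleph0
    exact le_self_add
  obtain ⟨t, rfl⟩ := Cardinal.lt_aleph0.1 hT0
  have h6 : t + (∑ a ∈ C, (d a + 1) + Fintype.card A + 2) ≤
      ∑ a, ((d a + n).choose n - 1) + Fintype.card A + 2 * n := by exact_mod_cast h3
  have h7 : ∑ a, ((d a + n).choose n - 1) ≤ t + s := by exact_mod_cast h5
  omega

end

section

variable {k K : Type} [Field k] [Field K] [IsAlgClosed K] [CharZero K] [Algebra k K]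
  {m s q : ℕ} {V : Set (MvPolynomial (Fin (n + 1)) (algebraicClosure k K))}
  {A : Type} [Fintype A] {d : A → ℕ} {H : A → MvPolynomial (Fin (n + 1)) K}

/-- The equations of the closed subset. -/
def eqs (V : Set (MvPolynomial (Fin (n + 1)) (algebraicClosure k K)))
    (H : A → MvPolynomial (Fin (n + 1)) K) (C : Finset A) : Set (MvPolynomial (Fin (n + 1)) K) :=
  {f | (∃ g ∈ V, f = map (algebraMap (algebraicClosure k K) K) g) ∨ ∃ a ∈ C, f = H a}

/-- The point is a point of the pair. -/
def OnPairOf (V : Set (MvPolynomial (Fin (n + 1)) (algebraicClosure k K)))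
    (H : A → MvPolynomial (Fin (n + 1)) K) (C : Finset A) {L : Type} [Field L] [Algebra K L]
    (x : Fin (n + 1) → L) : Prop :=
  (∀ f ∈ eqs V H C, aeval x f = 0) ∧ ∀ b, b ∉ C → aeval x (H b) ≠ 0

omit [IsAlgClosed K] [CharZero K] in
theorem online_of {L : Type} [Field L] [Algebra K L] {E : Set (MvPolynomial (Fin (n + 1)) K)}
    (hE : ∀ f ∈ E, ∃ e, f.IsHomogeneous e) {x : Fin (n + 1) → L} (hxE : ∀ f ∈ E, aeval x f = 0)
    (hnc : ∃ j l, Transcendental K (x j / x l))
    (h : ∃ (p r : Fin (n + 1) → K) (u v : L), ∀ i, x i = u * algebraMap K L (p i) +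
      v * algebraMap K L (r i)) : OnLineIn K E x := by
  obtain ⟨p, r, u, v, h⟩ := h
  obtain ⟨j, l, ht⟩ := hnc
  refine ⟨p, r, ⟨?_, fun f hf u' v' => ?_⟩, u, v, h⟩
  · rw [LinearIndependent.pair_iff]
    intro a b hab
    by_contra hcon
    apply ht
    have hab' : ∀ i, a * p i + b * r i = 0 := fun i => congrFun hab i
    have h1 : ∃ (c : Fin (n + 1) → K) (z : L), ∀ i, x i = z * algebraMap K L (c i) := by
      by_cases ha : a = 0
      · have hb : b ≠ 0 := fun hb => hcon ⟨ha, hb⟩
        refine ⟨p, u, fun i => ?_⟩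
        have h2 := hab' i
        rw [ha, zero_mul, zero_add] at h2
        rw [h, (mul_eq_zero.1 h2).resolve_left hb, map_zero, mul_zero, add_zero]
      · refine ⟨r, v - u * algebraMap K L (b / a), fun i => ?_⟩
        have h2 : p i = - (b / a) * r i := by
          have h3 := hab' i
          field_simp
          linear_combination h3
        rw [h, h2, map_mul, map_neg]
        ring
    obtain ⟨c, z, hc⟩ := h1
    rw [hc, hc]
    by_cases hz : z = 0
    · rw [hz, zero_mul, zero_div]
      exact isAlgebraic_zero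
    · rw [mul_div_mul_left _ _ hz, ← map_div₀]
      exact isAlgebraic_algebraMap _
  · obtain ⟨e, he⟩ := hE f hf
    have h1 := rs_zero he h ht (hxE f hf)
    have h2 := rs_eval p r f u' v'
    rw [h1, map_zero] at h2
    exact h2.symm

omit [IsAlgClosed K] [CharZero K] in
theorem eqs_hom (hVh : ∀ f ∈ V, ∃ e, f.IsHomogeneous e) (h : ConditionsLE k H d s) (C : Finset A) :
    ∀ f ∈ eqs V H C, ∃ e, f.IsHomogeneous e := by
  rintro f (⟨g, hg, rfl⟩ | ⟨a, ha, rfl⟩)
  · obtain ⟨e, he⟩ := hVh g hg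
    exact ⟨e, he.map _⟩
  · exact ⟨_, (h.1 a).2⟩

omit [IsAlgClosed K] [CharZero K] in
theorem small_of {I0 : ∀ a, Ex (Fin (n + 1)) (d a)} {B : Set (Bt I0)} (hq : Small n d s q)
    (hB : s ≤ ∑ a, ((d a + n).choose n - 1) → Nat.card {b : Bt I0 // b ∉ B} = s) :
    q = 0 ∨ (Fintype.card A + 2 * q ≤ Nat.card {b : Bt I0 // b ∉ B} ∧
      Fintype.card A + 4 * q ≤ Nat.card {b : Bt I0 // b ∉ B} + 3) := by
  rcases hq with hq | ⟨h1, h2, h3⟩
  · exact Or.inl hq
  · right
    rw [hB h3]
    exact ⟨h1, h2⟩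

/-- Closed subvarieties. -/
theorem subvarieties (hVh : ∀ f ∈ V, ∃ e, f.IsHomogeneous e)
    (hV : DimLE (algebraicClosure k K) V m) (h : ConditionsLE k H d s) (hq : Small n d s q)
    (C : Finset A) {L : Type} [Field L] [Algebra K L] {w : ℕ} {x : Fin (n + 1) → L} (hw : 0 < w)
    (htr : Algebra.trdeg K L = w) (hx0 : x ≠ 0) (hxL : Algebra.IsAlgebraic (coords K x) L)
    (hx : OnPairOf V H C x) (hnum : 2 * m + s + 2 ≤ ∑ a, d a + C.card + w + q) :
    OnLineIn K (eqs V H C) x ∨ LogGeneralType K L w fun Q => Q ∈ bdry C H d x := by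
  classical
  have hac : IsAlgClosed (algebraicClosure k K) := (algebraicClosure.isAlgClosure k K).isAlgClosed
  obtain ⟨I0, hI0⟩ := exists_base h
  obtain ⟨B, hB, hBs, hBe⟩ := exists_B h I0 hI0
  have h1 := sub_one (k0 := algebraicClosure k K) (fun a => (h.1 a).2) C hVh hV I0 hI0 hBs
    (small_of hq hBe) hB.algebraicClosure hw htr hx0 hnum hxL
    (fun f hf => hx.1 _ (Or.inl ⟨f, hf, rfl⟩)) (fun a ha => hx.1 _ (Or.inr ⟨a, ha, rfl⟩)) hx.2
  rcases h1 with h1 | h1
  · left
    refine online_of (eqs_hom hVh h C) hx.1 ?_ h1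
    by_contra hcon
    push Not at hcon
    have h2 : Algebra.IsAlgebraic K (coords K x) := by
      rw [coords]
      have h3 : ∀ z ∈ {z : L | ∃ j l, x l ≠ 0 ∧ z = x j / x l}, IsAlgebraic K z := by
        rintro _ ⟨j, l, -, rfl⟩
        have := hcon j l
        unfold Transcendental at this
        rwa [not_not] at this
      exact IntermediateField.isAlgebraic_adjoin fun z hz => (h3 z hz).isIntegral
    have h3 : Algebra.IsAlgebraic K L := Algebra.IsAlgebraic.trans K (coords K x) L
    rw [trdeg_eq_zero (R := K) (A := L)] at htr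
    have h4 : (w : Cardinal) = ((0 : ℕ) : Cardinal) := by rw [← htr, Nat.cast_zero]
    rw [Nat.cast_inj] at h4
    omega
  · exact Or.inr h1

/-- Curves. -/
theorem curves (hVh : ∀ f ∈ V, ∃ e, f.IsHomogeneous e)
    (hV : DimLE (algebraicClosure k K) V m) (h : ConditionsLE k H d s) (hq : Small n d s q)
    (C : Finset A) {L : Type} [Field L] [Algebra K L] [IsFF K L] {x : Fin (n + 1) → L}
    (hnc : ∃ j l, Transcendental K (x j / x l)) (hx : OnPairOf V H C x) :
    (bdry C H d x).Finite ∧ (OnLineIn K (eqs V H C) x ∨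
      ((∑ a, (d a : ℤ)) + C.card + q - 2 * m - s) * pht K x ≤
        canDeg K L + (bdry C H d x).ncard) := by
  classical
  have hac : IsAlgClosed (algebraicClosure k K) := (algebraicClosure.isAlgClosure k K).isAlgClosed
  obtain ⟨I0, hI0⟩ := exists_base h
  obtain ⟨B, hB, hBs, hBe⟩ := exists_B h I0 hI0
  have h1 := curve_one (k0 := algebraicClosure k K) (fun a => (h.1 a).2) C hVh hV I0 hI0 hBs
    (small_of hq hBe) hB.algebraicClosure hnc
    (fun f hf => hx.1 _ (Or.inl ⟨f, hf, rfl⟩)) (fun a ha => hx.1 _ (Or.inr ⟨a, ha, rfl⟩)) hx.2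
  refine ⟨h1.1, ?_⟩
  rcases h1.2 with h2 | h2
  · exact Or.inl (online_of (eqs_hom hVh h C) hx.1 hnc h2)
  · exact Or.inr h2

end

end Pool.Agent.Run7.h621.LG
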